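import Pool.Agent.MP_eba2ed_ag.Kos6

/-! Monomial bases modulo an ideal, generic freeness, openness of Koszul exactness. -/

namespace Pool.Agent.MP_eba2ed_ag

open MvPolynomial Module IsLocalRing

abbrev Mono : Type := Fin 4 →₀ ℕ

variable {R : Type} [CommRing R]

/-- The monomials of `B` form a basis of the degree `k` part of `A R ⧸ J`. -/
structure BasisMod (J : Ideal (A R)) (B : Set Mono) (k : ℕ) : Prop where
  deg : ∀ b ∈ B, b.degree = k
  span : ∀ f : A R, f.IsHomogeneous k → ∃ g ∈ restrictSupport R B, f - g ∈ J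
  indep : ∀ g ∈ restrictSupport R B, g ∈ J → g = 0

lemma degree_of_mem {f : A R} {k : ℕ} (hf : f.IsHomogeneous k) {m : Mono} (hm : m ∈ f.support) :
    m.degree = k := by
  by_contra hne
  exact (MvPolynomial.mem_support_iff.1 hm) (hf.coeff_eq_zero hne)

lemma homog_of_restrict {B : Set Mono} {k : ℕ} (h : ∀ b ∈ B, b.degree = k) {g : A R}
    (hg : g ∈ restrictSupport R B) : g.IsHomogeneous k := by
  rw [g.as_sum]
  exact IsHomogeneous.sum _ _ _ fun m hm => isHomogeneous_monomial _ (h m (hg hm))

lemma map_mem_restrict {R' : Type} [CommRing R'] (φ : R →+* R') {B : Set Mono} {g : A R}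
    (hg : g ∈ restrictSupport R B) : MvPolynomial.map φ g ∈ restrictSupport R' B :=
  fun _ hm => hg (support_map_subset φ g hm)

noncomputable def BasisMod.equiv {J : Ideal (A R)} {B : Set Mono} {k : ℕ} (h : BasisMod J B k) :
    restrictSupport R B ≃ₗ[R] Mn J k :=
  LinearEquiv.ofBijective (((Ideal.Quotient.mkₐ R J).toLinearMap ∘ₗ
    (restrictSupport R B).subtype).codRestrict (Mn J k)
      (fun g => mem_Mn.2 ⟨g, homog_of_restrict h.deg g.2, rfl⟩)) (by
    constructor
    · rw [injective_iff_map_eq_zero]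
      intro g hg
      exact Subtype.ext (h.indep g g.2 (Ideal.Quotient.eq_zero_iff_mem.1 (congrArg Subtype.val hg)))
    · rintro ⟨_, f, hf, rfl⟩
      obtain ⟨g, hg, h1⟩ := h.span f hf
      exact ⟨⟨g, hg⟩, Subtype.ext (Ideal.Quotient.eq.2 h1).symm⟩)

lemma BasisMod.proj {J : Ideal (A R)} {B : Set Mono} {k : ℕ} (h : BasisMod J B k) :
    Projective R (Mn J k) := by
  have : Module.Free R (restrictSupport R B) := .of_basis (basisRestrictSupport R B)
  exact .of_equiv h.equiv

lemma BasisMod.hf {K : Type} [Field K] {J : Ideal (A K)} {B : Set Mono} {k : ℕ}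
    (h : BasisMod J B k) : hilbFun J k = Nat.card B := by
  change finrank K (Mn J k) = _
  rw [← h.equiv.finrank_eq, finrank_eq_nat_card_basis (basisRestrictSupport K B)]

lemma BasisMod.congr {J J' : Ideal (A R)} {B : Set Mono} {k : ℕ} (h : BasisMod J B k)
    (e : ∀ f : A R, f.IsHomogeneous k → (f ∈ J ↔ f ∈ J')) : BasisMod J' B k where
  deg := h.deg
  span f hf := by
    obtain ⟨g, hg, h1⟩ := h.span f hf
    exact ⟨g, hg, (e _ (hf.sub (homog_of_restrict h.deg hg))).1 h1⟩
  indep g hg h1 := h.indep g hg ((e _ (homog_of_restrict h.deg hg)).2 h1)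

lemma indep_iff {V : Type} [AddCommGroup V] [Module R V] (L : A R →ₗ[R] V) (B : Set Mono) :
    LinearIndepOn R (fun m => L (monomial m 1)) B ↔
      ∀ g ∈ restrictSupport R B, L g = 0 → g = 0 := by
  have key : ∀ g : A R, Finsupp.linearCombination R (fun m => L (monomial m 1))
      ((basisMonomials (Fin 4) R).repr g) = L g := by
    intro g
    conv_rhs => rw [← (basisMonomials (Fin 4) R).linearCombination_repr g]
    rw [Finsupp.apply_linearCombination]
    rfl
  rw [linearIndepOn_iff]
  constructor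
  · intro h g hg h0
    have := h ((basisMonomials (Fin 4) R).repr g) hg (by rw [key, h0])
    simpa using this
  · intro h l hl h0
    obtain ⟨g, rfl⟩ := (basisMonomials (Fin 4) R).repr.surjective l
    rw [key] at h0
    rw [h g hl h0, map_zero]

lemma exists_basisMod {K : Type} [Field K] (J : Ideal (A K)) (k : ℕ) : ∃ B, BasisMod J B k := by
  let L := (Ideal.Quotient.mkₐ K J).toLinearMap
  obtain ⟨B, hB, -, h1, h2⟩ := exists_linearIndepOn_extension
    (linearIndepOn_empty K (fun m : Mono => L (monomial m 1)))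
    (Set.empty_subset {m : Mono | m.degree = k})
  refine ⟨B, hB, fun f hf => ?_, fun g hg h => (indep_iff L B).1 h2 g hg
    (Ideal.Quotient.eq_zero_iff_mem.2 h)⟩
  have h3 : L f ∈ (restrictSupport K B).map L := by
    rw [restrictSupport_eq_span, Submodule.map_span, ← Set.image_comp, f.as_sum, map_sum]
    refine Submodule.sum_mem _ fun m hm => ?_
    rw [← mul_one (coeff m f), ← smul_eq_mul, ← smul_monomial, map_smul]
    exact Submodule.smul_mem _ _ (h1 ⟨m, degree_of_mem hf hm, rfl⟩)
  obtain ⟨g, hg, h4⟩ := h3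
  exact ⟨g, hg, Ideal.Quotient.eq.1 h4.symm⟩

/-- The linear map with prescribed values on the monomials. -/
noncomputable def rd (r : Mono → A R) : A R →ₗ[R] A R := (basisMonomials (Fin 4) R).constr R r

lemma rd_monomial (r : Mono → A R) (m : Mono) (c : R) : rd r (monomial m c) = C c * r m := by
  rw [← mul_one c, ← smul_eq_mul, ← smul_monomial, map_smul, smul_eq_C_mul, smul_eq_mul, mul_one]
  congr 1
  exact (basisMonomials (Fin 4) R).constr_basis R r m

lemma rd_eq (r : Mono → A R) (f : A R) : rd r f = ∑ m ∈ f.support, C (coeff m f) * r m := by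
  conv_lhs => rw [f.as_sum, map_sum]
  simp only [rd_monomial]

lemma map_rd {R' : Type} [CommRing R'] (φ : R →+* R') (r : Mono → A R) (f : A R) :
    MvPolynomial.map φ (rd r f) =
      rd (fun m => MvPolynomial.map φ (r m)) (MvPolynomial.map φ f) := by
  induction f using MvPolynomial.induction_on' with
  | monomial m c => simp [rd_monomial]
  | add p q hp hq => simp [hp, hq]

lemma rd_mem {r : Mono → A R} {N : Submodule R (A R)} {f : A R} (h : ∀ m ∈ f.support, r m ∈ N) :
    rd r f ∈ N := by
  rw [rd_eq]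
  exact Submodule.sum_mem _ fun m hm => by
    rw [← smul_eq_C_mul]; exact Submodule.smul_mem _ _ (h m hm)

lemma sub_rd_mem {r : Mono → A R} {N : Submodule R (A R)} {f : A R}
    (h : ∀ m ∈ f.support, monomial m 1 - r m ∈ N) : f - rd r f ∈ N := by
  rw [rd_eq]
  conv => enter [2, 1]; rw [f.as_sum]
  rw [← Finset.sum_sub_distrib]
  refine Submodule.sum_mem _ fun m hm => ?_
  have := Submodule.smul_mem _ (coeff m f) (h m hm)
  rwa [smul_sub, smul_monomial, smul_eq_mul, mul_one, smul_eq_C_mul] at this

lemma rd_self {r : Mono → A R} {f : A R} (h : ∀ m ∈ f.support, r m = monomial m 1) :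
    rd r f = f := by
  have : f - rd r f ∈ (⊥ : Submodule R (A R)) := sub_rd_mem fun m hm => by simp [h m hm]
  exact (sub_eq_zero.1 this).symm

lemma BasisMod.map {R' : Type} [CommRing R'] (φ : R →+* R') {J : Ideal (A R)} (hJ : IsHomog J)
    {B : Set Mono} {k : ℕ} (h : BasisMod J B k) : BasisMod (bc φ J) B k := by
  classical
  have h1 : ∀ m : Mono, ∃ g ∈ restrictSupport R B,
      homogeneousComponent k (monomial m 1) - g ∈ J :=
    fun m => h.span _ (homogeneousComponent_isHomogeneous _ _)
  choose r hr h1 using h1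
  have h2 : ∀ m : Mono, m.degree = k → monomial m 1 - r m ∈ J := by
    intro m hm
    have := h1 m
    rwa [homogeneousComponent_eq_self (isHomogeneous_monomial _ hm)] at this
  have h3 : ∀ f : A R, homogeneousComponent k f - rd r f ∈ J := by
    intro f
    induction f using MvPolynomial.induction_on' with
    | monomial m c =>
      have := J.mul_mem_left (C c) (h1 m)
      rwa [mul_sub, ← rd_monomial, ← smul_eq_C_mul, ← map_smul, smul_monomial, smul_eq_mul,
        mul_one] at this
    | add p q hp hq =>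
      have := add_mem hp hq
      rw [map_add, map_add]
      convert this using 1
      ring
  have h4 : ∀ f ∈ J, rd r f = 0 := by
    intro f hf
    refine h.indep _ (rd_mem fun m _ => hr m) ?_
    simpa using sub_mem (hJ f hf k) (h3 f)
  refine ⟨h.deg, fun f hf => ⟨rd (fun m => MvPolynomial.map φ (r m)) f,
    rd_mem fun m _ => map_mem_restrict φ (hr m), ?_⟩, fun g hg hgJ => ?_⟩
  · refine sub_rd_mem (N := (bc φ J).restrictScalars R') fun m hm => ?_
    simpa using Ideal.mem_map_of_mem (MvPolynomial.map φ : A R →+* A R')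
      (h2 m (degree_of_mem hf hm))
  · have h5 : rd (fun m => MvPolynomial.map φ (r m)) g = g := rd_self fun m hm => by
      have hm' : (monomial m (1 : R)) ∈ restrictSupport R B :=
        (monomial_mem_restrictSupport R).2 (Or.inl (hg hm))
      have := h.indep _ (sub_mem hm' (hr m)) (h2 m (h.deg m (hg hm)))
      rw [← sub_eq_zero.1 this]
      simp
    rw [← h5]
    have h6 := mem_span_of_mem_bc φ hgJ
    clear h5 hgJ hg
    induction h6 using Submodule.span_induction with
    | mem x hx =>
      obtain ⟨a, ha, rfl⟩ := hx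
      rw [← map_rd, h4 a ha, map_zero]
    | zero => simp
    | add x y _ _ hx hy => rw [map_add, hx, hy, add_zero]
    | smul c x _ hx => rw [map_smul, hx, smul_zero]

/-- Generic freeness of the graded pieces. -/
theorem generic_free {D : Type} [CommRing D] [IsDomain D] {J : Ideal (A D)} (hJ : IsHomog J) :
    ∃ f : D, f ≠ 0 ∧ ∀ (R' : Type) [CommRing R'] (φ : D →+* R'), IsUnit (φ f) →
      ∀ k, Projective R' (Mn (bc φ J) k) := by
  classical
  let mo : MonomialOrder (Fin 4) := MonomialOrder.lex
  let P : Mono → Prop := fun m => ∃ g ∈ J, g ≠ 0 ∧ mo.degree g = m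
  have hfin : {m | Minimal P m}.Finite :=
    WellQuasiOrderedLE.finite_of_isAntichain (setOfPred_minimal_antichain P)
  have := hfin.fintype
  choose g hgJ hg0 hg using fun m : {m | Minimal P m} => m.2.prop
  let f : D := ∏ m, mo.leadingCoeff (g m)
  have hf : f ≠ 0 := Finset.prod_ne_zero_iff.2 fun m _ => mo.leadingCoeff_ne_zero_iff.2 (hg0 m)
  let D' := Localization.Away f
  let α := algebraMap D D'
  have hα : Function.Injective α := IsLocalization.injective D'
    (powers_le_nonZeroDivisors_of_noZeroDivisors hf)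
  have hsupp : ∀ p : A D, (MvPolynomial.map α p).support = p.support :=
    fun p => support_map_of_injective p hα
  have hdeg : ∀ p : A D, mo.degree (MvPolynomial.map α p) = mo.degree p := fun p => by
    simp only [MonomialOrder.degree, hsupp]
  have key : ∀ k, BasisMod (bc α J) {m | m.degree = k ∧ ∀ m', Minimal P m' → ¬ m' ≤ m} k := by
    intro k
    refine ⟨fun b hb => hb.1, fun p hp => ?_, fun p hp hpJ => ?_⟩
    · obtain ⟨c, r, h1, -, h2⟩ := mo.div (b := fun m => MvPolynomial.map α (g m)) (fun m => by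
        rw [MonomialOrder.leadingCoeff, hdeg, coeff_map]
        exact IsLocalization.Away.isUnit_of_dvd f (Finset.dvd_prod_of_mem _ (Finset.mem_univ m))) p
      refine ⟨homogeneousComponent k r, fun m hm => ⟨degree_of_mem
        (homogeneousComponent_isHomogeneous k r) hm, fun m' hm' => ?_⟩, ?_⟩
      · have h3 : m ∈ r.support := by
          have hm2 : coeff m (homogeneousComponent k r) ≠ 0 := MvPolynomial.mem_support_iff.1 hm
          rw [coeff_homogeneousComponent] at hm2
          exact MvPolynomial.mem_support_iff.2 fun h0 => hm2 (by simp [h0])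
        have := h2 m h3 ⟨m', hm'⟩
        rwa [hdeg, hg] at this
      · have h3 : p - r ∈ bc α J := by
          rw [h1, add_sub_cancel_right, Finsupp.linearCombination_apply]
          exact Ideal.sum_mem _ fun m _ => Ideal.mul_mem_left _ _ (Ideal.mem_map_of_mem _ (hgJ m))
        have := (hJ.map α) _ h3 k
        rwa [map_sub, homogeneousComponent_eq_self hp] at this
    · obtain ⟨u, hu, p0, hp0⟩ := clear_fin (Submonoid.powers f) (fun _ : Unit => p)
      obtain ⟨v, hv, h1⟩ := spread (R' := D') (Submonoid.powers f) (J := J) (f := p0 ()) (by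
        rw [hp0]; exact Ideal.mul_mem_left _ _ hpJ)
      have h2 : MvPolynomial.map α (C v * p0 ()) = (α v * α u) • p := by
        rw [map_mul, hp0, map_C, smul_eq_C_mul, map_mul, mul_assoc]
      have h3 : C v * p0 () = 0 := by
        by_contra h0
        obtain ⟨m', hle, hm'⟩ := exists_minimal_le_of_wellFoundedLT P _ ⟨_, h1, h0, rfl⟩
        have h4 := mo.degree_mem_support h0
        rw [← hsupp, h2] at h4
        exact (hp (support_smul h4)).2 m' hm' hle
      rw [h3, map_zero] at h2
      exact (((IsLocalization.map_units D' ⟨v, hv⟩).mul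
        (IsLocalization.map_units D' ⟨u, hu⟩)).smul_eq_zero).1 h2.symm
  refine ⟨f, hf, fun R' _ φ hφ k => ?_⟩
  have := ((key k).map (IsLocalization.Away.lift f hφ) (hJ.map α)).proj
  rwa [bc_bc, IsLocalization.Away.lift_comp] at this

lemma kos_field_iff {K K' : Type} [Field K] [Field K'] (ψ : R →+* K) (ψ' : R →+* K')
    (e : ∀ a, ψ a = 0 ↔ ψ' a = 0) {J : Ideal (A R)} (hJ : IsHomog J) {n : ℕ}
    (h : Kos (bc ψ J) n) : Kos (bc ψ' J) n := by
  have := RingHom.ker_isPrime ψ
  let q := RingHom.ker ψ
  let ι : q.ResidueField →+* K := Ideal.ResidueField.lift q ψ le_rfl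
    (fun a ha => Ne.isUnit ha)
  let ι' : q.ResidueField →+* K' := Ideal.ResidueField.lift q ψ' (fun a ha => (e a).1 ha)
    (fun a ha => Ne.isUnit fun h0 => ha ((e a).2 h0))
  have h1 : ι.comp (algebraMap R _) = ψ := by ext; simp [ι]
  have h2 : ι'.comp (algebraMap R _) = ψ' := by ext; simp [ι']
  rw [← h1, ← bc_bc] at h
  rw [← h2, ← bc_bc]
  exact (h.descend ι).baseChange ι' (hJ.map _) (fun _ _ => inferInstance)

/-- Openness of the locus where the Koszul complexes of the fibres are exact. -/
theorem kos_open [IsNoetherianRing R] {J : Ideal (A R)} (hJ : IsHomog J) {m : ℕ}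
    (H : ∀ (L : Type) [CommRing L] [IsLocalRing L] (φ : R →+* L),
      (∀ n, m ≤ n → Kos (bc (residue L) (bc φ J)) n) → ∀ k, m ≤ k → Projective L (Mn (bc φ J) k))
    {K : Type} [Field K] (ψ : R →+* K) (hψ : ∀ n, m ≤ n → Kos (bc ψ J) n) :
    ∃ γ : R, ψ γ ≠ 0 ∧ ∀ (K' : Type) [Field K'] (ψ' : R →+* K'), ψ' γ ≠ 0 →
      ∀ n, m ≤ n → Kos (bc ψ' J) n := by
  classical
  let W : Ideal R → Prop := fun q => ∀ (K' : Type) [Field K'] (ψ' : R →+* K'),
    RingHom.ker ψ' = q → ∀ n, m ≤ n → Kos (bc ψ' J) n
  have hgen : ∀ q q' : Ideal R, q.IsPrime → q' ≤ q → W q → W q' := by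
    intro q q' hq hle hW K' _ ψ' hψ' n hn
    let L := Localization.AtPrime q
    have h1 : ∀ n, m ≤ n → Kos (bc (residue L) (bc (algebraMap R L) J)) n := by
      intro n hn
      rw [bc_bc]
      refine hW _ _ ?_ n hn
      ext a
      exact Ideal.algebraMap_residueField_eq_zero
    have h2 := H L (algebraMap R L) h1
    have h3 := kos_of_fibre (hJ.map _) (fun k hk => h2 k (hn.trans hk)) (h1 n hn)
    let χ : L →+* K' := IsLocalization.lift (M := q.primeCompl) (g := ψ')
      (fun s => Ne.isUnit fun h0 => s.2 (hle (hψ' ▸ h0)))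
    have := h3.baseChange χ (hJ.map _) (fun k hk => h2 k (hn.trans hk))
    rwa [bc_bc, IsLocalization.lift_comp] at this
  have hgeneric : ∀ q : Ideal R, q.IsPrime → W q → ∃ f ∉ q, ∀ q', q ≤ q' → f ∉ q' → W q' := by
    intro q hq hW
    let D := R ⧸ q
    let J0 := bc (Ideal.Quotient.mk q) J
    have hJ0 : IsHomog J0 := hJ.map _
    obtain ⟨f1, hf1, h1⟩ := generic_free hJ0
    obtain ⟨f2, hf2, h2⟩ := generic_kos (R' := FractionRing D) (nonZeroDivisors D) (J := J0)
      (m := m) (fun n hn => by
        rw [bc_bc]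
        refine hW _ _ ?_ n hn
        ext a
        simp [RingHom.mem_ker, D, Ideal.Quotient.eq_zero_iff_mem])
    obtain ⟨f, hf⟩ := Ideal.Quotient.mk_surjective (f1 * f2)
    let D' := Localization.Away (f1 * f2)
    refine ⟨f, fun h => ?_, fun q' hle hf' K' _ ψ' hψ' n hn => ?_⟩
    · exact mul_ne_zero hf1 (nonZeroDivisors.ne_zero hf2)
        (hf ▸ Ideal.Quotient.eq_zero_iff_mem.2 h)
    · have h3 : Kos (bc (algebraMap D D') J0) n := loc_up (Submonoid.powers (f1 * f2)) hJ0
        fun z hz hd => ⟨f2, IsLocalization.Away.isUnit_of_dvd (f1 * f2) (dvd_mul_left _ _),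
          h2 n hn z hz hd⟩
      let χ0 : D →+* K' := Ideal.Quotient.lift q ψ' (fun a ha => (hψ' ▸ hle ha : a ∈ RingHom.ker ψ'))
      have h4 : IsUnit (χ0 (f1 * f2)) := by
        rw [← hf]
        exact Ne.isUnit fun h0 => hf' (hψ' ▸ h0)
      have := h3.baseChange (IsLocalization.Away.lift (f1 * f2) h4) (hJ0.map _) (fun k _ =>
        h1 D' _ (IsLocalization.Away.isUnit_of_dvd (f1 * f2) (dvd_mul_right _ _)) k)
      rwa [bc_bc, IsLocalization.Away.lift_comp, bc_bc] at this
  have hx : W (RingHom.ker ψ) := fun K' _ ψ' hψ' n hn =>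
    kos_field_iff ψ ψ' (fun a => by rw [← RingHom.mem_ker, ← hψ', RingHom.mem_ker]) hJ (hψ n hn)
  let b : Ideal R := sInf {q | q.IsPrime ∧ ¬ W q}
  have hb : ¬ b ≤ RingHom.ker ψ := by
    intro hle
    have := RingHom.ker_isPrime ψ
    obtain ⟨q, hq, hq'⟩ := Ideal.exists_minimalPrimes_le hle
    have hqp : q.IsPrime := hq.1.1
    obtain ⟨f, hf, h1⟩ := hgeneric q hqp (hgen _ _ this hq' hx)
    have hfin := Ideal.finite_minimalPrimes_of_isNoetherianRing R b
    have h2 : ∀ p ∈ hfin.toFinset.erase q, ∃ g ∈ p, g ∉ q := by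
      intro p hp
      rw [Finset.mem_erase, Set.Finite.mem_toFinset] at hp
      by_contra h
      push Not at h
      exact hp.1 (le_antisymm h (hq.2 hp.2.1 h))
    choose! g hg1 hg2 using h2
    have h3 : f * ∏ p ∈ hfin.toFinset.erase q, g p ∈ b := by
      refine Submodule.mem_sInf.2 fun z hz => ?_
      have := hz.1
      obtain ⟨p, hp, hpz⟩ := Ideal.exists_minimalPrimes_le (I := b) (J := z) (sInf_le hz)
      by_cases hpq : p = q
      · subst hpq
        refine Ideal.mul_mem_right _ _ ?_
        by_contra h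
        exact hz.2 (h1 z hpz h)
      · have hp' : p ∈ hfin.toFinset.erase q := by simpa [hpq] using hp
        exact Ideal.mul_mem_left _ _ (Ideal.prod_mem _ hp' (hpz (hg1 p hp')))
    rcases hqp.mem_or_mem (hq.1.2 h3) with h | h
    · exact hf h
    · obtain ⟨p, hp, h⟩ := Ideal.IsPrime.prod_mem_iff.1 h
      exact hg2 p hp h
  obtain ⟨γ, h1, h2⟩ := Set.not_subset.1 hb
  refine ⟨γ, h2, fun K' _ ψ' hγ => ?_⟩
  by_contra h
  exact hγ (Submodule.mem_sInf.1 h1 (RingHom.ker ψ') ⟨RingHom.ker_isPrime ψ', fun hW =>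
    h (hW K' ψ' rfl)⟩)

end Pool.Agent.MP_eba2ed_ag
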