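import Pool.Agent.MP_eba2ed_ag.HF

/-! An integral projective curve of degree `δ` has Hilbert function at most `δ n + 1`. -/

namespace Pool.Agent.MP_eba2ed_ag

open MvPolynomial Module

variable {K : Type} [Field K]

/-- evaluation at the points of a finite set -/
noncomputable def evT (T : Finset (Fin 4 → K)) : A K →ₗ[K] (T → K) :=
  LinearMap.pi (fun v => (aeval (v : Fin 4 → K) : A K →ₐ[K] K).toLinearMap)

lemma evT_apply (T : Finset (Fin 4 → K)) (f : A K) (v : T) :
    evT T f v = aeval (v : Fin 4 → K) f := rfl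

lemma evT_surj (T : Finset (Fin 4 → K)) (i : Fin 4) (hT : ∀ v ∈ T, v i = 1) {m : ℕ}
    (hm : T.card ≤ m) : (Hn K m).map (evT T) = ⊤ := by
  classical
  have hsep : ∀ v v' : Fin 4 → K, v ≠ v' → ∃ j, v j ≠ v' j := fun v v' h => Function.ne_iff.1 h
  choose! j hj using hsep
  rw [eq_top_iff, ← (Pi.basisFun K T).span_eq, Submodule.span_le]
  rintro _ ⟨v, rfl⟩
  let g : A K := X i ^ (m - (T.erase v).card) *
    ∏ w ∈ T.erase v, (X (j v w) - C (w (j v w)) * X i)
  have hg : g.IsHomogeneous m := by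
    have h1 : (∏ w ∈ T.erase v, (X (j v w) - C (w (j v w)) * X i : A K)).IsHomogeneous
        (∑ w ∈ T.erase v, 1) :=
      IsHomogeneous.prod _ _ _ (fun w _ => (isHomogeneous_X K _).sub (isHomogeneous_C_mul_X _ _))
    have h2 := (isHomogeneous_X_pow (R := K) i (m - (T.erase v).card)).mul h1
    have h3 : (T.erase v).card ≤ T.card := Finset.card_erase_le
    have h4 : m - (T.erase v).card + ∑ w ∈ T.erase v, 1 = m := by
      simp only [Finset.sum_const, smul_eq_mul, mul_one]
      omega
    rwa [h4] at h2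
  have hval : ∀ u : T, aeval (u : Fin 4 → K) g =
      ∏ w ∈ T.erase v, ((u : Fin 4 → K) (j v w) - w (j v w)) := by
    intro u
    simp [g, hT u u.2]
  have hv : aeval (v : Fin 4 → K) g ≠ 0 := by
    rw [hval, Finset.prod_ne_zero_iff]
    intro w hw
    exact sub_ne_zero.2 (hj v w (Finset.ne_of_mem_erase hw).symm)
  refine ⟨(aeval (v : Fin 4 → K) g)⁻¹ • g, Submodule.smul_mem _ _ hg, ?_⟩
  ext u
  rw [map_smul, Pi.smul_apply, evT_apply, Pi.basisFun_apply]
  by_cases huv : u = v
  · subst huv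
    rw [Pi.single_eq_same, smul_eq_mul, inv_mul_cancel₀ hv]
  · have h0 : ∏ w ∈ T.erase v, ((u : Fin 4 → K) (j v w) - w (j v w)) = 0 :=
      Finset.prod_eq_zero (i := (u : Fin 4 → K))
        (Finset.mem_erase.2 ⟨fun h => huv (Subtype.ext h), u.2⟩) (sub_self _)
    rw [Pi.single_eq_of_ne huv, hval u, h0, smul_zero]

theorem bezout [IsAlgClosed K] {P : Ideal (A K)} (hP : P.IsPrime) (hh : IsHomog P) {δ c N : ℕ}
    (hb : ∀ m, N ≤ m → hilbFun P m ≤ δ * m + c) {n : ℕ} (hn : 1 ≤ n) :
    hilbFun P n ≤ δ * n + 1 := by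
  classical
  by_contra hcon
  have hi : ∃ i, X i ∉ P := by
    by_contra hall
    push Not at hall
    have := hf_eq_zero_of_irr_pow_le (I := P) (M := 1) (by simpa using irr_le_iff.2 hall) hn
    omega
  obtain ⟨i, hi⟩ := hi
  let Z : Set (Fin 4 → K) := zeroLocus K (chart P i)
  have hZ1 : ∀ v ∈ Z, v i = 1 := by
    intro v hv
    have := (mem_zeroLocus_iff.1 hv) (X i - 1)
      (Ideal.mem_sup_right (Ideal.mem_span_singleton_self _))
    simpa [sub_eq_zero] using this
  have hZ2 : ∀ v ∈ Z, ∀ f ∈ P, aeval v f = 0 :=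
    fun v hv f hf => (mem_zeroLocus_iff.1 hv) f (Ideal.mem_sup_left hf)
  have hT : ∃ T : Finset (Fin 4 → K), (T : Set (Fin 4 → K)) ⊆ Z ∧ T.card ≤ δ * n + 1 ∧
      (Z ⊆ T ∨ T.card = δ * n + 1) := by
    by_cases hfin : Z.Finite
    · by_cases hc : hfin.toFinset.card ≤ δ * n + 1
      · exact ⟨hfin.toFinset, by simp, hc, Or.inl (by simp)⟩
      · obtain ⟨T, hT, hc'⟩ := Finset.exists_subset_card_eq (s := hfin.toFinset) (n := δ * n + 1)
          (by omega)
        exact ⟨T, fun v hv => by simpa using hT hv, hc'.le, Or.inr hc'⟩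
    · obtain ⟨T, hT, hc'⟩ := Set.Infinite.exists_subset_card_eq hfin (δ * n + 1)
      exact ⟨T, hT, hc'.le, Or.inr hc'⟩
  obtain ⟨T, hTZ, hTc, hT⟩ := hT
  have hPT : ∀ f ∈ P, evT T f = 0 := by
    intro f hf
    ext v
    exact hZ2 v (hTZ v.2) f hf
  have hf : ∃ f : A K, f.IsHomogeneous n ∧ f ∉ P ∧ evT T f = 0 := by
    by_contra hall
    push Not at hall
    have h1 := hf_eq_of_map (evT T) P n (fun f hf => ⟨hPT f, fun h => by
      by_contra hfP; exact hall f hf hfP h⟩)
    have h2 := Submodule.finrank_le ((Hn K n).map (evT T))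
    simp only [finrank_fintype_fun_eq_card, Fintype.card_coe] at h2
    omega
  obtain ⟨f, hfn, hfP, hfT⟩ := hf
  rcases hT with hT | hT
  · have h1 : f ∈ vanishingIdeal K Z := by
      rw [mem_vanishingIdeal_iff]
      intro v hv
      exact congrFun hfT ⟨v, hT hv⟩
    rw [vanishingIdeal_zeroLocus_eq_radical] at h1
    obtain ⟨r, hr⟩ := h1
    obtain ⟨M, hM⟩ := exists_X_pow_mul_mem hh (hfn.pow r) hr
    rcases hP.mem_or_mem hM with h | h
    · exact hi (hP.mem_of_pow_mem _ h)
    · exact hfP (hP.mem_of_pow_mem _ h)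
  · have hstep : ∀ m, T.card ≤ m → hilbFun P m + (δ * n + 1) ≤ hilbFun P (m + n) := by
      intro m hm
      have h1 := hf_nzd hh hfn (fun u hu => (hP.mem_or_mem hu).resolve_right hfP) m
      have h2 := hf_ge_of_map (evT T) (P ⊔ Ideal.span {f}) (m + n) (by
        intro g hg _
        obtain ⟨a, ha, b, hb, rfl⟩ := Submodule.mem_sup.1 hg
        obtain ⟨c, rfl⟩ := Ideal.mem_span_singleton'.1 hb
        rw [map_add, hPT a ha, zero_add]
        ext v
        have := congrFun hfT v
        rw [evT_apply] at this ⊢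
        rw [map_mul, this]
        simp)
      rw [evT_surj T i (fun v hv => hZ1 v (hTZ hv)) (by omega)] at h2
      simp only [finrank_top, finrank_fintype_fun_eq_card, Fintype.card_coe] at h2
      omega
    have hind : ∀ r, r * (δ * n + 1) ≤ hilbFun P (N + T.card + r * n) := by
      intro r
      induction r with
      | zero => simp
      | succ r ih =>
        have := hstep (N + T.card + r * n) (by omega)
        have e : N + T.card + (r + 1) * n = N + T.card + r * n + n := by ring
        rw [e]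
        nlinarith
    have h1 := hind (δ * (N + T.card) + c + 1)
    have h2 := hb (N + T.card + (δ * (N + T.card) + c + 1) * n) (by omega)
    nlinarith

end Pool.Agent.MP_eba2ed_ag
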