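import Pool.Agent.MP_eba2ed_ag.Fam

/-! Ideals given by monomial bases in four consecutive degrees. -/

namespace Pool.Agent.MP_eba2ed_ag

open MvPolynomial Module IsLocalRing

/-- Monomials of degree between `m` and `m + 3`. -/
abbrev Mons (m : ℕ) : Type := {μ : Mono // m ≤ μ.degree ∧ μ.degree ≤ m + 3}

instance (m : ℕ) : Finite (Mons m) :=
  ((Finsupp.finite_of_degree_le (σ := Fin 4) (m + 3)).subset (fun _ h => h.2)).to_subtype

noncomputable instance (m : ℕ) : Fintype (Mons m) := Fintype.ofFinite _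

def Bk (B : Set Mono) (k : ℕ) : Set Mono := {b | b ∈ B ∧ b.degree = k}

variable {R : Type} [CommRing R] {m : ℕ}

open Classical in
/-- The normal forms of the monomials. -/
noncomputable def rr (t : Mons m × Mons m → R) (μ : Mono) : A R :=
  if h : m ≤ μ.degree ∧ μ.degree ≤ m + 3 then ∑ b : Mons m, monomial b.1 (t (⟨μ, h⟩, b)) else 0

lemma rr_mons (t : Mons m × Mons m → R) (μ : Mons m) :
    rr t μ.1 = ∑ b : Mons m, monomial b.1 (t (μ, b)) := dif_pos μ.2

lemma coeff_rr (t : Mons m × Mons m → R) (μ b : Mons m) : coeff b.1 (rr t μ.1) = t (μ, b) := by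
  classical
  rw [rr_mons, coeff_sum, Finset.sum_eq_single b]
  · simp
  · intro c _ hc
    rw [coeff_monomial, if_neg (fun h => hc (Subtype.ext h))]
  · simp

lemma map_rr {R' : Type} [CommRing R'] (φ : R →+* R') (t : Mons m × Mons m → R) (μ : Mono) :
    MvPolynomial.map φ (rr t μ) = rr (φ ∘ t) μ := by
  unfold rr
  split_ifs <;> simp

/-- The ideal generated by the relations. -/
noncomputable def Jt (t : Mons m × Mons m → R) : Ideal (A R) :=
  Ideal.span (Set.range fun μ : Mons m => monomial μ.1 1 - rr t μ.1)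

lemma bc_Jt {R' : Type} [CommRing R'] (φ : R →+* R') (t : Mons m × Mons m → R) :
    bc φ (Jt t) = Jt (φ ∘ t) := by
  rw [Jt, Jt, bc, Ideal.map_span, ← Set.range_comp]
  congr 2
  funext μ
  simp [map_rr]

lemma Jt_fg (t : Mons m × Mons m → R) : (Jt t).FG := Submodule.fg_span (Set.finite_range _)

lemma rel_mem (t : Mons m × Mons m → R) {μ : Mono} (h1 : m ≤ μ.degree) (h2 : μ.degree ≤ m + 3) :
    monomial μ 1 - rr t μ ∈ Jt t := Ideal.subset_span ⟨⟨μ, h1, h2⟩, rfl⟩

open Classical in
/-- The equations of the chart. -/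
noncomputable def eqn (B : Set Mono) (t : Mons m × Mons m → R) :
    (Mons m × Mons m) ⊕ Mons m ⊕ (Mons m × Fin 4) → A R
  | .inl p => if p.2.1 ∈ Bk B p.1.1.degree then 0 else C (t p)
  | .inr (.inl μ) => if μ.1 ∈ B then rr t μ.1 - monomial μ.1 1 else 0
  | .inr (.inr p) => if p.1.1.degree < m + 3 then
      rd (rr t) (X p.2 * (monomial p.1.1 1 - rr t p.1.1)) else 0

lemma map_eqn {R' : Type} [CommRing R'] (φ : R →+* R') (B : Set Mono) (t : Mons m × Mons m → R)
    (e : (Mons m × Mons m) ⊕ Mons m ⊕ (Mons m × Fin 4)) :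
    MvPolynomial.map φ (eqn B t e) = eqn B (φ ∘ t) e := by
  rcases e with p | μ | p <;> simp only [eqn] <;> split_ifs <;> simp [map_rr, map_rd]

def Good (B : Set Mono) (t : Mons m × Mons m → R) : Prop := ∀ e, eqn B t e = 0

lemma Good.map {B : Set Mono} {t : Mons m × Mons m → R} (h : Good B t) {R' : Type} [CommRing R']
    (φ : R →+* R') : Good B (φ ∘ t) := fun e => by rw [← map_eqn, h e, map_zero]

lemma good_iff {B : Set Mono} {t : Mons m × Mons m → R} : Good B t ↔
    (∀ μ : Mons m, rr t μ.1 ∈ restrictSupport R (Bk B μ.1.degree)) ∧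
    (∀ μ : Mons m, μ.1 ∈ B → rr t μ.1 = monomial μ.1 1) ∧
    ∀ μ : Mons m, μ.1.degree < m + 3 → ∀ i, rd (rr t) (X i * (monomial μ.1 1 - rr t μ.1)) = 0 := by
  constructor
  · intro h
    refine ⟨fun μ => ?_, fun μ hμ => ?_, fun μ hμ i => ?_⟩
    · rw [rr_mons]
      refine Submodule.sum_mem _ fun b _ => (monomial_mem_restrictSupport R).2 ?_
      by_cases hb : b.1 ∈ Bk B μ.1.degree
      · exact Or.inl hb
      · have := h (.inl (μ, b))
        simp only [eqn, hb, if_false] at this
        exact Or.inr (by simpa using this)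
    · have := h (.inr (.inl μ))
      simp only [eqn, hμ, if_true] at this
      exact sub_eq_zero.1 this
    · have := h (.inr (.inr (μ, i)))
      simpa only [eqn, hμ, if_true] using this
  · rintro ⟨h1, h2, h3⟩ e
    rcases e with ⟨μ, b⟩ | μ | ⟨μ, i⟩ <;> simp only [eqn] <;> split_ifs with h
    · rfl
    · rw [← coeff_rr t, (MvPolynomial.notMem_support_iff (p := rr t μ.1)).1
        (fun hb => h (h1 μ hb)), map_zero]
    · rw [h2 μ h, sub_self]
    · rfl
    · exact h3 μ h i
    · rfl

lemma Good.rel_homog {B : Set Mono} {t : Mons m × Mons m → R} (h : Good B t) (μ : Mons m) :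
    (monomial μ.1 1 - rr t μ.1 : A R).IsHomogeneous μ.1.degree :=
  (isHomogeneous_monomial _ rfl).sub (homog_of_restrict (fun _ hb => hb.2) ((good_iff.1 h).1 μ))

lemma Good.homog {B : Set Mono} {t : Mons m × Mons m → R} (h : Good B t) : IsHomog (Jt t) :=
  isHomog_span (by rintro _ ⟨μ, rfl⟩; exact ⟨_, h.rel_homog μ⟩)

lemma Good.kill {B : Set Mono} {t : Mons m × Mons m → R} (h : Good B t) {f : A R} (hf : f ∈ Jt t) :
    ∀ k, k ≤ m + 3 → rd (rr t) (homogeneousComponent k f) = 0 ∧
      (k < m → homogeneousComponent k f = 0) := by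
  obtain ⟨h1, h2, h3⟩ := good_iff.1 h
  let Q : A R → Prop := fun f => ∀ k, k ≤ m + 3 → rd (rr t) (homogeneousComponent k f) = 0 ∧
      (k < m → homogeneousComponent k f = 0)
  have hadd : ∀ f g, Q f → Q g → Q (f + g) := fun f g hf hg k hk =>
    ⟨by rw [map_add, map_add, (hf k hk).1, (hg k hk).1, add_zero],
      fun hm => by rw [map_add, (hf k hk).2 hm, (hg k hk).2 hm, add_zero]⟩
  have hX : ∀ i f, Q f → Q (X i * f) := by
    intro i f hf k hk
    cases k with
    | zero =>
      have : homogeneousComponent 0 (X i * f) = 0 := comp_eq_zero_of_mem_irr_pow (M := 1)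
        (by rw [pow_one]; exact Ideal.mul_mem_right _ _ (X_mem_irr i)) (by omega)
      simp [this]
    | succ k =>
      rw [mul_comm, comp_mul_homog (isHomogeneous_X R i), mul_comm]
      by_cases hm : k < m
      · simp [(hf k (by omega)).2 hm]
      · refine ⟨?_, fun h => by omega⟩
        have := sub_rd_mem (r := rr t) (f := homogeneousComponent k f)
          (N := LinearMap.ker (rd (rr t) ∘ₗ LinearMap.mulLeft R (X i))) (fun μ hμ => by
            have hd := degree_of_mem (homogeneousComponent_isHomogeneous k f) hμ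
            exact h3 ⟨μ, by omega, by omega⟩ (by simp only; omega) i)
        rw [(hf k (by omega)).1, sub_zero] at this
        exact this
  have hmul : ∀ c f, Q f → Q (c * f) := by
    intro c
    induction c using MvPolynomial.induction_on with
    | C a =>
      intro f hf k hk
      rw [← smul_eq_C_mul, map_smul, map_smul]
      exact ⟨by rw [(hf k hk).1, smul_zero], fun hm => by rw [(hf k hk).2 hm, smul_zero]⟩
    | add p q hp hq => intro f hf; rw [add_mul]; exact hadd _ _ (hp f hf) (hq f hf)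
    | mul_X p i hp => intro f hf; rw [mul_assoc]; exact hp _ (hX i f hf)
  change Q f
  induction hf using Submodule.span_induction with
  | mem x hx =>
    obtain ⟨μ, rfl⟩ := hx
    intro k hk
    rw [homogeneousComponent_of_mem (h.rel_homog μ)]
    split_ifs with hkμ
    · refine ⟨?_, fun hm => by have := μ.2.1; omega⟩
      rw [map_sub, rd_monomial, map_one, one_mul, rd_self, sub_self]
      intro b hb
      have hb' := h1 μ hb
      have := μ.2
      exact h2 ⟨b, by rw [hb'.2]; exact this⟩ hb'.1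
    · simp
  | zero => intro k _; simp
  | add x y _ _ hx hy => exact hadd _ _ hx hy
  | smul c x _ hx => exact hmul c x hx

lemma Good.basis {B : Set Mono} {t : Mons m × Mons m → R} (h : Good B t) {k : ℕ} (h1 : m ≤ k)
    (h2 : k ≤ m + 3) : BasisMod (Jt t) (Bk B k) k := by
  obtain ⟨h3, h4, -⟩ := good_iff.1 h
  refine ⟨fun b hb => hb.2, fun f hf => ⟨rd (rr t) f, rd_mem fun μ hμ => ?_,
    sub_rd_mem (N := (Jt t).restrictScalars R) fun μ hμ => ?_⟩, fun g hg hgJ => ?_⟩
  · have hd := degree_of_mem hf hμ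
    rw [← hd]
    exact h3 ⟨μ, by omega, by omega⟩
  · have hd := degree_of_mem hf hμ
    exact rel_mem t (by omega) (by omega)
  · have := (h.kill hgJ k h2).1
    rwa [homogeneousComponent_eq_self (homog_of_restrict (fun _ hb => hb.2) hg), rd_self] at this
    intro b hb
    have hb' := hg hb
    exact h4 ⟨b, by rw [hb'.2]; omega⟩ hb'.1

lemma Good.gen {B : Set Mono} {t : Mons m × Mons m → R} (h : Good B t) {f : A R} (hf : f ∈ Jt t)
    {k : ℕ} (hk : m + 3 < k) (hfk : f.IsHomogeneous k) : f ∈ irr R * Jt t := by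
  obtain ⟨c, hc⟩ := Ideal.mem_span_range_iff_exists_fun.1 hf
  rw [← homogeneousComponent_eq_self hfk, ← hc, map_sum]
  refine Ideal.sum_mem _ fun μ _ => ?_
  have := μ.2.2
  rw [show k = (k - μ.1.degree) + μ.1.degree by omega, comp_mul_homog (h.rel_homog μ)]
  refine Ideal.mul_mem_mul ?_ (rel_mem t μ.2.1 μ.2.2)
  simpa using mem_irr_pow (M := 1) (homogeneousComponent_isHomogeneous (k - μ.1.degree) (c μ))
    (by omega)

lemma exists_good {J : Ideal (A R)} {B : Set Mono}
    (h : ∀ k, m ≤ k → k ≤ m + 3 → BasisMod J (Bk B k) k) :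
    ∃ t : Mons m × Mons m → R, Good B t ∧ Jt t ≤ J := by
  choose r hr h1 using fun μ : Mons m =>
    (h _ μ.2.1 μ.2.2).span (monomial μ.1 1) (isHomogeneous_monomial _ rfl)
  let t : Mons m × Mons m → R := fun p => coeff p.2.1 (r p.1)
  have h2 : ∀ μ : Mons m, rr t μ.1 = r μ := by
    intro μ
    ext b
    by_cases hb : m ≤ b.degree ∧ b.degree ≤ m + 3
    · exact coeff_rr t μ ⟨b, hb⟩
    · rw [(MvPolynomial.notMem_support_iff (p := r μ)).1
        (fun hb' => hb (by rw [(hr μ hb').2]; exact μ.2)),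
        rr_mons, coeff_sum]
      classical
      refine Finset.sum_eq_zero fun c _ => ?_
      rw [coeff_monomial, if_neg (fun h : c.1 = b => hb (h ▸ c.2))]
  have h3 : Jt t ≤ J := Ideal.span_le.2 (by rintro _ ⟨μ, rfl⟩; simp only [h2]; exact h1 μ)
  refine ⟨t, good_iff.2 ⟨fun μ => h2 μ ▸ hr μ, fun μ hμ => ?_, fun μ hμ i => ?_⟩, h3⟩
  · rw [h2]
    exact (sub_eq_zero.1 ((h _ μ.2.1 μ.2.2).indep _
      (sub_mem ((monomial_mem_restrictSupport R).2 (Or.inl ⟨hμ, rfl⟩)) (hr μ)) (h1 μ))).symm
  · have hm := μ.2.1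
    have h4 : (X i * (monomial μ.1 1 - rr t μ.1) : A R).IsHomogeneous (1 + μ.1.degree) :=
      (isHomogeneous_X R i).mul ((isHomogeneous_monomial _ rfl).sub
        (homog_of_restrict (fun _ hb => hb.2) (h2 μ ▸ hr μ)))
    refine (h (1 + μ.1.degree) (by omega) (by omega)).indep _ (rd_mem fun ν hν => ?_) ?_
    · have hd := degree_of_mem h4 hν
      have := hr ⟨ν, by omega, by omega⟩
      rw [← h2] at this
      rw [← hd]
      exact this
    · have h5 := sub_rd_mem (r := rr t) (N := J.restrictScalars R)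
        (f := X i * (monomial μ.1 1 - rr t μ.1)) (fun ν hν => by
          have hd := degree_of_mem h4 hν
          exact h3 (rel_mem t (by omega) (by omega)))
      have h6 := sub_mem (J.mul_mem_left (X i) (h3 (rel_mem t μ.2.1 μ.2.2))) h5
      simpa using h6

lemma good_unique {J : Ideal (A R)} {B : Set Mono} {t t' : Mons m × Mons m → R}
    (h : ∀ k, m ≤ k → k ≤ m + 3 → BasisMod J (Bk B k) k) (h1 : Good B t) (h2 : Good B t')
    (h3 : Jt t ≤ J) (h4 : Jt t' ≤ J) : t = t' := by
  funext ⟨μ, b⟩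
  have h5 := sub_mem (h4 (rel_mem t' μ.2.1 μ.2.2)) (h3 (rel_mem t μ.2.1 μ.2.2))
  have h6 := (h _ μ.2.1 μ.2.2).indep _ (sub_mem ((good_iff.1 h1).1 μ) ((good_iff.1 h2).1 μ))
    (by simpa using h5)
  rw [← coeff_rr t, ← coeff_rr t', sub_eq_zero.1 h6]

/-- The ideal of equations in the universal coefficient ring. -/
noncomputable def relI (m : ℕ) (B : Set Mono) : Ideal (MvPolynomial (Mons m × Mons m) ℤ) :=
  Ideal.span {a | ∃ e μ, a = coeff μ (eqn B X e)}

/-- The universal ring of the chart. -/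
abbrev UR (m : ℕ) (B : Set Mono) : Type := MvPolynomial (Mons m × Mons m) ℤ ⧸ relI m B

noncomputable def tU (m : ℕ) (B : Set Mono) : Mons m × Mons m → UR m B :=
  Ideal.Quotient.mk (relI m B) ∘ X

lemma good_tU (m : ℕ) (B : Set Mono) : Good B (tU m B) := by
  intro e
  rw [tU, ← map_eqn]
  ext μ
  rw [coeff_map, coeff_zero, Ideal.Quotient.eq_zero_iff_mem]
  exact Ideal.subset_span ⟨e, μ, rfl⟩

noncomputable def Good.lift {B : Set Mono} {t : Mons m × Mons m → R} (h : Good B t) :
    UR m B →+* R :=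
  Ideal.Quotient.lift _ (eval₂Hom (Int.castRingHom R) t) (fun a ha => by
    refine (Ideal.span_le (I := RingHom.ker (eval₂Hom (Int.castRingHom R) t))).2 ?_ ha
    rintro _ ⟨e, μ, rfl⟩
    have e1 : (eval₂Hom (Int.castRingHom R) t) ∘ X = t := by funext p; simp
    rw [SetLike.mem_coe, RingHom.mem_ker, ← coeff_map, map_eqn, e1, h e, coeff_zero])

lemma Good.lift_tU {B : Set Mono} {t : Mons m × Mons m → R} (h : Good B t) :
    h.lift ∘ tU m B = t := by
  funext p
  simp [Good.lift, tU]

lemma UR_ext {B : Set Mono} {φ ψ : UR m B →+* R} (h : φ ∘ tU m B = ψ ∘ tU m B) : φ = ψ := by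
  refine Ideal.Quotient.ringHom_ext (MvPolynomial.ringHom_ext (fun r => by simp) fun p => ?_)
  exact congrFun h p

end Pool.Agent.MP_eba2ed_ag
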