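import Pool.Agent.MP_eba2ed_ag.Chart1

/-! The families given by the charts, and the local structure of a family. -/

namespace Pool.Agent.MP_eba2ed_ag

open MvPolynomial Module IsLocalRing

variable {R : Type} [CommRing R] {m : ℕ}

lemma isHomog_bot : IsHomog (⊥ : Ideal (A R)) := fun f hf n => by
  rw [Ideal.mem_bot] at hf ⊢
  rw [hf, map_zero]

lemma basisMod_bot (k : ℕ) : BasisMod (⊥ : Ideal (A R)) {b | b.degree = k} k where
  deg _ h := h
  span f hf := ⟨f, fun _ hb => degree_of_mem hf hb, by simp⟩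
  indep _ _ h := h

/-- The Koszul complex of the polynomial ring is exact from degree `m` on. -/
def KB (m : ℕ) : Prop :=
  1 ≤ m ∧ ∀ (R : Type) [CommRing R] (n : ℕ), m ≤ n → Kos (⊥ : Ideal (A R)) n

lemma exists_KB : ∃ N, ∀ m, N ≤ m → KB m := by
  obtain ⟨N, hN⟩ := kos_large (R := ℤ) (J := ⊥) isHomog_bot
  refine ⟨N + 1, fun m hm => ⟨by omega, fun R _ n hn => ?_⟩⟩
  have := (hN n (by omega)).baseChange (Int.castRingHom R) isHomog_bot
    (fun k _ => (basisMod_bot k).proj)
  rwa [bc, Ideal.map_bot] at this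

theorem Good.proj [IsLocalRing R] (hm : KB m) {B : Set Mono} {t : Mons m × Mons m → R}
    (h : Good B t) (hK : ∀ n, m ≤ n → Kos (bc (residue R) (Jt t)) n) :
    ∀ k, m ≤ k → Projective R (Mn (Jt t) k) := by
  intro k
  induction k using Nat.strong_induction_on with
  | _ k ih =>
    intro hk
    by_cases h1 : k ≤ m + 3
    · exact (h.basis hk h1).proj
    · have := hm.1
      obtain ⟨n, rfl⟩ : ∃ n, k = n + 5 := ⟨k - 5, by omega⟩
      exact proj_up h.homog (hm.2 R _ (by omega)) (hK _ (by omega))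
        (ih _ (by omega) (by omega)) (fun f hf hfk => h.gen hf (by omega) hfk)

/-- Good coefficients all of whose fibres have exact Koszul complexes. -/
def Nice (B : Set Mono) (t : Mons m × Mons m → R) : Prop :=
  Good B t ∧ ∀ (K : Type) [Field K] (ψ : R →+* K) (n : ℕ), m ≤ n → Kos (Jt (ψ ∘ t)) n

lemma Nice.map {B : Set Mono} {t : Mons m × Mons m → R} (h : Nice B t) {R' : Type} [CommRing R']
    (φ : R →+* R') : Nice B (φ ∘ t) :=
  ⟨h.1.map φ, fun K _ ψ n hn => h.2 K (ψ.comp φ) n hn⟩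

lemma Nice.proj [IsLocalRing R] (hm : KB m) {B : Set Mono} {t : Mons m × Mons m → R}
    (h : Nice B t) : ∀ k, m ≤ k → Projective R (Mn (Jt t) k) :=
  h.1.proj hm fun n hn => by rw [bc_Jt]; exact h.2 _ _ n hn

lemma Nice.kos [IsLocalRing R] (hm : KB m) {B : Set Mono} {t : Mons m × Mons m → R}
    (h : Nice B t) : ∀ n, m ≤ n → Kos (Jt t) n := fun n hn =>
  kos_of_fibre h.1.homog (fun k hk => h.proj hm k (by omega))
    (by rw [bc_Jt]; exact h.2 _ _ n hn)

lemma nice_of_local [IsLocalRing R] (hm : KB m) {B : Set Mono} {t : Mons m × Mons m → R}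
    (h : Good B t) (hK : ∀ n, m ≤ n → Kos (Jt (residue R ∘ t)) n) : Nice B t := by
  have h1 := h.proj hm fun n hn => by rw [bc_Jt]; exact hK n hn
  refine ⟨h, fun K _ ψ n hn => ?_⟩
  rw [← bc_Jt]
  exact (kos_of_fibre h.homog (fun k hk => h1 k (by omega))
    (by rw [bc_Jt]; exact hK n hn)).baseChange ψ h.homog fun k hk => h1 k (by omega)

/-- The numerical condition on the set of monomials. -/
def Num (d : ℕ) (g : ℤ) (m : ℕ) (B : Set Mono) : Prop :=
  ∀ k, m ≤ k → k ≤ m + 3 → (Nat.card (Bk B k) : ℤ) = d * k + 1 - g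

lemma Nice.hp {K : Type} [Field K] {d : ℕ} {g : ℤ} {B : Set Mono} {t : Mons m × Mons m → K}
    (hB : Num d g m B) (h : Nice B t) : HP d g (Jt t) := by
  refine ⟨m, fun k => ?_⟩
  induction k using Nat.strong_induction_on with
  | _ k ih =>
    intro hk
    by_cases h1 : k ≤ m + 3
    · rw [(h.1.basis hk h1).hf, hB k hk h1]
    · obtain ⟨n, rfl⟩ : ∃ n, k = n + 4 := ⟨k - 4, by omega⟩
      have h2 := congrArg (Nat.cast : ℕ → ℤ) (euler (h.2 K (RingHom.id K) n (by omega)))
      have e : (RingHom.id K) ∘ t = t := rfl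
      rw [e] at h2
      have h3 := ih n (by omega) (by omega)
      have h4 := ih (n + 1) (by omega) (by omega)
      have h5 := ih (n + 2) (by omega) (by omega)
      have h6 := ih (n + 3) (by omega) (by omega)
      push_cast at h2 h3 h4 h5 h6 ⊢
      linarith

theorem Nice.family {d : ℕ} {g : ℤ} (hm : KB m) {B : Set Mono} {t : Mons m × Mons m → R}
    (hB : Num d g m B) (h : Nice B t) : IsFamily d g (Jt t) := by
  refine ⟨h.1.homog, Jt_fg t, fun i => flat_of_local fun P _ => ?_, fun q => ?_⟩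
  · have h1 := h.map (algebraMap R (Localization.AtPrime P))
    rw [bc, chart_map, ← bc, bc_Jt]
    exact flat_chart h1.1.homog (h1.proj hm) i
  · have := (h.map (algebraMap R q.asIdeal.ResidueField)).hp hB
    rwa [← bc_Jt] at this

lemma Nice.basis_sat [IsLocalRing R] (hm : KB m) {B : Set Mono} {t : Mons m × Mons m → R}
    (h : Nice B t) (k : ℕ) (h1 : m ≤ k) (h2 : k ≤ m + 3) :
    BasisMod (sat (chart (Jt t))) (Bk B k) k :=
  (h.1.basis h1 h2).congr fun _ hf => sat_iff_of_kos h.1.homog (h.kos hm) h1 hf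

theorem nice_unique (hm : KB m) {B : Set Mono} {t t' : Mons m × Mons m → R} (h : Nice B t)
    (h' : Nice B t') (e : SameSub (Jt t) (Jt t')) : t = t' := by
  funext p
  refine sub_eq_zero.1 (eq_zero_of_localization _ fun P _ => ?_)
  let α := algebraMap R (Localization.AtPrime P)
  have e1 : SameSub (Jt (α ∘ t)) (Jt (α ∘ t')) := by
    rw [← bc_Jt, ← bc_Jt]; exact e.map α
  have h1 := h.map α
  have h2 := h'.map α
  have := good_unique (h1.basis_sat hm) h1.1 h2.1 (le_sat h1.1.homog (le_chart _))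
    (by rw [e1.sat_eq]; exact le_sat h2.1.homog (le_chart _))
  rw [map_sub, sub_eq_zero]
  exact congrFun this p

lemma span_of_lifts [IsLocalRing R] {J : Ideal (A R)} {Jb : Ideal (A (ResidueField R))}
    {B : Set Mono} {k : ℕ} (hB : BasisMod Jb B k) (hL : Lifts J Jb k) (f : A R)
    (hf : f.IsHomogeneous k) : ∃ g ∈ restrictSupport R B, f - g ∈ J := by
  have h1 : Mn J k ≤ (restrictSupport R B).map (Ideal.Quotient.mkₐ R J).toLinearMap := by
    refine Submodule.le_of_le_smul_of_le_jacobson_bot (I := maximalIdeal R)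
      (Module.Finite.iff_fg.1 inferInstance) (maximalIdeal_le_jacobson _) ?_
    rintro _ ⟨p, hp, rfl⟩
    obtain ⟨gb, hgb, h2⟩ := hB.span _ (IsHomogeneous.map hp (residue R))
    obtain ⟨g, hg, h3⟩ : ∃ g ∈ restrictSupport R B, MvPolynomial.map (residue R) g = gb := by
      choose s hs using residue_surjective (R := R)
      refine ⟨∑ m ∈ gb.support, monomial m (s (coeff m gb)), Submodule.sum_mem _ fun m hm =>
        (monomial_mem_restrictSupport R).2 (Or.inl (hgb hm)), ?_⟩
      rw [map_sum]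
      conv_rhs => rw [gb.as_sum]
      simp [hs]
    refine Submodule.mem_sup.2 ⟨_, ⟨g, hg, rfl⟩, _, hL (p - g)
      (IsHomogeneous.sub hp (homog_of_restrict hB.deg hg)) (by rwa [map_sub, h3]), by simp⟩
  obtain ⟨g, hg, h2⟩ := h1 ⟨f, hf, rfl⟩
  exact ⟨g, hg, Ideal.Quotient.eq.1 h2.symm⟩

/-- A family over a local ring whose closed fibre lies in a chart lies in the chart. -/
theorem loc_local [IsLocalRing R] (hm : KB m) {B : Set Mono} {I : Ideal (A R)} (hI : IsHomog I)
    (hflat : ∀ i, Flat R (A R ⧸ chart I i)) {t0 : Mons m × Mons m → ResidueField R}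
    (h0 : Nice B t0) (e : SameSub (bc (residue R) I) (Jt t0)) :
    ∃ t : Mons m × Mons m → R, Good B t ∧ SameSub I (Jt t) ∧ residue R ∘ t = t0 := by
  have hiff : ∀ k, m ≤ k → ∀ f : A (ResidueField R), f.IsHomogeneous k →
      (f ∈ Jt t0 ↔ f ∈ sat (chart (bc (residue R) I))) := fun k hk f hf => by
    rw [e.sat_eq]; exact sat_iff_of_kos h0.1.homog (h0.kos hm) hk hf
  have hL := lifts_of_kos hI hflat (m := m) fun n hn =>
    (h0.kos hm n hn).congr fun k hk => hiff k (by omega)
  obtain ⟨t, ht, hle⟩ := exists_good (J := sat (chart I)) (B := B) fun k h1 h2 =>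
    basis_of_lifts hflat (by rw [e.sat_eq]; exact h0.basis_sat hm k h1 h2) (hL k h1)
  have e1 : residue R ∘ t = t0 := by
    refine good_unique (h0.basis_sat hm) (ht.map _) h0.1 ?_ (le_sat h0.1.homog (le_chart _))
    rw [← bc_Jt, ← e.sat_eq]
    exact (Ideal.map_mono hle).trans (bc_sat_le _ I)
  refine ⟨t, ht, fun i => le_antisymm (chart_le_of hI (m := m) (fun k hk f hf hfk => ?_) i)
    (chart_le_of_le_sat hle i), e1⟩
  obtain ⟨B', hB'⟩ := exists_basisMod (Jt t0) k
  have h1 := basis_of_lifts hflat (hB'.congr (hiff k hk)) (hL k hk)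
  obtain ⟨g, hg, h2⟩ := span_of_lifts (J := Jt t) hB'
    (by rw [← e1, ← bc_Jt]; exact lifts_bc ht.homog k) f hfk
  have h3 : g = 0 := h1.indep g hg (by
    simpa using sub_mem (le_sat hI (le_chart I) hf) (hle h2))
  simpa [h3] using h2

/-- Descent along a field extension. -/
theorem desc_field {k K : Type} [Field k] [Field K] (ι : k →+* K) (hm : KB m) {B : Set Mono}
    {I : Ideal (A k)} {t' : Mons m × Mons m → K} (h' : Nice B t') (e : SameSub (bc ι I) (Jt t')) :
    ∃ t : Mons m × Mons m → k, Nice B t ∧ SameSub I (Jt t) ∧ ι ∘ t = t' := by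
  obtain ⟨L, h1, -, h3, h4⟩ := exists_retraction ι
  obtain ⟨t, ht, hle⟩ := exists_good (J := sat (chart I)) (B := B) (m := m) fun n hn1 hn2 => by
    have hb := h'.basis_sat hm n hn1 hn2
    rw [← e.sat_eq] at hb
    refine ⟨hb.deg, fun f hf => ?_, fun g hg hgJ => ?_⟩
    · obtain ⟨g, hg, h5⟩ := hb.span _ (hf.map ι)
      have hg' : L g ∈ restrictSupport k (Bk B n) := fun b hb => hg (h3 g hb)
      refine ⟨L g, hg', (mem_sat (hf.sub (homog_of_restrict hb.deg hg'))).2 fun i => ?_⟩
      have h6 := sat_le _ i h5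
      rw [← chart_map] at h6
      have := h4 _ _ h6
      rwa [map_sub, h1] at this
    · apply map_injective ι ι.injective
      rw [map_zero]
      exact hb.indep _ (map_mem_restrict ι hg) (bc_sat_le ι I (Ideal.mem_map_of_mem _ hgJ))
  have e1 : ι ∘ t = t' := by
    refine good_unique (h'.basis_sat hm) (ht.map _) h'.1 ?_ (le_sat h'.1.homog (le_chart _))
    rw [← bc_Jt, ← e.sat_eq]
    exact (Ideal.map_mono hle).trans (bc_sat_le _ I)
  refine ⟨t, ⟨ht, fun K' _ ψ n hn => ?_⟩, fun i => ?_, e1⟩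
  · rw [← bc_Jt]
    refine (Kos.descend ι ?_).baseChange ψ ht.homog fun _ _ => inferInstance
    rw [bc_Jt, e1]
    exact h'.kos hm n hn
  · have h5 := e i
    rw [← e1, ← bc_Jt, ← chart_map, ← chart_map] at h5
    exact le_antisymm (fun f hf => mem_of_map_mem_bc ι (h5.le (Ideal.mem_map_of_mem _ hf)))
      (fun f hf => mem_of_map_mem_bc ι (h5.ge (Ideal.mem_map_of_mem _ hf)))

lemma sameSub_sat {I : Ideal (A R)} (hI : IsHomog I) : SameSub I (sat (chart I)) := fun i =>
  le_antisymm (sup_le_sup_right (le_sat hI (le_chart I)) _) (chart_le_of_le_sat le_rfl i)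

lemma isHomog_irr : IsHomog (irr R) :=
  isHomog_span (by rintro _ ⟨i, rfl⟩; exact ⟨1, isHomogeneous_X R i⟩)

/-- Every family over a field lies in a chart. -/
theorem cover_field {K : Type} [Field K] {d : ℕ} {g : ℤ} {I : Ideal (A K)} (hI : IsHomog I)
    (hP : HP d g I) : ∃ (m : ℕ) (B : Set Mono) (t : Mons m × Mons m → K), KB m ∧ Num d g m B ∧
      Nice B t ∧ SameSub I (Jt t) := by
  let J := sat (chart I)
  have hJ : IsHomog J := sat_homog _
  obtain ⟨N0, h0⟩ := exists_KB
  obtain ⟨N1, h1⟩ := kos_large hJ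
  obtain ⟨N2, h2⟩ := hP.of_same hI hJ (sameSub_sat hI)
  obtain ⟨N3, h3⟩ := eventually_mem_of_irr_pow_mul_le (C := irr K * J) (D := J) (M := 1)
    (isHomog_irr.mul hJ) (IsNoetherian.noetherian _) (by rw [pow_one])
  choose Bs hBs using exists_basisMod J
  let B : Set Mono := {b | b ∈ Bs b.degree}
  have hB : ∀ k, Bk B k = Bs k := fun k => by
    ext b
    constructor
    · rintro ⟨hb, rfl⟩; exact hb
    · intro hb
      have := (hBs k).deg b hb
      subst this
      exact ⟨hb, rfl⟩
  let m := N0 + N1 + N2 + N3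
  obtain ⟨t, ht, hle⟩ := exists_good (J := J) (B := B) (m := m) fun k _ _ => hB k ▸ hBs k
  have key : ∀ k, m ≤ k → ∀ f ∈ J, f.IsHomogeneous k → f ∈ Jt t := by
    intro k
    induction k with
    | zero =>
      intro hk f hf hfk
      obtain ⟨g, hg, h4⟩ := (ht.basis hk (by omega)).span f hfk
      have h5 : g = 0 := (hBs 0).indep g (hB 0 ▸ hg) (by simpa using sub_mem hf (hle h4))
      simpa [h5] using h4
    | succ k ih =>
      intro hk f hf hfk
      by_cases h : k + 1 ≤ m + 3
      · obtain ⟨g, hg, h4⟩ := (ht.basis hk h).span f hfk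
        have h5 : g = 0 := (hBs _).indep g (hB _ ▸ hg) (by simpa using sub_mem hf (hle h4))
        simpa [h5] using h4
      · obtain ⟨w, hw, rfl⟩ := exists_sum_X hJ hfk (h3 _ (by omega) f hf hfk)
        exact Ideal.sum_mem _ fun i _ =>
          Ideal.mul_mem_left _ _ (ih (by omega) _ (hw i).1 (hw i).2)
  refine ⟨m, B, t, h0 m (by omega), fun k hk _ => ?_, ⟨ht, fun K' _ ψ n hn => ?_⟩, fun i =>
    le_antisymm (chart_le_of hI (fun k hk f hf => key k hk f (le_sat hI (le_chart I) hf)) i)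
      (chart_le_of_le_sat hle i)⟩
  · rw [hB, ← (hBs k).hf, h2 k (by omega)]
  · rw [← bc_Jt]
    refine Kos.baseChange ψ ht.homog ?_ fun _ _ => inferInstance
    exact (h1 n (by omega)).congr fun k hk f hf =>
      ⟨fun h => key k (by omega) f h hf, fun h => hle h⟩

end Pool.Agent.MP_eba2ed_ag
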