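import Pool.Agent.MP_eba2ed_ag.Chart2

/-! Spreading out from a local ring, and gluing of families. -/

namespace Pool.Agent.MP_eba2ed_ag

open MvPolynomial Module IsLocalRing

variable {R : Type} [CommRing R] {m : ℕ}

/-- A property holds after inverting one element of `M`. -/
def Ev (M : Submonoid R) (Q : ∀ (R' : Type) [CommRing R'], (R →+* R') → Prop) : Prop :=
  ∃ s ∈ M, ∀ (R' : Type) [CommRing R'] (σ : R →+* R'), IsUnit (σ s) → Q R' σ

lemma Ev.all {M : Submonoid R} {ι : Type} [Finite ι]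
    {Q : ι → ∀ (R' : Type) [CommRing R'], (R →+* R') → Prop} (h : ∀ i, Ev M (Q i)) :
    Ev M (fun R' _ σ => ∀ i, Q i R' σ) := by
  classical
  cases nonempty_fintype ι
  choose s hs h using h
  refine ⟨∏ i, s i, prod_mem fun i _ => hs i, fun R' _ σ hσ i => h i R' σ ?_⟩
  exact isUnit_of_dvd_unit (map_dvd σ (Finset.dvd_prod_of_mem _ (Finset.mem_univ i))) hσ

lemma Ev.and {M : Submonoid R} {Q Q' : ∀ (R' : Type) [CommRing R'], (R →+* R') → Prop}
    (h : Ev M Q) (h' : Ev M Q') : Ev M (fun R' _ σ => Q R' σ ∧ Q' R' σ) := by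
  obtain ⟨s, hs, h⟩ := h
  obtain ⟨s', hs', h'⟩ := h'
  refine ⟨s * s', mul_mem hs hs', fun R' _ σ hσ => ?_⟩
  rw [map_mul, IsUnit.mul_iff] at hσ
  exact ⟨h R' σ hσ.1, h' R' σ hσ.2⟩

lemma mem_of_C_mul {a : R} (ha : IsUnit a) {J : Ideal (A R)} {f : A R} (h : C a * f ∈ J) :
    f ∈ J := (Ideal.unit_mul_mem_iff_mem J (ha.map C)).1 h

section
variable (M : Submonoid R) {L : Type} [CommRing L] [Algebra R L] [IsLocalization M L]

lemma ev_mem {J : Ideal (A R)} {f : A R}
    (h : MvPolynomial.map (algebraMap R L) f ∈ bc (algebraMap R L) J) :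
    Ev M (fun _ _ σ => MvPolynomial.map σ f ∈ bc σ J) := by
  obtain ⟨s, hs, h1⟩ := spread M h
  refine ⟨s, hs, fun R' _ σ hσ => mem_of_C_mul hσ ?_⟩
  simpa using Ideal.mem_map_of_mem (MvPolynomial.map σ : A R →+* A R') h1

lemma ev_le {I J : Ideal (A R)} (hI : I.FG)
    (h : bc (algebraMap R L) I ≤ bc (algebraMap R L) J) :
    Ev M (fun _ _ σ => bc σ I ≤ bc σ J) := by
  obtain ⟨T, rfl⟩ := hI
  obtain ⟨s, hs, h1⟩ := Ev.all fun f : T =>
    ev_mem M (h (Ideal.mem_map_of_mem _ (Ideal.subset_span f.2)))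
  exact ⟨s, hs, fun R' _ σ hσ => Ideal.map_le_iff_le_comap.2
    (Ideal.span_le.2 fun f hf => h1 R' σ hσ ⟨f, hf⟩)⟩

lemma ev_unit {w : R} (h : IsUnit (algebraMap R L w)) : Ev M (fun _ _ σ => IsUnit (σ w)) := by
  obtain ⟨s, hs, h1⟩ := (IsLocalization.algebraMap_isUnit_iff M).1 h
  exact ⟨s, hs, fun R' _ σ hσ => isUnit_of_dvd_unit (map_dvd σ h1) hσ⟩

lemma chart_fg {I : Ideal (A R)} (hI : I.FG) (i : Fin 4) : (chart I i).FG :=
  Submodule.FG.sup hI (Submodule.fg_span_singleton _)

lemma ev_same {I J : Ideal (A R)} (hI : I.FG) (hJ : J.FG)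
    (h : SameSub (bc (algebraMap R L) I) (bc (algebraMap R L) J)) :
    Ev M (fun _ _ σ => SameSub (bc σ I) (bc σ J)) := by
  have h1 : ∀ i, bc (algebraMap R L) (chart I i) = bc (algebraMap R L) (chart J i) := fun i => by
    rw [bc, bc, chart_map, chart_map]; exact h i
  obtain ⟨s, hs, h2⟩ := Ev.all fun i =>
    (ev_le M (chart_fg hI i) (h1 i).le).and (ev_le M (chart_fg hJ i) (h1 i).ge)
  refine ⟨s, hs, fun R' _ σ hσ i => ?_⟩
  rw [← chart_map, ← chart_map]
  exact le_antisymm (h2 R' σ hσ i).1 (h2 R' σ hσ i).2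

lemma ev_good {B : Set Mono} {t : Mons m × Mons m → R} (h : Good B (algebraMap R L ∘ t)) :
    Ev M (fun _ _ σ => Good B (σ ∘ t)) := by
  obtain ⟨s, hs, h1⟩ := Ev.all fun e => ev_mem (L := L) M (J := ⊥) (f := eqn B t e)
    (by rw [map_eqn, h e]; exact zero_mem _)
  refine ⟨s, hs, fun R' _ σ hσ e => ?_⟩
  have := h1 R' σ hσ e
  rwa [map_eqn, bc, Ideal.map_bot, Ideal.mem_bot] at this

end

lemma lift_mk {B : Set Mono} {t : Mons m × Mons m → R} {R' : Type} [CommRing R'] (σ : R →+* R')
    (h : Good B (σ ∘ t)) (w : MvPolynomial (Mons m × Mons m) ℤ) :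
    h.lift (Ideal.Quotient.mk _ w) = σ (eval₂Hom (Int.castRingHom R) t w) := by
  have : h.lift.comp (Ideal.Quotient.mk _) = σ.comp (eval₂Hom (Int.castRingHom R) t) :=
    MvPolynomial.ringHom_ext (fun r => by simp) fun p => by simp [Good.lift]
  exact DFunLike.congr_fun this w

theorem spread_chart {B : Set Mono} {I : Ideal (A R)} (hI : I.FG) (P : Ideal R) [P.IsPrime]
    {t : Mons m × Mons m → Localization.AtPrime P} (ht : Good B t)
    (e : SameSub (bc (algebraMap R _) I) (Jt t)) (γ : UR m B) (hγ : IsUnit (ht.lift γ)) :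
    ∃ g ∉ P, ∃ (t' : Mons m × Mons m → Localization.Away g) (ht' : Good B t'),
      SameSub (bc (algebraMap R _) I) (Jt t') ∧ IsUnit (ht'.lift γ) := by
  let L := Localization.AtPrime P
  obtain ⟨⟨u, hu⟩, h1⟩ := IsLocalization.exist_integer_multiples_of_finite P.primeCompl t
  choose a ha using h1
  let R1 := Localization.Away u
  have hle : Submonoid.powers u ≤ P.primeCompl := Submonoid.powers_le.2 hu
  let := IsLocalization.localizationAlgebraOfSubmonoidLe R1 L _ _ hle
  have := IsLocalization.localization_isScalarTower_of_submonoid_le R1 L _ _ hle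
  have := IsLocalization.isLocalization_of_submonoid_le R1 L _ _ hle
  let t1 : Mons m × Mons m → R1 := fun p => algebraMap R R1 (a p) * IsLocalization.Away.invSelf u
  have e1 : algebraMap R1 L ∘ t1 = t := by
    funext p
    have h2 := congrArg (algebraMap R1 L) (IsLocalization.Away.mul_invSelf (S := R1) u)
    rw [map_mul, map_one, ← IsScalarTower.algebraMap_apply] at h2
    simp only [t1, Function.comp_apply, map_mul, ← IsScalarTower.algebraMap_apply]
    rw [ha p, Algebra.smul_def, mul_right_comm]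
    exact (congrArg (· * t p) h2).trans (one_mul _)
  subst e1
  obtain ⟨w, rfl⟩ := Ideal.Quotient.mk_surjective γ
  rw [lift_mk] at hγ
  obtain ⟨_, ⟨s, hs, rfl⟩, h2⟩ := (ev_good (P.primeCompl.map (algebraMap R R1)) ht).and
    ((ev_same (L := L) (P.primeCompl.map (algebraMap R R1)) (I := bc (algebraMap R R1) I)
      (hI.map _) (Jt_fg t1) (by rwa [bc_bc, bc_Jt, ← IsScalarTower.algebraMap_eq])).and
      (ev_unit (P.primeCompl.map (algebraMap R R1)) hγ))
  have h3 := IsLocalization.Away.algebraMap_isUnit (S := Localization.Away (u * s)) (u * s)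
  rw [map_mul, IsUnit.mul_iff] at h3
  let σ : R1 →+* Localization.Away (u * s) := IsLocalization.Away.lift u h3.1
  have h4 : σ.comp (algebraMap R R1) = algebraMap R _ := IsLocalization.Away.lift_comp u h3.1
  obtain ⟨h5, h6, h7⟩ := h2 _ σ (by rw [← RingHom.comp_apply, h4]; exact h3.2)
  refine ⟨u * s, mul_mem hu hs, σ ∘ t1, h5, ?_, by rwa [lift_mk]⟩
  rwa [bc_bc, h4, bc_Jt] at h6

/-- A family one of whose fibres lies in a chart lies in the chart near that fibre. -/
theorem loc_chart (hm : KB m) {B : Set Mono} {d : ℕ} {g : ℤ} {I : Ideal (A R)}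
    (hI : IsFamily d g I) {K : Type} [Field K] (φ : R →+* K) {t : Mons m × Mons m → K}
    (ht : Nice B t) (e : SameSub (bc φ I) (Jt t)) (γ : UR m B) (hγ : ht.1.lift γ ≠ 0) :
    ∃ a : R, φ a ≠ 0 ∧ ∃ (t' : Mons m × Mons m → Localization.Away a) (ht' : Good B t'),
      SameSub (bc (algebraMap R _) I) (Jt t') ∧ IsUnit (ht'.lift γ) := by
  have := RingHom.ker_isPrime φ
  let P := RingHom.ker φ
  let L := Localization.AtPrime P
  let ι : ResidueField L →+* K := Ideal.ResidueField.lift P φ le_rfl (fun a ha => Ne.isUnit ha)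
  have h1 : ι.comp ((residue L).comp (algebraMap R L)) = φ := by
    ext a
    exact Ideal.ResidueField.lift_algebraMap P φ le_rfl (fun a ha => Ne.isUnit ha) a
  have hL := hI.map (algebraMap R L)
  obtain ⟨t0, h2, h3, rfl⟩ := desc_field ι hm (I := bc (residue L) (bc (algebraMap R L) I)) ht
    (by rwa [bc_bc, bc_bc, RingHom.comp_assoc, h1])
  obtain ⟨t1, h4, h5, rfl⟩ := loc_local hm hL.1 hL.2.2.1 h2 h3
  refine spread_chart hI.2.1 P h4 h5 γ ?_
  rw [← notMem_maximalIdeal, ← residue_eq_zero_iff]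
  intro h0
  apply hγ
  have : ht.1.lift = ι.comp ((residue L).comp h4.lift) := UR_ext (by
    rw [Good.lift_tU, RingHom.coe_comp, RingHom.coe_comp, Function.comp_assoc,
      Function.comp_assoc, Good.lift_tU])
  rw [this, RingHom.comp_apply, RingHom.comp_apply, h0, map_zero]

lemma exists_fg_sub {R' : Type} [CommRing R'] (φ : R →+* R') {J : Ideal (A R)} (hJ : IsHomog J)
    {I' : Ideal (A R')} (hI' : I'.FG) (h : I' ≤ bc φ J) :
    ∃ I0 ≤ J, IsHomog I0 ∧ I0.FG ∧ I' ≤ bc φ I0 := by
  classical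
  obtain ⟨s, rfl⟩ := hI'
  rw [hJ.eq_span, bc, Ideal.map_span, Ideal.span_le] at h
  obtain ⟨T, hT, h1⟩ := Submodule.subset_span_finite_of_subset_span h
  obtain ⟨T', hT', rfl⟩ := Finset.subset_set_image_iff.1 hT
  refine ⟨Ideal.span T', Ideal.span_le.2 fun f hf => (hT' hf).1,
    isHomog_span fun f hf => (hT' hf).2, ⟨T', rfl⟩, ?_⟩
  rw [bc, Ideal.map_span, Ideal.span_le, ← Finset.coe_image]
  exact h1

lemma exists_notMem {T : Type} {a : T → R} (h : Ideal.span (Set.range a) = ⊤) {P : Ideal R}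
    (hP : P ≠ ⊤) : ∃ t, a t ∉ P := by
  by_contra h1
  push Not at h1
  exact hP (top_le_iff.1 (h ▸ Ideal.span_le.2 (by rintro _ ⟨t, rfl⟩; exact h1 t)))

lemma glue_ideal {T : Type} [Finite T] (a : T → R)
    (c : ∀ t, Ideal (A (Localization.Away (a t))))
    (h : ∀ (t t' : T) (R' : Type) [CommRing R'] (φ : Localization.Away (a t) →+* R')
      (φ' : Localization.Away (a t') →+* R'),
      φ.comp (algebraMap R _) = φ'.comp (algebraMap R _) → bc φ (c t) = bc φ' (c t')) :
    ∃ c0 : Ideal (A R), ∀ t, bc (algebraMap R _) c0 = c t := by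
  classical
  cases nonempty_fintype T
  refine ⟨⨅ t, (c t).comap (MvPolynomial.map (algebraMap R _)), fun t => le_antisymm
    (Ideal.map_le_iff_le_comap.2 (iInf_le _ t)) fun f' hf' => ?_⟩
  obtain ⟨u, hu, f, hf⟩ := clear_fin (Submonoid.powers (a t)) (fun _ : Unit => f')
  have h1 : ∀ t', ∃ n : ℕ, MvPolynomial.map (algebraMap R _) (C (a t ^ n) * f ()) ∈ c t' := by
    intro t'
    let b := algebraMap R (Localization.Away (a t')) (a t)
    let φ' := algebraMap (Localization.Away (a t')) (Localization.Away b)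
    have hb : IsUnit ((φ'.comp (algebraMap R _)) (a t)) :=
      IsLocalization.Away.algebraMap_isUnit (S := Localization.Away b) b
    have h2 := IsLocalization.Away.lift_comp (S := Localization.Away (a t)) (a t) hb
    generalize IsLocalization.Away.lift (S := Localization.Away (a t)) (a t) hb = φ at h2
    have h3 := h t t' _ _ φ' h2
    have h4 : MvPolynomial.map φ' (MvPolynomial.map (algebraMap R _) (f ())) ∈ bc φ' (c t') := by
      rw [← h3, map_map, ← h2, ← map_map, hf]
      exact Ideal.mem_map_of_mem _ (Ideal.mul_mem_left _ _ hf')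
    obtain ⟨_, ⟨n, rfl⟩, h5⟩ := spread (Submonoid.powers b) h4
    exact ⟨n, by simpa [b] using h5⟩
  choose n hn using h1
  have h2 : C (a t ^ (∑ t', n t')) * f () ∈
      ⨅ t, (c t).comap (MvPolynomial.map (algebraMap R _) : A R →+* _) := by
    refine Ideal.mem_iInf.2 fun t' => ?_
    rw [← Finset.add_sum_erase _ _ (Finset.mem_univ t'), add_comm, pow_add, map_mul, mul_assoc]
    exact Ideal.mul_mem_left _ _ (hn t')
  have h3 := Ideal.mem_map_of_mem
    (MvPolynomial.map (algebraMap R (Localization.Away (a t))) : A R →+* _) h2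
  rw [map_mul, map_C, hf] at h3
  exact mem_of_C_mul (IsLocalization.map_units _ ⟨u, hu⟩)
    (mem_of_C_mul (IsLocalization.map_units _ (⟨_, _, rfl⟩ : Submonoid.powers (a t))) h3)

theorem glue_family {d : ℕ} {g : ℤ} {T : Type} [Finite T] (a : T → R)
    (ha : Ideal.span (Set.range a) = ⊤) (I : ∀ t, Ideal (A (Localization.Away (a t))))
    (hI : ∀ t, IsFamily d g (I t)) (c : Fin 4 → Ideal (A R))
    (h : ∀ t i, bc (algebraMap R _) (c i) = chart (I t) i) :
    ∃ I0, IsFamily d g I0 ∧ ∀ i, chart I0 i = c i := by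
  have h1 : ∀ t, I t ≤ bc (algebraMap R _) (sat c) := fun t =>
    (hI t).1.le_of_homog fun n f' hf' hn => by
      obtain ⟨u, hu, f, hf⟩ := clear_fin (Submonoid.powers (a t)) (fun _ : Unit => f')
      have h2 : MvPolynomial.map (algebraMap R _) (homogeneousComponent n (f ())) =
          C (algebraMap R _ u) * f' := by
        rw [← map_comp, hf, homogeneousComponent_eq_self (by simpa using hn.C_mul _)]
      obtain ⟨v, hv, h3⟩ := spread_fin (R' := Localization.Away (a t)) (Submonoid.powers (a t))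
        (J := c) (f := fun _ => homogeneousComponent n (f ())) fun i => by
          rw [h, h2]; exact Ideal.mul_mem_left _ _ (le_chart _ i hf')
      have h4 := Ideal.mem_map_of_mem
        (MvPolynomial.map (algebraMap R (Localization.Away (a t))) : A R →+* _)
        ((mem_sat ((homogeneousComponent_isHomogeneous n (f ())).C_mul v)).2 h3)
      rw [map_mul, map_C, h2] at h4
      exact mem_of_C_mul (IsLocalization.map_units _ ⟨u, hu⟩)
        (mem_of_C_mul (IsLocalization.map_units _ ⟨v, hv⟩) h4)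
  choose J h2 h3 h4 h5 using fun t => exists_fg_sub _ (sat_homog c) (hI t).2.1 (h1 t)
  let I0 := ⨆ t, J t
  have hle : I0 ≤ sat c := iSup_le h2
  have hom : IsHomog I0 := fun f hf n => by
    induction hf using Submodule.iSup_induction' with
    | mem t f hf => exact le_iSup J t (h3 t f hf n)
    | zero => simp
    | add x y _ _ hx hy => rw [map_add]; exact add_mem hx hy
  have h6 : ∀ t, SameSub (bc (algebraMap R _) I0) (I t) := fun t i => le_antisymm
    (sup_le (h t i ▸ Ideal.map_mono (hle.trans (sat_le c i))) le_sup_right)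
    (sup_le_sup_right ((h5 t).trans (Ideal.map_mono (le_iSup J t))) _)
  have h7 : ∀ t i, bc (algebraMap R (Localization.Away (a t))) (chart I0 i) =
      bc (algebraMap R _) (c i) := fun t i => by
    rw [h, bc, chart_map]; exact h6 t i
  have h8 : ∀ i, chart I0 i = c i := fun i => le_antisymm
    (le_of_away fun P hP => (exists_notMem ha hP.ne_top).elim fun t ht => ⟨_, ht, (h7 t i).le⟩)
    (le_of_away fun P hP => (exists_notMem ha hP.ne_top).elim fun t ht => ⟨_, ht, (h7 t i).ge⟩)
  refine ⟨I0, ⟨hom, Submodule.fg_iSup _ h4, fun i => flat_of_local fun P hP => ?_, fun q => ?_⟩,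
    h8⟩
  · obtain ⟨t, ht⟩ := exists_notMem ha hP.ne_top
    have hu := IsLocalization.map_units (Localization.AtPrime P) (⟨a t, ht⟩ : P.primeCompl)
    rw [← IsLocalization.Away.lift_comp (S := Localization.Away (a t)) (a t) hu, ← bc_bc, h7, h]
    exact flat_bc _ ((hI t).2.2.1 i)
  · obtain ⟨t, ht⟩ := exists_notMem ha q.2.ne_top
    have hu : IsUnit (algebraMap R q.asIdeal.ResidueField (a t)) :=
      Ne.isUnit fun h0 => ht (Ideal.algebraMap_residueField_eq_zero.1 h0)
    have h9 := (hI t).hp (IsLocalization.Away.lift (a t) hu)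
    have h10 := h9.of_same ((hI t).1.map _) ((hom.map _).map _)
      (fun i => ((h6 t).map (IsLocalization.Away.lift (a t) hu) i).symm)
    rwa [← bc, ← bc, bc_bc, IsLocalization.Away.lift_comp] at h10

end Pool.Agent.MP_eba2ed_ag
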