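import Pool.Agent.MP_eba2ed_ag.Lines

/-! Hilbert functions of subschemes of a finite union of multiple lines. -/

set_option linter.unusedSectionVars false

namespace Pool.Agent.MP_eba2ed_ag

open MvPolynomial Module

variable {k : Type} [Field k] {e : ℕ}

namespace MLine

/-- the structure of multiplicity `m` on a line -/
noncomputable def Qm (l : MLine k e) (m : ℕ) : Ideal (A k) :=
  if m = 0 then ⊤ else if m = 1 then l.P else l.Q

open Classical in
/-- generic multiplicity of `V(c)` along the line -/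
noncomputable def mu (l : MLine k e) (c : Ideal (A k)) : ℕ :=
  if l.dbl ∧ c ≤ l.Q then 2 else if c ≤ l.P then 1 else 0

def Valid (l : MLine k e) (m : ℕ) : Prop := m ≤ 2 ∧ (m = 2 → l.dbl)

lemma mu_valid (l : MLine k e) (c : Ideal (A k)) : l.Valid (l.mu c) := by
  unfold mu Valid
  split_ifs with h1 h2
  · exact ⟨le_rfl, fun _ => h1.1⟩
  · simp
  · simp

lemma le_Qm_mu (l : MLine k e) (c : Ideal (A k)) : c ≤ l.Qm (l.mu c) := by
  unfold mu Qm
  split_ifs with h1 h2 <;> simp_all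

lemma mu_pos_iff (l : MLine k e) (c : Ideal (A k)) : 1 ≤ l.mu c ↔ c ≤ l.P := by
  unfold mu
  split_ifs with h1 h2
  · simpa using h1.2.trans l.QleP
  · simpa using h2
  · simpa using h2

lemma mu_eq_two_iff (l : MLine k e) (c : Ideal (A k)) : l.mu c = 2 ↔ l.dbl ∧ c ≤ l.Q := by
  unfold mu
  split_ifs with h1 h2 <;> simp_all

lemma Qm_hom (l : MLine k e) (m : ℕ) : IsHomog (l.Qm m) := by
  unfold Qm
  split_ifs
  exacts [isHomog_top, l.homP, l.homQ]

lemma Q_le_Qm (l : MLine k e) (m : ℕ) : l.Q ≤ l.Qm m := by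
  unfold Qm
  split_ifs
  exacts [le_top, l.QleP, le_rfl]

lemma Qm_primary (l : MLine k e) (m : ℕ) {u f : A k} (h : f * u ∈ l.Qm m) (hu : u ∉ l.P) :
    f ∈ l.Qm m := by
  unfold Qm at h ⊢
  split_ifs at h ⊢
  · trivial
  · exact (l.primeP.mem_or_mem h).resolve_right hu
  · exact l.primary u f (by rwa [mul_comm]) hu

end MLine

def cst (e m : ℕ) : ℕ := if m = 0 then 0 else if m = 1 then 1 else e + 2

lemma MLine.hf_Qm (l : MLine k e) {m : ℕ} (hm : l.Valid m) {n : ℕ} (hn : e + 1 ≤ n) :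
    hilbFun (l.Qm m) n = m * n + cst e m := by
  unfold Qm cst
  split_ifs with h1 h2
  · simp [h1, hf_top]
  · simp [h2, l.hfP]
  · have h3 : m = 2 := by have := hm.1; omega
    rw [l.hfQ (hm.2 h3) n hn, h3]; ring

variable {ι : Type} [Fintype ι] [DecidableEq ι] (L : ι → MLine k e)

/-- The lines are pairwise distinct. -/
def Distinct : Prop := ∀ i j, i ≠ j → ∃ w ∈ pc (L j).P 1, w ∉ (L i).P

/-- the ideal of the union -/
noncomputable def I0 : Ideal (A k) := ⨅ i, (L i).Q

noncomputable def deg (c : Ideal (A k)) : ℕ := ∑ i, (L i).mu c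

lemma I0_hom : IsHomog (I0 L) := isHomog_iInf (fun i => (L i).homQ)

lemma I0_le_Q (i : ι) : I0 L ≤ (L i).Q := iInf_le _ i

lemma I0_le_P (i : ι) : I0 L ≤ (L i).P := (I0_le_Q L i).trans (L i).QleP

lemma mem_I0 {f : A k} : f ∈ I0 L ↔ ∀ i, f ∈ (L i).Q := Ideal.mem_iInf

lemma I0_nzd {u f : A k} (hu : ∀ i, u ∉ (L i).P) (h : f * u ∈ I0 L) : f ∈ I0 L := by
  rw [mem_I0] at h ⊢
  exact fun i => (L i).primary u f (by rw [mul_comm]; exact h i) (hu i)

variable {L}

lemma exists_sep (hd : Distinct L) (a : ι) (s : Finset ι) (ha : a ∉ s) :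
    ∃ g : A k, g.IsHomogeneous (2 * s.card) ∧ g ∉ (L a).P ∧ ∀ j ∈ s, g ∈ (L j).Q := by
  have hd' : ∀ j, j ≠ a → ∃ w ∈ pc (L j).P 1, w ∉ (L a).P := fun j hj => hd a j (Ne.symm hj)
  choose! w hw hw' using hd'
  have hne : ∀ j ∈ s, j ≠ a := fun j hj h => ha (h ▸ hj)
  refine ⟨∏ j ∈ s, (w j * w j), ?_, ?_, ?_⟩
  · have := IsHomogeneous.prod s (fun j => w j * w j) (fun _ => 1 + 1)
      (fun j hj => IsHomogeneous.mul (hw j (hne j hj)).2 (hw j (hne j hj)).2)
    simpa [mul_comm] using this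
  · have := (L a).primeP
    rw [Ideal.IsPrime.prod_mem_iff]
    rintro ⟨j, hj, h⟩
    exact hw' j (hne j hj) ((this.mem_or_mem h).elim id id)
  · intro j hj
    rw [← Finset.mul_prod_erase s _ hj]
    exact Ideal.mul_mem_right _ _ ((L j).sq _ (hw j (hne j hj)).1 _ (hw j (hne j hj)).1)

lemma hf_inf_lower (hd : Distinct L) (m : ι → ℕ) (hm : ∀ i, (L i).Valid (m i)) {n : ℕ}
    (hn : e + 1 + 2 * Fintype.card ι ≤ n) (s : Finset ι) :
    ∑ i ∈ s, (m i * n + cst e (m i)) ≤
      hilbFun (s.inf fun i => (L i).Qm (m i)) n + 4 * Fintype.card ι * s.card := by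
  induction s using Finset.induction_on with
  | empty => simp
  | insert a s ha ih =>
    rw [Finset.sum_insert ha, Finset.inf_insert, Finset.card_insert_of_notMem ha]
    have h1 := hf_inf_add_sup ((L a).Qm_hom (m a))
      (isHomog_finset_inf s (fun i _ => (L i).Qm_hom (m i))) n
    obtain ⟨g, hg, hga, hgs⟩ := exists_sep hd a s ha
    have hs : s.card ≤ Fintype.card ι := Finset.card_le_univ s
    obtain ⟨n', rfl⟩ : ∃ n', n = n' + 2 * s.card := ⟨n - 2 * s.card, by omega⟩
    have h2 := hf_nzd ((L a).Qm_hom (m a)) hg (fun u hu => (L a).Qm_primary _ hu hga) n'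
    have h3 : hilbFun ((L a).Qm (m a) ⊔ s.inf fun i => (L i).Qm (m i)) (n' + 2 * s.card) ≤
        hilbFun ((L a).Qm (m a) ⊔ Ideal.span {g}) (n' + 2 * s.card) := by
      apply hf_anti
      refine sup_le_sup_left ?_ _
      rw [Ideal.span_singleton_le_iff_mem, Submodule.mem_finsetInf]
      exact fun j hj => (L j).Q_le_Qm _ (hgs j hj)
    rw [(L a).hf_Qm (hm a) (by omega), (L a).hf_Qm (hm a) (by omega)] at h2
    rw [(L a).hf_Qm (hm a) (by omega)] at h1
    have h4 := (hm a).1
    have h5 : m a * (2 * s.card) ≤ 2 * (2 * Fintype.card ι) := by gcongr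
    nlinarith

lemma hf_inf_upper {κ : Type*} (s : Finset κ) (Q : κ → Ideal (A k)) (hQ : ∀ i, IsHomog (Q i))
    (n : ℕ) : hilbFun (s.inf Q) n ≤ ∑ i ∈ s, hilbFun (Q i) n := by
  classical
  induction s using Finset.induction_on with
  | empty => simp [hf_top]
  | insert a s ha ih =>
    rw [Finset.sum_insert ha, Finset.inf_insert]
    have := hf_inf_le (hQ a) (isHomog_finset_inf s (fun i _ => hQ i)) n
    omega

lemma hf_hull_upper (m : ι → ℕ) (hm : ∀ i, (L i).Valid (m i)) {n : ℕ} (hn : e + 1 ≤ n) :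
    hilbFun (Finset.univ.inf fun i => (L i).Qm (m i)) n ≤
      (∑ i, m i) * n + ∑ i, cst e (m i) := by
  refine (hf_inf_upper _ _ (fun i => (L i).Qm_hom (m i)) n).trans (le_of_eq ?_)
  rw [Finset.sum_mul, ← Finset.sum_add_distrib]
  exact Finset.sum_congr rfl (fun i _ => (L i).hf_Qm (hm i) hn)

lemma le_hull (c : Ideal (A k)) : c ≤ Finset.univ.inf fun i => (L i).Qm ((L i).mu c) :=
  Finset.le_inf (fun i _ => (L i).le_Qm_mu c)

lemma hf_lower (hd : Distinct L) (c : Ideal (A k)) {n : ℕ}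
    (hn : e + 1 + 2 * Fintype.card ι ≤ n) :
    deg L c * n + ∑ i, cst e ((L i).mu c) ≤ hilbFun c n + 4 * Fintype.card ι ^ 2 := by
  have h1 := hf_inf_lower hd (fun i => (L i).mu c) (fun i => (L i).mu_valid c) hn Finset.univ
  have h2 := hf_anti (le_hull (L := L) c) n
  rw [Finset.sum_add_distrib, ← Finset.sum_mul, Finset.card_univ] at h1
  unfold deg
  nlinarith

lemma hf_lower3 (hd : Distinct L) (c : Ideal (A k)) {n : ℕ}
    (hn : e + 1 + 2 * Fintype.card ι ≤ n) :
    deg L c * n ≤ hilbFun c n + 4 * Fintype.card ι ^ 2 := by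
  have := hf_lower hd c hn
  omega

lemma hf_lower1 (hd : Distinct L) (c : Ideal (A k)) {n : ℕ}
    (hn : e + 1 + 2 * Fintype.card ι ≤ n) {i : ι} (hi : (L i).mu c = 2) :
    deg L c * n + e + 2 ≤ hilbFun c n + 4 * Fintype.card ι ^ 2 := by
  have h1 := hf_lower hd c hn
  have h2 : cst e ((L i).mu c) ≤ ∑ i, cst e ((L i).mu c) :=
    Finset.single_le_sum (f := fun i => cst e ((L i).mu c)) (fun _ _ => Nat.zero_le _)
      (Finset.mem_univ i)
  rw [hi] at h2
  simp only [cst] at h2
  simp only [cst] at h1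
  norm_num at h2
  omega

lemma I0_eq_hull : I0 L = Finset.univ.inf fun i => (L i).Qm ((L i).mu (I0 L)) := by
  apply le_antisymm (le_hull (I0 L))
  · intro f hf
    rw [mem_I0]
    intro i
    have h := Submodule.mem_finsetInf.1 hf i (Finset.mem_univ i)
    by_cases hdbl : (L i).dbl
    · rw [((L i).mu_eq_two_iff _).2 ⟨hdbl, I0_le_Q L i⟩] at h
      simpa [MLine.Qm] using h
    · have h1 := ((L i).mu_pos_iff _).2 (I0_le_P L i)
      rw [(L i).ndbl hdbl]
      unfold MLine.Qm at h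
      split_ifs at h
      · omega
      · exact h
      · exact (L i).QleP h

lemma hf_I0_step (hd : Distinct L) (t : ℕ) :
    ∃ C N, ∀ n, N ≤ n → hilbFun (I0 L) (n + t) ≤ hilbFun (I0 L) n + C := by
  refine ⟨deg L (I0 L) * t + ∑ i, cst e ((L i).mu (I0 L)) + 4 * Fintype.card ι ^ 2,
    e + 1 + 2 * Fintype.card ι, fun n hn => ?_⟩
  have h1 := hf_lower3 hd (I0 L) hn
  have h2 := hf_hull_upper (fun i => (L i).mu (I0 L)) (fun i => (L i).mu_valid _)
    (n := n + t) (by omega)
  rw [← I0_eq_hull] at h2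
  unfold deg at *
  nlinarith

/-- homogeneous prime avoidance for the lines -/
lemma exists_avoid (hd : Distinct L) (b : Ideal (A k))
    (h : ∀ i, ∃ (m : ℕ) (u : A k), u.IsHomogeneous m ∧ u ∈ b ∧ u ∉ (L i).P) :
    ∃ (m : ℕ) (u : A k), u.IsHomogeneous m ∧ u ∈ b ∧ ∀ i, u ∉ (L i).P := by
  choose m u hu hub huP using h
  choose g hg hgP hgQ using fun i => exists_sep hd i (Finset.univ.erase i) (by simp)
  choose t ht using fun i => (L i).exists_X_notMem
  let E := Finset.univ.sup m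
  have hE : ∀ i, m i ≤ E := fun i => Finset.le_sup (f := m) (Finset.mem_univ i)
  refine ⟨E + 2 * (Fintype.card ι - 1), ∑ i, u i * X (t i) ^ (E - m i) * g i, ?_, ?_, ?_⟩
  · refine IsHomogeneous.sum _ _ _ (fun i _ => ?_)
    have := ((hu i).mul (isHomogeneous_X_pow (t i) (E - m i))).mul (hg i)
    have e1 : m i + (E - m i) + 2 * (Finset.univ.erase i).card = E + 2 * (Fintype.card ι - 1) := by
      have := hE i
      rw [Finset.card_erase_of_mem (Finset.mem_univ i), Finset.card_univ]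
      omega
    rwa [e1] at this
  · exact Ideal.sum_mem _ (fun i _ => Ideal.mul_mem_right _ _ (Ideal.mul_mem_right _ _ (hub i)))
  · intro i hi
    rw [← Finset.add_sum_erase _ _ (Finset.mem_univ i)] at hi
    have h1 : ∑ j ∈ Finset.univ.erase i, u j * X (t j) ^ (E - m j) * g j ∈ (L i).P :=
      Ideal.sum_mem _ (fun j hj => Ideal.mul_mem_left _ _ ((L i).QleP (hgQ j i
        (Finset.mem_erase.2 ⟨(Finset.ne_of_mem_erase hj).symm, Finset.mem_univ i⟩))))
    have h2 := (Ideal.add_mem_iff_left _ h1).1 hi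
    rcases (L i).primeP.mem_or_mem h2 with h3 | h3
    · rcases (L i).primeP.mem_or_mem h3 with h4 | h4
      · exact huP i h4
      · exact ht i ((L i).primeP.mem_of_pow_mem _ h4)
    · exact hgP i h3

lemma hf_upper (hd : Distinct L) {c : Ideal (A k)} (hc : IsHomog c) {N : ℕ}
    (hI : ∀ n, N ≤ n → ∀ f ∈ I0 L, f.IsHomogeneous n → f ∈ c) :
    ∃ C N', ∀ n, N' ≤ n → hilbFun c n ≤ deg L c * n + C := by
  let H := Finset.univ.inf fun i => (L i).Qm ((L i).mu c)
  have hH : ∀ f ∈ H, ∀ i, f ∈ (L i).Qm ((L i).mu c) :=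
    fun f hf i => Submodule.mem_finsetInf.1 hf i (Finset.mem_univ i)
  have hI' := irr_pow_mul_le (I0_hom L) hI
  have hu : ∃ (m : ℕ) (u : A k), u.IsHomogeneous m ∧ u ∈ Submodule.colon c (H : Set (A k)) ∧
      ∀ i, u ∉ (L i).P := by
    apply exists_avoid hd
    intro i
    obtain ⟨g, hg, hgP, hgQ⟩ := exists_sep hd i (Finset.univ.erase i) (by simp)
    obtain ⟨t, ht⟩ := (L i).exists_X_notMem
    have hG : (X t ^ N * g).IsHomogeneous (N + 2 * (Finset.univ.erase i).card) :=
      (isHomogeneous_X_pow t N).mul hg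
    have hGP : X t ^ N * g ∉ (L i).P := fun h =>
      ((L i).primeP.mem_or_mem h).elim (fun h => ht ((L i).primeP.mem_of_pow_mem _ h)) hgP
    have hGQ : ∀ f ∈ (L i).Q, X t ^ N * g * f ∈ c := by
      intro f hf
      apply hI'
      rw [mul_assoc]
      refine Ideal.mul_mem_mul (Ideal.pow_mem_pow (X_mem_irr t) N) ((mem_I0 L).2 fun j => ?_)
      by_cases hj : j = i
      · subst hj; exact Ideal.mul_mem_left _ _ hf
      · exact Ideal.mul_mem_right _ _ (hgQ j (by simp [hj]))
    by_cases hcQ : c ≤ (L i).Q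
    · refine ⟨_, _, hG, Submodule.mem_colon.2 (fun f hf => hGQ f ?_), hGP⟩
      have h := hH f hf i
      by_cases hdbl : (L i).dbl
      · rw [((L i).mu_eq_two_iff _).2 ⟨hdbl, hcQ⟩] at h
        simpa [MLine.Qm] using h
      · have h1 := ((L i).mu_pos_iff _).2 (hcQ.trans (L i).QleP)
        rw [(L i).ndbl hdbl]
        unfold MLine.Qm at h
        split_ifs at h
        · omega
        · exact h
        · exact (L i).QleP h
    · by_cases hcP : c ≤ (L i).P
      · obtain ⟨n, f, hfc, hfn, hfQ⟩ := hc.exists_homog_notMem hcQ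
        obtain ⟨m, u, hu, huP, hu'⟩ := (L i).loc n f (hcP hfc) hfn hfQ
        refine ⟨_, _, hG.mul hu, Submodule.mem_colon.2 (fun h hh => ?_), fun h =>
          ((L i).primeP.mem_or_mem h).elim hGP huP⟩
        have h1 : h ∈ (L i).P := by
          have h0 := hH h hh i
          have h1 := ((L i).mu_pos_iff _).2 hcP
          unfold MLine.Qm at h0
          split_ifs at h0
          · omega
          · exact h0
          · exact (L i).QleP h0
        obtain ⟨a, ha, b, hb, hab⟩ := Submodule.mem_sup.1 (hu' h h1)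
        obtain ⟨r, rfl⟩ := Ideal.mem_span_singleton'.1 hb
        have : (X t ^ N * g * u) • h = X t ^ N * g * a + (X t ^ N * g * r) * f := by
          rw [smul_eq_mul, mul_assoc _ u h, mul_comm u h, ← hab]; ring
        rw [this]
        exact Ideal.add_mem _ (hGQ a ha) (Ideal.mul_mem_left _ _ hfc)
      · obtain ⟨n, f, hfc, hfn, hfP⟩ := hc.exists_homog_notMem hcP
        exact ⟨n, f, hfn, Submodule.mem_colon.2 (fun h _ => Ideal.mul_mem_right _ _ hfc), hfP⟩
  obtain ⟨m, u, hu, huc, huP⟩ := hu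
  obtain ⟨C, N1, hC⟩ := hf_I0_step hd m
  refine ⟨C + ∑ i, cst e ((L i).mu c), N + N1 + (e + 1) + m, fun n hn => ?_⟩
  obtain ⟨n', rfl⟩ : ∃ n', n = n' + m := ⟨n - m, by omega⟩
  have h1 := hf_sandwich (I := I0 L) (H := H) (C := c)
    (Finset.le_inf fun i _ => (I0_le_Q L i).trans ((L i).Q_le_Qm _)) hu
    (fun f hf => I0_nzd L huP hf) n' (hI _ (by omega))
    (fun f hf => by rw [mul_comm]; exact Submodule.mem_colon.1 huc f hf)
  have h2 := hC n' (by omega)
  have h3 := hf_hull_upper (fun i => (L i).mu c) (fun i => (L i).mu_valid _) (n := n') (by omega)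
  unfold deg
  have h4 : (∑ i, (L i).mu c) * n' ≤ (∑ i, (L i).mu c) * (n' + m) := by gcongr; omega
  simp only [H] at h1
  omega

lemma sup_eq_of_skew {U W : Submodule k (A k)} (hU : U ≤ Hn k 1) (hW : W ≤ Hn k 1)
    (h2 : finrank k U = 2) (h2' : finrank k W = 2) (h : U ⊓ W = ⊥) : U ⊔ W = Hn k 1 := by
  have : Module.Finite k U := Submodule.finiteDimensional_of_le hU
  have : Module.Finite k W := Submodule.finiteDimensional_of_le hW
  apply Submodule.eq_of_le_of_finrank_eq (sup_le hU hW)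
  have := Submodule.finrank_sup_add_finrank_inf_eq U W
  rw [h, finrank_bot] at this
  rw [finrank_Hn_one]
  omega

lemma irr_le_of_sup_eq {I J : Ideal (A k)} (h : pc I 1 ⊔ pc J 1 = Hn k 1) : irr k ≤ I ⊔ J := by
  rw [irr_le_iff]
  intro i
  have : (X i : A k) ∈ pc I 1 ⊔ pc J 1 := by rw [h]; exact isHomogeneous_X k i
  obtain ⟨a, ha, b, hb, hab⟩ := Submodule.mem_sup.1 this
  rw [← hab]
  exact Submodule.add_mem_sup ha.1 hb.1

lemma irr_pow_le_sup_inf {κ : Type*} (s : Finset κ) (I : Ideal (A k)) (Q : κ → Ideal (A k))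
    (h : ∀ j ∈ s, irr k ≤ I ⊔ Q j) : irr k ^ s.card ≤ I ⊔ s.inf Q := by
  classical
  induction s using Finset.induction_on with
  | empty => simp
  | insert a s ha ih =>
    rw [Finset.card_insert_of_notMem ha, pow_succ, Finset.inf_insert]
    refine (Ideal.mul_mono (ih fun j hj => h j (Finset.mem_insert_of_mem hj))
      (h a (Finset.mem_insert_self a s))).trans ?_
    rw [Ideal.sup_mul, Ideal.mul_sup, Ideal.mul_sup]
    refine sup_le (sup_le ?_ ?_) (sup_le ?_ ?_)
    · exact Ideal.mul_le_left.trans le_sup_left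
    · exact Ideal.mul_le_left.trans le_sup_left
    · exact Ideal.mul_le_right.trans le_sup_left
    · exact (Ideal.mul_le_inf.trans (inf_comm _ _).le).trans le_sup_right

lemma hf_lower2 (s : Finset ι)
    (hs : ∀ i ∈ s, ∀ j ∈ s, i ≠ j → pc (L i).P 1 ⊓ pc (L j).P 1 = ⊥) {n : ℕ} (hn : s.card ≤ n) :
    s.card * (n + 1) ≤ hilbFun (s.inf fun i => (L i).P) n := by
  induction s using Finset.induction_on with
  | empty => simp
  | insert a s ha ih =>
    rw [Finset.card_insert_of_notMem ha] at hn ⊢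
    rw [Finset.inf_insert]
    have h1 := hf_inf_add_sup (L a).homP (isHomog_finset_inf s (fun i _ => (L i).homP)) n
    have h2 := ih (fun i hi j hj => hs i (Finset.mem_insert_of_mem hi) j
      (Finset.mem_insert_of_mem hj)) (by omega)
    have h3 := hf_eq_zero_of_irr_pow_le (irr_pow_le_sup_inf s (L a).P (fun i => (L i).P)
      (fun j hj => irr_le_of_sup_eq (sup_eq_of_skew (pc_le _ _) (pc_le _ _) (L a).finrank_one
        (L j).finrank_one (hs a (Finset.mem_insert_self a s) j (Finset.mem_insert_of_mem hj)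
          (fun h => ha (h ▸ hj)))))) (n := n) (by omega)
    rw [h3, (L a).hfP] at h1
    nlinarith

end Pool.Agent.MP_eba2ed_ag
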