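import Mathlib

/-!
Definitions for the Hilbert functor of curves in projective three-space, in terms of
homogeneous ideals of the homogeneous coordinate ring.
-/

namespace Pool.Agent.MP_eba2ed_ag

open CategoryTheory AlgebraicGeometry MvPolynomial

/-- `I` is a homogeneous ideal of `R[x0,x1,x2,x3]` for the grading by total degree. -/
def IsHomog {R : Type} [CommRing R] (I : Ideal (MvPolynomial (Fin 4) R)) : Prop :=
  ∀ f ∈ I, ∀ n : ℕ, homogeneousComponent n f ∈ I

/-- The ideal `I + (x_i - 1)`. The quotient of `R[x0,..,x3]` by it is the coordinate ring of the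
intersection of the closed subscheme `V(I)` of projective three-space over `R` with the standard
affine chart where `x_i` does not vanish. -/
noncomputable def chart {R : Type} [CommRing R] (I : Ideal (MvPolynomial (Fin 4) R))
    (i : Fin 4) : Ideal (MvPolynomial (Fin 4) R) :=
  I ⊔ Ideal.span {X i - 1}

/-- `I` and `J` cut out the same closed subscheme of projective three-space over `R`. -/
def SameSub {R : Type} [CommRing R] (I J : Ideal (MvPolynomial (Fin 4) R)) : Prop :=
  ∀ i : Fin 4, chart I i = chart J i

/-- The Hilbert function: the dimension of the degree `n` part of `k[x0,..,x3] / I`. -/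
noncomputable def hilbFun {k : Type} [Field k] (I : Ideal (MvPolynomial (Fin 4) k)) (n : ℕ) : ℕ :=
  Module.finrank k
    ((homogeneousSubmodule (Fin 4) k n).map (Ideal.Quotient.mkₐ k I).toLinearMap)

/-- `V(I)` is a closed subscheme of projective three-space over `R`, finitely presented and flat
over `R`, all of whose fibres have Hilbert polynomial `d t + 1 - g`. -/
def IsFamily (d : ℕ) (g : ℤ) {R : Type} [CommRing R] (I : Ideal (MvPolynomial (Fin 4) R)) : Prop :=
  IsHomog I ∧ I.FG ∧ (∀ i : Fin 4, Module.Flat R (MvPolynomial (Fin 4) R ⧸ chart I i)) ∧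
    ∀ q : PrimeSpectrum R, ∃ N : ℕ, ∀ n : ℕ, N ≤ n →
      (hilbFun (I.map (MvPolynomial.map (algebraMap R q.asIdeal.ResidueField))) n : ℤ) =
        d * n + 1 - g

/-- The scheme `H` represents the Hilbert functor: morphisms `Spec R ⟶ H` correspond, bijectively
and naturally in the ring `R`, to the families of `IsFamily d g` over `R`, taken up to
`SameSub`. -/
def IsHilbertScheme (d : ℕ) (g : ℤ) (H : Scheme.{0}) : Prop :=
  ∃ fam : ∀ R : CommRingCat.{0}, (Spec R ⟶ H) → Ideal (MvPolynomial (Fin 4) R),
    (∀ (R : CommRingCat.{0}) (s : Spec R ⟶ H), IsFamily d g (fam R s)) ∧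
    (∀ (R R' : CommRingCat.{0}) (φ : R ⟶ R') (s : Spec R ⟶ H),
      SameSub (fam R' (Spec.map φ ≫ s)) ((fam R s).map (MvPolynomial.map φ.hom))) ∧
    (∀ (R : CommRingCat.{0}) (s t : Spec R ⟶ H), SameSub (fam R s) (fam R t) → s = t) ∧
    (∀ (R : CommRingCat.{0}) (I : Ideal (MvPolynomial (Fin 4) R)), IsFamily d g I →
      ∃ s : Spec R ⟶ H, SameSub (fam R s) I)

end Pool.Agent.MP_eba2ed_ag
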