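import Pool.Agent.MP_eba2ed_ag.Glue1

/-! A Zariski sheaf on commutative rings covered by affine charts is represented by a scheme. -/

namespace Pool.Agent.MP_eba2ed_ag.Rep

open CategoryTheory AlgebraicGeometry Limits

lemma range_aw {R : CommRingCat.{0}} (g : R) (q : Spec R) :
    q ∈ Set.range (Spec.map (aw g)) ↔ g ∉ q.asIdeal := by
  have := PrimeSpectrum.localization_away_comap_range (Localization.Away g) g
  exact eq_iff_iff.mp congr(q ∈ $this)

lemma exists_lift {R : CommRingCat.{0}} {X Y : Scheme.{0}} (s : Spec R ⟶ X) (j : Y ⟶ X)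
    [IsOpenImmersion j] (q : Spec R) (h : s q ∈ Set.range j) :
    ∃ g : R, g ∉ q.asIdeal ∧ ∃ t : Spec (Aw g) ⟶ Y, t ≫ j = Spec.map (aw g) ≫ s := by
  have ho : IsOpen (s ⁻¹' Set.range j) := j.isOpenEmbedding.isOpen_range.preimage s.continuous
  obtain ⟨_, ⟨g, rfl⟩, hq, hg⟩ :=
    PrimeSpectrum.isTopologicalBasis_basic_opens.exists_subset_of_mem_open (a := q) h ho
  refine ⟨g, hq, IsOpenImmersion.lift j (Spec.map (aw g) ≫ s) ?_, IsOpenImmersion.lift_fac _ _ _⟩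
  rintro _ ⟨x, rfl⟩
  rw [Scheme.Hom.comp_apply]
  exact hg ((range_aw g _).1 ⟨x, rfl⟩)

lemma span_top_of {R : CommRingCat.{0}} (g : Spec R → R) (hg : ∀ q, g q ∉ q.asIdeal) :
    Ideal.span (Set.range g) = ⊤ := by
  by_contra h
  obtain ⟨M, hM, hle⟩ := Ideal.exists_le_maximal _ h
  exact hg ⟨M, hM.isPrime⟩ (hle (Ideal.subset_span ⟨_, rfl⟩))

lemma hom_ext_aw {R : CommRingCat.{0}} {X : Scheme.{0}} (s t : Spec R ⟶ X)
    (h : ∀ q : Spec R, ∃ g : R, g ∉ q.asIdeal ∧ Spec.map (aw g) ≫ s = Spec.map (aw g) ≫ t) :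
    s = t := by
  choose g hg h using h
  exact (Scheme.affineOpenCoverOfSpanRangeEqTop g (span_top_of g hg)).openCover.hom_ext _ _ h

lemma hom_ext_spec {P X : Scheme.{0}} (f f' : P ⟶ X)
    (h : ∀ (R : CommRingCat.{0}) (u : Spec R ⟶ P), u ≫ f = u ≫ f') : f = f' :=
  P.affineOpenCover.openCover.hom_ext _ _ (fun z => h _ (P.affineOpenCover.f z))

lemma exists_pt {R : CommRingCat.{0}} (q : Spec R) : ∃ (K : CommRingCat.{0}) (_ : IsField K)
    (r : R ⟶ K) (y : Spec K), Spec.map r y = q ∧ (∀ z : Spec K, z = y) ∧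
      ∀ a, r a = 0 ↔ a ∈ q.asIdeal := by
  let K := q.asIdeal.ResidueField
  refine ⟨.of K, Field.toIsField K, CommRingCat.ofHom (algebraMap R K),
    IsLocalRing.closedPoint K, ?_, fun z => Subsingleton.elim (α := PrimeSpectrum K) _ _,
    fun a => Ideal.algebraMap_residueField_eq_zero⟩
  apply PrimeSpectrum.ext
  ext a
  change algebraMap R K a ∈ IsLocalRing.maximalIdeal K ↔ _
  rw [IsLocalRing.maximalIdeal_eq_bot, Ideal.mem_bot]
  exact Ideal.algebraMap_residueField_eq_zero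

variable {F : Fn} {ι : Type} {A : ι → CommRingCat.{0}} (ξ : ∀ α, F.obj (A α))

/-- Index type: basic opens of the given charts. -/
structure Idx (ξ : ∀ α, F.obj (A α)) : Type where
  α : ι
  f : A α

variable {ξ}

abbrev Idx.B (j : Idx ξ) : CommRingCat.{0} := Aw j.f

noncomputable def Idx.η (j : Idx ξ) : F.obj j.B := F.mp (aw j.f) (ξ j.α)

instance : Preorder (Idx ξ) where
  le i j := ∃ φ : j.B ⟶ i.B, F.mp φ j.η = i.η ∧ IsOpenImmersion (Spec.map φ)
  le_refl i := ⟨𝟙 _, F.mp_id _ _, by rw [Spec.map_id]; infer_instance⟩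
  le_trans i j k := by
    rintro ⟨φ, h1, h2⟩ ⟨ψ, h3, h4⟩
    exact ⟨ψ ≫ φ, by rw [F.mp_comp, h3, h1], by rw [Spec.map_comp]; infer_instance⟩

noncomputable def tr {i j : Idx ξ} (h : i ≤ j) : j.B ⟶ i.B := h.choose

lemma tr_η {i j : Idx ξ} (h : i ≤ j) : F.mp (tr h) j.η = i.η := h.choose_spec.1

instance tr_open {i j : Idx ξ} (h : i ≤ j) : IsOpenImmersion (Spec.map (tr h)) := h.choose_spec.2

variable (hc : ∀ α, IsChart F (A α) (ξ α))
include hc

lemma Idx.chart (j : Idx ξ) : IsChart F j.B j.η := (hc j.α).away j.f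

lemma key1 (i j : Idx ξ) {K : CommRingCat.{0}} (hK : IsField K) (a : i.B ⟶ K) (b : j.B ⟶ K)
    (e : F.mp a i.η = F.mp b j.η) :
    ∃ (l : Idx ξ) (hi : l ≤ i) (hj : l ≤ j) (c : l.B ⟶ K), tr hi ≫ c = a ∧ tr hj ≫ c = b := by
  obtain ⟨w, hw, v, hv, hvo⟩ := (i.chart hc).key (j.chart hc) hK a b e
  obtain ⟨f', u, hu⟩ := exists_iso i.f w
  let l : Idx ξ := ⟨i.α, f'⟩
  have h1 : F.mp (aw w ≫ u.hom) i.η = l.η := by
    rw [Idx.η, ← F.mp_comp, hu]; rfl
  have hi : l ≤ i := ⟨aw w ≫ u.hom, h1, by rw [Spec.map_comp]; exact iso_open u _⟩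
  have hj : l ≤ j := ⟨v ≫ u.hom, by rw [F.mp_comp, hv, ← F.mp_comp, h1],
    by rw [Spec.map_comp]; exact iso_open u _⟩
  have h2 : F.mp (u.inv ≫ lft a ((unit_iff hK _).2 hw)) l.η = F.mp a i.η := by
    rw [← h1, ← F.mp_comp]; simp
  refine ⟨l, hi, hj, u.inv ≫ lft a ((unit_iff hK _).2 hw), ?_, ?_⟩
  · apply (i.chart hc).mono
    rw [F.mp_comp, tr_η, h2]
  · apply (j.chart hc).mono
    rw [F.mp_comp, tr_η, h2, e]

/-- The diagram of all basic opens of all charts. -/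
noncomputable def Dg : Idx ξ ⥤ Scheme.{0} where
  obj j := Spec j.B
  map h := Spec.map (tr h.le)
  map_id j := by
    rw [← Spec.map_id]
    congr 1
    apply (j.chart hc).mono
    rw [tr_η, F.mp_id]
  map_comp {i j k} f g := by
    rw [← Spec.map_comp]
    congr 1
    apply (k.chart hc).mono
    rw [F.mp_comp, tr_η, tr_η, tr_η]

instance {i j : Idx ξ} (f : i ⟶ j) : IsOpenImmersion ((Dg hc).map f) := tr_open f.le

instance : (Dg hc ⋙ Scheme.forget).IsLocallyDirected where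
  cond {i j k} fi fj xi xj h := by
    have h' : Spec.map (tr fi.le) xi = Spec.map (tr fj.le) xj := h
    obtain ⟨K, hK, a, y, hy, hy', -⟩ := exists_pt (R := i.B) xi
    have hr : Set.range (Spec.map a ≫ Spec.map (tr fi.le)) ⊆ Set.range (Spec.map (tr fj.le)) := by
      rintro _ ⟨z, rfl⟩
      exact ⟨xj, by rw [Scheme.Hom.comp_apply, hy' z, hy, h']⟩
    let b : j.B ⟶ K := Spec.preimage (IsOpenImmersion.lift (Spec.map (tr fj.le)) _ hr)
    have hb : Spec.map b ≫ Spec.map (tr fj.le) = Spec.map a ≫ Spec.map (tr fi.le) := by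
      simp [b]
    have hb' : tr fj.le ≫ b = tr fi.le ≫ a := by
      apply Spec.map_injective
      rw [Spec.map_comp, Spec.map_comp, hb]
    have hby : Spec.map b y = xj := by
      apply (Spec.map (tr fj.le)).isOpenEmbedding.injective
      rw [← Scheme.Hom.comp_apply, hb, Scheme.Hom.comp_apply, hy, h']
    obtain ⟨l, hi, hj, c, h1, h2⟩ := key1 hc i j hK a b (by
      rw [← tr_η fi.le, ← tr_η fj.le, ← F.mp_comp, ← F.mp_comp, hb'])
    refine ⟨l, hi.hom, hj.hom, Spec.map c y, ?_, ?_⟩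
    · change Spec.map (tr hi) (Spec.map c y) = xi
      rw [← Scheme.Hom.comp_apply, ← Spec.map_comp, h1, hy]
    · change Spec.map (tr hj) (Spec.map c y) = xj
      rw [← Scheme.Hom.comp_apply, ← Spec.map_comp, h2, hby]

noncomputable abbrev Gl : Scheme.{0} := colimit (Dg hc)

noncomputable def inc (j : Idx ξ) : Spec j.B ⟶ Gl hc := colimit.ι (Dg hc) j

instance (j : Idx ξ) : IsOpenImmersion (inc hc j) :=
  inferInstanceAs (IsOpenImmersion (colimit.ι (Dg hc) j))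

lemma tr_inc {i j : Idx ξ} (h : i ≤ j) : Spec.map (tr h) ≫ inc hc j = inc hc i :=
  colimit.w (Dg hc) h.hom

lemma key2 {R : CommRingCat.{0}} {i j : Idx ξ} (a : i.B ⟶ R) (b : j.B ⟶ R)
    (e : F.mp a i.η = F.mp b j.η) : Spec.map a ≫ inc hc i = Spec.map b ≫ inc hc j := by
  apply hom_ext_aw
  intro q
  obtain ⟨K, hK, r, y, hy, -, -⟩ := exists_pt q
  obtain ⟨l, hi, hj, c, h1, h2⟩ := key1 hc i j hK (a ≫ r) (b ≫ r) (by
    rw [F.mp_comp, F.mp_comp, e])
  obtain ⟨g, hg, t, ht⟩ := exists_lift (Spec.map a) (Spec.map (tr hi)) q ⟨Spec.map c y, by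
    rw [← Scheme.Hom.comp_apply, ← Spec.map_comp, h1, Spec.map_comp, Scheme.Hom.comp_apply, hy]⟩
  obtain ⟨τ, rfl⟩ := Spec.map_surjective t
  rw [← Spec.map_comp, ← Spec.map_comp] at ht
  have ht' := Spec.map_injective ht
  have h3 : tr hj ≫ τ = b ≫ aw g := by
    apply (j.chart hc).mono
    rw [F.mp_comp, F.mp_comp, tr_η, ← e, ← F.mp_comp, ← ht', F.mp_comp, tr_η]
  refine ⟨g, hg, ?_⟩
  rw [← Category.assoc, ← Category.assoc, ← Spec.map_comp, ← Spec.map_comp, ← ht', ← h3,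
    Spec.map_comp, Spec.map_comp, Category.assoc, Category.assoc, tr_inc, tr_inc]

lemma exists_chart {R : CommRingCat.{0}} (s : Spec R ⟶ Gl hc) (q : Spec R) :
    ∃ g : R, g ∉ q.asIdeal ∧ ∃ (j : Idx ξ) (a : j.B ⟶ Aw g),
      Spec.map a ≫ inc hc j = Spec.map (aw g) ≫ s := by
  obtain ⟨j, x, hx⟩ := Scheme.IsLocallyDirected.ι_jointly_surjective (Dg hc) (s q)
  obtain ⟨g, hg, t, ht⟩ := exists_lift s (inc hc j) q ⟨x, hx⟩
  obtain ⟨a, rfl⟩ := Spec.map_surjective t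
  exact ⟨g, hg, j, a, ht⟩

variable (sep : ∀ (R : CommRingCat.{0}) (c c' : F.obj R),
  (∀ q : Spec R, ∃ g : R, g ∉ q.asIdeal ∧ F.mp (aw g) c = F.mp (aw g) c') → c = c')
include sep

lemma key3 {R : CommRingCat.{0}} {i j : Idx ξ} (a : i.B ⟶ R) (b : j.B ⟶ R)
    (e : Spec.map a ≫ inc hc i = Spec.map b ≫ inc hc j) : F.mp a i.η = F.mp b j.η := by
  apply sep
  intro q
  have h0 : inc hc i (Spec.map a q) = inc hc j (Spec.map b q) := by
    rw [← Scheme.Hom.comp_apply, e, Scheme.Hom.comp_apply]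
  obtain ⟨l, fi, fj, x, hx, -⟩ := (Scheme.IsLocallyDirected.ι_eq_ι_iff (Dg hc)).1 h0
  obtain ⟨g, hg, t, ht⟩ := exists_lift (Spec.map a) (Spec.map (tr fi.le)) q ⟨x, hx⟩
  obtain ⟨τ, rfl⟩ := Spec.map_surjective t
  have h3 : tr fj.le ≫ τ = b ≫ aw g := by
    apply Spec.map_injective
    rw [← cancel_mono (inc hc j), Spec.map_comp, Spec.map_comp, Category.assoc, Category.assoc,
      tr_inc, ← e, ← Category.assoc, ← ht, Category.assoc, tr_inc]
  rw [← Spec.map_comp, ← Spec.map_comp] at ht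
  have ht' := Spec.map_injective ht
  refine ⟨g, hg, ?_⟩
  rw [← F.mp_comp, ← F.mp_comp, ← ht', ← h3, F.mp_comp, F.mp_comp, tr_η, tr_η]

omit sep in
/-- The section `c` corresponds to the morphism `s`. -/
def Assoc {R : CommRingCat.{0}} (s : Spec R ⟶ Gl hc) (c : F.obj R) : Prop :=
  ∀ (R' : CommRingCat.{0}) (φ : R ⟶ R') (j : Idx ξ) (a : j.B ⟶ R'),
    Spec.map a ≫ inc hc j = Spec.map φ ≫ s → F.mp φ c = F.mp a j.η

lemma assoc_unique {R : CommRingCat.{0}} {s : Spec R ⟶ Gl hc} {c c' : F.obj R}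
    (h : Assoc hc s c) (h' : Assoc hc s c') : c = c' := by
  apply sep
  intro q
  obtain ⟨g, hg, j, a, ha⟩ := exists_chart hc s q
  exact ⟨g, hg, (h _ _ j a ha).trans (h' _ _ j a ha).symm⟩

lemma assoc_of_local {R : CommRingCat.{0}} {s : Spec R ⟶ Gl hc} {c : F.obj R}
    (h : ∀ q : Spec R, ∃ g : R, g ∉ q.asIdeal ∧ ∃ (j : Idx ξ) (a : j.B ⟶ Aw g),
      Spec.map a ≫ inc hc j = Spec.map (aw g) ≫ s ∧ F.mp (aw g) c = F.mp a j.η) :
    Assoc hc s c := by
  intro R' φ j a ha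
  apply sep
  intro q'
  obtain ⟨g, hg, j0, a0, h1, h2⟩ := h (Spec.map φ q')
  have hu : IsUnit ((φ ≫ aw (φ g)) g) := aw_unit _
  refine ⟨φ g, hg, ?_⟩
  rw [← F.mp_comp, ← F.mp_comp, ← aw_lft _ hu, F.mp_comp, h2, ← F.mp_comp]
  apply key3 hc sep
  rw [Spec.map_comp, Spec.map_comp, Category.assoc, Category.assoc, h1, ha, ← Category.assoc,
    ← Category.assoc, ← Spec.map_comp, ← Spec.map_comp, aw_lft]

omit hc in
theorem exists_rep (hc : ∀ α, IsChart F (A α) (ξ α))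
    (cover : ∀ (K : CommRingCat.{0}) (_ : IsField K) (c : F.obj K),
      ∃ (α : ι) (ψ : A α ⟶ K), c = F.mp ψ (ξ α))
    (glue : ∀ (R : CommRingCat.{0}) (T : Type) [Finite T] (g : T → R),
      Ideal.span (Set.range g) = ⊤ → ∀ c : ∀ t, F.obj (Aw (g t)),
      (∀ (t t' : T) (R' : CommRingCat.{0}) (φ : Aw (g t) ⟶ R') (φ' : Aw (g t') ⟶ R'),
        aw (g t) ≫ φ = aw (g t') ≫ φ' → F.mp φ (c t) = F.mp φ' (c t')) →
      ∃ c0 : F.obj R, ∀ t, F.mp (aw (g t)) c0 = c t) :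
    ∃ (H : Scheme.{0}) (fam : ∀ R : CommRingCat.{0}, (Spec R ⟶ H) → F.obj R),
      (∀ (R R' : CommRingCat.{0}) (φ : R ⟶ R') (s : Spec R ⟶ H),
        fam R' (Spec.map φ ≫ s) = F.mp φ (fam R s)) ∧ ∀ R, Function.Bijective (fam R) := by
  have hex : ∀ (R : CommRingCat.{0}) (s : Spec R ⟶ Gl hc), ∃ c, Assoc hc s c := by
    intro R s
    choose g hg j a ha using exists_chart hc s
    have h1 : (1 : R) ∈ Ideal.span (Set.range g) := by rw [span_top_of g hg]; trivial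
    obtain ⟨T, hT, h1⟩ := Submodule.mem_span_finite_of_mem_span h1
    choose p hp using fun t : T => hT t.2
    have h2 : Ideal.span (Set.range (fun t : T => g (p t))) = ⊤ := by
      rw [Ideal.eq_top_iff_one]
      refine Submodule.span_mono ?_ h1
      intro x hx
      exact ⟨⟨x, hx⟩, hp _⟩
    obtain ⟨c0, hc0⟩ := glue R T (fun t => g (p t)) h2 (fun t => F.mp (a (p t)) (j (p t)).η) (by
      intro t t' R' φ φ' e
      rw [← F.mp_comp, ← F.mp_comp]
      apply key3 hc sep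
      rw [Spec.map_comp, Spec.map_comp, Category.assoc, Category.assoc, ha, ha, ← Category.assoc,
        ← Category.assoc, ← Spec.map_comp, ← Spec.map_comp, e])
    refine ⟨c0, assoc_of_local hc sep fun q => ?_⟩
    have : ∃ t : T, g (p t) ∉ q.asIdeal := by
      by_contra h
      push Not at h
      apply q.2.ne_top
      rw [← top_le_iff, ← h2, Ideal.span_le, Set.range_subset_iff]
      exact h
    obtain ⟨t, ht⟩ := this
    exact ⟨g (p t), ht, j (p t), a (p t), ha _, hc0 t⟩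
  choose fam hfam using hex
  refine ⟨Gl hc, fam, fun R R' φ s => ?_, fun R => ⟨fun s t e => ?_, fun c => ?_⟩⟩
  · refine assoc_unique hc sep (hfam R' _) ?_
    intro R'' ψ j a ha
    rw [← F.mp_comp]
    apply hfam R s
    rw [ha, Spec.map_comp, Category.assoc]
  · apply hom_ext_aw
    intro q
    obtain ⟨g1, hg1, j1, a1, h1⟩ := exists_chart hc s q
    obtain ⟨g2, hg2, j2, a2, h2⟩ := exists_chart hc t q
    have hu : IsUnit (aw (g1 * g2) g1) ∧ IsUnit (aw (g1 * g2) g2) := by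
      rw [← IsUnit.mul_iff, ← map_mul]; exact aw_unit _
    have h1' : Spec.map (a1 ≫ lft _ hu.1) ≫ inc hc j1 = Spec.map (aw (g1 * g2)) ≫ s := by
      rw [Spec.map_comp, Category.assoc, h1, ← Category.assoc, ← Spec.map_comp, aw_lft]
    have h2' : Spec.map (a2 ≫ lft _ hu.2) ≫ inc hc j2 = Spec.map (aw (g1 * g2)) ≫ t := by
      rw [Spec.map_comp, Category.assoc, h2, ← Category.assoc, ← Spec.map_comp, aw_lft]
    refine ⟨g1 * g2, fun h => (q.2.mem_or_mem h).elim hg1 hg2, ?_⟩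
    rw [← h1', ← h2']
    apply key2
    rw [← hfam R s _ _ _ _ h1', ← hfam R t _ _ _ _ h2', e]
  · have hl : ∀ q : Spec R, ∃ g : R, g ∉ q.asIdeal ∧ ∃ (j : Idx ξ) (a : j.B ⟶ Aw g),
        F.mp (aw g) c = F.mp a j.η := by
      intro q
      obtain ⟨K, hK, r, -, -, -, hr⟩ := exists_pt q
      obtain ⟨α, ψ, hψ⟩ := cover K hK (F.mp r c)
      obtain ⟨g, hg, χ, hχ⟩ := (hc α).loc R K hK c r ψ hψ
      refine ⟨g, fun h => hg ((hr g).2 h), ⟨α, 1⟩, lft χ (by simp), ?_⟩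
      rw [Idx.η, ← F.mp_comp, aw_lft, hχ]
    choose g hg j a ha using hl
    let 𝒰 := (Scheme.affineOpenCoverOfSpanRangeEqTop g (span_top_of g hg)).openCover
    have hgen : ∀ (x y : Spec R) (P : Scheme.{0}) (p1 : P ⟶ Spec (Aw (g x)))
        (p2 : P ⟶ Spec (Aw (g y))), p1 ≫ Spec.map (aw (g x)) = p2 ≫ Spec.map (aw (g y)) →
        p1 ≫ (Spec.map (a x) ≫ inc hc (j x)) = p2 ≫ (Spec.map (a y) ≫ inc hc (j y)) := by
      intro x y P p1 p2 hp
      apply hom_ext_spec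
      intro R' u
      obtain ⟨φ, hφ⟩ := Spec.map_surjective (u ≫ p1)
      obtain ⟨φ', hφ'⟩ := Spec.map_surjective (u ≫ p2)
      have e : aw (g x) ≫ φ = aw (g y) ≫ φ' := by
        apply Spec.map_injective
        rw [Spec.map_comp, Spec.map_comp, hφ, hφ', Category.assoc, Category.assoc, hp]
      have := key2 hc (a x ≫ φ) (a y ≫ φ') (by
        rw [F.mp_comp, F.mp_comp, ← ha, ← ha, ← F.mp_comp, ← F.mp_comp, e])
      rw [Spec.map_comp, Spec.map_comp, hφ, hφ'] at this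
      simpa using this
    have hcomp : ∀ x y, pullback.fst (𝒰.f x) (𝒰.f y) ≫ (Spec.map (a x) ≫ inc hc (j x)) =
        pullback.snd _ _ ≫ (Spec.map (a y) ≫ inc hc (j y)) :=
      fun x y => hgen x y _ _ _ pullback.condition
    let s := 𝒰.glueMorphisms (fun x => Spec.map (a x) ≫ inc hc (j x)) hcomp
    refine ⟨s, assoc_unique hc sep (hfam R s) (assoc_of_local hc sep fun q => ?_)⟩
    exact ⟨g q, hg q, j q, a q, (𝒰.ι_glueMorphisms _ hcomp q).symm, ha q⟩

end Pool.Agent.MP_eba2ed_ag.Rep
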