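import Pool.Agent.MP_eba2ed_ag.Chart3
import Pool.Agent.MP_eba2ed_ag.Glue2

/-! Existence of the Hilbert scheme. -/

namespace Pool.Agent.MP_eba2ed_ag

open MvPolynomial CategoryTheory AlgebraicGeometry _root_.Pool.Agent.MP_eba2ed_ag.Rep

/-- The Hilbert functor. -/
noncomputable def HF (d : ℕ) (g : ℤ) : Fn where
  obj R := {c : Fin 4 → Ideal (A R) // ∃ I, IsFamily d g I ∧ ∀ i, chart I i = c i}
  mp φ c := ⟨fun i => bc φ.hom (c.1 i), by
    obtain ⟨I, hI, h⟩ := c.2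
    exact ⟨bc φ.hom I, hI.map _, fun i =>
      (chart_map φ.hom I i).symm.trans (congrArg (bc φ.hom) (h i))⟩⟩
  mp_id R c := Subtype.ext (funext fun i => bc_id _)
  mp_comp φ ψ c := Subtype.ext (funext fun i => (bc_bc _ _ _).symm)

noncomputable def pt {d : ℕ} {g : ℤ} {R : CommRingCat.{0}} {I : Ideal (A R)}
    (h : IsFamily d g I) : (HF d g).obj R := ⟨chart I, I, h, fun _ => rfl⟩

lemma exists_pt {d : ℕ} {g : ℤ} {R : CommRingCat.{0}} (c : (HF d g).obj R) :
    ∃ (I : Ideal (A R)) (h : IsFamily d g I), pt h = c := by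
  obtain ⟨I, hI, h⟩ := c.2
  exact ⟨I, hI, Subtype.ext (funext h)⟩

lemma mp_pt {d : ℕ} {g : ℤ} {R R' : CommRingCat.{0}} (φ : R ⟶ R') {I : Ideal (A R)}
    (h : IsFamily d g I) : (HF d g).mp φ (pt h) = pt (h.map φ.hom) :=
  Subtype.ext (funext fun i => chart_map φ.hom I i)

lemma pt_eq {d : ℕ} {g : ℤ} {R : CommRingCat.{0}} {I J : Ideal (A R)} (h : IsFamily d g I)
    (h' : IsFamily d g J) : pt h = pt h' ↔ SameSub I J :=
  ⟨fun e i => congrFun (congrArg Subtype.val e) i, fun e => Subtype.ext (funext e)⟩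

/-- The data of a chart. -/
structure Ch (d : ℕ) (g : ℤ) : Type where
  m : ℕ
  B : Set Mono
  γ : UR m B
  kb : KB m
  num : Num d g m B
  kos : ∀ (K : Type) [Field K] (ψ : UR m B →+* K), ψ γ ≠ 0 →
    ∀ n, m ≤ n → Kos (bc ψ (Jt (tU m B))) n

variable {d : ℕ} {g : ℤ}

noncomputable abbrev Ch.ring (α : Ch d g) : CommRingCat.{0} := .of (Localization.Away α.γ)

noncomputable def Ch.t (α : Ch d g) : Mons α.m × Mons α.m → α.ring :=
  algebraMap (UR α.m α.B) (Localization.Away α.γ) ∘ tU α.m α.B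

lemma Ch.unit (α : Ch d g) : IsUnit (algebraMap (UR α.m α.B) (Localization.Away α.γ) α.γ) :=
  IsLocalization.Away.algebraMap_isUnit α.γ

lemma Ch.nice (α : Ch d g) : Nice α.B α.t := by
  refine ⟨(good_tU _ _).map _, fun K _ ψ n hn => ?_⟩
  have := α.kos K (ψ.comp (algebraMap _ _)) (α.unit.map ψ).ne_zero n hn
  rwa [bc_Jt] at this

lemma Ch.fam (α : Ch d g) : IsFamily d g (Jt α.t) := α.nice.family α.kb α.num

lemma Ch.lift_eq (α : Ch d g) {R : Type} [CommRing R] (ψ : α.ring →+* R)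
    (h : Good α.B (ψ ∘ α.t)) : h.lift = ψ.comp (algebraMap _ _) :=
  UR_ext (by rw [Good.lift_tU]; rfl)

lemma Ch.exists_hom (α : Ch d g) {R : Type} [CommRing R] {t : Mons α.m × Mons α.m → R}
    (h : Good α.B t) (hu : IsUnit (h.lift α.γ)) : ∃ χ : α.ring →+* R, χ ∘ α.t = t := by
  refine ⟨IsLocalization.Away.lift α.γ hu, ?_⟩
  rw [Ch.t, ← Function.comp_assoc, ← RingHom.coe_comp, IsLocalization.Away.lift_comp,
    Good.lift_tU]

lemma Ch.isChart (α : Ch d g) : IsChart (HF d g) α.ring (pt α.fam) where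
  mono R φ ψ e := by
    rw [mp_pt, mp_pt, pt_eq, bc_Jt, bc_Jt] at e
    have := nice_unique α.kb (α.nice.map φ.hom) (α.nice.map ψ.hom) e
    ext1
    exact IsLocalization.ringHom_ext (Submonoid.powers α.γ) (UR_ext this)
  loc R K hK c φ ψ e := by
    obtain ⟨I, hI, rfl⟩ := exists_pt c
    let := hK.toField
    rw [mp_pt, mp_pt, pt_eq, bc_Jt] at e
    obtain ⟨a, ha, t, ht, h1, h2⟩ := loc_chart α.kb hI φ.hom (α.nice.map ψ.hom) e α.γ (by
      rw [α.lift_eq]
      exact (α.unit.map ψ.hom).ne_zero)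
    obtain ⟨χ, rfl⟩ := α.exists_hom ht h2
    refine ⟨a, ha, CommRingCat.ofHom χ, ?_⟩
    rw [mp_pt, mp_pt, pt_eq, bc_Jt]
    exact h1

lemma HF_cover (K : CommRingCat.{0}) (hK : IsField K) (c : (HF d g).obj K) :
    ∃ (α : Ch d g) (ψ : α.ring ⟶ K), c = (HF d g).mp ψ (pt α.fam) := by
  obtain ⟨I, hI, rfl⟩ := exists_pt c
  let := hK.toField
  have hP := hI.hp (RingHom.id K)
  rw [bc_id] at hP
  obtain ⟨m, B, t, h1, h2, h3, h4⟩ := cover_field hI.1 hP
  obtain ⟨γ, h5, h6⟩ := kos_open (good_tU m B).homog (m := m) (fun L _ _ φ h => by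
    rw [bc_Jt] at h ⊢
    exact ((good_tU m B).map φ).proj h1 h) h3.1.lift (fun n hn => by
      rw [bc_Jt, Good.lift_tU]
      exact h3.kos h1 n hn)
  let α : Ch d g := ⟨m, B, γ, h1, h2, h6⟩
  obtain ⟨χ, h7⟩ := α.exists_hom h3.1 h5.isUnit
  refine ⟨α, CommRingCat.ofHom χ, ?_⟩
  rw [mp_pt, pt_eq, bc_Jt]
  exact h7 ▸ h4

/-- Existence of the Hilbert scheme of projective three-space over the integers. -/
theorem exists_hilbertScheme (d : ℕ) (g : ℤ) : ∃ H : Scheme.{0}, IsHilbertScheme d g H := by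
  obtain ⟨H, fam, h1, h2⟩ := exists_rep (F := HF d g) (A := Ch.ring) (ξ := fun α => pt α.fam)
    (fun R c c' h => by
      refine Subtype.ext (funext fun i => le_antisymm (le_of_away fun P hP => ?_)
        (le_of_away fun P hP => ?_))
      · obtain ⟨a, ha, e⟩ := h ⟨P, hP⟩
        exact ⟨a, ha, (congrFun (congrArg Subtype.val e) i).le⟩
      · obtain ⟨a, ha, e⟩ := h ⟨P, hP⟩
        exact ⟨a, ha, (congrFun (congrArg Subtype.val e) i).ge⟩)
    Ch.isChart HF_cover (fun R T _ a ha c hc => by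
      choose c0 h0 using fun i => glue_ideal a (fun t => (c t).1 i) (fun t t' R' _ φ φ' e =>
        congrFun (congrArg Subtype.val (hc t t' (.of R') (CommRingCat.ofHom φ)
          (CommRingCat.ofHom φ') (CommRingCat.hom_ext e))) i)
      choose I hI h using fun t => (c t).2
      exact ⟨⟨c0, glue_family a ha I hI c0 fun t i => (h0 i t).trans (h t i).symm⟩,
        fun t => Subtype.ext (funext fun i => h0 i t)⟩)
  choose J hJ h3 using fun (R : CommRingCat.{0}) (s : Spec R ⟶ H) => exists_pt (fam R s)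
  refine ⟨H, J, hJ, fun R R' φ s => ?_, fun R s t e => ?_, fun R I hI => ?_⟩
  · rw [← pt_eq (hJ _ _) ((hJ R s).map φ.hom), ← mp_pt φ (hJ R s), h3, h3, h1]
  · apply (h2 R).1
    rw [← h3, ← h3, pt_eq]
    exact e
  · obtain ⟨s, hs⟩ := (h2 R).2 (pt hI)
    exact ⟨s, by rw [← pt_eq (hJ _ _) hI, h3, hs]⟩

end Pool.Agent.MP_eba2ed_ag
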