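import Pool.Agent.MP_eba2ed_ag.Main

/-! Incidences between the lines persist in a flat lift. -/

set_option linter.unusedSectionVars false

namespace Pool.Agent.MP_eba2ed_ag

open MvPolynomial Module IsLocalRing

lemma exists_X_notMem_of_ne {k : Type} [Field k] {W : Submodule k (A k)} (hW : W ≤ Hn k 1)
    (hne : W ≠ Hn k 1) : ∃ a, (X a : A k) ∉ W := by
  by_contra hall
  push Not at hall
  apply hne (le_antisymm hW _)
  rw [Hn, homogeneousSubmodule_one_eq_span_X, Submodule.span_le]
  rintro _ ⟨a, rfl⟩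
  exact hall a

lemma exists_point {k : Type} [Field k] {W : Submodule k (A k)} (hW : W ≤ Hn k 1)
    (hne : W ≠ Hn k 1) : ∃ (v : Fin 4 → k) (a : Fin 4), v a ≠ 0 ∧ ∀ f ∈ W, aeval v f = 0 := by
  obtain ⟨a, ha⟩ := exists_X_notMem_of_ne hW hne
  obtain ⟨φ, hφ, hφW⟩ := Submodule.exists_dual_map_eq_bot_of_notMem ha inferInstance
  refine ⟨fun j => φ (X j), a, hφ, fun f hf => ?_⟩
  have h1 : ∀ g ∈ Hn k 1, aeval (fun j => φ (X j)) g = φ g := by
    intro g hg
    rw [Hn, homogeneousSubmodule_one_eq_span_X] at hg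
    induction hg using Submodule.span_induction with
    | mem x hx => obtain ⟨j, rfl⟩ := hx; simp
    | zero => simp
    | add x y _ _ hx hy => rw [map_add, map_add, hx, hy]
    | smul c x _ hx => rw [map_smul, map_smul, hx]
  rw [h1 f (hW hf), ← Submodule.mem_bot k, ← hφW]
  exact Submodule.mem_map_of_mem hf

variable {V K : Type} [CommRing V] [IsDomain V] [ValuationRing V] [Field K] [Algebra V K]
  [IsFractionRing V K] [IsAlgClosed K]
variable {ι : Type} [Fintype ι] [DecidableEq ι] {e : ℕ}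

namespace Setup

variable {L : ι → MLine (ResidueField V) e} {It : Ideal (A K)} {N : ℕ} (S : Setup V K L It N)
include S

lemma red_le_Q {p q : Ideal (A K)} (hq : q ∈ It.minimalPrimes) {i j : ι} (hij : i ≠ j)
    (hj : red V K q ≤ (L j).P) {g : A V} (hg : dn V g ∉ (L i).P) {m : ℕ}
    (hm : (p * q) ^ m ≤ Submodule.colon It {up V K g ^ m}) :
    red V K (Submodule.colon It {up V K g ^ m} ⊔ p ^ m) ≤ (L i).Q := by
  intro f0 hf0
  obtain ⟨f, hf, rfl⟩ := mem_red.1 hf0
  obtain ⟨h0, hh0, hh0i⟩ := S.hd i j hij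
  rw [← (S.is_line hq hj).2] at hh0
  obtain ⟨h, hh, rfl⟩ := mem_red.1 hh0.1
  refine (L i).primary (dn V g ^ m * dn V h ^ m) _ ?_ (fun h' =>
    ((L i).primeP.mem_or_mem h').elim (fun h' => hg ((L i).primeP.mem_of_pow_mem _ h'))
      (fun h' => hh0i ((L i).primeP.mem_of_pow_mem _ h')))
  apply I0_le_Q L i
  apply S.le
  rw [← map_pow, ← map_pow, ← map_mul, ← map_mul]
  apply dn_mem_red
  obtain ⟨x, hx, y, hy, hxy⟩ := Submodule.mem_sup.1 hf
  have h1 : y * up V K h ^ m ∈ Submodule.colon It {up V K g ^ m} := by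
    apply hm
    rw [mul_pow]
    exact Ideal.mul_mem_mul hy (Ideal.pow_mem_pow hh m)
  rw [Submodule.mem_colon_singleton, smul_eq_mul] at hx h1
  rw [map_mul, map_mul, map_pow, map_pow, ← hxy]
  have : up V K g ^ m * up V K h ^ m * (x + y) =
      up V K h ^ m * (x * up V K g ^ m) + y * up V K h ^ m * up V K g ^ m := by ring
  rw [this]
  exact Ideal.add_mem _ (Ideal.mul_mem_left _ _ hx) h1

theorem incidence {p q : Ideal (A K)} (hp : p ∈ It.minimalPrimes) (hq : q ∈ It.minimalPrimes)
    {i j : ι} (hij : i ≠ j) (hi : red V K p ≤ (L i).P) (hj : red V K q ≤ (L j).P)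
    (hmeet : pc (L i).P 1 ⊓ pc (L j).P 1 ≠ ⊥) : pc p 1 ⊓ pc q 1 ≠ ⊥ := by
  classical
  intro hskew
  have hph := minimal_hom S.hom hp
  have hqh := minimal_hom S.hom hq
  have hp1 := (S.is_line hp hi).2
  have hq1 := (S.is_line hq hj).2
  have hirr : irr K ≤ p ⊔ q := by
    refine irr_le_of_sup_eq (sup_eq_of_skew (pc_le _ _) (pc_le _ _) ?_ ?_ hskew)
    · rw [← finrank_pc_red (V := V) hph, hp1, (L i).finrank_one]
    · rw [← finrank_pc_red (V := V) hqh, hq1, (L j).finrank_one]
  set W := pc (L i).P 1 ⊔ pc (L j).P 1 with hWdef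
  have hW : W ≤ Hn _ 1 := sup_le (pc_le _ _) (pc_le _ _)
  have hW3 : finrank (ResidueField V) W = 3 := by
    have h1 := Submodule.finrank_sup_add_finrank_inf_eq (pc (L i).P 1) (pc (L j).P 1)
    rw [(L i).finrank_one, (L j).finrank_one, ← hWdef] at h1
    have h2 : finrank (ResidueField V) ↥(pc (L i).P 1 ⊓ pc (L j).P 1) ≠ 0 := by
      rwa [ne_eq, Submodule.finrank_eq_zero]
    have h3 : pc (L i).P 1 ⊓ pc (L j).P 1 < pc (L j).P 1 := by
      obtain ⟨w, hw, hwi⟩ := S.hd i j hij
      refine lt_of_le_of_ne inf_le_right (fun h => hwi ?_)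
      rw [← h] at hw
      exact hw.1.1
    have h4 := Submodule.finrank_lt_finrank_of_lt h3
    rw [(L j).finrank_one] at h4
    omega
  have hWne : W ≠ Hn _ 1 := by
    intro h
    rw [h, finrank_Hn_one] at hW3
    omega
  obtain ⟨v, a0, hva, hv⟩ := exists_point hW hWne
  let Rs : Set (Ideal (A (ResidueField V))) :=
    {r | r.IsPrime ∧ (L i).P ⊔ (L j).P ≤ r ∧ ¬ irr _ ≤ r}
  have hWr : ∀ r : Ideal (A (ResidueField V)), (∀ w ∈ W, w ∈ r) → (L i).P ⊔ (L j).P ≤ r := by
    intro r hr
    refine sup_le ((L i).gen.trans (Ideal.span_le.2 fun w hw => hr w ?_))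
      ((L j).gen.trans (Ideal.span_le.2 fun w hw => hr w ?_))
    · exact Submodule.mem_sup_left hw
    · exact Submodule.mem_sup_right hw
  have hr0 : RingHom.ker (aeval v : A (ResidueField V) →ₐ[ResidueField V] ResidueField V) ∈ Rs := by
    refine ⟨RingHom.ker_isPrime _, hWr _ hv, fun h => hva ?_⟩
    simpa [RingHom.mem_ker] using h (X_mem_irr a0)
  have hcol : ¬ ((L i).dbl ↔ (L j).dbl) := fun h => hmeet (S.skew i j hij h)
  obtain ⟨t, g, hgt, hgR, hgp⟩ := exists_kill (V := V) It (fun r => r ≠ p ∧ r ≠ q) Rs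
    (fun r hr => hr.1) (fun p' hp' hne => by
      have hw0 : ∃ w0 ∈ pc (red V K p') 1, w0 ∉ W := by
        rcases S.exists_line_or hp' with ⟨l, hl⟩ | hl
        · have hli : l ≠ i := fun h => S.disjoint hp' hp hne.1 (h ▸ hl) hi
          have hlj : l ≠ j := fun h => S.disjoint hp' hq hne.2 (h ▸ hl) hj
          rw [(S.is_line hp' hl).2]
          by_contra hall
          push Not at hall
          apply hWne (le_antisymm hW _)
          by_cases hc : (L l).dbl ↔ (L i).dbl
          · rw [← sup_eq_of_skew (pc_le _ _) (pc_le _ _) (L l).finrank_one (L i).finrank_one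
              (S.skew l i hli hc)]
            exact sup_le hall le_sup_left
          · rw [← sup_eq_of_skew (pc_le _ _) (pc_le _ _) (L l).finrank_one (L j).finrank_one
              (S.skew l j hlj (by tauto))]
            exact sup_le hall le_sup_right
        · obtain ⟨a, ha⟩ := exists_X_notMem_of_ne hW hWne
          refine ⟨X a, ⟨?_, isHomogeneous_X _ a⟩, ha⟩
          exact mem_red.2 ⟨X a, by simpa using hl (X_mem_irr a), by simp⟩
      obtain ⟨w0, hw0, hw0W⟩ := hw0
      obtain ⟨w, hw, hwp, rfl⟩ := mem_red_homog (minimal_hom S.hom hp') hw0.1 hw0.2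
      refine ⟨1, w, hw, hwp, fun r hr hwr => hr.2.2 ?_⟩
      have h1 : W ⊔ Submodule.span _ {dn V w} = Hn _ 1 := by
        have hle : W ⊔ Submodule.span _ {dn V w} ≤ Hn _ 1 :=
          sup_le hW ((Submodule.span_singleton_le_iff_mem _ _).2 hw0.2)
        have : Module.Finite (ResidueField V) ↥(W ⊔ Submodule.span _ {dn V w}) :=
          Submodule.finiteDimensional_of_le hle
        apply Submodule.eq_of_le_of_finrank_le hle
        have h2 : W < W ⊔ Submodule.span _ {dn V w} :=
          lt_of_le_of_ne le_sup_left (fun h => hw0W (by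
            rw [h]; exact Submodule.mem_sup_right (Submodule.mem_span_singleton_self _)))
        have h3 := Submodule.finrank_lt_finrank_of_lt h2
        rw [finrank_Hn_one]
        omega
      rw [irr_le_iff]
      intro a
      have h2 : W ⊔ Submodule.span _ {dn V w} ≤ r.restrictScalars (ResidueField V) := by
        refine sup_le (sup_le (fun x hx => hr.2.1 (Ideal.mem_sup_left hx.1))
          (fun x hx => hr.2.1 (Ideal.mem_sup_right hx.1))) ?_
        exact (Submodule.span_singleton_le_iff_mem _ _).2 hwr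
      rw [h1] at h2
      exact h2 (isHomogeneous_X _ a))
  have hgi : dn V g ∉ (L i).P := fun h => hgR _ hr0 (hr0.2.1 (Ideal.mem_sup_left h))
  have hgj : dn V g ∉ (L j).P := fun h => hgR _ hr0 (hr0.2.1 (Ideal.mem_sup_right h))
  obtain ⟨m, hm2, hm⟩ := exists_rad_pow It
  have h1 := hm (p * q) (up V K g) (fun r hr => by
    by_cases h : r = p
    · exact Or.inl (Ideal.mul_le_left.trans h.ge)
    · by_cases h' : r = q
      · exact Or.inl (Ideal.mul_le_right.trans h'.ge)
      · exact Or.inr (hgp r hr ⟨h, h'⟩))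
  have hQi := S.red_le_Q hq hij hj hgi h1
  have hQj := S.red_le_Q hp hij.symm hi hgj (by rwa [mul_comm])
  set I' := Submodule.colon It {up V K g ^ m} with hI'
  have hI'h : IsHomog I' := S.hom.colon ((hgt.map _).pow m)
  have hII' : It ≤ I' := fun a ha => by
    rw [hI', Submodule.mem_colon_singleton, smul_eq_mul]; exact Ideal.mul_mem_right _ _ ha
  set a := I' ⊔ p ^ m with ha
  set b := I' ⊔ q ^ m with hb
  have hah : IsHomog a := hI'h.sup (hph.pow m)
  have hbh : IsHomog b := hI'h.sup (hqh.pow m)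
  have hab : irr K ^ (m + m) ≤ a ⊔ b :=
    (Ideal.pow_right_mono hirr _).trans (Ideal.sup_pow_add_le_pow_sup_pow.trans
      (sup_le_sup le_sup_right le_sup_right))
  have hlt : ∀ n, m + m ≤ n →
      hilbFun (red V K a ⊓ red V K b) n + 1 ≤ hilbFun (red V K (a ⊓ b)) n := by
    intro n hn
    have e1 := hf_inf_add_sup hah hbh n
    have e2 := hf_inf_add_sup (hah.red (V := V)) (hbh.red (V := V)) n
    rw [hf_eq_zero_of_irr_pow_le hab hn] at e1
    rw [hf_red hah, hf_red hbh] at e2
    rw [hf_red (hah.inf hbh)]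
    have e3 : 1 ≤ hilbFun (red V K a ⊔ red V K b) n := by
      refine hf_pos (isHomogeneous_X_pow a0 n) (fun h => ?_)
      have := hr0.2.1 (sup_le_sup (hQi.trans (L i).QleP) (hQj.trans (L j).QleP) h)
      simp only [RingHom.mem_ker, map_pow, aeval_X] at this
      exact hva (pow_eq_zero_iff' .. |>.1 this).1
    omega
  let Ann := Submodule.colon (red V K (a ⊓ b))
    ((red V K a ⊓ red V K b : Ideal (A (ResidueField V))) : Set (A (ResidueField V)))
  have hAnn : irr _ ≤ Ann.radical := by
    rw [Ideal.radical_eq_sInf]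
    refine le_sInf ?_
    rintro r ⟨hr, hrp⟩
    by_contra hnot
    have hrR : r ∈ Rs := by
      refine ⟨hrp, hWr r (fun w hw => ?_), hnot⟩
      have : W ≤ r.restrictScalars (ResidueField V) := by
        refine sup_le (fun x hx => hrp.mem_of_pow_mem m (hr ?_))
          (fun x hx => hrp.mem_of_pow_mem m (hr ?_))
        · rw [← hp1] at hx
          refine Submodule.mem_colon.2 (fun f hf => red_mono Ideal.mul_le_inf ?_)
          exact mul_mem_red (red_mono le_sup_right (pow_mem_red hx.1 m)) hf.2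
        · rw [← hq1] at hx
          refine Submodule.mem_colon.2 (fun f hf => red_mono Ideal.mul_le_inf ?_)
          rw [smul_eq_mul, mul_comm (x ^ m) f]
          exact mul_mem_red hf.1 (red_mono le_sup_right (pow_mem_red hx.1 m))
      exact this hw
    obtain ⟨c, hc⟩ : ∃ c, X c ∉ r := by
      by_contra hall
      push Not at hall
      exact hnot (irr_le_iff.2 hall)
    have : X c ^ N * dn V g ^ m ∈ Ann := by
      refine Submodule.mem_colon.2 (fun f hf => ?_)
      apply red_mono (le_inf (hII'.trans le_sup_left) (hII'.trans le_sup_left))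
      apply irr_pow_mul_le (I0_hom L) S.ge
      rw [smul_eq_mul, mul_assoc]
      refine Ideal.mul_mem_mul (Ideal.pow_mem_pow (X_mem_irr c) N) ((mem_I0 L).2 fun l => ?_)
      by_cases hli : l = i
      · subst hli; exact Ideal.mul_mem_left _ _ (hQi hf.1)
      by_cases hlj : l = j
      · subst hlj; exact Ideal.mul_mem_left _ _ (hQj hf.2)
      obtain ⟨r', hr', hl⟩ := S.exists_min l
      have hgl : dn V g ∈ (L l).P := by
        refine hl (dn_mem_red (hgp r' hr' ⟨?_, ?_⟩))
        · rintro rfl; exact hli ((S.is_line hp hi).1 l hl)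
        · rintro rfl; exact hlj ((S.is_line hq hj).1 l hl)
      obtain ⟨m', rfl⟩ : ∃ m', m = m' + 2 := ⟨m - 2, by omega⟩
      refine Ideal.mul_mem_right _ _ ?_
      rw [pow_add, sq]
      exact Ideal.mul_mem_left _ _ ((L l).sq _ hgl _ hgl)
    rcases hrp.mem_or_mem (hr this) with h | h
    · exact hc (hrp.mem_of_pow_mem _ h)
    · exact hgR r hrR (hrp.mem_of_pow_mem _ h)
  obtain ⟨M, hM⟩ := Ideal.exists_pow_le_of_le_radical_of_fg hAnn (idealOfVars_fg _ _)
  obtain ⟨N', hN'⟩ := eventually_mem_of_irr_pow_mul_le ((hah.inf hbh).red (V := V))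
    (IsNoetherian.noetherian (red V K a ⊓ red V K b)) (M := M)
    (Ideal.mul_le.2 fun x hx f hf => Submodule.mem_colon.1 (hM hx) f hf)
  have h2 := hf_le_of_pc_le (hN' (N' + (m + m)) (by omega))
  have h3 := hlt (N' + (m + m)) (by omega)
  omega

/-- The lifting theorem: the lines lift with the same incidences. -/
theorem lift : ∃ U : ι → Submodule K (A K), (∀ i, U i ≤ Hn K 1) ∧ (∀ i, finrank K (U i) = 2) ∧
    ∀ i j, i ≠ j → (U i ⊓ U j = ⊥ ↔ pc (L i).P 1 ⊓ pc (L j).P 1 = ⊥) := by
  choose p hp hpi using S.exists_min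
  refine ⟨fun i => pc (p i) 1, fun i => pc_le _ _, fun i => ?_, fun i j hij => ⟨fun h => ?_, ?_⟩⟩
  · rw [← finrank_pc_red (V := V) (minimal_hom S.hom (hp i)), (S.is_line (hp i) (hpi i)).2,
      (L i).finrank_one]
  · by_contra hne
    exact S.incidence (hp i) (hp j) hij (hpi i) (hpi j) hne h
  · intro h
    apply pc_inf_eq_bot_of_red (V := V)
    rwa [(S.is_line (hp i) (hpi i)).2, (S.is_line (hp j) (hpi j)).2]

end Setup

end Pool.Agent.MP_eba2ed_ag
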