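import Pool.Agent.MP_eba2ed_ag.Space
import Pool.Agent.MP_eba2ed_ag.Incid

/-! Base change, the Hilbert polynomial of the curve, and its non-liftability. -/

set_option linter.unusedSectionVars false

namespace Pool.Agent.MP_eba2ed_ag

open MvPolynomial Module IsLocalRing TensorProduct

section bc

variable {k L : Type} [Field k] [Field L] [Algebra k L]

lemma finrank_span_map (W : Submodule k (A k)) [Module.Finite k W] :
    finrank L (Submodule.span L (MvPolynomial.map (algebraMap k L) '' (W : Set (A k)))) =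
      finrank k W := by
  let b := Module.finBasis k W
  have h1 : LinearIndependent k (fun i => (b i : A k)) :=
    b.linearIndependent.map' W.subtype (Submodule.ker_subtype _)
  have h2 := (Module.Flat.linearIndependent_one_tmul (S := L) h1).map'
    (algebraTensorAlgEquiv k L).toLinearMap (LinearEquiv.ker (algebraTensorAlgEquiv k L).toLinearEquiv)
  have h3 : LinearIndependent L (fun i => MvPolynomial.map (algebraMap k L) (b i : A k)) := by
    have e : (fun i => MvPolynomial.map (algebraMap k L) (b i : A k)) =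
        (algebraTensorAlgEquiv k L).toLinearMap ∘ fun x => (1 : L) ⊗ₜ[k] (b x : A k) := by
      ext1 i
      simp
    rw [e]
    exact h2
  have h4 : Submodule.span L (MvPolynomial.map (algebraMap k L) '' (W : Set (A k))) =
      Submodule.span L (Set.range fun i => MvPolynomial.map (algebraMap k L) (b i : A k)) := by
    apply le_antisymm
    · rw [Submodule.span_le]
      rintro _ ⟨w, hw, rfl⟩
      have := congrArg (fun x : W => (x : A k)) (b.sum_repr ⟨w, hw⟩)
      simp only [AddSubmonoidClass.coe_finsetSum, SetLike.val_smul] at this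
      rw [← this, map_sum]
      refine Submodule.sum_mem _ (fun i _ => ?_)
      rw [smul_eq_C_mul, map_mul, map_C, ← smul_eq_C_mul]
      exact Submodule.smul_mem _ _ (Submodule.subset_span ⟨i, rfl⟩)
    · apply Submodule.span_mono
      rintro _ ⟨i, rfl⟩
      exact ⟨_, (b i).2, rfl⟩
  rw [h4, finrank_span_eq_card h3]
  simp

lemma mem_span_of_mem_map {I : Ideal (A k)} {f : A L}
    (hf : f ∈ I.map (MvPolynomial.map (algebraMap k L) : A k →+* A L)) :
    f ∈ Submodule.span L (MvPolynomial.map (algebraMap k L) '' (I : Set (A k))) := by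
  have hX : ∀ i, ∀ x ∈ Submodule.span L (MvPolynomial.map (algebraMap k L) '' (I : Set (A k))),
      X i * x ∈ Submodule.span L (MvPolynomial.map (algebraMap k L) '' (I : Set (A k))) := by
    intro i x hx
    induction hx using Submodule.span_induction with
    | mem x hx =>
      obtain ⟨a, ha, rfl⟩ := hx
      exact Submodule.subset_span ⟨X i * a, Ideal.mul_mem_left _ _ ha, by simp⟩
    | zero => simp
    | add x y _ _ hx hy => rw [mul_add]; exact add_mem hx hy
    | smul c x _ hx => rw [mul_smul_comm]; exact Submodule.smul_mem _ _ hx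
  have hc : ∀ c : A L,
      ∀ x ∈ Submodule.span L (MvPolynomial.map (algebraMap k L) '' (I : Set (A k))),
      c * x ∈ Submodule.span L (MvPolynomial.map (algebraMap k L) '' (I : Set (A k))) := by
    intro c
    induction c using MvPolynomial.induction_on with
    | C a => intro x hx; rw [← smul_eq_C_mul]; exact Submodule.smul_mem _ _ hx
    | add p q hp hq => intro x hx; rw [add_mul]; exact add_mem (hp x hx) (hq x hx)
    | mul_X p i hp => intro x hx; rw [mul_assoc]; exact hp _ (hX i x hx)
  induction hf using Submodule.span_induction with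
  | mem x hx => exact Submodule.subset_span hx
  | zero => simp
  | add x y _ _ hx hy => exact add_mem hx hy
  | smul c x _ hx => exact hc c x hx

lemma pc_map {I : Ideal (A k)} (hI : IsHomog I) (n : ℕ) :
    pc (I.map (MvPolynomial.map (algebraMap k L) : A k →+* A L)) n =
      Submodule.span L (MvPolynomial.map (algebraMap k L) '' (pc I n : Set (A k))) := by
  apply le_antisymm
  · rintro f ⟨hf, hn⟩
    rw [← homogeneousComponent_eq_self hn]
    have hf' := mem_span_of_mem_map hf
    clear hf hn
    induction hf' using Submodule.span_induction with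
    | mem x hx =>
      obtain ⟨a, ha, rfl⟩ := hx
      rw [map_comp]
      exact Submodule.subset_span ⟨_, ⟨hI a ha n, homogeneousComponent_isHomogeneous n a⟩, rfl⟩
    | zero => simp
    | add x y _ _ hx hy => rw [map_add]; exact add_mem hx hy
    | smul c x _ hx => rw [map_smul]; exact Submodule.smul_mem _ _ hx
  · rw [Submodule.span_le]
    rintro _ ⟨a, ha, rfl⟩
    exact ⟨Ideal.mem_map_of_mem _ ha.1, ha.2.map _⟩

lemma hf_map {I : Ideal (A k)} (hI : IsHomog I) (n : ℕ) :
    hilbFun (I.map (MvPolynomial.map (algebraMap k L) : A k →+* A L)) n = hilbFun I n := by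
  have h1 := hf_add_dm I n
  have h2 := hf_add_dm (I.map (MvPolynomial.map (algebraMap k L) : A k →+* A L)) n
  have h3 := hf_add_dm (⊤ : Ideal (A k)) n
  have h4 := hf_add_dm ((⊤ : Ideal (A k)).map (MvPolynomial.map (algebraMap k L) : A k →+* A L)) n
  rw [pc_map hI, finrank_span_map] at h2
  rw [pc_map isHomog_top, finrank_span_map, Ideal.map_top] at h4
  rw [hf_top] at h3 h4
  omega

lemma iInf_mult_le_map {ι : Type} (M : ι → Matrix (Fin 4) (Fin 4) k) (e : ℕ) (b : ι → Bool) :
    ⨅ i, mult ((M i).map (algebraMap k L)) e (b i) =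
      (⨅ i, mult (M i) e (b i)).map (MvPolynomial.map (algebraMap k L) : A k →+* A L) := by
  apply le_antisymm
  · intro f hf
    let β := Basis.ofVectorSpace k L
    obtain ⟨c, hc⟩ := TensorProduct.eq_repr_basis_left β ((algebraTensorAlgEquiv k L).symm f)
    have hf' : f = c.sum fun i n => β i • MvPolynomial.map (algebraMap k L) n := by
      apply (algebraTensorAlgEquiv k L).symm.injective
      rw [← hc, Finsupp.sum, Finsupp.sum, map_sum]
      refine Finset.sum_congr rfl (fun i _ => ?_)
      rw [← algebraTensorAlgEquiv_tmul, AlgEquiv.symm_apply_apply]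
    have key : ∀ (T : A k →ₗ[k] B k) (T' : A L →ₗ[L] B L),
        (∀ g, T' (MvPolynomial.map (algebraMap k L) g) = MvPolynomial.map (algebraMap k L) (T g)) →
        T' f = 0 → ∀ i, T (c i) = 0 := by
      intro T T' hT h0 i
      have := TensorProduct.sum_tmul_basis_left_eq_zero β (c.mapRange T (map_zero T)) (by
        apply (algebraTensorAlgEquiv k L).injective
        rw [Finsupp.sum_mapRange_index (by simp), map_zero, ← h0, hf', Finsupp.sum, Finsupp.sum,
          map_sum, map_sum]
        refine Finset.sum_congr rfl (fun i _ => ?_)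
        rw [algebraTensorAlgEquiv_tmul, map_smul, hT])
      simpa using DFunLike.congr_fun this i
    rw [hf', Finsupp.sum]
    refine Ideal.sum_mem _ (fun j _ => ?_)
    rw [smul_eq_C_mul]
    refine Ideal.mul_mem_left _ _ (Ideal.mem_map_of_mem _ (Ideal.mem_iInf.2 fun i => ?_))
    have hi := Ideal.mem_iInf.1 hf i
    exact ⟨key (psi (M i)).toLinearMap (psi _).toLinearMap (fun g => (map_psi _ _ g).symm) hi.1 j,
      key (der (M i) e (b i)) (der _ e (b i)) (fun g => (map_der _ _ _ _ g).symm) hi.2 j⟩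
  · rw [Ideal.map_le_iff_le_comap]
    intro f hf
    rw [Ideal.mem_comap, Ideal.mem_iInf]
    intro i
    have hi := Ideal.mem_iInf.1 hf i
    exact ⟨by rw [← map_psi, hi.1, map_zero], by rw [← map_der, hi.2, map_zero]⟩

end bc

lemma I0_cfg_map {k L : Type} [Field k] [Field L] {Pt Ln : Type} {inc : Pt → Ln → Prop}
    (F : Aff k inc) (φ : k →+* L) (e : ℕ) :
    I0 (cfg (F.map φ) e) = (I0 (cfg F e)).map (MvPolynomial.map φ : A k →+* A L) := by
  let := φ.toAlgebra
  have := iInf_mult_le_map (L := L) (Mx F) e (fun i => i.isRight)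
  simp only [I0, cfg_Q, Mx_map]
  exact this

lemma chart_map {R S : Type} [CommRing R] [CommRing S] (φ : R →+* S) (I : Ideal (A R))
    (i : Fin 4) : (chart I i).map (MvPolynomial.map φ : A R →+* A S) =
      chart (I.map (MvPolynomial.map φ : A R →+* A S)) i := by
  simp [chart, Ideal.map_sup, Ideal.map_span]

lemma SameSub.map {R S : Type} [CommRing R] [CommRing S] (φ : R →+* S) {I J : Ideal (A R)}
    (h : SameSub I J) : SameSub (I.map (MvPolynomial.map φ : A R →+* A S))
      (J.map (MvPolynomial.map φ : A R →+* A S)) :=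
  fun i => by rw [← chart_map, ← chart_map, h i]

/-- Existence of the Hilbert polynomial of a union of multiple lines. -/
theorem exists_hilbert_poly {k : Type} [Field k] [Infinite k] {ι : Type} [Fintype ι]
    [DecidableEq ι] [Nonempty ι] {e : ℕ} (L : ι → MLine k e) :
    ∃ (d : ℕ) (g : ℤ), 1 ≤ d ∧ ∃ N : ℕ, ∀ n : ℕ, N ≤ n →
      (hilbFun (I0 L) n : ℤ) = d * n + 1 - g := by
  have havoid : ∀ W : ι → Submodule k (A k), (∀ i, W i ≤ Hn k 1) → (∀ i, finrank k (W i) < 4) →
      ∃ u ∈ Hn k 1, ∀ i, u ∉ W i := by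
    intro W hW hW4
    obtain ⟨x, hx⟩ := Submodule.exists_forall_notMem_of_forall_ne_top
      (fun i => (W i).comap (Hn k 1).subtype) (fun i h => by
        have h1 := Submodule.comap_subtype_eq_top.1 h
        have : Module.Finite k (W i) := Submodule.finiteDimensional_of_le (hW i)
        have h2 := Submodule.finrank_mono h1
        have := hW4 i
        rw [finrank_Hn_one] at h2
        omega)
    exact ⟨x, x.2, hx⟩
  have hgrow : ∀ (W : Submodule k (A k)) (u : A k), W ≤ Hn k 1 → u ∈ Hn k 1 → u ∉ W →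
      finrank k ↥(W ⊔ Submodule.span k {u}) = finrank k W + 1 := by
    intro W u hW _ huW
    have : Module.Finite k W := Submodule.finiteDimensional_of_le hW
    have h1 := Submodule.finrank_sup_add_finrank_inf_eq W (Submodule.span k {u})
    have h2 : W ⊓ Submodule.span k {u} = ⊥ :=
      disjoint_iff.1 (Submodule.disjoint_span_singleton_of_notMem huW)
    rw [h2, finrank_bot, finrank_span_singleton (v := u) (fun h => huW (by simp [h]))] at h1
    exact h1
  obtain ⟨u, hu, huP⟩ := havoid (fun i => pc (L i).P 1) (fun i => pc_le _ _)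
    (fun i => by rw [(L i).finrank_one]; omega)
  have hle : ∀ i, pc (L i).P 1 ⊔ Submodule.span k {u} ≤ Hn k 1 := fun i =>
    sup_le (pc_le _ _) ((Submodule.span_singleton_le_iff_mem _ _).2 hu)
  obtain ⟨v, hv, hvP⟩ := havoid (fun i => pc (L i).P 1 ⊔ Submodule.span k {u}) hle
    (fun i => by rw [hgrow _ u (pc_le _ _) hu (huP i), (L i).finrank_one]; omega)
  have htop : ∀ i, pc (L i).P 1 ⊔ Submodule.span k {u} ⊔ Submodule.span k {v} = Hn k 1 := by
    intro i
    apply Submodule.eq_of_le_of_finrank_eq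
      (sup_le (hle i) ((Submodule.span_singleton_le_iff_mem _ _).2 hv))
    rw [hgrow _ v (hle i) hv (hvP i), hgrow _ u (pc_le _ _) hu (huP i), (L i).finrank_one,
      finrank_Hn_one]
  have hrad : irr k ≤ (I0 L ⊔ Ideal.span {u} ⊔ Ideal.span {v}).radical := by
    rw [Ideal.radical_eq_sInf]
    refine le_sInf ?_
    rintro r ⟨hr, hrp⟩
    have h1 : ∃ i, (L i).P ≤ r := by
      have h2 : Finset.univ.inf (fun i => (L i).Q) ≤ r := by
        refine le_trans ?_ ((le_sup_left.trans le_sup_left).trans hr)
        rw [Finset.inf_univ_eq_iInf]; rfl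
      obtain ⟨i, -, hi⟩ := (hrp.inf_le').1 h2
      exact ⟨i, fun a ha => (hrp.mem_or_mem (hi ((L i).sq a ha a ha))).elim id id⟩
    obtain ⟨i, hi⟩ := h1
    have h2 : Hn k 1 ≤ r.restrictScalars k := by
      rw [← htop i]
      refine sup_le (sup_le (fun x hx => hi hx.1) ?_) ?_
      · rw [Submodule.span_singleton_le_iff_mem]
        exact hr (Ideal.mem_sup_left (Ideal.mem_sup_right (Ideal.mem_span_singleton_self u)))
      · rw [Submodule.span_singleton_le_iff_mem]
        exact hr (Ideal.mem_sup_right (Ideal.mem_span_singleton_self v))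
    exact irr_le_iff.2 (fun a => h2 (isHomogeneous_X k a))
  obtain ⟨M, hM⟩ := Ideal.exists_pow_le_of_le_radical_of_fg hrad (idealOfVars_fg _ _)
  have hb : IsHomog (I0 L ⊔ Ideal.span {u}) := (I0_hom L).sup (isHomog_span_singleton hu)
  let a : ℕ → ℕ := fun n => hilbFun (I0 L ⊔ Ideal.span {u}) (M + n)
  have ha : Antitone a := by
    refine antitone_nat_of_succ_le (fun n => ?_)
    have h1 := hf_colon hb hv (M + n)
    rw [hf_eq_zero_of_irr_pow_le hM (by omega)] at h1
    have h2 : hilbFun (Submodule.colon (I0 L ⊔ Ideal.span {u}) {v}) (M + n) ≤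
        hilbFun (I0 L ⊔ Ideal.span {u}) (M + n) := hf_anti (fun x hx => by
      rw [Submodule.mem_colon_singleton, smul_eq_mul]; exact Ideal.mul_mem_right _ _ hx) _
    simp only [a, ← add_assoc]
    omega
  obtain ⟨n0, hn0⟩ : ∃ n0, ∀ n, n0 ≤ n → a n = a n0 := by
    obtain ⟨n0, hn0⟩ := WellFounded.has_min wellFounded_lt (Set.range a) ⟨_, 0, rfl⟩
    obtain ⟨⟨n0, rfl⟩, hmin⟩ := hn0
    exact ⟨n0, fun n hn => le_antisymm (ha hn) (not_lt.1 (hmin _ ⟨n, rfl⟩))⟩
  have hstep : ∀ n, hilbFun (I0 L) (n + 1) =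
      hilbFun (I0 L ⊔ Ideal.span {u}) (n + 1) + hilbFun (I0 L) n :=
    hf_nzd (I0_hom L) hu (fun f hf => I0_nzd L (fun i h => huP i ⟨h, hu⟩) hf)
  have hlin : ∀ t, hilbFun (I0 L) (M + n0 + t) = hilbFun (I0 L) (M + n0) + a n0 * t := by
    intro t
    induction t with
    | zero => simp
    | succ t ih =>
      have h1 := hstep (M + n0 + t)
      have h2 := hn0 (n0 + t + 1) (by omega)
      simp only [a, ← add_assoc] at h2 ih ⊢
      rw [h1, h2, ih]; ring
  refine ⟨a n0, (a n0 : ℤ) * (M + n0 : ℕ) + 1 - hilbFun (I0 L) (M + n0), ?_, M + n0,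
    fun n hn => ?_⟩
  · by_contra h0
    have h1 : a n0 = 0 := by omega
    have h2 := hlin (hilbFun (I0 L) (M + n0))
    have h3 := hf_anti (I0_le_P L (Classical.arbitrary ι)) (M + n0 + hilbFun (I0 L) (M + n0))
    rw [MLine.hfP, h2, h1] at h3
    omega
  · obtain ⟨t, rfl⟩ := Nat.exists_eq_add_of_le hn
    rw [hlin]
    push_cast
    ring

theorem isFamily_of_field {k : Type} [Field k] {I : Ideal (A k)} (hI : IsHomog I) {d : ℕ} {g : ℤ}
    {N : ℕ} (h : ∀ n : ℕ, N ≤ n → (hilbFun I n : ℤ) = d * n + 1 - g) : IsFamily d g I :=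
  ⟨hI, IsNoetherian.noetherian I, fun _ => inferInstance, fun q => ⟨N, fun n hn => by
    rw [hf_map hI]; exact h n hn⟩⟩

attribute [local instance] MvPolynomial.algebraMvPolynomial in
theorem no_lift (p : ℕ) [Fact p.Prime] {k : Type} [Field k] (F : Aff k (incp p)) (hF : F.Good)
    {e : ℕ} (he : 4 * Fintype.card (Jx (Ix p) (Ix p)) ^ 2 + 1 ≤ e)
    {V K : Type} [CommRing V] [IsDomain V] [ValuationRing V] [Field K] [Algebra V K]
    [IsFractionRing V K] [IsAlgClosed K] (φ : k →+* ResidueField V) {J : Ideal (A V)}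
    (hJ : IsHomog J) (hflat : ∀ i, Module.Flat V (A V ⧸ chart J i))
    (hsame : SameSub (J.map (dn V)) ((I0 (cfg F e)).map (MvPolynomial.map φ : A k →+* A _))) :
    (p : K) = 0 := by
  classical
  rw [← I0_cfg_map] at hsame
  set L := cfg (F.map φ) e with hL
  have hIt : IsHomog (J.map (up V K)) := hJ.map _
  have hle : red V K (J.map (up V K)) ≤ I0 L := by
    refine (hIt.red (V := V)).le_of_homog (fun n f0 hf0 hn => ?_)
    obtain ⟨f, -, hf, rfl⟩ := mem_red_homog hIt hf0 hn
    obtain ⟨_, ⟨c, hc, rfl⟩, hcf⟩ := (IsLocalization.algebraMap_mem_map_algebraMap_iff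
      ((nonZeroDivisors V).map (C (σ := Fin 4))) (A K) J f).1 hf
    rw [mem_I0]
    intro l
    obtain ⟨i, hi⟩ := (L l).exists_X_notMem
    have h1 : f ∈ chart J i := by
      have := hflat i
      have hreg := Module.Flat.isSMulRegular_of_nonZeroDivisors (M := A V ⧸ chart J i) hc
      rw [← Ideal.Quotient.eq_zero_iff_mem]
      apply hreg
      simp only [smul_zero]
      rw [← Ideal.Quotient.mkₐ_eq_mk V, ← map_smul, smul_eq_C_mul, Ideal.Quotient.mkₐ_eq_mk,
        Ideal.Quotient.eq_zero_iff_mem]
      exact Ideal.mem_sup_left hcf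
    have h2 : dn V f ∈ chart (I0 L) i := by
      rw [← hsame i, ← chart_map]
      exact Ideal.mem_map_of_mem _ h1
    obtain ⟨M, hM⟩ := exists_X_pow_mul_mem (I0_hom L) hn h2
    exact (L l).primary _ _ (I0_le_Q L l hM) (fun h => hi ((L l).primeP.mem_of_pow_mem _ h))
  have hJ0 : J.map (dn V) ≤ red V K (J.map (up V K)) :=
    Ideal.map_mono Ideal.le_comap_map
  have hJ0h : IsHomog (J.map (dn V)) := hJ.map _
  have hrad : irr _ ≤ (Submodule.colon (J.map (dn V)) (I0 L : Set (A (ResidueField V)))).radical := by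
    rw [irr_le_iff]
    intro i
    have h1 : I0 L ≤ ⨆ M : ℕ, Submodule.colon (J.map (dn V)) {X i ^ M} := by
      refine (I0_hom L).le_of_homog (fun n f hf hn => ?_)
      obtain ⟨M, hM⟩ := exists_X_pow_mul_mem hJ0h hn (i := i)
        (by rw [hsame i]; exact Ideal.mem_sup_left hf)
      refine Submodule.mem_iSup_of_mem M ?_
      rwa [Submodule.mem_colon_singleton, smul_eq_mul, mul_comm]
    have hmono : Monotone (fun M : ℕ => Submodule.colon (J.map (dn V)) {(X i : A _) ^ M}) := by
      refine monotone_nat_of_le_succ (fun M x hx => ?_)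
      rw [Submodule.mem_colon_singleton, smul_eq_mul] at hx ⊢
      rw [pow_succ, ← mul_assoc]
      exact Ideal.mul_mem_right _ _ hx
    obtain ⟨M, hM⟩ := (monotone_stabilizes_iff_noetherian.2 inferInstance) ⟨_, hmono⟩
    refine ⟨M, Submodule.mem_colon.2 (fun f hf => ?_)⟩
    have h2 : (⨆ M : ℕ, Submodule.colon (J.map (dn V)) {(X i : A _) ^ M}) ≤
        Submodule.colon (J.map (dn V)) {(X i : A _) ^ M} := by
      refine iSup_le (fun m => ?_)
      rcases le_total m M with h | h
      · exact hmono h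
      · exact (hM m h).ge
    have := h2 (h1 hf)
    rwa [Submodule.mem_colon_singleton, smul_eq_mul, mul_comm] at this
  obtain ⟨M, hM⟩ := Ideal.exists_pow_le_of_le_radical_of_fg hrad (idealOfVars_fg _ _)
  obtain ⟨N, hN⟩ := eventually_mem_of_irr_pow_mul_le hJ0h (IsNoetherian.noetherian (I0 L))
    (M := M) (Ideal.mul_le.2 fun x hx f hf => Submodule.mem_colon.1 (hM hx) f hf)
  have S : Setup V K L (J.map (up V K)) N :=
    ⟨cfg_distinct (hF.map φ) e, cfg_skew (hF.map φ) e, he, hIt, hle,
      fun n hn f hf hfn => hJ0 (hN n hn f hf hfn)⟩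
  obtain ⟨U, hU, hU2, hUU⟩ := S.lift
  obtain ⟨F'⟩ := ((cfg_pattern (hF.map φ) e).transfer hUU).aff hU hU2
  exact char_of_aff p F'

end Pool.Agent.MP_eba2ed_ag
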