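import Pool.Agent.MP_eba2ed_ag.Bas
import Pool.Agent.MP_eba2ed_ag.NoLift

/-! Saturation, base change and locality of families. -/

namespace Pool.Agent.MP_eba2ed_ag

open MvPolynomial Module IsLocalRing

variable {R : Type} [CommRing R]

/-- The largest homogeneous ideal contained in four given ideals. -/
noncomputable def sat (c : Fin 4 → Ideal (A R)) : Ideal (A R) :=
  Ideal.span {f | (∀ i, f ∈ c i) ∧ ∃ n, f.IsHomogeneous n}

lemma sat_homog (c : Fin 4 → Ideal (A R)) : IsHomog (sat c) := isHomog_span fun _ hf => hf.2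

lemma sat_le (c : Fin 4 → Ideal (A R)) (i : Fin 4) : sat c ≤ c i :=
  Ideal.span_le.2 fun _ hf => hf.1 i

lemma mem_sat {c : Fin 4 → Ideal (A R)} {f : A R} {n : ℕ} (hf : f.IsHomogeneous n) :
    f ∈ sat c ↔ ∀ i, f ∈ c i :=
  ⟨fun h i => sat_le c i h, fun h => Ideal.subset_span ⟨h, n, hf⟩⟩

lemma le_sat {c : Fin 4 → Ideal (A R)} {I : Ideal (A R)} (hI : IsHomog I) (h : ∀ i, I ≤ c i) :
    I ≤ sat c :=
  hI.le_of_homog fun _ _ hf hn => (mem_sat hn).2 fun i => h i hf

lemma le_chart (I : Ideal (A R)) (i : Fin 4) : I ≤ chart I i := le_sup_left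

lemma X_sub_one_mem (I : Ideal (A R)) (i : Fin 4) : X i - 1 ∈ chart I i :=
  Ideal.mem_sup_right (Ideal.subset_span rfl)

lemma mem_of_X_pow_mul {c : Ideal (A R)} {i : Fin 4} (hc : X i - 1 ∈ c) {f : A R} {M : ℕ}
    (h : X i ^ M * f ∈ c) : f ∈ c := by
  obtain ⟨u, hu⟩ := sub_one_dvd_pow_sub_one (X i : A R) M
  have : f = X i ^ M * f - (X i - 1) * (u * f) := by rw [← mul_assoc, ← hu]; ring
  rw [this]
  exact sub_mem h (Ideal.mul_mem_right _ _ hc)

lemma sat_sat (I : Ideal (A R)) {f : A R} {n : ℕ} (hf : f.IsHomogeneous n)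
    (h : ∀ i, X i * f ∈ sat (chart I)) : f ∈ sat (chart I) :=
  (mem_sat hf).2 fun i => mem_of_X_pow_mul (X_sub_one_mem I i) (M := 1)
    (by rw [pow_one]; exact sat_le _ i (h i))

lemma bc_sat_le {R' : Type} [CommRing R'] (φ : R →+* R') (I : Ideal (A R)) :
    bc φ (sat (chart I)) ≤ sat (chart (bc φ I)) :=
  le_sat ((sat_homog _).map φ) fun i => by
    rw [← chart_map]; exact Ideal.map_mono (sat_le _ i)

lemma SameSub.sat_eq {I J : Ideal (A R)} (h : SameSub I J) : sat (chart I) = sat (chart J) := by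
  rw [show chart I = chart J from funext h]

lemma mem_of_kos {J : Ideal (A R)} (hJ : IsHomog J) {m : ℕ} (hK : ∀ n, m ≤ n → Kos J n) {k : ℕ}
    (hk : m ≤ k) {f : A R} (hf : f.IsHomogeneous k) (h : f ∈ sat (chart J)) : f ∈ J := by
  have h1 : irr R ≤ (Submodule.colon J {f}).radical := by
    rw [irr_le_iff]
    intro i
    obtain ⟨M, hM⟩ := exists_X_pow_mul_mem hJ hf (sat_le _ i h)
    exact ⟨M, Submodule.mem_colon_singleton.2 hM⟩
  obtain ⟨t, ht⟩ := Ideal.exists_pow_le_of_le_radical_of_fg h1 (idealOfVars_fg _ _)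
  have h2 : ∀ a ∈ irr R ^ t, a * f ∈ J := fun a ha => Submodule.mem_colon_singleton.1 (ht ha)
  clear ht h1 h
  induction t generalizing k f with
  | zero => simpa using h2 1 (by simp)
  | succ t ih =>
    refine (hK k hk).sat hf fun i => ih (k := 1 + k) (by omega) ((isHomogeneous_X R i).mul hf) ?_
    intro a ha
    rw [← mul_assoc]
    exact h2 _ (by rw [pow_succ]; exact Ideal.mul_mem_mul ha (X_mem_irr i))

lemma sat_iff_of_kos {J : Ideal (A R)} (hJ : IsHomog J) {m : ℕ} (hK : ∀ n, m ≤ n → Kos J n)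
    {k : ℕ} (hk : m ≤ k) {f : A R} (hf : f.IsHomogeneous k) : f ∈ J ↔ f ∈ sat (chart J) :=
  ⟨fun h => le_sat hJ (le_chart J) h, mem_of_kos hJ hK hk hf⟩

lemma chart_le_of {I J : Ideal (A R)} (hI : IsHomog I) {m : ℕ}
    (h : ∀ k, m ≤ k → ∀ f ∈ I, f.IsHomogeneous k → f ∈ J) (i : Fin 4) :
    chart I i ≤ chart J i := by
  refine sup_le (hI.le_of_homog fun n f hf hn => ?_) le_sup_right
  refine mem_of_X_pow_mul (X_sub_one_mem J i) (M := m) (le_chart J i ?_)
  exact h (m + n) (by omega) _ (Ideal.mul_mem_left _ _ hf)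
    (by simpa using ((isHomogeneous_X R i).pow m).mul hn)

lemma chart_le_of_le_sat {I J : Ideal (A R)} (h : I ≤ sat (chart J)) (i : Fin 4) :
    chart I i ≤ chart J i :=
  sup_le (h.trans (sat_le _ i)) le_sup_right

/-- The Hilbert polynomial of an ideal over a field is `d t + 1 - g`. -/
def HP (d : ℕ) (g : ℤ) {K : Type} [Field K] (I : Ideal (A K)) : Prop :=
  ∃ N : ℕ, ∀ n : ℕ, N ≤ n → (hilbFun I n : ℤ) = d * n + 1 - g

lemma hf_congr {K : Type} [Field K] {I J : Ideal (A K)} {n : ℕ}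
    (h : ∀ f : A K, f.IsHomogeneous n → (f ∈ I ↔ f ∈ J)) : hilbFun I n = hilbFun J n :=
  le_antisymm (hf_le_of_pc_le fun f hf hn => (h f hn).2 hf)
    (hf_le_of_pc_le fun f hf hn => (h f hn).1 hf)

lemma HP.of_same {d : ℕ} {g : ℤ} {K : Type} [Field K] {I J : Ideal (A K)} (h : HP d g I)
    (hI : IsHomog I) (hJ : IsHomog J) (e : SameSub I J) : HP d g J := by
  obtain ⟨N, hN⟩ := h
  obtain ⟨N1, h1⟩ := kos_large hI
  obtain ⟨N2, h2⟩ := kos_large hJ
  refine ⟨N + N1 + N2, fun n hn => ?_⟩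
  rw [← hN n (by omega)]
  congr 1
  refine hf_congr fun f hf => ?_
  rw [sat_iff_of_kos hJ h2 (by omega) hf, sat_iff_of_kos hI h1 (by omega) hf, e.sat_eq]

lemma HP.map {d : ℕ} {g : ℤ} {K K' : Type} [Field K] [Field K'] {I : Ideal (A K)} (h : HP d g I)
    (hI : IsHomog I) (φ : K →+* K') : HP d g (bc φ I) := by
  let := φ.toAlgebra
  obtain ⟨N, hN⟩ := h
  exact ⟨N, fun n hn => by rw [← hN n hn]; exact congrArg _ (hf_map hI n)⟩

lemma IsFamily.hp {d : ℕ} {g : ℤ} {I : Ideal (A R)} (h : IsFamily d g I) {K : Type} [Field K]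
    (φ : R →+* K) : HP d g (bc φ I) := by
  have := RingHom.ker_isPrime φ
  let q := RingHom.ker φ
  let ι : q.ResidueField →+* K := Ideal.ResidueField.lift q φ le_rfl (fun a ha => Ne.isUnit ha)
  have h1 : ι.comp (algebraMap R _) = φ := by ext; simp [ι]
  rw [← h1, ← bc_bc]
  exact HP.map (h.2.2.2 ⟨q, this⟩) (h.1.map _) ι

lemma flat_bc {R' : Type} [CommRing R'] (φ : R →+* R') {c : Ideal (A R)}
    (h : Flat R (A R ⧸ c)) : Flat R' (A R' ⧸ bc φ c) := by
  let := φ.toAlgebra
  exact Flat.isBaseChange R R' _ _ (isBaseChange_qm R' c)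

lemma IsFamily.map {d : ℕ} {g : ℤ} {I : Ideal (A R)} (h : IsFamily d g I) {R' : Type}
    [CommRing R'] (φ : R →+* R') : IsFamily d g (bc φ I) := by
  refine ⟨h.1.map φ, h.2.1.map _, fun i => ?_, fun q => ?_⟩
  · rw [← chart_map]; exact flat_bc φ (h.2.2.1 i)
  · have := h.hp ((algebraMap R' q.asIdeal.ResidueField).comp φ)
    rwa [← bc_bc] at this

lemma flat_of_local {c : Ideal (A R)} (h : ∀ (P : Ideal R) [P.IsMaximal],
    Flat (Localization.AtPrime P) (A (Localization.AtPrime P) ⧸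
      bc (algebraMap R (Localization.AtPrime P)) c)) : Flat R (A R ⧸ c) := by
  have : ∀ (P : Ideal R) [P.IsMaximal], IsLocalizedModule.AtPrime P
      (qm (Localization.AtPrime P) c) := fun P _ =>
    (isLocalizedModule_iff_isBaseChange P.primeCompl (Localization.AtPrime P) _).2
      (isBaseChange_qm _ c)
  refine @flat_of_isLocalized_maximal R R _ _ _ _ _ _ _ _ (fun P _ => A (Localization.AtPrime P) ⧸
    bc (algebraMap R (Localization.AtPrime P)) c) _ _ _ _
    (fun P _ => qm (Localization.AtPrime P) c) this ?_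
  intro P _
  exact (flat_iff_of_isLocalization (Localization.AtPrime P) P.primeCompl _).1 (h P)

lemma exists_homogenize (J : Ideal (A R)) (i : Fin 4) (p : A R) {N : ℕ} (hN : p.totalDegree ≤ N) :
    ∃ p' : A R, p'.IsHomogeneous N ∧ p' - p ∈ chart J i := by
  refine ⟨∑ j ∈ Finset.range (p.totalDegree + 1), X i ^ (N - j) * homogeneousComponent j p,
    IsHomogeneous.sum _ _ _ fun j hj => ?_, ?_⟩
  · have := ((isHomogeneous_X R i).pow (N - j)).mul (homogeneousComponent_isHomogeneous j p)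
    rwa [show 1 * (N - j) + j = N by simp at hj; omega] at this
  · conv => enter [2, 2]; rw [← sum_homogeneousComponent p]
    rw [← Finset.sum_sub_distrib]
    refine Ideal.sum_mem _ fun j _ => ?_
    rw [← sub_one_mul]
    exact Ideal.mul_mem_right _ _ (Ideal.mem_of_dvd _ (sub_one_dvd_pow_sub_one _ _)
      (X_sub_one_mem J i))

lemma flat_chart {J : Ideal (A R)} (hJ : IsHomog J) {m : ℕ}
    (h : ∀ k, m ≤ k → Projective R (Mn J k)) (i : Fin 4) : Flat R (A R ⧸ chart J i) := by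
  refine Flat.of_forall_isTrivialRelation fun {l f x} hx => ?_
  choose p hp using fun a => Ideal.Quotient.mk_surjective (x a)
  let N := m + Finset.univ.sup fun a => (p a).totalDegree
  choose p' hp' h1 using fun a => exists_homogenize J i (p a) (N := N)
    ((Finset.le_sup (f := fun a => (p a).totalDegree) (Finset.mem_univ a)).trans
      (Nat.le_add_left _ _))
  have h2 : ∀ a, Ideal.Quotient.mk (chart J i) (p' a) = x a := fun a => by
    rw [← hp, Ideal.Quotient.eq]; exact h1 a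
  have h3 : (∑ a, f a • p' a).IsHomogeneous N :=
    (Hn R N).sum_mem fun a _ => (Hn R N).smul_mem _ (hp' a)
  obtain ⟨M, hM⟩ := exists_X_pow_mul_mem hJ (i := i) h3 (by
    rw [← Ideal.Quotient.eq_zero_iff_mem, ← hx, ← Ideal.Quotient.mkₐ_eq_mk R, map_sum]
    simp [h2])
  have := h (M + N) (by omega)
  let x' : Fin l → Mn J (M + N) := fun a => ⟨Ideal.Quotient.mk J (X i ^ M * p' a),
    mem_Mn.2 ⟨_, by simpa using ((isHomogeneous_X R i).pow M).mul (hp' a), rfl⟩⟩
  have h4 : ∑ a, f a • x' a = 0 := by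
    apply Subtype.ext
    rw [← Ideal.Quotient.eq_zero_iff_mem, Finset.mul_sum, ← Ideal.Quotient.mkₐ_eq_mk R,
      map_sum] at hM
    simpa [x'] using hM
  obtain ⟨k, a, y, h5, h6⟩ := Flat.isTrivialRelation_of_sum_smul_eq_zero h4
  let π : Mn J (M + N) →ₗ[R] (A R ⧸ chart J i) :=
    (Ideal.Quotient.factorₐ R (le_chart J i)).toLinearMap ∘ₗ (Mn J (M + N)).subtype
  refine ⟨k, a, fun j => π (y j), fun b => ?_, h6⟩
  have h7 : π (x' b) = x b := by
    rw [← h2]
    change Ideal.Quotient.mk (chart J i) (X i ^ M * p' b) = _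
    rw [Ideal.Quotient.eq, ← sub_one_mul]
    exact Ideal.mul_mem_right _ _ (Ideal.mem_of_dvd _ (sub_one_dvd_pow_sub_one _ _)
      (X_sub_one_mem J i))
  rw [← h7, h5 b, map_sum]
  simp

lemma mem_of_local {c : Ideal (A R)} {f : A R}
    (h : ∀ P : Ideal R, P.IsMaximal → ∃ t ∉ P, C t * f ∈ c) : f ∈ c := by
  let b : Ideal R := (Submodule.colon c {f}).comap C
  have : b = ⊤ := by
    by_contra hb
    obtain ⟨P, hP, hle⟩ := Ideal.exists_le_maximal b hb
    obtain ⟨t, ht, h1⟩ := h P hP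
    exact ht (hle (Submodule.mem_colon_singleton.2 h1))
  have h1 : (1 : R) ∈ b := this ▸ Submodule.mem_top
  simpa using Submodule.mem_colon_singleton.1 h1

lemma le_of_away {c c' : Ideal (A R)} (h : ∀ P : Ideal R, P.IsPrime → ∃ g ∉ P,
    bc (algebraMap R (Localization.Away g)) c ≤ bc (algebraMap R (Localization.Away g)) c') :
    c ≤ c' := by
  intro f hf
  refine mem_of_local fun P hP => ?_
  obtain ⟨g, hg, h1⟩ := h P hP.isPrime
  obtain ⟨_, ⟨n, rfl⟩, h2⟩ := spread (Submonoid.powers g) (h1 (Ideal.mem_map_of_mem _ hf))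
  exact ⟨_, fun h3 => hg (hP.isPrime.mem_of_pow_mem n h3), h2⟩

/-- Monomials that are independent in the closed fibre are independent over a local ring. -/
lemma indep_of_flat [IsLocalRing R] {I : Ideal (A R)} (hflat : ∀ i, Flat R (A R ⧸ chart I i))
    {B : Set Mono} {k : ℕ} (hB : BasisMod (sat (chart (bc (residue R) I))) B k) :
    ∀ g ∈ restrictSupport R B, g ∈ sat (chart I) → g = 0 := by
  let κ := ResidueField R
  let L : A R →ₗ[R] (∀ i, A R ⧸ chart I i) :=
    LinearMap.pi fun i => (Ideal.Quotient.mkₐ R (chart I i)).toLinearMap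
  let L' : A κ →ₗ[κ] (∀ i, A κ ⧸ bc (algebraMap R κ) (chart I i)) :=
    LinearMap.pi fun i => (Ideal.Quotient.mkₐ κ _).toLinearMap
  let ρ : (∀ i, A R ⧸ chart I i) →ₗ[R] (∀ i, A κ ⧸ bc (algebraMap R κ) (chart I i)) :=
    LinearMap.pi fun i => qm κ (chart I i) ∘ₗ LinearMap.proj i
  have h1 : LinearIndepOn κ (fun m => L' (monomial m 1)) B := by
    rw [indep_iff]
    intro g hg h0
    refine hB.indep g hg ((mem_sat (homog_of_restrict hB.deg hg)).2 fun i => ?_)
    rw [← chart_map]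
    exact Ideal.Quotient.eq_zero_iff_mem.1 (congrFun h0 i)
  have h2 : Flat R (∀ i, A R ⧸ chart I i) :=
    .of_linearEquiv (DirectSum.linearEquivFunOnFintype R (Fin 4) _).symm
  have h3 : LinearIndepOn R (fun m => L (monomial m 1)) B := by
    refine IsLocalRing.linearIndependent_of_flat _ (LinearIndependent.of_comp
      (LinearMap.liftBaseChange κ ρ) ?_)
    have e : (⇑(LinearMap.liftBaseChange κ ρ) ∘
        ⇑(TensorProduct.mk R (ResidueField R) (∀ i, A R ⧸ chart I i) 1) ∘
          fun x : B => L (monomial x.1 1)) = fun x : B => L' (monomial x.1 1) := by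
      funext m i
      simp [ρ, L, L', qm_mk]
    exact e ▸ h1
  intro g hg hgI
  refine (indep_iff L B).1 h3 g hg ?_
  funext i
  exact Ideal.Quotient.eq_zero_iff_mem.2 (sat_le _ i hgI)

lemma basis_of_lifts [IsLocalRing R] {I : Ideal (A R)} (hflat : ∀ i, Flat R (A R ⧸ chart I i))
    {B : Set Mono} {k : ℕ} (hB : BasisMod (sat (chart (bc (residue R) I))) B k)
    (hL : Lifts (sat (chart I)) (sat (chart (bc (residue R) I))) k) :
    BasisMod (sat (chart I)) B k := by
  refine ⟨hB.deg, fun f hf => ?_, indep_of_flat hflat hB⟩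
  let J := sat (chart I)
  have h1 : Mn J k ≤ (restrictSupport R B).map (Ideal.Quotient.mkₐ R J).toLinearMap := by
    refine Submodule.le_of_le_smul_of_le_jacobson_bot (I := maximalIdeal R)
      (Module.Finite.iff_fg.1 inferInstance) (maximalIdeal_le_jacobson _) ?_
    rintro _ ⟨p, hp, rfl⟩
    obtain ⟨gb, hgb, h2⟩ := hB.span _ (IsHomogeneous.map hp (residue R))
    obtain ⟨g, hg, h3⟩ : ∃ g ∈ restrictSupport R B, MvPolynomial.map (residue R) g = gb := by
      choose s hs using residue_surjective (R := R)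
      refine ⟨∑ m ∈ gb.support, monomial m (s (coeff m gb)), Submodule.sum_mem _ fun m hm =>
        (monomial_mem_restrictSupport R).2 (Or.inl (hgb hm)), ?_⟩
      rw [map_sum]
      conv_rhs => rw [gb.as_sum]
      simp [hs]
    refine Submodule.mem_sup.2 ⟨_, ⟨g, hg, rfl⟩, _, hL (p - g)
      (IsHomogeneous.sub hp (homog_of_restrict hB.deg hg)) (by rwa [map_sub, h3]), by simp [J]⟩
  obtain ⟨g, hg, h2⟩ := h1 ⟨f, hf, rfl⟩
  exact ⟨g, hg, Ideal.Quotient.eq.1 h2.symm⟩

/-- Cohomology and base change for a flat family over a local ring. -/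
theorem lifts_of_kos [IsLocalRing R] {I : Ideal (A R)} (hI : IsHomog I)
    (hflat : ∀ i, Flat R (A R ⧸ chart I i)) {m : ℕ}
    (hK : ∀ n, m ≤ n → Kos (sat (chart (bc (residue R) I))) n) :
    ∀ k, m ≤ k → Lifts (sat (chart I)) (sat (chart (bc (residue R) I))) k := by
  obtain ⟨N, hN⟩ := kos_large (hI.map (residue R))
  have key : ∀ t k, m ≤ k → N ≤ k + t →
      Lifts (sat (chart I)) (sat (chart (bc (residue R) I))) k := by
    intro t
    induction t with
    | zero =>
      intro k _ hk f hf hfb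
      obtain ⟨a, h1, h2, h3⟩ := exists_lift_bc hI (hf.map _)
        (mem_of_kos (hI.map _) hN hk (hf.map _) hfb)
      exact lifts_of hf h1 (le_sat hI (le_chart I) h2) h3
    | succ t ih =>
      intro k hk hk'
      obtain ⟨B, hB⟩ := exists_basisMod (sat (chart (bc (residue R) I))) (k + 2)
      exact lifts_down (bc_sat_le _ I) (fun f hf => sat_sat I hf) (hK k hk)
        (ih _ (by omega) (by omega))
        (basis_of_lifts hflat hB (ih _ (by omega) (by omega))).proj
  exact fun k hk => key N k hk (by omega)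

end Pool.Agent.MP_eba2ed_ag
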