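import Pool.Agent.MP_eba2ed_ag.NoLift

/-! From non-liftability to a component of the Hilbert scheme in characteristic `p`. -/

namespace Pool.Agent.MP_eba2ed_ag

open CategoryTheory AlgebraicGeometry MvPolynomial IsLocalRing

lemma isAlgClosed_residueField {K : Type} [Field K] [IsAlgClosed K] (V : ValuationSubring K) :
    IsAlgClosed (ResidueField V) := by
  refine IsAlgClosed.of_exists_root _ (fun q hq hirr => ?_)
  obtain ⟨Q, hQ, hdeg, hmon⟩ := Polynomial.lifts_and_degree_eq_and_monic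
    (show q ∈ Polynomial.lifts (residue V) from
      Polynomial.map_surjective _ residue_surjective q) hq
  obtain ⟨x, hx⟩ := IsAlgClosed.exists_aeval_eq_zero K Q (by
    rw [hdeg]; exact (Polynomial.degree_pos_of_irreducible hirr).ne')
  obtain ⟨y, rfl⟩ := (IsIntegrallyClosed.isIntegral_iff (R := V) (K := K)).1 ⟨Q, hmon, hx⟩
  refine ⟨residue V y, ?_⟩
  rw [Polynomial.aeval_algebraMap_apply, map_eq_zero_iff _ (IsFractionRing.injective V K)] at hx
  rw [← hQ, Polynomial.eval_map, Polynomial.eval₂_hom]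
  simpa using congrArg (residue V) hx

lemma exists_valuation {R : Type} [CommRing R] (y' y : Ideal R) [y'.IsPrime] [y.IsPrime]
    (h : y' ≤ y) : ∃ (K : Type) (_ : Field K) (_ : IsAlgClosed K) (V : ValuationSubring K)
      (θ : R →+* V), (∀ r, residue V (θ r) = 0 ↔ r ∈ y) ∧ ∀ r, (θ r : K) = 0 → r ∈ y' := by
  let K := AlgebraicClosure (FractionRing (R ⧸ y'))
  let ρ : R →+* K := (algebraMap (FractionRing (R ⧸ y')) K).comp
    ((algebraMap (R ⧸ y') (FractionRing (R ⧸ y'))).comp (Ideal.Quotient.mk y'))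
  have hρ : ∀ r, ρ r = 0 → r ∈ y' := by
    intro r hr
    simpa [ρ, Ideal.Quotient.eq_zero_iff_mem] using hr
  let f : Localization.AtPrime y →+* K := IsLocalization.lift (M := y.primeCompl) (g := ρ)
    (fun s => Ne.isUnit (fun h0 => s.2 (h (hρ _ h0))))
  obtain ⟨V, hV, hloc⟩ := IsLocalRing.exists_factor_valuationRing f
  let f' : Localization.AtPrime y →+* V := f.codRestrict V.toSubring hV
  have hloc' : IsLocalHom f' := hloc
  refine ⟨K, inferInstance, inferInstance, V, f'.comp (algebraMap R _), fun r => ?_, fun r hr => ?_⟩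
  · rw [residue_eq_zero_iff, mem_maximalIdeal, mem_nonunits_iff, RingHom.comp_apply,
      isUnit_map_iff, IsLocalization.AtPrime.isUnit_to_map_iff _ y]
    simp
  · apply hρ
    rw [← IsLocalization.lift_eq (S := Localization.AtPrime y) (M := y.primeCompl) (g := ρ)
      (fun s => Ne.isUnit (fun h0 => s.2 (h (hρ _ h0))))]
    exact hr

lemma exists_embedding {R k κ : Type} [CommRing R] [Field k] [Field κ] [IsAlgClosed κ]
    (hk : (Int.castRingHom k).IsIntegral) (ψ : R →+* k) (χ : R →+* κ) (h : ∀ r, χ r = 0 ↔ ψ r = 0) :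
    ∃ ι : k →+* κ, ι.comp ψ = χ := by
  let R0 := R ⧸ RingHom.ker ψ
  have : (RingHom.ker ψ).IsPrime := RingHom.ker_isPrime ψ
  let a1 : Algebra R0 k := (RingHom.kerLift ψ).toAlgebra
  let a2 : Algebra R0 κ := (Ideal.Quotient.lift (RingHom.ker ψ) χ
    (fun r hr => (h r).2 hr)).toAlgebra
  have : FaithfulSMul R0 k :=
    (faithfulSMul_iff_algebraMap_injective _ _).2 (RingHom.kerLift_injective ψ)
  have : FaithfulSMul R0 κ := (faithfulSMul_iff_algebraMap_injective _ _).2
    (RingHom.lift_injective_of_ker_le_ideal _ _ (fun r hr => (h r).1 hr))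
  have hint : (algebraMap R0 k).IsIntegral :=
    RingHom.IsIntegral.tower_top (Int.castRingHom R0) _ (by
      rw [RingHom.ext_int ((algebraMap R0 k).comp (Int.castRingHom R0)) (Int.castRingHom k)]
      exact hk)
  have : Algebra.IsAlgebraic R0 k := ⟨fun a => IsIntegral.isAlgebraic (hint a)⟩
  let ι : k →ₐ[R0] κ := IsAlgClosed.lift
  refine ⟨ι.toRingHom, RingHom.ext fun r => ?_⟩
  exact ι.commutes (Ideal.Quotient.mk _ r)

theorem exists_component (p : ℕ) (hp : p.Prime) : ∃ (d : ℕ) (g : ℤ), 1 ≤ d ∧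
    ∀ H : Scheme.{0}, IsHilbertScheme d g H → ∃ Z ∈ irreducibleComponents H,
      (specZIsTerminal.from H) '' Z = {x | x.asIdeal = Ideal.span {(p : ℤ)}} := by
  classical
  have : Fact p.Prime := ⟨hp⟩
  let k := AlgebraicClosure (ZMod p)
  have hk : (Int.castRingHom k).IsIntegral := by
    rw [RingHom.ext_int (Int.castRingHom k)
      ((algebraMap (ZMod p) k).comp (Int.castRingHom (ZMod p)))]
    exact RingHom.IsIntegral.trans _ _
      (RingHom.isIntegral_of_surjective _ (ZMod.ringHom_surjective _))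
      (fun a => Algebra.IsIntegral.isIntegral a)
  obtain ⟨F, hF⟩ := exists_aff_char p k
  let e := 4 * Fintype.card (Jx (Ix p) (Ix p)) ^ 2 + 1
  obtain ⟨d, g, hd, N, hN⟩ := exists_hilbert_poly (cfg F e)
  refine ⟨d, g, hd, ?_⟩
  rintro H ⟨fam, hfam, hnat, -, hsurj⟩
  obtain ⟨s0, hs0⟩ := hsurj (.of k) (I0 (cfg F e)) (isFamily_of_field (I0_hom _) hN)
  let pt : Spec (.of k) := closedPoint k
  obtain ⟨R, j, hj, y, hy⟩ := Scheme.exists_Spec_apply_eq (s0 pt)
  have hrange : Set.range s0 ⊆ Set.range j := by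
    rintro _ ⟨z, rfl⟩
    exact ⟨y, by rw [hy, Subsingleton.elim z pt]⟩
  let ψ : R ⟶ .of k := Spec.preimage (IsOpenImmersion.lift j s0 hrange)
  have hψ : Spec.map ψ ≫ j = s0 := by simp [ψ]
  have hyψ : y = Spec.map ψ pt := by
    apply j.isOpenEmbedding.injective
    rw [hy, ← hψ]; simp
  have hker : ∀ r, r ∈ y.asIdeal ↔ ψ.hom r = 0 := by
    intro r
    rw [hyψ]
    change (ψ.hom r : k) ∈ maximalIdeal k ↔ (ψ.hom r : k) = 0
    rw [IsLocalRing.maximalIdeal_eq_bot, Ideal.mem_bot]
  let Z := irreducibleComponent (s0 pt)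
  obtain ⟨η, hη⟩ := QuasiSober.sober (isIrreducible_irreducibleComponent (x := s0 pt))
    isClosed_irreducibleComponent
  have hsp : η ⤳ s0 pt := hη.specializes mem_irreducibleComponent
  obtain ⟨y', rfl⟩ : η ∈ Set.range j :=
    hsp.mem_open j.isOpenEmbedding.isOpen_range ⟨y, hy⟩
  have hle : y'.asIdeal ≤ y.asIdeal := by
    rw [← hy, j.isOpenEmbedding.isInducing.specializes_iff] at hsp
    exact (PrimeSpectrum.le_iff_specializes y' y).2 hsp
  have hpy : (p : R) ∈ y'.asIdeal := by
    obtain ⟨K, _, _, V, θ, hθ, hθ'⟩ := exists_valuation y'.asIdeal y.asIdeal hle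
    have := isAlgClosed_residueField V
    obtain ⟨ι, hι⟩ := exists_embedding (k := k) hk ψ.hom ((residue V).comp θ)
      (fun r => (hθ r).trans (hker r))
    apply hθ'
    have hJ := hfam (.of V) (Spec.map (CommRingCat.ofHom θ) ≫ j)
    have h1 := hnat (.of V) (.of (ResidueField V)) (CommRingCat.ofHom (residue V))
      (Spec.map (CommRingCat.ofHom θ) ≫ j)
    have h2 := hnat (.of k) (.of (ResidueField V)) (CommRingCat.ofHom ι) s0
    have h3 : Spec.map (CommRingCat.ofHom (residue V)) ≫ Spec.map (CommRingCat.ofHom θ) ≫ j =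
        Spec.map (CommRingCat.ofHom ι) ≫ s0 := by
      rw [← hψ, ← Category.assoc, ← Category.assoc, ← Spec.map_comp, ← Spec.map_comp]
      congr 2
      ext1
      exact hι.symm
    rw [h3] at h1
    have h4 := no_lift p F hF (e := e) le_rfl (V := V) (K := K) ι hJ.1 hJ.2.2.1
      (fun i => (h1 i).symm.trans ((h2 i).trans (SameSub.map ι hs0 i)))
    simpa using h4
  have hmax : (Ideal.span {(p : ℤ)}).IsMaximal :=
    PrincipalIdealRing.isMaximal_of_irreducible (Nat.prime_iff_prime_int.1 hp).irreducible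
  have hπ : j ≫ specZIsTerminal.from H = Spec.map (CommRingCat.ofHom (Int.castRingHom R)) :=
    specZIsTerminal.hom_ext _ _
  have hη' : Ideal.span {(p : ℤ)} ≤ (specZIsTerminal.from H (j y')).asIdeal := by
    rw [← Scheme.Hom.comp_apply, hπ, Ideal.span_singleton_le_iff_mem]
    change Int.castRingHom R p ∈ y'.asIdeal
    simpa using hpy
  have hall : ∀ z ∈ Z, (specZIsTerminal.from H z).asIdeal = Ideal.span {(p : ℤ)} := by
    intro z hz
    have h1 := (hη.specializes hz).map (specZIsTerminal.from H).continuous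
    have h2 := (PrimeSpectrum.le_iff_specializes _ _).2 h1
    exact (hmax.eq_of_le (specZIsTerminal.from H z).isPrime.ne_top (hη'.trans h2)).symm
  refine ⟨Z, irreducibleComponent_mem_irreducibleComponents _, ?_⟩
  ext x
  constructor
  · rintro ⟨z, hz, rfl⟩
    exact hall z hz
  · intro hx
    exact ⟨s0 pt, mem_irreducibleComponent,
      PrimeSpectrum.ext ((hall _ mem_irreducibleComponent).trans hx.symm)⟩

end Pool.Agent.MP_eba2ed_ag
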