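import Mathlib

/-! Affine charts of a functor on commutative rings. -/

namespace Pool.Agent.MP_eba2ed_ag.Rep

open CategoryTheory AlgebraicGeometry Limits

/-- A set valued functor on commutative rings, in unbundled form. -/
structure Fn where
  obj : CommRingCat.{0} → Type
  mp : ∀ {R R' : CommRingCat.{0}}, (R ⟶ R') → obj R → obj R'
  mp_id : ∀ (R : CommRingCat.{0}) (c : obj R), mp (𝟙 R) c = c
  mp_comp : ∀ {R R' R'' : CommRingCat.{0}} (φ : R ⟶ R') (ψ : R' ⟶ R'') (c : obj R),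
    mp (φ ≫ ψ) c = mp ψ (mp φ c)

abbrev Aw {R : CommRingCat.{0}} (g : R) : CommRingCat.{0} := .of (Localization.Away g)

noncomputable abbrev aw {R : CommRingCat.{0}} (g : R) : R ⟶ Aw g :=
  CommRingCat.ofHom (algebraMap R (Localization.Away g))

noncomputable def lft {R R' : CommRingCat.{0}} {g : R} (φ : R ⟶ R') (h : IsUnit (φ g)) :
    Aw g ⟶ R' :=
  CommRingCat.ofHom (IsLocalization.Away.lift (S := Localization.Away g) (g := φ.hom) g h)

@[reassoc (attr := simp)]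
lemma aw_lft {R R' : CommRingCat.{0}} {g : R} (φ : R ⟶ R') (h : IsUnit (φ g)) :
    aw g ≫ lft φ h = φ := by
  ext a
  simp [lft]

lemma aw_ext {R R' : CommRingCat.{0}} {g : R} {φ ψ : Aw g ⟶ R'} (h : aw g ≫ φ = aw g ≫ ψ) :
    φ = ψ := by
  ext1
  exact IsLocalization.ringHom_ext (Submonoid.powers g) (congrArg CommRingCat.Hom.hom h)

lemma aw_unit {R : CommRingCat.{0}} (g : R) : IsUnit (aw g g) :=
  IsLocalization.Away.algebraMap_isUnit (S := Localization.Away g) g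

/-- Every element of `R[1/g]` is a unit multiple of an element of `R`. -/
lemma exists_num {R : CommRingCat.{0}} {g : R} (z : Aw g) : ∃ a : R,
    ∀ (R' : CommRingCat.{0}) (φ : Aw g ⟶ R'), IsUnit (φ z) ↔ IsUnit ((aw g ≫ φ) a) := by
  obtain ⟨n, a, h⟩ := IsLocalization.Away.surj (S := Localization.Away g) g z
  refine ⟨a, fun R' φ => ?_⟩
  have h1 : (aw g ≫ φ) a = φ z * φ (aw g g) ^ n := by
    rw [← map_pow, ← map_mul]
    exact congrArg φ h.symm
  rw [h1, IsUnit.mul_iff]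
  exact ⟨fun h2 => ⟨h2, ((aw_unit g).map φ.hom).pow n⟩, fun h2 => h2.1⟩

instance (R : CommRingCat.{0}) (g : R) : IsOpenImmersion (Spec.map (aw g)) :=
  Scheme.instIsOpenImmersionMapOfHomAwayAlgebraMap g

lemma iso_open {R R' : CommRingCat.{0}} (i : R ≅ R') {X : Scheme.{0}} (f : Spec R ⟶ X)
    [IsOpenImmersion f] : IsOpenImmersion (Spec.map i.hom ≫ f) := inferInstance

lemma unit_iff {K : CommRingCat.{0}} (hK : IsField K) (a : K) : IsUnit a ↔ a ≠ 0 := by
  let := hK.toField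
  exact isUnit_iff_ne_zero

variable (F : Fn)

/-- `(B, ξ)` represents an open subfunctor of `F`. -/
structure IsChart (B : CommRingCat.{0}) (ξ : F.obj B) : Prop where
  mono : ∀ (R : CommRingCat.{0}) (φ ψ : B ⟶ R), F.mp φ ξ = F.mp ψ ξ → φ = ψ
  loc : ∀ (R K : CommRingCat.{0}) (_ : IsField K) (c : F.obj R) (φ : R ⟶ K) (ψ : B ⟶ K),
    F.mp φ c = F.mp ψ ξ → ∃ g : R, φ g ≠ 0 ∧ ∃ χ : B ⟶ Aw g, F.mp (aw g) c = F.mp χ ξ

variable {F}

lemma IsChart.away {B : CommRingCat.{0}} {ξ : F.obj B} (h : IsChart F B ξ) (f : B) :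
    IsChart F (Aw f) (F.mp (aw f) ξ) where
  mono R φ ψ e := by
    rw [← F.mp_comp, ← F.mp_comp] at e
    exact aw_ext (h.mono R _ _ e)
  loc R K hK c φ ψ e := by
    rw [← F.mp_comp] at e
    obtain ⟨g, hg, χ, hχ⟩ := h.loc R K hK c φ _ e
    obtain ⟨a, ha⟩ := exists_num (χ f)
    have hg' : IsUnit (φ g) := (unit_iff hK _).2 hg
    have e1 : χ ≫ lft φ hg' = aw f ≫ ψ := by
      apply h.mono
      rw [F.mp_comp, ← hχ, ← F.mp_comp, aw_lft, e]
    have h1 : IsUnit (φ a) := by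
      have := (ha K (lft φ hg')).1 (by
        rw [← CommRingCat.comp_apply, e1]
        exact (aw_unit f).map ψ.hom)
      rwa [aw_lft] at this
    have h2 : IsUnit (aw (g * a) g) ∧ IsUnit (aw (g * a) a) := by
      rw [← IsUnit.mul_iff, ← map_mul]; exact aw_unit _
    refine ⟨g * a, ?_, lft (χ ≫ lft (aw (g * a)) h2.1) ?_, ?_⟩
    · rw [← unit_iff hK, map_mul]; exact hg'.mul h1
    · rw [CommRingCat.comp_apply, ha, aw_lft]; exact h2.2
    · rw [← F.mp_comp, aw_lft, F.mp_comp, ← hχ, ← F.mp_comp, aw_lft]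

/-- Two charts through a common field valued point are locally isomorphic there. -/
lemma IsChart.key {B B' K : CommRingCat.{0}} {ξ : F.obj B} {ξ' : F.obj B'} (h : IsChart F B ξ)
    (h' : IsChart F B' ξ') (hK : IsField K) (a : B ⟶ K) (b : B' ⟶ K)
    (e : F.mp a ξ = F.mp b ξ') :
    ∃ w : B, a w ≠ 0 ∧ ∃ v : B' ⟶ Aw w, F.mp v ξ' = F.mp (aw w) ξ ∧
      IsOpenImmersion (Spec.map v) := by
  obtain ⟨g1, hg1, χ1, hχ1⟩ := h'.loc B K hK ξ a b e
  obtain ⟨g2, hg2, χ2, hχ2⟩ := h.loc B' K hK ξ' b a e.symm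
  have hg1' : IsUnit (a g1) := (unit_iff hK _).2 hg1
  obtain ⟨a1, ha1⟩ := exists_num (χ1 g2)
  have e1 : χ1 ≫ lft a hg1' = b := by
    apply h'.mono
    rw [F.mp_comp, ← hχ1, ← F.mp_comp, aw_lft, e]
  have h1 : IsUnit (a a1) := by
    have := (ha1 K (lft a hg1')).1 (by
      rw [← CommRingCat.comp_apply, e1]
      exact (unit_iff hK _).2 hg2)
    rwa [aw_lft] at this
  let w := g1 * a1
  have hw : IsUnit (aw w g1) ∧ IsUnit (aw w a1) := by
    rw [← IsUnit.mul_iff, ← map_mul]; exact aw_unit _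
  let v : B' ⟶ Aw w := χ1 ≫ lft (aw w) hw.1
  have hv : F.mp v ξ' = F.mp (aw w) ξ := by
    rw [F.mp_comp, ← hχ1, ← F.mp_comp, aw_lft]
  have hvg : IsUnit (v g2) := by
    rw [CommRingCat.comp_apply, ha1, aw_lft]; exact hw.2
  obtain ⟨b1, hb1⟩ := exists_num (χ2 w)
  have e2 : χ2 ≫ lft v hvg = aw w := by
    apply h.mono
    rw [F.mp_comp, ← hχ2, ← F.mp_comp, aw_lft, hv]
  have hvb : IsUnit (v b1) := by
    have := (hb1 _ (lft v hvg)).1 (by
      rw [← CommRingCat.comp_apply, e2]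
      exact aw_unit w)
    rwa [aw_lft] at this
  let w' := g2 * b1
  have hw' : IsUnit (aw w' g2) ∧ IsUnit (aw w' b1) := by
    rw [← IsUnit.mul_iff, ← map_mul]; exact aw_unit _
  have hvw : IsUnit (v w') := by rw [map_mul]; exact hvg.mul hvb
  let u0 : B ⟶ Aw w' := χ2 ≫ lft (aw w') hw'.1
  have hu0 : F.mp u0 ξ = F.mp (aw w') ξ' := by
    rw [F.mp_comp, ← hχ2, ← F.mp_comp, aw_lft]
  have huw : IsUnit (u0 w) := by
    rw [CommRingCat.comp_apply, hb1, aw_lft]; exact hw'.2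
  let i : Aw w' ≅ Aw w :=
    { hom := lft v hvw
      inv := lft u0 huw
      hom_inv_id := by
        apply aw_ext
        apply h'.mono
        rw [aw_lft_assoc, Category.comp_id, F.mp_comp, hv, ← F.mp_comp, aw_lft, hu0]
      inv_hom_id := by
        apply aw_ext
        apply h.mono
        rw [aw_lft_assoc, Category.comp_id, F.mp_comp, hu0, ← F.mp_comp, aw_lft, hv] }
  refine ⟨w, ?_, v, hv, ?_⟩
  · rw [← unit_iff hK, map_mul]; exact hg1'.mul h1
  · have : v = aw w' ≫ i.hom := (aw_lft v hvw).symm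
    rw [this, Spec.map_comp]
    exact iso_open i _

/-- An iterated localisation is a localisation. -/
lemma exists_iso {B : CommRingCat.{0}} (f : B) (w : Aw f) :
    ∃ (f' : B) (i : Aw w ≅ Aw f'), aw f ≫ aw w ≫ i.hom = aw f' := by
  obtain ⟨a, ha⟩ := exists_num w
  have h1 : IsUnit (aw (f * a) f) ∧ IsUnit (aw (f * a) a) := by
    rw [← IsUnit.mul_iff, ← map_mul]; exact aw_unit _
  have h2 : IsUnit (lft (aw (f * a)) h1.1 w) := by
    rw [ha, aw_lft]; exact h1.2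
  have h3 : IsUnit ((aw f ≫ aw w) (f * a)) := by
    rw [map_mul]
    exact ((aw_unit f).map (aw w).hom).mul ((ha _ (aw w)).1 (aw_unit w))
  refine ⟨f * a, ⟨lft _ h2, lft _ h3, ?_, ?_⟩, by simp⟩
  · apply aw_ext
    apply aw_ext
    simp
  · apply aw_ext
    simp

end Pool.Agent.MP_eba2ed_ag.Rep
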