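import Pool.Agent.MP_eba2ed_ag.Kos1

/-! The Koszul complex of a quotient of the polynomial ring, degree by degree. -/

namespace Pool.Agent.MP_eba2ed_ag

open MvPolynomial Module

section act
variable (S : Type) [CommRing S] (V : Type) [AddCommGroup V] [Module S V]

/-- Action of an integer matrix on vectors. -/
def act (M : Matrix TT TT ℤ) : (TT → V) →ₗ[S] (TT → V) where
  toFun y T := ∑ U, M T U • y U
  map_add' y z := by ext T; simp [Finset.sum_add_distrib]
  map_smul' s y := by
    ext T
    simp only [Pi.smul_apply, RingHom.id_apply, Finset.smul_sum]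
    exact Finset.sum_congr rfl fun U _ => smul_comm _ _ _

variable {S V}

lemma act_apply (M : Matrix TT TT ℤ) (y : TT → V) (T : TT) :
    act S V M y T = ∑ U, M T U • y U := rfl

lemma act_mul (M N : Matrix TT TT ℤ) : act S V M * act S V N = act S V (M * N) := by
  apply LinearMap.ext; intro y; ext T
  simp only [Module.End.mul_apply, act_apply, Matrix.mul_apply, Finset.smul_sum, Finset.sum_smul,
    mul_smul]
  exact Finset.sum_comm

lemma act_add (M N : Matrix TT TT ℤ) : act S V M + act S V N = act S V (M + N) := by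
  apply LinearMap.ext; intro y; ext T
  simp [act_apply, add_smul, Finset.sum_add_distrib]

lemma act_ex_anti (i j : Fin 4) :
    act S V (ex j) * act S V (ex i) = - (act S V (ex i) * act S V (ex j)) := by
  rw [eq_neg_iff_add_eq_zero, add_comm, act_mul, act_mul, act_add]
  apply LinearMap.ext; intro y; ext T
  simp [act_apply, ex_anti, -Matrix.add_apply]

lemma act_ex_sq (i : Fin 4) : act S V (ex i) * act S V (ex i) = 0 := by
  rw [act_mul]
  apply LinearMap.ext; intro y; ext T
  simp [act_apply, ex_sq]

lemma act_ex_hom (i j : Fin 4) : act S V (ex i) * act S V (ex j).transpose +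
    act S V (ex j).transpose * act S V (ex i) = if i = j then 1 else 0 := by
  rw [act_mul, act_mul, act_add]
  apply LinearMap.ext; intro y; ext T
  by_cases h : i = j <;> simp [act_apply, ex_hom, h, -Matrix.add_apply]

end act

section kd
variable (R : Type) [CommRing R] (V : Type) [AddCommGroup V] [Module (A R) V]

/-- The Koszul differential. -/
noncomputable def kd : (TT → V) →ₗ[A R] (TT → V) := ∑ i, (X i : A R) • act (A R) V (ex i)

/-- The homotopy for multiplication by `X j`. -/
noncomputable def kh (j : Fin 4) : (TT → V) →ₗ[A R] (TT → V) := act (A R) V (ex j).transpose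

variable {R V}

lemma kd_apply (y : TT → V) (T : TT) :
    kd R V y T = ∑ i, ∑ U, ex i T U • (X i : A R) • y U := by
  simp only [kd, LinearMap.sum_apply, Finset.sum_apply, LinearMap.smul_apply, Pi.smul_apply,
    act_apply, Finset.smul_sum]
  exact Finset.sum_congr rfl fun i _ => Finset.sum_congr rfl fun U _ => smul_comm _ _ _

lemma kd_kd (y : TT → V) : kd R V (kd R V y) = 0 := by
  have : kd R V * kd R V = 0 := by
    simp only [kd, Fin.sum_univ_four, add_mul, mul_add, smul_mul_smul_comm, act_ex_sq,
      act_ex_anti 0 1, act_ex_anti 0 2, act_ex_anti 0 3, act_ex_anti 1 2, act_ex_anti 1 3,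
      act_ex_anti 2 3]
    module
  exact congr($this y)

lemma kd_kh (j : Fin 4) (y : TT → V) :
    kd R V (kh R V j y) + kh R V j (kd R V y) = (X j : A R) • y := by
  have : kd R V * kh R V j + kh R V j * kd R V = (X j : A R) • 1 := by
    simp only [kd, kh, Finset.sum_mul, Finset.mul_sum, smul_mul_assoc, mul_smul_comm,
      ← Finset.sum_add_distrib, ← smul_add, act_ex_hom]
    rw [Finset.sum_eq_single j] <;> simp +contextual
  exact congr($this y)

lemma kd_nat {R' V' : Type} [CommRing R'] [AddCommGroup V'] [Module (A R') V'] {F : Type*}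
    [FunLike F V V'] [AddMonoidHomClass F V V'] (φ : F)
    (h : ∀ i v, φ ((X i : A R) • v) = (X i : A R') • φ v) (y : TT → V) (T : TT) :
    φ (kd R V y T) = kd R' V' (fun U => φ (y U)) T := by
  simp only [kd_apply, map_sum, map_zsmul, h]

lemma kd_single (v : V) (i : Fin 4) : kd R V (Pi.single ∅ v) {i} = (X i : A R) • v := by
  rw [kd_apply, Finset.sum_eq_single i]
  · simp [ex_single]
  · intro j _ hj
    simp [ex_single' j i _ hj]
  · simp

/-- Restriction to the components with `card T + 1 = j`. -/
def cut (j : ℕ) (y : TT → V) : TT → V := fun T => if T.card + 1 = j then y T else 0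

lemma kd_cut (j : ℕ) (y : TT → V) : kd R V (cut j y) = cut (j + 1) (kd R V y) := by
  ext T
  simp only [kd_apply, cut]
  split_ifs with h
  · refine Finset.sum_congr rfl fun i _ => Finset.sum_congr rfl fun U _ => ?_
    by_cases h0 : ex i T U = 0
    · simp [h0]
    · have := ex_card i T U h0
      rw [if_pos (by omega)]
  · refine Finset.sum_eq_zero fun i _ => Finset.sum_eq_zero fun U _ => ?_
    by_cases h0 : ex i T U = 0
    · simp [h0]
    · have := ex_card i T U h0
      rw [if_neg (by omega)]
      simp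

omit [CommRing R] [Module (A R) V] in
lemma sum_cut (y : TT → V) : ∑ j ∈ Finset.range 5, cut (j + 1) y = y := by
  ext T
  have : T.card ≤ 4 := by simpa using Finset.card_le_univ T
  rw [Finset.sum_apply, Finset.sum_eq_single T.card]
  · simp [cut]
  · intro b _ hb
    simp [cut, Ne.symm hb]
  · intro h
    simp at h
    omega

end kd

variable {R : Type} [CommRing R]

/-- Vectors of forms of total degree `n`. -/
def Lam (n : ℕ) (y : TT → A R) : Prop := ∀ T, (y T).IsHomogeneous (n + T.card)

lemma Lam.kd {n : ℕ} {y : TT → A R} (hy : Lam n y) : Lam n (kd R (A R) y) := by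
  intro T
  rw [kd_apply]
  refine IsHomogeneous.sum _ _ _ fun i _ => IsHomogeneous.sum _ _ _ fun U _ => ?_
  by_cases h0 : ex i T U = 0
  · simp [h0, isHomogeneous_zero]
  · have := ex_card i T U h0
    have h1 : (X i * y U).IsHomogeneous (n + T.card) := by
      have := (isHomogeneous_X R i).mul (hy U)
      rwa [show 1 + (n + U.card) = n + T.card by omega] at this
    exact (Hn R (n + T.card)).toAddSubgroup.zsmul_mem h1 _

lemma Lam.kh {n : ℕ} {y : TT → A R} (hy : Lam n y) (j : Fin 4) :
    Lam (n + 1) (kh R (A R) j y) := by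
  intro T
  rw [MP_eba2ed_ag.kh, act_apply]
  refine IsHomogeneous.sum _ _ _ fun U _ => ?_
  by_cases h0 : ex j U T = 0
  · simp [h0, isHomogeneous_zero]
  · have := ex_card j U T h0
    have h1 : (y U).IsHomogeneous (n + 1 + T.card) := by
      have := hy U
      rwa [show n + U.card = n + 1 + T.card by omega] at this
    exact (Hn R (n + 1 + T.card)).toAddSubgroup.zsmul_mem h1 _

lemma Lam.cut {n : ℕ} {y : TT → A R} (hy : Lam n y) (j : ℕ) : Lam n (cut j y) := by
  intro T
  unfold MP_eba2ed_ag.cut
  split_ifs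
  · exact hy T
  · exact isHomogeneous_zero _ _ _

lemma Lam.sub {n : ℕ} {y z : TT → A R} (hy : Lam n y) (hz : Lam n z) : Lam n (y - z) :=
  fun T => (hy T).sub (hz T)

/-- The projection to total degree `n`. -/
noncomputable def prj (n : ℕ) (y : TT → A R) : TT → A R :=
  fun T => homogeneousComponent (n + T.card) (y T)

lemma lam_prj (n : ℕ) (y : TT → A R) : Lam n (prj n y) :=
  fun _ => homogeneousComponent_isHomogeneous _ _

lemma Lam.prj_eq {n : ℕ} {y : TT → A R} (hy : Lam n y) : prj n y = y :=
  funext fun T => homogeneousComponent_eq_self (hy T)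

lemma Lam.prj_ne {n m : ℕ} {y : TT → A R} (hy : Lam n y) (h : m ≠ n) : prj m y = 0 := by
  funext T
  rw [prj, homogeneousComponent_of_mem (hy T), if_neg (by omega)]
  rfl

lemma kd_prj (n : ℕ) (y : TT → A R) : kd R (A R) (prj n y) = prj n (kd R (A R) y) := by
  funext T
  simp only [kd_apply, prj, map_sum, map_zsmul]
  refine Finset.sum_congr rfl fun i _ => Finset.sum_congr rfl fun U _ => ?_
  by_cases h0 : ex i T U = 0
  · simp [h0]
  · have := ex_card i T U h0
    rw [show n + T.card = n + U.card + 1 by omega, smul_eq_mul, smul_eq_mul, mul_comm (X i),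
      mul_comm (X i), comp_mul_homog (isHomogeneous_X R i)]

/-- Exactness of the Koszul complex of `A R ⧸ J` in total degree `n`. -/
def Kos (J : Ideal (A R)) (n : ℕ) : Prop :=
  ∀ z : TT → A R, Lam n z → (∀ T, kd R (A R) z T ∈ J) →
    ∃ y, Lam n y ∧ ∀ T, z T - kd R (A R) y T ∈ J

lemma Kos.congr {J J' : Ideal (A R)} {n : ℕ} (h : Kos J n)
    (e : ∀ k, n ≤ k → ∀ f : A R, f.IsHomogeneous k → (f ∈ J ↔ f ∈ J')) : Kos J' n := by
  intro z hz hd
  obtain ⟨y, hy, h1⟩ := h z hz (fun T => (e _ (by omega) _ (hz.kd T)).2 (hd T))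
  exact ⟨y, hy, fun T => (e _ (by omega) _ ((hz.sub hy.kd) T)).1 (h1 T)⟩

/-- It is enough to find a preimage of any degree. -/
lemma kos_of {J : Ideal (A R)} (hJ : IsHomog J) {n : ℕ} {z : TT → A R} (hz : Lam n z)
    {y : TT → A R} (h : ∀ T, z T - kd R (A R) y T ∈ J) :
    ∃ y, Lam n y ∧ ∀ T, z T - kd R (A R) y T ∈ J := by
  refine ⟨prj n y, lam_prj n y, fun T => ?_⟩
  have := hJ _ (h T) (n + T.card)
  rwa [map_sub, homogeneousComponent_eq_self (hz T), ← prj, ← kd_prj] at this

/-- Exactness at the first spot. -/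
lemma Kos.sat {J : Ideal (A R)} {n : ℕ} (h : Kos J n) {f : A R} (hf : f.IsHomogeneous n)
    (hX : ∀ i, X i * f ∈ J) : f ∈ J := by
  classical
  obtain ⟨y, -, h1⟩ := h (Pi.single ∅ f) (fun T => by
    by_cases hT : T = ∅
    · subst hT; simpa using hf
    · simp [hT, isHomogeneous_zero]) (fun T => by
    rw [kd_apply]
    refine Ideal.sum_mem _ fun i _ => Ideal.sum_mem _ fun U _ => zsmul_mem ?_ _
    by_cases hU : U = ∅
    · subst hU; simpa using hX i
    · simp [hU])
  have h2 : kd R (A R) y ∅ = 0 := by
    rw [kd_apply]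
    refine Finset.sum_eq_zero fun i _ => Finset.sum_eq_zero fun U _ => ?_
    by_cases h0 : ex i ∅ U = 0
    · simp [h0]
    · have := ex_card i ∅ U h0
      simp at this
  simpa [h2] using h1 ∅

end Pool.Agent.MP_eba2ed_ag
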