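import Pool.Agent.MP_eba2ed_ag.Kos2

/-! Koszul exactness: large degrees, localisation, descent along field extensions. -/

namespace Pool.Agent.MP_eba2ed_ag

open MvPolynomial Module

variable {R : Type} [CommRing R]

/-- Base change of an ideal. -/
noncomputable abbrev bc {R' : Type} [CommRing R'] (φ : R →+* R') (J : Ideal (A R)) :
    Ideal (A R') := J.map (MvPolynomial.map φ : A R →+* A R')

lemma bc_bc {R' R'' : Type} [CommRing R'] [CommRing R''] (φ : R →+* R') (ψ : R' →+* R'')
    (J : Ideal (A R)) : bc ψ (bc φ J) = bc (ψ.comp φ) J := by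
  rw [bc, bc, Ideal.map_map]
  congr 1
  exact RingHom.ext fun f => MvPolynomial.map_map _ _ f

lemma bc_id (J : Ideal (A R)) : bc (RingHom.id R) J = J := by
  have : (MvPolynomial.map (RingHom.id R) : A R →+* A R) = RingHom.id _ :=
    RingHom.ext fun f => MvPolynomial.map_id f
  rw [bc, this, Ideal.map_id]

lemma map_kd {R' : Type} [CommRing R'] (φ : R →+* R') (y : TT → A R) (T : TT) :
    MvPolynomial.map φ (kd R (A R) y T) = kd R' (A R') (fun U => MvPolynomial.map φ (y U)) T :=
  kd_nat (MvPolynomial.map φ : A R →+* A R') (fun i v => by simp) y T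

/-- Boundaries modulo `J`. -/
noncomputable def Bd (J : Ideal (A R)) : Submodule (A R) (TT → A R) :=
  LinearMap.range (kd R (A R)) ⊔ Submodule.pi Set.univ (fun _ => J)

lemma mem_Bd {J : Ideal (A R)} {z : TT → A R} :
    z ∈ Bd J ↔ ∃ y, ∀ T, z T - kd R (A R) y T ∈ J := by
  constructor
  · intro h
    obtain ⟨_, ⟨y, rfl⟩, w, hw, rfl⟩ := Submodule.mem_sup.1 h
    exact ⟨y, fun T => by simpa using hw T trivial⟩
  · rintro ⟨y, h⟩
    exact Submodule.mem_sup.2 ⟨_, ⟨y, rfl⟩, z - kd R (A R) y, fun T _ => h T, by simp⟩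

lemma prj_mem_Bd {J : Ideal (A R)} (hJ : IsHomog J) {z : TT → A R} (hz : z ∈ Bd J) (n : ℕ) :
    prj n z ∈ Bd J := by
  obtain ⟨y, h⟩ := mem_Bd.1 hz
  refine mem_Bd.2 ⟨prj n y, fun T => ?_⟩
  have := hJ _ (h T) (n + T.card)
  rwa [map_sub, ← prj, ← prj, ← kd_prj] at this

lemma kos_iff_Bd {J : Ideal (A R)} (hJ : IsHomog J) {n : ℕ} :
    Kos J n ↔ ∀ z : TT → A R, Lam n z → (∀ T, kd R (A R) z T ∈ J) → z ∈ Bd J := by
  constructor
  · intro h z hz hd
    obtain ⟨y, -, h1⟩ := h z hz hd
    exact mem_Bd.2 ⟨y, h1⟩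
  · intro h z hz hd
    obtain ⟨y, h1⟩ := mem_Bd.1 (h z hz hd)
    exact kos_of hJ hz h1

lemma smul_cycle {J : Ideal (A R)} {z : TT → A R} (hd : ∀ T, kd R (A R) z T ∈ J) (a : A R) :
    a • z - (C (constantCoeff a) : A R) • z ∈ Bd J := by
  have h1 : irr R ≤ Submodule.colon (Bd J) {z} := by
    rw [irr_le_iff]
    intro i
    rw [Submodule.mem_colon_singleton, ← kd_kh]
    refine Submodule.add_mem_sup ⟨_, rfl⟩ fun T _ => ?_
    rw [kh, act_apply]
    exact Ideal.sum_mem _ fun U _ => zsmul_mem (hd U) _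
  rw [← sub_smul, ← Submodule.mem_colon_singleton]
  apply h1
  rw [irr, idealOfVars, ← Set.image_univ, mem_ideal_span_X_image]
  intro m hm
  by_contra h
  push Not at h
  have : m = 0 := Finsupp.ext fun i => h i trivial
  subst this
  simp [constantCoeff_eq] at hm

lemma prj_add (n : ℕ) (y z : TT → A R) : prj n (y + z) = prj n y + prj n z := by
  funext T; simp [prj]

lemma exists_gen [IsNoetherianRing R] (J : Ideal (A R)) (m : ℕ) :
    ∃ s : Finset (TT → A R), (∀ z ∈ s, ∃ n, m ≤ n ∧ Lam n z ∧ ∀ T, kd R (A R) z T ∈ J) ∧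
      ∀ n, m ≤ n → ∀ z, Lam n z → (∀ T, kd R (A R) z T ∈ J) →
        z ∈ Submodule.span (A R) (s : Set (TT → A R)) := by
  let Z : Set (TT → A R) := {z | ∃ n, m ≤ n ∧ Lam n z ∧ ∀ T, kd R (A R) z T ∈ J}
  obtain ⟨s, hs, h⟩ := (Submodule.fg_span_iff_fg_span_finset_subset (R := A R) Z).1
    (IsNoetherian.noetherian _)
  exact ⟨s, fun z hz => hs hz, fun n hn z hz hd => h ▸ Submodule.subset_span ⟨n, hn, hz, hd⟩⟩

/-- The Koszul complex is exact in large degrees. -/
theorem kos_large [IsNoetherianRing R] {J : Ideal (A R)} (hJ : IsHomog J) :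
    ∃ N, ∀ n, N ≤ n → Kos J n := by
  obtain ⟨s, hs, hgen⟩ := exists_gen J 0
  choose! deg _ hdeg hcyc using hs
  refine ⟨s.sup deg + 1, fun n hn => (kos_iff_Bd hJ).2 fun z hz hd => ?_⟩
  have key : ∀ w ∈ Submodule.span (A R) (s : Set (TT → A R)), ∀ a : A R, prj n (a • w) ∈ Bd J := by
    intro w hw
    induction hw using Submodule.span_induction with
    | mem x hx =>
      intro a
      have h1 := prj_mem_Bd hJ (smul_cycle (hcyc x hx) a) n
      have h2 : Lam (deg x) ((C (constantCoeff a) : A R) • x) := fun T => by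
        simpa using (isHomogeneous_C _ (constantCoeff a)).mul (hdeg x hx T)
      have h3 : deg x ≤ s.sup deg := Finset.le_sup hx
      rw [← sub_add_cancel (a • x) ((C (constantCoeff a) : A R) • x), prj_add,
        h2.prj_ne (by omega), add_zero]
      exact h1
    | zero => intro a; rw [smul_zero, Lam.prj_eq (y := 0) (fun T => isHomogeneous_zero _ _ _)]; simp
    | add x y _ _ hx hy => intro a; rw [smul_add, prj_add]; exact add_mem (hx a) (hy a)
    | smul c x _ hx => intro a; rw [smul_smul]; exact hx _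
  have := key z (hgen n (Nat.zero_le _) z hz hd) 1
  rwa [one_smul, hz.prj_eq] at this

section loc

attribute [local instance] MvPolynomial.algebraMvPolynomial

variable (M : Submonoid R) {R' : Type} [CommRing R'] [Algebra R R'] [IsLocalization M R']

lemma spread {J : Ideal (A R)} {f : A R}
    (h : MvPolynomial.map (algebraMap R R') f ∈ bc (algebraMap R R') J) :
    ∃ t ∈ M, C t * f ∈ J := by
  obtain ⟨_, ⟨c, hc, rfl⟩, hcf⟩ := (IsLocalization.algebraMap_mem_map_algebraMap_iff
    (M.map (C (σ := Fin 4))) (A R') J f).1 h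
  exact ⟨c, hc, hcf⟩

lemma spread_fin {ι : Type*} [Finite ι] {J : ι → Ideal (A R)} {f : ι → A R}
    (h : ∀ i, MvPolynomial.map (algebraMap R R') (f i) ∈ bc (algebraMap R R') (J i)) :
    ∃ t ∈ M, ∀ i, C t * f i ∈ J i := by
  classical
  cases nonempty_fintype ι
  choose t ht h using fun i => spread M (h i)
  refine ⟨∏ i, t i, prod_mem fun i _ => ht i, fun i => ?_⟩
  rw [← Finset.prod_erase_mul _ _ (Finset.mem_univ i), map_mul, mul_assoc]
  exact Ideal.mul_mem_left _ _ (h i)

lemma clear_fin {ι : Type*} [Finite ι] (f' : ι → A R') :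
    ∃ u ∈ M, ∃ f : ι → A R, ∀ i, MvPolynomial.map (algebraMap R R') (f i) =
      C (algebraMap R R' u) * f' i := by
  obtain ⟨⟨_, u, hu, rfl⟩, h⟩ := IsLocalization.exist_integer_multiples_of_finite
    (M.map (C (σ := Fin 4))) f'
  choose f hf using h
  refine ⟨u, hu, f, fun i => ?_⟩
  have := hf i
  rw [Algebra.smul_def] at this
  simpa using this

lemma loc_down {J : Ideal (A R)} {z : TT → A R}
    (h : (fun T => MvPolynomial.map (algebraMap R R') (z T)) ∈ Bd (bc (algebraMap R R') J)) :
    ∃ t ∈ M, (C t : A R) • z ∈ Bd J := by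
  obtain ⟨y', hy'⟩ := mem_Bd.1 h
  obtain ⟨u, hu, y, hy⟩ := clear_fin M y'
  obtain ⟨v, hv, h1⟩ := spread_fin (R' := R') M (J := fun _ : TT => J)
    (f := fun T => C u * z T - kd R (A R) y T) (fun T => by
      have e : (fun U => MvPolynomial.map (algebraMap R R') (y U)) =
        (C (algebraMap R R' u) : A R') • y' := funext hy
      rw [map_sub, map_kd, e, map_smul, map_mul, map_C, Pi.smul_apply, smul_eq_mul, ← mul_sub]
      exact Ideal.mul_mem_left _ _ (hy' T))
  refine ⟨v * u, mul_mem hv hu, mem_Bd.2 ⟨(C v : A R) • y, fun T => ?_⟩⟩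
  have := h1 T
  rw [map_smul]
  simpa [mul_sub, mul_assoc] using this

include M in
lemma loc_up {J : Ideal (A R)} (hJ : IsHomog J) {n : ℕ}
    (h : ∀ z, Lam n z → (∀ T, kd R (A R) z T ∈ J) →
      ∃ t, IsUnit (algebraMap R R' t) ∧ (C t : A R) • z ∈ Bd J) :
    Kos (bc (algebraMap R R') J) n := by
  refine (kos_iff_Bd (hJ.map _)).2 fun z' hz' hd => ?_
  obtain ⟨u, hu, z0, hz0⟩ := clear_fin M z'
  have hz : ∀ T, MvPolynomial.map (algebraMap R R') (prj n z0 T) =
      C (algebraMap R R' u) * z' T := by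
    intro T
    rw [prj, ← map_comp, hz0, homogeneousComponent_eq_self]
    simpa using (isHomogeneous_C _ _).mul (hz' T)
  have e : (fun U => MvPolynomial.map (algebraMap R R') (prj n z0 U)) =
    (C (algebraMap R R' u) : A R') • z' := funext hz
  obtain ⟨v, hv, h1⟩ := spread_fin (R' := R') M (J := fun _ : TT => J)
    (f := fun T => kd R (A R) (prj n z0) T) (fun T => by
      rw [map_kd, e, map_smul]
      exact Ideal.mul_mem_left _ _ (hd T))
  obtain ⟨t, ht, h2⟩ := h ((C v : A R) • prj n z0)
    (fun T => by simpa using (isHomogeneous_C _ v).mul (lam_prj n z0 T))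
    (fun T => by rw [map_smul]; exact h1 T)
  obtain ⟨y, hy⟩ := mem_Bd.1 h2
  have h3 : (C (algebraMap R R' t * (algebraMap R R' v * algebraMap R R' u)) : A R') • z' ∈
      Bd (bc (algebraMap R R') J) := by
    refine mem_Bd.2 ⟨fun U => MvPolynomial.map (algebraMap R R') (y U), fun T => ?_⟩
    have := Ideal.mem_map_of_mem (MvPolynomial.map (algebraMap R R') : A R →+* A R') (hy T)
    rw [map_sub, map_kd] at this
    simpa [hz, mul_assoc] using this
  have h4 : IsUnit (C (algebraMap R R' t * (algebraMap R R' v * algebraMap R R' u)) : A R') :=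
    (ht.mul ((IsLocalization.map_units R' ⟨v, hv⟩).mul
      (IsLocalization.map_units R' ⟨u, hu⟩))).map _
  exact (Submodule.smul_mem_iff_of_isUnit _ h4).1 h3

/-- Generic exactness. -/
lemma generic_kos [IsNoetherianRing R] {J : Ideal (A R)} {m : ℕ}
    (h : ∀ n, m ≤ n → Kos (bc (algebraMap R R') J) n) :
    ∃ t ∈ M, ∀ n, m ≤ n → ∀ z, Lam n z → (∀ T, kd R (A R) z T ∈ J) → (C t : A R) • z ∈ Bd J := by
  classical
  obtain ⟨s, hs, hgen⟩ := exists_gen J m
  have h1 : ∀ z ∈ s, ∃ t ∈ M, (C t : A R) • z ∈ Bd J := by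
    intro z hz
    obtain ⟨n, hn, hz, hd⟩ := hs z hz
    apply loc_down (R' := R') M
    obtain ⟨y, -, hy⟩ := h n hn (fun T => MvPolynomial.map (algebraMap R R') (z T))
      (fun T => (hz T).map _) (fun T => by
        rw [← map_kd]; exact Ideal.mem_map_of_mem _ (hd T))
    exact mem_Bd.2 ⟨y, hy⟩
  choose! t ht h1 using h1
  refine ⟨∏ z ∈ s, t z, prod_mem ht, fun n hn z hz hd => ?_⟩
  have h2 := hgen n hn z hz hd
  clear hz hd
  induction h2 using Submodule.span_induction with
  | mem x hx =>
    rw [← Finset.prod_erase_mul _ _ hx, map_mul, mul_smul]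
    exact Submodule.smul_mem _ _ (h1 x hx)
  | zero => simp
  | add x y _ _ hx hy => rw [smul_add]; exact add_mem hx hy
  | smul c x _ hx => rw [smul_comm]; exact Submodule.smul_mem _ _ hx

end loc

lemma mem_span_of_mem_bc {R' : Type} [CommRing R'] (φ : R →+* R') {I : Ideal (A R)} {f : A R'}
    (hf : f ∈ bc φ I) : f ∈ Submodule.span R' (MvPolynomial.map φ '' (I : Set (A R))) := by
  have hX : ∀ i, ∀ x ∈ Submodule.span R' (MvPolynomial.map φ '' (I : Set (A R))),
      X i * x ∈ Submodule.span R' (MvPolynomial.map φ '' (I : Set (A R))) := by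
    intro i x hx
    induction hx using Submodule.span_induction with
    | mem x hx =>
      obtain ⟨a, ha, rfl⟩ := hx
      exact Submodule.subset_span ⟨X i * a, Ideal.mul_mem_left _ _ ha, by simp⟩
    | zero => simp
    | add x y _ _ hx hy => rw [mul_add]; exact add_mem hx hy
    | smul c x _ hx => rw [mul_smul_comm]; exact Submodule.smul_mem _ _ hx
  have hc : ∀ c : A R', ∀ x ∈ Submodule.span R' (MvPolynomial.map φ '' (I : Set (A R))),
      c * x ∈ Submodule.span R' (MvPolynomial.map φ '' (I : Set (A R))) := by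
    intro c
    induction c using MvPolynomial.induction_on with
    | C a => intro x hx; rw [← smul_eq_C_mul]; exact Submodule.smul_mem _ _ hx
    | add p q hp hq => intro x hx; rw [add_mul]; exact add_mem (hp x hx) (hq x hx)
    | mul_X p i hp => intro x hx; rw [mul_assoc]; exact hp _ (hX i x hx)
  induction hf using Submodule.span_induction with
  | mem x hx => exact Submodule.subset_span hx
  | zero => simp
  | add x y _ _ hx hy => exact add_mem hx hy
  | smul c x _ hx => exact hc c x hx

section field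
variable {k K : Type} [Field k] [Field K]

/-- A coefficientwise retraction of a field extension. -/
lemma exists_retraction (φ : k →+* K) : ∃ L : A K →+ A k,
    (∀ f, L (MvPolynomial.map φ f) = f) ∧ (∀ i f, L (X i * f) = X i * L f) ∧
    (∀ f, (L f).support ⊆ f.support) ∧ ∀ (I : Ideal (A k)), ∀ f ∈ bc φ I, L f ∈ I := by
  classical
  let := φ.toAlgebra
  obtain ⟨l, hl⟩ := (Algebra.linearMap k K).exists_leftInverse_of_injective
    (LinearMap.ker_eq_bot.2 φ.injective)
  have hl' : ∀ a, l (φ a) = a := fun a => congr($hl a)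
  let L0 : A K → A k := fun f => ∑ m ∈ f.support, monomial m (l (coeff m f))
  have hL : ∀ f m, coeff m (L0 f) = l (coeff m f) := by
    intro f m
    simp only [L0, coeff_sum, coeff_monomial]
    rw [Finset.sum_ite_eq']
    split_ifs with h
    · rfl
    · rw [notMem_support_iff.1 h, map_zero]
  let L : A K →+ A k :=
    { toFun := L0
      map_zero' := by ext m; simp [hL]
      map_add' := fun f g => by ext m; simp [hL] }
  have hL' : ∀ f m, coeff m (L f) = l (coeff m f) := hL
  refine ⟨L, fun f => ?_, fun i f => ?_, fun f m hm => ?_, fun I f hf => ?_⟩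
  · ext m; rw [hL', coeff_map, hl']
  · ext m
    rw [hL', coeff_X_mul', coeff_X_mul', hL']
    split_ifs <;> simp
  · rw [MvPolynomial.mem_support_iff] at hm ⊢
    intro h0
    rw [hL', h0, map_zero] at hm
    exact hm rfl
  · have h1 : ∀ c : K, L (c • f) ∈ I := by
      have := mem_span_of_mem_bc φ hf
      clear hf
      induction this using Submodule.span_induction with
      | mem x hx =>
        obtain ⟨a, ha, rfl⟩ := hx
        intro c
        have : L (c • MvPolynomial.map φ a) = C (l c) * a := by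
          ext m
          rw [hL', coeff_smul, coeff_map, coeff_C_mul, smul_eq_mul, mul_comm, mul_comm (l c),
            ← smul_eq_mul (coeff m a), ← map_smul]
          rfl
        rw [this]
        exact Ideal.mul_mem_left _ _ ha
      | zero => simp
      | add x y _ _ hx hy => intro c; rw [smul_add, map_add]; exact add_mem (hx c) (hy c)
      | smul c x _ hx => intro c'; rw [smul_smul]; exact hx _
    simpa using h1 1

lemma homog_of_support {R R' : Type} [CommRing R] [CommRing R'] {f : A R} {g : A R'} {n : ℕ}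
    (h : f.support ⊆ g.support) (hg : g.IsHomogeneous n) : f.IsHomogeneous n :=
  fun _ hm => hg (MvPolynomial.mem_support_iff.1 (h (MvPolynomial.mem_support_iff.2 hm)))

lemma Kos.descend (φ : k →+* K) {J : Ideal (A k)} {n : ℕ} (h : Kos (bc φ J) n) : Kos J n := by
  obtain ⟨L, h1, h2, h3, h4⟩ := exists_retraction φ
  intro z hz hd
  obtain ⟨y, hy, h5⟩ := h (fun T => MvPolynomial.map φ (z T)) (fun T => (hz T).map _)
    (fun T => by rw [← map_kd]; exact Ideal.mem_map_of_mem _ (hd T))
  refine ⟨fun T => L (y T), fun T => homog_of_support (h3 _) (hy T), fun T => ?_⟩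
  have := h4 J _ (h5 T)
  rwa [map_sub, h1, kd_nat (R' := k) L (fun i v => h2 i v)] at this

lemma mem_of_map_mem_bc (φ : k →+* K) {J : Ideal (A k)} {f : A k}
    (h : MvPolynomial.map φ f ∈ bc φ J) : f ∈ J := by
  obtain ⟨L, h1, -, -, h4⟩ := exists_retraction φ
  rw [← h1 f]
  exact h4 J _ h

end field

end Pool.Agent.MP_eba2ed_ag
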