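import Pool.Agent.MP_eba2ed_ag.Kos3

/-! The Koszul complex as a complex of modules over the base ring. -/

namespace Pool.Agent.MP_eba2ed_ag

open MvPolynomial Module

variable {R : Type} [CommRing R]

/-- The degree `k` part of `A R ⧸ J`. -/
noncomputable def Mn (J : Ideal (A R)) (k : ℕ) : Submodule R (A R ⧸ J) :=
  (Hn R k).map (Ideal.Quotient.mkₐ R J).toLinearMap

lemma mem_Mn {J : Ideal (A R)} {k : ℕ} {x : A R ⧸ J} :
    x ∈ Mn J k ↔ ∃ f : A R, f.IsHomogeneous k ∧ Ideal.Quotient.mk J f = x := Iff.rfl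

instance (n : ℕ) : Module.Finite R (Hn R n) :=
  Module.Finite.iff_fg.2 (homogeneousSubmodule_fg _ _ n)

instance (J : Ideal (A R)) (k : ℕ) : Module.Finite R (Mn J k) := by
  unfold Mn; infer_instance

/-- The terms of the Koszul complex in total degree `n`. -/
noncomputable def EE (J : Ideal (A R)) (n j : ℕ) : Submodule R (TT → A R ⧸ J) :=
  Submodule.pi Set.univ (fun T => if T.card + 1 = j then Mn J (n + T.card) else ⊥)

lemma mem_EE {J : Ideal (A R)} {n j : ℕ} {y : TT → A R ⧸ J} :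
    y ∈ EE J n j ↔ ∀ T, y T ∈ Mn J (n + T.card) ∧ (T.card + 1 ≠ j → y T = 0) := by
  rw [EE, Submodule.mem_pi]
  refine forall_congr' fun T => ?_
  by_cases h : T.card + 1 = j
  · simp [h]
  · simp only [Set.mem_univ, h, if_false, Submodule.mem_bot, forall_const, ne_eq,
      not_false_eq_true, iff_and_self]
    intro h0
    rw [h0]
    exact zero_mem _

noncomputable abbrev dq (J : Ideal (A R)) : (TT → A R ⧸ J) →ₗ[R] (TT → A R ⧸ J) :=
  (kd R (A R ⧸ J)).restrictScalars R

noncomputable def mkv (J : Ideal (A R)) (y : TT → A R) : TT → A R ⧸ J :=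
  fun T => Ideal.Quotient.mk J (y T)

lemma dq_mkv (J : Ideal (A R)) (y : TT → A R) : dq J (mkv J y) = mkv J (kd R (A R) y) :=
  funext fun T => (kd_nat (Ideal.Quotient.mk J) (fun _ _ => rfl) y T).symm

lemma mkv_cut (J : Ideal (A R)) (j : ℕ) (y : TT → A R) : mkv J (cut j y) = cut j (mkv J y) := by
  funext T
  simp only [mkv, cut]
  split_ifs <;> simp

lemma mkv_eq_iff {J : Ideal (A R)} {y z : TT → A R} :
    mkv J y = mkv J z ↔ ∀ T, y T - z T ∈ J := by
  simp [funext_iff, mkv, Ideal.Quotient.eq]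

lemma mkv_eq_zero {J : Ideal (A R)} {y : TT → A R} : mkv J y = 0 ↔ ∀ T, y T ∈ J := by
  simp [funext_iff, mkv, Ideal.Quotient.eq_zero_iff_mem]

lemma mkv_mem_EE (J : Ideal (A R)) {n : ℕ} {y : TT → A R} (hy : Lam n y) (j : ℕ) :
    mkv J (cut j y) ∈ EE J n j :=
  mem_EE.2 fun T => ⟨⟨_, hy.cut j T, rfl⟩, fun h => by simp [mkv, cut, h]⟩

lemma EE_lift {J : Ideal (A R)} {n j : ℕ} {z : TT → A R ⧸ J} (hz : z ∈ EE J n j) :
    ∃ y, Lam n y ∧ cut j y = y ∧ mkv J y = z := by
  rw [mem_EE] at hz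
  choose y hy h using fun T => (hz T).1
  have hy' : Lam n y := hy
  refine ⟨cut j y, hy'.cut j, ?_, ?_⟩
  · funext T; simp only [cut]; split_ifs <;> rfl
  · funext T
    simp only [mkv, cut]
    split_ifs with h1
    · exact h T
    · rw [(hz T).2 h1, map_zero]

lemma dq_EE {J : Ideal (A R)} {n j : ℕ} {z : TT → A R ⧸ J} (hz : z ∈ EE J n j) :
    dq J z ∈ EE J n (j + 1) := by
  obtain ⟨y, hy, h1, rfl⟩ := EE_lift hz
  rw [dq_mkv, ← h1, kd_cut]
  exact mkv_mem_EE J hy.kd _

lemma map_dq_le (J : Ideal (A R)) (n j : ℕ) : (EE J n j).map (dq J) ≤ EE J n (j + 1) := by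
  rintro _ ⟨z, hz, rfl⟩
  exact dq_EE hz

lemma dq_dq (J : Ideal (A R)) (z : TT → A R ⧸ J) : dq J (dq J z) = 0 := kd_kd z

lemma EE_zero (J : Ideal (A R)) (n : ℕ) : EE J n 0 = ⊥ := by
  rw [eq_bot_iff]
  intro z hz
  funext T
  exact (mem_EE.1 hz T).2 (by omega)

lemma EE_big (J : Ideal (A R)) (n : ℕ) {j : ℕ} (hj : 6 ≤ j) : EE J n j = ⊥ := by
  rw [eq_bot_iff]
  intro z hz
  funext T
  have : T.card ≤ 4 := by simpa using Finset.card_le_univ T
  exact (mem_EE.1 hz T).2 (by omega)

lemma Kos.spot {J : Ideal (A R)} {n : ℕ} (h : Kos J n) (j : ℕ) :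
    EE J n (j + 1) ⊓ LinearMap.ker (dq J) = (EE J n j).map (dq J) := by
  apply le_antisymm
  · rintro z ⟨hz, hd⟩
    obtain ⟨y, hy, h1, rfl⟩ := EE_lift hz
    have hd' : dq J (mkv J y) = 0 := hd
    rw [dq_mkv, mkv_eq_zero] at hd'
    obtain ⟨w, hw, h2⟩ := h y hy hd'
    refine ⟨mkv J (cut j w), mkv_mem_EE J hw j, ?_⟩
    rw [dq_mkv, kd_cut, mkv_cut, ← mkv_eq_iff.2 h2, ← mkv_cut, h1]
  · rintro _ ⟨z, hz, rfl⟩
    exact ⟨dq_EE hz, dq_dq J z⟩

lemma kos_of_spot {J : Ideal (A R)} {n : ℕ}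
    (h : ∀ j, EE J n (j + 1) ⊓ LinearMap.ker (dq J) ≤ (EE J n j).map (dq J)) : Kos J n := by
  intro z hz hd
  have h1 : ∀ j, ∃ y, Lam n y ∧ ∀ T, cut (j + 1) z T - kd R (A R) y T ∈ J := by
    intro j
    obtain ⟨w, hw, h2⟩ := h j (x := mkv J (cut (j + 1) z)) ⟨mkv_mem_EE J hz _, by
      change dq J _ = 0
      rw [dq_mkv, kd_cut, mkv_cut, mkv_eq_zero.2 hd]
      funext T
      simp [cut]⟩
    obtain ⟨y, hy, -, rfl⟩ := EE_lift hw
    rw [dq_mkv] at h2
    exact ⟨y, hy, mkv_eq_iff.1 h2.symm⟩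
  choose y hy h1 using h1
  refine ⟨∑ j ∈ Finset.range 5, y j, fun T => ?_, fun T => ?_⟩
  · rw [Finset.sum_apply]
    exact IsHomogeneous.sum _ _ _ fun j _ => hy j T
  · conv => enter [2, 1]; rw [← sum_cut z]
    rw [map_sum, Finset.sum_apply, Finset.sum_apply, ← Finset.sum_sub_distrib]
    exact Ideal.sum_mem _ fun j _ => h1 j T

/-- The terms of the complex are powers of the graded pieces. -/
noncomputable def EEequiv (J : Ideal (A R)) (n j : ℕ) :
    EE J n (j + 1) ≃ₗ[R] ({T : TT // T.card = j} → Mn J (n + j)) where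
  toFun y T := ⟨y.1 T.1, by have := (mem_EE.1 y.2 T.1).1; rwa [T.2] at this⟩
  map_add' _ _ := rfl
  map_smul' _ _ := rfl
  invFun x := ⟨fun T => if h : T.card = j then (x ⟨T, h⟩ : A R ⧸ J) else 0, mem_EE.2 fun T => by
    constructor
    · split_ifs with h
      · rw [h]; exact (x ⟨T, h⟩).2
      · exact zero_mem _
    · intro h
      exact dif_neg (by omega)⟩
  left_inv y := by
    ext T
    by_cases h : T.card = j
    · simp [h]
    · simp [h, (mem_EE.1 y.2 T).2 (by omega)]
  right_inv x := by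
    ext T
    simp [T.2]

instance (J : Ideal (A R)) (n j : ℕ) : Module.Finite R (EE J n j) := by
  cases j with
  | zero => rw [EE_zero]; infer_instance
  | succ j => exact Module.Finite.equiv (EEequiv J n j).symm

lemma proj_EE {J : Ideal (A R)} {n j : ℕ} (h : Projective R (Mn J (n + j))) :
    Projective R (EE J n (j + 1)) := by
  classical
  have : Projective R ({T : TT // T.card = j} → Mn J (n + j)) :=
    .of_equiv (DFinsupp.linearEquivFunOnFintype (R := R)
      (M := fun _ : {T : TT // T.card = j} => Mn J (n + j)))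
  exact .of_equiv (EEequiv J n j).symm

lemma euler {k : Type} [Field k] {J : Ideal (A k)} {n : ℕ} (h : Kos J n) :
    hilbFun J n + 6 * hilbFun J (n + 2) + hilbFun J (n + 4) =
      4 * hilbFun J (n + 1) + 4 * hilbFun J (n + 3) := by
  have h1 : ∀ j, finrank k ((EE J n (j + 1)).map (dq J)) + finrank k ((EE J n j).map (dq J)) =
      Nat.choose 4 j * hilbFun J (n + j) := by
    intro j
    have h2 := LinearMap.finrank_range_add_finrank_ker ((dq J).domRestrict (EE J n (j + 1)))
    rw [LinearMap.range_domRestrict, LinearMap.ker_domRestrict, (EEequiv J n j).finrank_eq,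
      finrank_pi_fintype, Finset.sum_const, Finset.card_univ, Fintype.card_finset_len,
      Fintype.card_fin, smul_eq_mul] at h2
    rw [← h.spot j]
    refine Eq.trans ?_ h2
    congr 1
    rw [← (Submodule.comapSubtypeEquivOfLe (inf_le_left (a := EE J n (j + 1))
      (b := LinearMap.ker (dq J)))).finrank_eq, Submodule.comap_inf,
      Submodule.comap_subtype_self, top_inf_eq]
  have h0 : finrank k ((EE J n 0).map (dq J)) = 0 := by simp [EE_zero]
  have h5 : finrank k ((EE J n 5).map (dq J)) = 0 := by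
    have := map_dq_le J n 5
    rw [EE_big J n le_rfl, le_bot_iff] at this
    simp [this]
  have a0 := h1 0
  have a1 := h1 1
  have a2 := h1 2
  have a3 := h1 3
  have a4 := h1 4
  simp only [Nat.choose, add_zero, Nat.reduceAdd] at a0 a1 a2 a3 a4
  omega

section basechange

variable {R' : Type} [CommRing R'] [Algebra R R']

noncomputable def qm (R' : Type) [CommRing R'] [Algebra R R'] (J : Ideal (A R)) :
    (A R ⧸ J) →ₗ[R] (A R' ⧸ bc (algebraMap R R') J) :=
  (Ideal.quotientMapₐ (bc (algebraMap R R') J) (mapAlgHom (Algebra.ofId R R'))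
    Ideal.le_comap_map).toLinearMap

lemma qm_mk (J : Ideal (A R)) (f : A R) : qm R' J (Ideal.Quotient.mk J f) =
    Ideal.Quotient.mk _ (MvPolynomial.map (algebraMap R R') f) := rfl

attribute [local instance] MvPolynomial.algebraMvPolynomial in
lemma isBaseChange_poly (R' : Type) [CommRing R'] [Algebra R R'] :
    IsBaseChange R' (mapAlgHom (σ := Fin 4) (Algebra.ofId R R')).toLinearMap :=
  Algebra.IsPushout.out (R := R) (S := R') (R' := A R) (S' := A R')

lemma isBaseChange_qm (R' : Type) [CommRing R'] [Algebra R R'] (J : Ideal (A R)) :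
    IsBaseChange R' (qm R' J) := by
  refine IsBaseChange.of_right_exact R'
    (Finsupp.mapRange.linearMap (α := J) (mapAlgHom (σ := Fin 4) (Algebra.ofId R R')).toLinearMap)
    (mapAlgHom (σ := Fin 4) (Algebra.ofId R R')).toLinearMap (qm R' J)
    (f := (Finsupp.linearCombination (A R) (fun a : J => (a : A R))).restrictScalars R)
    (g := (Ideal.Quotient.mkₐ R J).toLinearMap)
    (f' := (Finsupp.linearCombination (A R')
      (fun a : J => MvPolynomial.map (algebraMap R R') (a : A R))).restrictScalars R')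
    (g' := (Ideal.Quotient.mkₐ R' (bc (algebraMap R R') J)).toLinearMap) ?_ ?_
    (IsBaseChange.finsuppPow _ (isBaseChange_poly R')) (isBaseChange_poly R') ?_
    Ideal.Quotient.mk_surjective ?_ Ideal.Quotient.mk_surjective
  · apply Finsupp.lhom_ext
    intro a f
    simp
  · rfl
  · intro f
    change Ideal.Quotient.mk J f = 0 ↔ f ∈ LinearMap.range
      (Finsupp.linearCombination (A R) (fun a : J => (a : A R)))
    rw [Finsupp.range_linearCombination, Ideal.Quotient.eq_zero_iff_mem]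
    simp
  · intro f
    change Ideal.Quotient.mk _ f = 0 ↔ f ∈ LinearMap.range
      (Finsupp.linearCombination (A R')
        (fun a : J => MvPolynomial.map (algebraMap R R') (a : A R)))
    rw [Finsupp.range_linearCombination, Ideal.Quotient.eq_zero_iff_mem, bc, Ideal.map,
      Set.image_eq_range]
    rfl

end basechange

end Pool.Agent.MP_eba2ed_ag
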