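import Pool.Agent.MP_eba2ed_ag.Kos4

/-! Base change of Koszul exactness, and exactness over local rings. -/

namespace Pool.Agent.MP_eba2ed_ag

open MvPolynomial Module IsLocalRing

section general
variable {R Λ : Type} [CommRing R] [AddCommGroup Λ] [Module R Λ]

lemma exists_sec (E : Submodule R Λ) (d : Λ →ₗ[R] Λ) [Projective R (E.map d)] :
    ∃ s : E.map d →ₗ[R] Λ, (∀ x, s x ∈ E) ∧ ∀ x, d (s x) = x := by
  obtain ⟨s, hs⟩ := projective_lifting_property (d.submoduleMap E) LinearMap.id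
    (LinearMap.submoduleMap_surjective d E)
  exact ⟨E.subtype ∘ₗ s, fun x => (s x).2, fun x => congrArg Subtype.val congr($hs x)⟩

/-- The retraction onto the kernel. -/
lemma exists_retr (E : Submodule R Λ) (d : Λ →ₗ[R] Λ) [Projective R (E.map d)] :
    ∃ r : E →ₗ[R] ↥(E ⊓ LinearMap.ker d), ∀ x (hx : x ∈ E), d x = 0 → (r ⟨x, hx⟩ : Λ) = x := by
  obtain ⟨s, h1, h2⟩ := exists_sec E d
  refine ⟨(E.subtype - s ∘ₗ d.submoduleMap E).codRestrict _ (fun x => ⟨sub_mem x.2 (h1 _), ?_⟩),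
    fun x hx h0 => ?_⟩
  · simp [h2]
  · have : d.submoduleMap E ⟨x, hx⟩ = 0 := Subtype.ext h0
    simp [this]

lemma proj_ker (E : Submodule R Λ) (d : Λ →ₗ[R] Λ) [Projective R (E.map d)] [Projective R E] :
    Projective R ↥(E ⊓ LinearMap.ker d) := by
  obtain ⟨r, hr⟩ := exists_retr E d
  refine .of_split (Submodule.inclusion inf_le_left) r ?_
  ext x
  exact hr x x.2.1 x.2.2

lemma proj_quot {C E : Type} [AddCommGroup C] [Module R C] [AddCommGroup E] [Module R E]
    [Projective R E] (f : C →ₗ[R] E) (g : E →ₗ[R] C) (h : g ∘ₗ f = LinearMap.id) :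
    Projective R (E ⧸ LinearMap.range f) := by
  refine .of_split ((LinearMap.range f).liftQ (LinearMap.id - f ∘ₗ g) ?_)
    (LinearMap.range f).mkQ ?_
  · rintro _ ⟨c, rfl⟩
    have : g (f c) = c := congr($h c)
    simp [this]
  · ext x
    simp

variable [IsLocalRing R]

lemma split_of_fibre {C E : Type} [AddCommGroup C] [Module R C] [AddCommGroup E] [Module R E]
    [Module.Finite R C] [Module.Finite R E] [Projective R E] (f : C →ₗ[R] E)
    (h : ∀ c, f c ∈ maximalIdeal R • (⊤ : Submodule R E) →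
      c ∈ maximalIdeal R • (⊤ : Submodule R C)) : ∃ g, g ∘ₗ f = LinearMap.id := by
  have : Module.Free R E := Module.free_of_flat_of_isLocalRing
  rw [IsLocalRing.split_injective_iff_lTensor_residueField_injective, injective_iff_map_eq_zero]
  intro x hx
  obtain ⟨c, rfl⟩ := TensorProduct.mk_surjective R C (ResidueField R) residue_surjective x
  have h1 : f c ∈ LinearMap.ker (TensorProduct.mk R (R ⧸ maximalIdeal R) E 1) := hx
  rw [LinearMap.ker_tensorProductMk] at h1
  have h2 := h c h1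
  rw [← LinearMap.ker_tensorProductMk] at h2
  exact h2

omit [IsLocalRing R] in
lemma mem_smul_top_iff' {I : Ideal R} {E : Submodule R Λ} {x : E} :
    x ∈ I • (⊤ : Submodule R E) ↔ (x : Λ) ∈ I • E := Submodule.mem_smul_top_iff I E x

lemma spot_local (E0 E1 E2 : Submodule R Λ) (d : Λ →ₗ[R] Λ)
    (h0 : E0.map d ≤ E1 ⊓ LinearMap.ker d) (h1 : E1.map d ≤ E2) [Module.Finite R E1]
    [Module.Finite R E2] [Projective R E2]
    (hf : ∀ z ∈ E1, d z ∈ maximalIdeal R • E2 → z ∈ E0.map d ⊔ maximalIdeal R • E1) :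
    E1 ⊓ LinearMap.ker d ≤ E0.map d ∧
      E0.map d ⊓ maximalIdeal R • E1 ≤ maximalIdeal R • E0.map d ∧
      Projective R (E2 ⧸ (E1.map d).comap E2.subtype) := by
  let N : Submodule R E1 := (E0.map d).comap E1.subtype
  let d1 : E1 →ₗ[R] E2 := d.restrict (fun x hx => h1 ⟨x, hx, rfl⟩)
  let f : (E1 ⧸ N) →ₗ[R] E2 := N.liftQ d1 (fun x hx => Subtype.ext (h0 hx).2)
  obtain ⟨g, hg⟩ := split_of_fibre f (by
    intro c hc
    obtain ⟨z, rfl⟩ := N.mkQ_surjective c
    obtain ⟨a, ha, b, hb, hab⟩ := Submodule.mem_sup.1 (hf z z.2 (mem_smul_top_iff'.1 hc))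
    have hb' : b ∈ E1 := Submodule.smul_le_right hb
    have e : N.mkQ z = N.mkQ ⟨b, hb'⟩ := by
      rw [Submodule.mkQ_apply, Submodule.mkQ_apply, Submodule.Quotient.eq]
      change (z : Λ) - b ∈ E0.map d
      rw [← hab]; simpa using ha
    rw [e, ← Submodule.range_mkQ N, ← Submodule.map_top, ← Submodule.map_smul'']
    exact ⟨_, mem_smul_top_iff'.2 hb, rfl⟩)
  have hinj : Function.Injective f :=
    Function.LeftInverse.injective (g := g) (fun c => congr($hg c))
  have hker : E1 ⊓ LinearMap.ker d ≤ E0.map d := by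
    rintro x ⟨hx, hd⟩
    have : N.mkQ ⟨x, hx⟩ = 0 := hinj (by rw [map_zero]; exact Subtype.ext hd)
    exact (Submodule.Quotient.mk_eq_zero N).1 this
  have hr : LinearMap.range f = (E1.map d).comap E2.subtype := by
    ext x
    constructor
    · rintro ⟨c, rfl⟩
      obtain ⟨z, rfl⟩ := N.mkQ_surjective c
      exact ⟨z, z.2, rfl⟩
    · rintro ⟨z, hz, e⟩
      exact ⟨N.mkQ ⟨z, hz⟩, Subtype.ext e⟩
  refine ⟨hker, ?_, hr ▸ proj_quot f g hg⟩
  have hC : Projective R (E1 ⧸ N) := .of_split f g hg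
  have : Projective R (E1.map d) := by
    refine .of_equiv ((LinearEquiv.ofInjective f hinj).trans ((LinearEquiv.ofEq _ _ hr).trans
      (Submodule.comapSubtypeEquivOfLe h1)))
  obtain ⟨r, hr⟩ := exists_retr E1 d
  rintro x ⟨hx0, hx1⟩
  have hx : x ∈ E1 := (h0 hx0).1
  rw [← hr x hx (h0 hx0).2]
  have h2 : r ⟨x, hx⟩ ∈ maximalIdeal R • (⊤ : Submodule R ↥(E1 ⊓ LinearMap.ker d)) := by
    have h3 := Submodule.mem_map_of_mem (f := r) ((mem_smul_top_iff' (x := ⟨x, hx⟩)).2 hx1)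
    rw [Submodule.map_smul''] at h3
    exact Submodule.smul_mono le_rfl le_top h3
  exact Submodule.smul_mono le_rfl hker (mem_smul_top_iff'.1 h2)

end general

variable {R : Type} [CommRing R]

/-- Homogeneous components on the quotient by a homogeneous ideal. -/
noncomputable def cq {J : Ideal (A R)} (hJ : IsHomog J) (k : ℕ) : (A R ⧸ J) →ₗ[R] (A R ⧸ J) :=
  (J.restrictScalars R).liftQ ((Ideal.Quotient.mkₐ R J).toLinearMap ∘ₗ homogeneousComponent k)
    (fun f hf => Ideal.Quotient.eq_zero_iff_mem.2 (hJ f hf k)) ∘ₗ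
    (Submodule.Quotient.restrictScalarsEquiv R J).symm.toLinearMap

lemma cq_mk {J : Ideal (A R)} (hJ : IsHomog J) (k : ℕ) (f : A R) :
    cq hJ k (Ideal.Quotient.mk J f) = Ideal.Quotient.mk J (homogeneousComponent k f) := rfl

/-- The projection onto a term of the Koszul complex. -/
noncomputable def pq {J : Ideal (A R)} (hJ : IsHomog J) (n j : ℕ) :
    (TT → A R ⧸ J) →ₗ[R] (TT → A R ⧸ J) :=
  LinearMap.pi fun T => if T.card + 1 = j then cq hJ (n + T.card) ∘ₗ LinearMap.proj T else 0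

lemma mkv_surj (J : Ideal (A R)) : Function.Surjective (mkv J) := by
  intro x
  choose y hy using fun T => Ideal.Quotient.mk_surjective (x T)
  exact ⟨y, funext hy⟩

lemma pq_mkv {J : Ideal (A R)} (hJ : IsHomog J) (n j : ℕ) (y : TT → A R) :
    pq hJ n j (mkv J y) = mkv J (cut j (prj n y)) := by
  funext T
  simp only [pq, LinearMap.pi_apply, mkv, cut]
  split_ifs
  · rfl
  · simp

lemma pq_mem {J : Ideal (A R)} (hJ : IsHomog J) (n j : ℕ) (x : TT → A R ⧸ J) :
    pq hJ n j x ∈ EE J n j := by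
  obtain ⟨y, rfl⟩ := mkv_surj J x
  rw [pq_mkv]
  exact mkv_mem_EE J (lam_prj n y) j

lemma pq_eq {J : Ideal (A R)} (hJ : IsHomog J) {n j : ℕ} {x : TT → A R ⧸ J}
    (hx : x ∈ EE J n j) : pq hJ n j x = x := by
  obtain ⟨y, hy, h1, rfl⟩ := EE_lift hx
  rw [pq_mkv, hy.prj_eq, h1]

lemma dq_pq {J : Ideal (A R)} (hJ : IsHomog J) (n j : ℕ) (x : TT → A R ⧸ J) :
    dq J (pq hJ n j x) = pq hJ n (j + 1) (dq J x) := by
  obtain ⟨y, rfl⟩ := mkv_surj J x
  rw [pq_mkv, dq_mkv, dq_mkv, pq_mkv, kd_cut, kd_prj]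

lemma Kos.proj_im {J : Ideal (A R)} {n : ℕ} (h : Kos J n)
    (hp : ∀ k, n ≤ k → Projective R (Mn J k)) (j : ℕ) :
    Projective R ((EE J n j).map (dq J)) := by
  have key : ∀ i j, 5 ≤ j + i → Projective R ((EE J n j).map (dq J)) := by
    intro i
    induction i with
    | zero =>
      intro j hj
      have := map_dq_le J n j
      rw [EE_big J n (j := j + 1) (by omega), le_bot_iff] at this
      rw [this]
      infer_instance
    | succ i ih =>
      intro j hj
      have h1 := ih (j + 1) (by omega)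
      have h2 : Projective R (EE J n (j + 1)) := proj_EE (hp _ (by omega))
      rw [← h.spot j]
      exact proj_ker _ _
  exact key 5 j (by omega)

lemma Kos.homotopy {J : Ideal (A R)} (hJ : IsHomog J) {n : ℕ} (h : Kos J n)
    (hp : ∀ k, n ≤ k → Projective R (Mn J k)) :
    ∃ H : ℕ → (TT → A R ⧸ J) →ₗ[R] (TT → A R ⧸ J), (∀ j x, H j x ∈ EE J n j) ∧
      ∀ j x, dq J (H j x) + H (j + 1) (dq J x) = pq hJ n (j + 1) x := by
  have h1 := fun j => @exists_sec _ _ _ _ _ (EE J n j) (dq J) (h.proj_im hp j)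
  choose s hs1 hs2 using h1
  let dp : ∀ j, (TT → A R ⧸ J) →ₗ[R] (EE J n j).map (dq J) := fun j =>
    (dq J ∘ₗ pq hJ n j).codRestrict _ (fun x => ⟨_, pq_mem hJ n j x, rfl⟩)
  let r : ∀ j, (TT → A R ⧸ J) →ₗ[R] (EE J n j).map (dq J) := fun j =>
    (pq hJ n (j + 1) - s (j + 1) ∘ₗ dp (j + 1)).codRestrict _ (fun x => by
      rw [← h.spot j]
      refine ⟨sub_mem (pq_mem hJ n _ x) (hs1 _ _), ?_⟩
      simp only [SetLike.mem_coe, LinearMap.mem_ker, LinearMap.sub_apply, LinearMap.comp_apply,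
        map_sub, hs2]
      exact sub_self _)
  refine ⟨fun j => s j ∘ₗ r j, fun j x => hs1 _ _, fun j x => ?_⟩
  have e : r (j + 1) (dq J x) = dp (j + 1) x := by
    have e1 : dp (j + 1 + 1) (dq J x) = 0 := by
      apply Subtype.ext
      change dq J (pq hJ n (j + 1 + 1) (dq J x)) = 0
      rw [← dq_pq, dq_dq]
    apply Subtype.ext
    change pq hJ n (j + 1 + 1) (dq J x) - s _ (dp (j + 1 + 1) (dq J x)) =
      dq J (pq hJ n (j + 1) x)
    rw [e1, map_zero, sub_zero, dq_pq]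
  rw [LinearMap.comp_apply, LinearMap.comp_apply, hs2, e]
  exact sub_add_cancel _ _

/-- An exact Koszul complex of projective modules stays exact after base change. -/
theorem Kos.baseChange {R' : Type} [CommRing R'] (φ : R →+* R') {J : Ideal (A R)}
    (hJ : IsHomog J) {n : ℕ} (h : Kos J n) (hp : ∀ k, n ≤ k → Projective R (Mn J k)) :
    Kos (bc φ J) n := by
  let := φ.toAlgebra
  change Kos (bc (algebraMap R R') J) n
  set J' := bc (algebraMap R R') J
  have hJ' : IsHomog J' := hJ.map _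
  obtain ⟨H, h1, h2⟩ := h.homotopy hJ hp
  let q : (TT → A R ⧸ J) →ₗ[R] (TT → A R' ⧸ J') := (qm R' J).compLeft TT
  have hq : IsBaseChange R' q := IsBaseChange.finitePow TT (isBaseChange_qm R' J)
  have hqm : ∀ y, q (mkv J y) = mkv J' (fun T => MvPolynomial.map (algebraMap R R') (y T)) :=
    fun _ => rfl
  have hqd : ∀ x, q (dq J x) = dq J' (q x) := by
    intro x
    obtain ⟨y, rfl⟩ := mkv_surj J x
    rw [dq_mkv, hqm, hqm, dq_mkv]
    simp only [map_kd]
  have hqp : ∀ j x, q (pq hJ n j x) = pq hJ' n j (q x) := by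
    intro j x
    obtain ⟨y, rfl⟩ := mkv_surj J x
    rw [pq_mkv, hqm, hqm, pq_mkv]
    congr 1
    funext T
    simp only [cut, prj, map_comp]
    split_ifs <;> simp
  let H' : ℕ → (TT → A R' ⧸ J') →ₗ[R'] (TT → A R' ⧸ J') := fun j => hq.lift (q ∘ₗ H j)
  have h3 : ∀ j, pq hJ' n j ∘ₗ H' j = H' j := by
    intro j
    refine hq.algHom_ext _ _ fun x => ?_
    simp only [H', LinearMap.comp_apply, hq.lift_eq]
    rw [← hqp, pq_eq hJ (h1 j x)]
  have h4 : ∀ j, dq J' ∘ₗ H' j + H' (j + 1) ∘ₗ dq J' = pq hJ' n (j + 1) := by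
    intro j
    refine hq.algHom_ext _ _ fun x => ?_
    simp only [H', LinearMap.add_apply, LinearMap.comp_apply, hq.lift_eq, ← hqd, ← hqp]
    rw [← map_add, h2]
  refine kos_of_spot fun j z hz => ⟨H' j z, ?_, ?_⟩
  · rw [← h3]; exact pq_mem hJ' n j _
  · have := congr($(h4 j) z)
    have hz2 : dq J' z = 0 := hz.2
    simpa only [LinearMap.add_apply, LinearMap.comp_apply, hz2, map_zero, add_zero,
      pq_eq hJ' hz.1] using this

end Pool.Agent.MP_eba2ed_ag
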