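import Pool.Agent.MP_eba2ed_ag.Kos5

/-! Koszul complexes over a local ring: lifting from the closed fibre. -/

namespace Pool.Agent.MP_eba2ed_ag

open MvPolynomial Module IsLocalRing

variable {R : Type} [CommRing R]

lemma exists_sum_X {J : Ideal (A R)} (hJ : IsHomog J) {f : A R} {k : ℕ}
    (hf : f.IsHomogeneous (k + 1)) (h : f ∈ irr R * J) :
    ∃ w : Fin 4 → A R, (∀ i, w i ∈ J ∧ (w i).IsHomogeneous k) ∧ f = ∑ i, X i * w i := by
  have h1 : ∃ w : Fin 4 → A R, (∀ i, w i ∈ J) ∧ f = ∑ i, X i * w i := by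
    clear hf
    induction h using Submodule.mul_induction_on' with
    | mem_mul_mem a ha b hb =>
      obtain ⟨c, rfl⟩ := Ideal.mem_span_range_iff_exists_fun.1 ha
      refine ⟨fun i => c i * b, fun i => Ideal.mul_mem_left _ _ hb, ?_⟩
      rw [Finset.sum_mul]
      exact Finset.sum_congr rfl fun i _ => by ring
    | add a _ b _ ha hb =>
      obtain ⟨w, h1, rfl⟩ := ha
      obtain ⟨w', h2, rfl⟩ := hb
      exact ⟨w + w', fun i => add_mem (h1 i) (h2 i), by simp [mul_add, Finset.sum_add_distrib]⟩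
  obtain ⟨w, h1, h2⟩ := h1
  refine ⟨fun i => homogeneousComponent k (w i),
    fun i => ⟨hJ _ (h1 i) k, homogeneousComponent_isHomogeneous _ _⟩, ?_⟩
  rw [← homogeneousComponent_eq_self hf, h2, map_sum]
  refine Finset.sum_congr rfl fun i _ => ?_
  rw [mul_comm, comp_mul_homog (isHomogeneous_X R i), mul_comm]

lemma lam_single {n k : ℕ} {U : TT} {f : A R} (hf : f.IsHomogeneous k) (h : k = n + U.card) :
    Lam n (Pi.single U f) := by
  intro T
  by_cases hT : T = U
  · subst hT; simpa [h] using hf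
  · simp [hT, isHomogeneous_zero]

lemma top_bd {n : ℕ} {w : Fin 4 → A R} (hw : ∀ i, (w i).IsHomogeneous (n + 4)) :
    ∃ y, Lam (n + 1) y ∧ cut 4 y = y ∧ kd R (A R) y = Pi.single Finset.univ (∑ i, X i * w i) ∧
      ∀ J : Ideal (A R), (∀ i, w i ∈ J) → ∀ T, y T ∈ J := by
  let y : TT → A R := ∑ i, kh R (A R) i (Pi.single Finset.univ (w i))
  have h1 : ∀ v : A R, cut 5 (Pi.single (Finset.univ : TT) v) = Pi.single Finset.univ v := by
    intro v
    funext T
    by_cases hT : T = Finset.univ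
    · subst hT; simp [cut]
    · simp [cut, hT]
  have h2 : ∀ v : A R, kd R (A R) (Pi.single (Finset.univ : TT) v) = 0 := by
    intro v
    rw [← h1, kd_cut]
    funext T
    have : T.card ≤ 4 := by simpa using Finset.card_le_univ T
    rw [cut, if_neg (by omega)]
    rfl
  have h3 : kd R (A R) y = Pi.single Finset.univ (∑ i, X i * w i) := by
    rw [map_sum]
    funext T
    rw [Finset.sum_apply]
    have : ∀ i, kd R (A R) (kh R (A R) i (Pi.single Finset.univ (w i))) =
        (X i : A R) • (Pi.single Finset.univ (w i) : TT → A R) := by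
      intro i
      rw [← kd_kh, h2, map_zero, add_zero]
    simp only [this]
    by_cases hT : T = Finset.univ
    · subst hT; simp
    · simp [hT]
  have h4 : Lam (n + 1) y := fun T => by
    simp only [y]
    rw [Finset.sum_apply]
    exact IsHomogeneous.sum _ _ _ fun i _ => (lam_single (hw i) (by simp)).kh i T
  refine ⟨cut 4 y, h4.cut 4, ?_, by rw [kd_cut, h3, h1], fun J hJ T => ?_⟩
  · funext T; simp only [cut]; split_ifs <;> rfl
  · simp only [cut]
    split_ifs
    · simp only [y]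
      rw [Finset.sum_apply]
      refine Ideal.sum_mem _ fun i _ => ?_
      rw [kh, act_apply]
      refine Ideal.sum_mem _ fun U _ => zsmul_mem ?_ _
      by_cases hU : U = Finset.univ
      · subst hU; simpa using hJ i
      · simp [hU]
    · exact zero_mem _

lemma eq_single_of_cut {y : TT → A R} (h : cut 5 y = y) :
    y = Pi.single Finset.univ (y Finset.univ) := by
  funext T
  by_cases hT : T = Finset.univ
  · subst hT; simp
  · rw [← h, cut, if_neg, Pi.single_eq_of_ne hT]
    intro h1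
    exact hT (Finset.eq_univ_of_card T (by simp; omega))

lemma mem_smul_EE {J : Ideal (A R)} {I : Ideal R} {n j : ℕ} {y : TT → A R ⧸ J}
    (h : ∀ T, (T.card + 1 = j → y T ∈ I • Mn J (n + T.card)) ∧ (T.card + 1 ≠ j → y T = 0)) :
    y ∈ I • EE J n j := by
  rw [← Finset.univ_sum_single y]
  refine Submodule.sum_mem _ fun T _ => ?_
  by_cases hT : T.card + 1 = j
  · have h1 := Submodule.mem_map_of_mem (f := LinearMap.single R (fun _ : TT => A R ⧸ J) T)
      ((h T).1 hT)
    rw [Submodule.map_smul''] at h1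
    refine Submodule.smul_mono le_rfl ?_ h1
    rintro _ ⟨x, hx, rfl⟩
    refine mem_EE.2 fun U => ?_
    by_cases hU : U = T
    · subst hU; simpa [hT] using hx
    · simp [hU]
  · rw [(h T).2 hT]; simp

lemma apply_mem_smul {J : Ideal (A R)} {I : Ideal R} {n j : ℕ} {y : TT → A R ⧸ J}
    (h : y ∈ I • EE J n j) (T : TT) : y T ∈ I • Mn J (n + T.card) := by
  have h1 := Submodule.mem_map_of_mem (f := LinearMap.proj (R := R)
    (φ := fun _ : TT => A R ⧸ J) T) h
  rw [Submodule.map_smul''] at h1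
  refine Submodule.smul_mono le_rfl ?_ h1
  rintro _ ⟨x, hx, rfl⟩
  exact (mem_EE.1 hx T).1

lemma lift_homog {R' : Type} [CommRing R'] {φ : R →+* R'} (hφ : Function.Surjective φ)
    {g : A R'} {k : ℕ} (hg : g.IsHomogeneous k) :
    ∃ f : A R, f.IsHomogeneous k ∧ MvPolynomial.map φ f = g := by
  obtain ⟨f, rfl⟩ := map_surjective φ hφ g
  exact ⟨homogeneousComponent k f, homogeneousComponent_isHomogeneous k f, by
    rw [← map_comp, homogeneousComponent_eq_self hg]⟩

variable [IsLocalRing R]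

lemma ker_mem {g : A R} (N : Submodule R (A R))
    (hN : ∀ m ∈ g.support, monomial m (1 : R) ∈ N) (h : MvPolynomial.map (residue R) g = 0) :
    g ∈ maximalIdeal R • N := by
  rw [g.as_sum]
  refine Submodule.sum_mem _ fun m hm => ?_
  rw [← mul_one (coeff m g), ← smul_eq_mul, ← smul_monomial]
  refine Submodule.smul_mem_smul ?_ (hN m hm)
  rw [← residue_eq_zero_iff, ← coeff_map, h, coeff_zero]

lemma ker_mem_Hn {g : A R} {k : ℕ} (hg : g.IsHomogeneous k)
    (h : MvPolynomial.map (residue R) g = 0) : g ∈ maximalIdeal R • Hn R k := by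
  refine ker_mem _ (fun m hm => isHomogeneous_monomial _ ?_) h
  by_contra hne
  exact (MvPolynomial.mem_support_iff.1 hm) (hg.coeff_eq_zero hne)

/-- Forms of degree `k` whose reduction lies in `Jb` lie in `J` up to the maximal ideal. -/
def Lifts (J : Ideal (A R)) (Jb : Ideal (A (ResidueField R))) (k : ℕ) : Prop :=
  ∀ f : A R, f.IsHomogeneous k → MvPolynomial.map (residue R) f ∈ Jb →
    Ideal.Quotient.mk J f ∈ maximalIdeal R • Mn J k

lemma lifts_of {J : Ideal (A R)} {f a : A R} {k : ℕ} (hf : f.IsHomogeneous k)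
    (ha : a.IsHomogeneous k) (haJ : a ∈ J)
    (h : MvPolynomial.map (residue R) a = MvPolynomial.map (residue R) f) :
    Ideal.Quotient.mk J f ∈ maximalIdeal R • Mn J k := by
  have h1 := ker_mem_Hn (hf.sub ha) (by rw [map_sub, h, sub_self])
  have h2 := Submodule.mem_map_of_mem (f := (Ideal.Quotient.mkₐ R J).toLinearMap) h1
  rw [Submodule.map_smul''] at h2
  have : Ideal.Quotient.mk J f = (Ideal.Quotient.mkₐ R J).toLinearMap (f - a) := by
    simp [Ideal.Quotient.eq_zero_iff_mem.2 haJ]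
  rw [this]
  exact h2

lemma exists_lift_bc {J : Ideal (A R)} (hJ : IsHomog J) {g : A (ResidueField R)} {k : ℕ}
    (hg : g.IsHomogeneous k) (h : g ∈ bc (residue R) J) :
    ∃ a : A R, a.IsHomogeneous k ∧ a ∈ J ∧ MvPolynomial.map (residue R) a = g := by
  obtain ⟨a, ha, rfl⟩ := (Ideal.mem_map_iff_of_surjective _
    (map_surjective (residue R) residue_surjective)).1 h
  exact ⟨homogeneousComponent k a, homogeneousComponent_isHomogeneous k a, hJ a ha k, by
    rw [← map_comp, homogeneousComponent_eq_self hg]⟩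

lemma lifts_bc {J : Ideal (A R)} (hJ : IsHomog J) (k : ℕ) : Lifts J (bc (residue R) J) k := by
  intro f hf h
  obtain ⟨a, h1, h2, h3⟩ := exists_lift_bc hJ (hf.map _) h
  exact lifts_of hf h1 h2 h3

lemma red_mem {J : Ideal (A R)} {Jb : Ideal (A (ResidueField R))} (hle : bc (residue R) J ≤ Jb)
    {N : Submodule R (A R ⧸ J)} {f : A R} (h : Ideal.Quotient.mk J f ∈ maximalIdeal R • N) :
    MvPolynomial.map (residue R) f ∈ Jb := by
  let ρ := Ideal.quotientMap Jb (MvPolynomial.map (residue R) : A R →+* _)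
    (Ideal.map_le_iff_le_comap.1 hle)
  have : ∀ x ∈ maximalIdeal R • N, ρ x = 0 := by
    intro x hx
    refine Submodule.smul_induction_on hx (fun a ha v _ => ?_) (fun x y hx hy => ?_)
    · obtain ⟨g, rfl⟩ := Ideal.Quotient.mk_surjective v
      change Ideal.Quotient.mk Jb (MvPolynomial.map (residue R) (a • g)) = 0
      rw [smul_eq_C_mul, map_mul, map_C, (residue_eq_zero_iff a).2 ha]
      simp
    · rw [map_add, hx, hy, add_zero]
  exact Ideal.Quotient.eq_zero_iff_mem.1 (this _ h)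

lemma fibre {J : Ideal (A R)} {Jb : Ideal (A (ResidueField R))} (hle : bc (residue R) J ≤ Jb)
    {n : ℕ} (hK : Kos Jb n) (j : ℕ) (hL : Lifts J Jb (n + j)) :
    ∀ z ∈ EE J n (j + 1), dq J z ∈ maximalIdeal R • EE J n (j + 2) →
      z ∈ (EE J n j).map (dq J) ⊔ maximalIdeal R • EE J n (j + 1) := by
  intro z hz hd
  obtain ⟨y, hy, h1, rfl⟩ := EE_lift hz
  rw [dq_mkv] at hd
  obtain ⟨wb, hwb, h2⟩ := hK (fun T => MvPolynomial.map (residue R) (y T))
    (fun T => (hy T).map _) (fun T => by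
      rw [← map_kd]; exact red_mem hle (apply_mem_smul hd T))
  choose w hw h3 using fun T => lift_homog (φ := residue R) residue_surjective (hwb T)
  have hw' : Lam n w := hw
  have h4 : dq J (mkv J (cut j w)) ∈ EE J n (j + 1) := dq_EE (mkv_mem_EE J hw' j)
  refine Submodule.mem_sup.2 ⟨_, ⟨_, mkv_mem_EE J hw' j, rfl⟩,
    mkv J y - dq J (mkv J (cut j w)), mem_smul_EE fun T => ⟨fun hT => ?_, fun hT => ?_⟩, by simp⟩
  · have hT' : T.card = j := by omega
    rw [dq_mkv, kd_cut]
    have e : (mkv J y - mkv J (cut (j + 1) (kd R (A R) w))) T =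
        Ideal.Quotient.mk J (y T - kd R (A R) w T) := by
      simp [mkv, cut, hT]
    rw [e, hT']
    refine hL _ (hT' ▸ (hy.sub hw'.kd) T) ?_
    rw [map_sub, map_kd]
    simp only [h3]
    exact h2 T
  · rw [Pi.sub_apply, (mem_EE.1 hz T).2 hT, (mem_EE.1 h4 T).2 hT, sub_zero]

omit [IsLocalRing R] in
lemma map_dq_le' (J : Ideal (A R)) (n j : ℕ) :
    (EE J n j).map (dq J) ≤ EE J n (j + 1) ⊓ LinearMap.ker (dq J) := by
  rintro _ ⟨z, hz, rfl⟩
  exact ⟨dq_EE hz, dq_dq J z⟩

/-- Exactness over a local ring from exactness of the closed fibre. -/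
theorem kos_of_fibre {J : Ideal (A R)} (hJ : IsHomog J) {n : ℕ}
    (hp : ∀ k, n ≤ k → Projective R (Mn J k)) (hK : Kos (bc (residue R) J) n) : Kos J n := by
  refine kos_of_spot fun j => ?_
  have : Projective R (EE J n (j + 1 + 1)) := proj_EE (hp _ (by omega))
  exact (spot_local (EE J n j) (EE J n (j + 1)) (EE J n (j + 1 + 1)) (dq J) (map_dq_le' J n j)
    (map_dq_le J n _) (fibre le_rfl hK j (lifts_bc hJ _))).1

/-- Going up one degree. -/
theorem proj_up {J : Ideal (A R)} (hJ : IsHomog J) {n : ℕ} (h0 : Kos (⊥ : Ideal (A R)) (n + 1))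
    (hK : Kos (bc (residue R) J) (n + 1)) (hp : Projective R (Mn J (n + 4)))
    (hgen : ∀ f ∈ J, f.IsHomogeneous (n + 5) → f ∈ irr R * J) :
    Projective R (Mn J (n + 5)) := by
  have h1 : Projective R (EE J (n + 1) (3 + 1)) := proj_EE hp
  have h2 := (spot_local (EE J (n + 1) 2) (EE J (n + 1) 3) (EE J (n + 1) (3 + 1)) (dq J)
    (map_dq_le' J _ 2) (map_dq_le J _ _) (fibre le_rfl hK 2 (lifts_bc hJ _))).2.2
  let d1 : EE J (n + 1) (3 + 1) →ₗ[R] EE J (n + 1) (4 + 1) := (dq J).restrict (fun x hx => dq_EE hx)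
  have hs : Function.Surjective d1 := by
    rintro ⟨x, hx⟩
    obtain ⟨y, hy, h3, rfl⟩ := EE_lift hx
    have h4 : (y Finset.univ).IsHomogeneous (n + 4 + 1) := by simpa [add_right_comm] using hy Finset.univ
    obtain ⟨w, hw, h5⟩ := exists_sum_X isHomog_top h4 (by
      rw [Ideal.mul_top]; simpa using mem_irr_pow (M := 1) h4 (by omega))
    obtain ⟨u, hu, h6, h7, -⟩ := top_bd fun i => (hw i).2
    refine ⟨⟨mkv J u, h6 ▸ mkv_mem_EE J hu 4⟩, Subtype.ext ?_⟩
    change dq J (mkv J u) = mkv J y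
    rw [dq_mkv, h7, ← h5, ← eq_single_of_cut h3]
  have hk : ((EE J (n + 1) 3).map (dq J)).comap (EE J (n + 1) (3 + 1)).subtype =
      LinearMap.ker d1 := by
    ext ⟨x, hx⟩
    constructor
    · intro h
      exact Subtype.ext (map_dq_le' J _ 3 h).2
    · intro h
      obtain ⟨y, hy, h3, rfl⟩ := EE_lift hx
      have h4 : dq J (mkv J y) = 0 := congrArg Subtype.val h
      rw [dq_mkv, mkv_eq_zero] at h4
      have h5 : (kd R (A R) y Finset.univ).IsHomogeneous (n + 4 + 1) := by
        simpa [add_right_comm] using hy.kd Finset.univ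
      obtain ⟨w, hw, h6⟩ := exists_sum_X hJ h5 (hgen _ (h4 _) h5)
      obtain ⟨u, hu, h7, h8, h9⟩ := top_bd fun i => (hw i).2
      have h10 : kd R (A R) (y - u) = 0 := by
        rw [map_sub, h8, ← h6, ← eq_single_of_cut (by rw [← kd_cut, h3]), sub_self]
      obtain ⟨v, hv, h11⟩ := h0 (y - u) (hy.sub hu) (fun T => by rw [h10]; rfl)
      refine ⟨mkv J (cut 3 v), mkv_mem_EE J hv 3, ?_⟩
      change dq J (mkv J (cut 3 v)) = mkv J y
      have h12 : kd R (A R) v = y - u := funext fun T => (sub_eq_zero.1 (h11 T)).symm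
      rw [dq_mkv, kd_cut, h12, mkv_eq_iff]
      intro T
      have h13 := congrFun h3 T
      simp only [cut] at h13 ⊢
      split_ifs at h13 ⊢
      · simpa using h9 J (fun i => (hw i).1) T
      · simp [← h13]
  rw [hk] at h2
  have h3 : Projective R (EE J (n + 1) (4 + 1)) := .of_equiv (d1.quotKerEquivOfSurjective hs)
  have h4 : Projective R ({T : TT // T.card = 4} → Mn J (n + 1 + 4)) :=
    .of_equiv (EEequiv J (n + 1) 4)
  exact .of_split (LinearMap.pi fun _ => LinearMap.id)
    (LinearMap.proj (R := R) (φ := fun _ : {T : TT // T.card = 4} => Mn J (n + 1 + 4))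
      ⟨Finset.univ, by simp⟩) rfl

/-- Going down one degree. -/
theorem lifts_down {J : Ideal (A R)} {Jb : Ideal (A (ResidueField R))}
    (hle : bc (residue R) J ≤ Jb) {n : ℕ}
    (hs : ∀ f : A R, f.IsHomogeneous n → (∀ i, X i * f ∈ J) → f ∈ J) (hK : Kos Jb n)
    (hL : Lifts J Jb (n + 1)) (hp : Projective R (Mn J (n + 2))) : Lifts J Jb n := by
  have h1 : Projective R (EE J n (2 + 1)) := proj_EE hp
  have h2 := (spot_local (EE J n 1) (EE J n 2) (EE J n (2 + 1)) (dq J)
    (map_dq_le' J _ 1) (map_dq_le J _ _) (fibre hle hK 1 hL)).2.1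
  have hinj : ∀ u ∈ EE J n 1, dq J u = 0 → u = 0 := by
    intro u hu h
    obtain ⟨y, hy, h3, rfl⟩ := EE_lift hu
    have h4 : y = Pi.single ∅ (y ∅) := by
      funext T
      by_cases hT : T = ∅
      · subst hT; simp
      · rw [← h3, cut, if_neg (by simpa using hT), Pi.single_eq_of_ne hT]
    rw [dq_mkv, mkv_eq_zero] at h
    have h5 : y ∅ ∈ J := hs _ (by simpa using hy ∅) fun i => by
      have := h {i}
      rwa [h4, kd_single] at this
    rw [mkv_eq_zero]
    intro T
    rw [h4]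
    by_cases hT : T = ∅
    · subst hT; simpa using h5
    · simp [hT]
  intro f hf hfb
  have hl : Lam n (Pi.single ∅ f) := lam_single hf (by simp)
  have hx : mkv J (cut 1 (Pi.single ∅ f)) ∈ EE J n 1 := mkv_mem_EE J hl 1
  have h3 : dq J (mkv J (cut 1 (Pi.single ∅ f))) ∈ maximalIdeal R • EE J n 2 := by
    refine mem_smul_EE fun T => ⟨fun hT => ?_, (mem_EE.1 (dq_EE hx) T).2⟩
    have hT' : T.card = 1 := by omega
    rw [dq_mkv, hT']
    have h7 := (hl.cut 1).kd T
    rw [hT'] at h7
    refine hL _ h7 ?_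
    rw [map_kd, kd_apply]
    refine Ideal.sum_mem _ fun i _ => Ideal.sum_mem _ fun U _ =>
      zsmul_mem (Ideal.mul_mem_left _ _ ?_) _
    by_cases hU : U = ∅
    · subst hU; simpa [cut] using hfb
    · simp [cut, hU]
  have h4 := h2 ⟨⟨_, hx, rfl⟩, h3⟩
  rw [← Submodule.map_smul''] at h4
  obtain ⟨x', hx', h5⟩ := h4
  have h6 := hinj _ (sub_mem (Submodule.smul_le_right hx') hx) (by rw [map_sub, h5, sub_self])
  rw [sub_eq_zero] at h6
  have := apply_mem_smul hx' ∅
  rw [h6] at this
  simpa [mkv, cut] using this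

end Pool.Agent.MP_eba2ed_ag
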