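import Pool.Agent.MP_eba2ed_ag.LcmDefs
import Pool.Agent.Mg.Feba2ed.Ge6c020

/-! Components in characteristic `p` whose generic member is locally Cohen-Macaulay. -/

set_option linter.unusedSectionVars false

namespace Pool.Agent.MP_eba2ed_ag

open MvPolynomial Module IsLocalRing

section lift

variable {V K : Type} [CommRing V] [IsDomain V] [ValuationRing V] [Field K] [Algebra V K]
  [IsFractionRing V K] [IsAlgClosed K]

attribute [local instance] MvPolynomial.algebraMvPolynomial in
theorem red_LC {ι : Type} [Fintype ι] [DecidableEq ι] {e : ℕ}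
    (L : ι → MLine (ResidueField V) e) {J : Ideal (A V)}
    (hJ : IsHomog J) (hflat : ∀ i, Module.Flat V (A V ⧸ chart J i))
    (hsame : SameSub (J.map (dn V)) (I0 L)) : red V K (J.map (up V K)) ≤ I0 L ∧
      ∃ N, ∀ n, N ≤ n → ∀ f ∈ I0 L, f.IsHomogeneous n → f ∈ red V K (J.map (up V K)) := by
  classical
  have hIt : IsHomog (J.map (up V K)) := hJ.map _
  have hle : red V K (J.map (up V K)) ≤ I0 L := by
    refine (hIt.red (V := V)).le_of_homog (fun n f0 hf0 hn => ?_)
    obtain ⟨f, -, hf, rfl⟩ := mem_red_homog hIt hf0 hn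
    obtain ⟨_, ⟨c, hc, rfl⟩, hcf⟩ := (IsLocalization.algebraMap_mem_map_algebraMap_iff
      ((nonZeroDivisors V).map (C (σ := Fin 4))) (A K) J f).1 hf
    rw [mem_I0]
    intro l
    obtain ⟨i, hi⟩ := (L l).exists_X_notMem
    have h1 : f ∈ chart J i := by
      have := hflat i
      have hreg := Module.Flat.isSMulRegular_of_nonZeroDivisors (M := A V ⧸ chart J i) hc
      rw [← Ideal.Quotient.eq_zero_iff_mem]
      apply hreg
      simp only [smul_zero]
      rw [← Ideal.Quotient.mkₐ_eq_mk V, ← map_smul, smul_eq_C_mul, Ideal.Quotient.mkₐ_eq_mk,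
        Ideal.Quotient.eq_zero_iff_mem]
      exact Ideal.mem_sup_left hcf
    have h2 : dn V f ∈ chart (I0 L) i := by
      rw [← hsame i, ← chart_map]
      exact Ideal.mem_map_of_mem _ h1
    obtain ⟨M, hM⟩ := exists_X_pow_mul_mem (I0_hom L) hn h2
    exact (L l).primary _ _ (I0_le_Q L l hM) (fun h => hi ((L l).primeP.mem_of_pow_mem _ h))
  have hJ0 : J.map (dn V) ≤ red V K (J.map (up V K)) :=
    Ideal.map_mono Ideal.le_comap_map
  have hJ0h : IsHomog (J.map (dn V)) := hJ.map _
  have hrad : irr _ ≤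
      (Submodule.colon (J.map (dn V)) (I0 L : Set (A (ResidueField V)))).radical := by
    rw [irr_le_iff]
    intro i
    have h1 : I0 L ≤ ⨆ M : ℕ, Submodule.colon (J.map (dn V)) {X i ^ M} := by
      refine (I0_hom L).le_of_homog (fun n f hf hn => ?_)
      obtain ⟨M, hM⟩ := exists_X_pow_mul_mem hJ0h hn (i := i)
        (by rw [hsame i]; exact Ideal.mem_sup_left hf)
      refine Submodule.mem_iSup_of_mem M ?_
      rwa [Submodule.mem_colon_singleton, smul_eq_mul, mul_comm]
    have hmono : Monotone (fun M : ℕ => Submodule.colon (J.map (dn V)) {(X i : A _) ^ M}) := by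
      refine monotone_nat_of_le_succ (fun M x hx => ?_)
      rw [Submodule.mem_colon_singleton, smul_eq_mul] at hx ⊢
      rw [pow_succ, ← mul_assoc]
      exact Ideal.mul_mem_right _ _ hx
    obtain ⟨M, hM⟩ := (monotone_stabilizes_iff_noetherian.2 inferInstance) ⟨_, hmono⟩
    refine ⟨M, Submodule.mem_colon.2 (fun f hf => ?_)⟩
    have h2 : (⨆ M : ℕ, Submodule.colon (J.map (dn V)) {(X i : A _) ^ M}) ≤
        Submodule.colon (J.map (dn V)) {(X i : A _) ^ M} := by
      refine iSup_le (fun m => ?_)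
      rcases le_total m M with h | h
      · exact hmono h
      · exact (hM m h).ge
    have := h2 (h1 hf)
    rwa [Submodule.mem_colon_singleton, smul_eq_mul, mul_comm] at this
  obtain ⟨M, hM⟩ := Ideal.exists_pow_le_of_le_radical_of_fg hrad (idealOfVars_fg _ _)
  obtain ⟨N, hN⟩ := eventually_mem_of_irr_pow_mul_le hJ0h (IsNoetherian.noetherian (I0 L))
    (M := M) (Ideal.mul_le.2 fun x hx f hf => Submodule.mem_colon.1 (hM hx) f hf)
  exact ⟨hle, N, fun n hn f hf hfn => hJ0 (hN n hn f hf hfn)⟩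

/-- an associated closed point gives a larger ideal of bounded colength -/
theorem bigger_LC {It : Ideal (A K)} (hI : IsHomog It) (h : ¬ NoAssPt It) :
    ∃ (b : Ideal (A K)) (t c : ℕ), IsHomog b ∧ It ≤ b ∧
      ∀ n, t ≤ n → hilbFun b n < hilbFun It n ∧ hilbFun It n ≤ hilbFun b n + c := by
  simp only [NoAssPt, not_forall, not_not] at h
  obtain ⟨i, q, hq, hmax⟩ := h
  obtain ⟨-, x, hx⟩ := isAssociatedPrime_iff.1 hq
  obtain ⟨f, rfl⟩ := Ideal.Quotient.mk_surjective x
  have hmem : ∀ a, a ∈ q ↔ a * f ∈ chart It i := fun a => by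
    rw [hx, Submodule.mem_colon_singleton, Submodule.mem_bot, ← Ideal.Quotient.eq_zero_iff_mem]
    rfl
  obtain ⟨c, hc⟩ := isMaximal_iff_eq_vanishingIdeal_singleton.1 hmax
  obtain ⟨F, hF, hFf⟩ := exists_homogenize It i f le_rfl
  have hX := X_sub_one_mem It i
  have hF0 : F ∉ chart It i := fun h0 => hmax.ne_top <| (Ideal.eq_top_iff_one _).2 <|
    (hmem 1).2 (by simpa using sub_mem h0 hFf)
  have hci : c i = 1 := by
    have h1 := (hmem (X i - 1)).2 (Ideal.mul_mem_right _ _ hX)
    rw [hc, mem_vanishingIdeal_singleton_iff] at h1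
    simpa [sub_eq_zero] using h1
  have hy : ∀ j, ∃ M : ℕ, X i ^ M * ((X j - C (c j) * X i) * F) ∈ It := by
    intro j
    have h1 : (X j - C (c j) * X i : A K).IsHomogeneous 1 :=
      (isHomogeneous_X K j).sub ((isHomogeneous_X K i).C_mul _)
    refine exists_X_pow_mul_mem hI (h1.mul hF) ?_
    have h2 : (X j - C (c j) * X i : A K) ∈ q := by
      rw [hc, mem_vanishingIdeal_singleton_iff]
      simp [hci]
    have h3 := add_mem ((hmem _).1 h2) (Ideal.mul_mem_left _ (X j - C (c j) * X i) hFf)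
    rwa [← mul_add, add_sub_cancel] at h3
  choose M hM using hy
  let m := Finset.univ.sup M
  have hF' : (X i ^ m * F).IsHomogeneous (m + f.totalDegree) := (isHomogeneous_X_pow i m).mul hF
  have hb := hI.colon hF'
  set b := Submodule.colon It {X i ^ m * F} with hbdef
  have hirr : irr K ^ 1 ≤ b ⊔ Ideal.span {X i} := by
    rw [pow_one, irr_le_iff]
    intro j
    have h1 : (X j - C (c j) * X i : A K) ∈ b := by
      obtain ⟨r, hr⟩ := Nat.exists_eq_add_of_le (Finset.le_sup (f := M) (Finset.mem_univ j))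
      rw [hbdef, Submodule.mem_colon_singleton, smul_eq_mul]
      have : (X j - C (c j) * X i) * (X i ^ m * F) =
          X i ^ r * (X i ^ M j * ((X j - C (c j) * X i) * F)) := by
        simp only [m]
        rw [hr]
        ring
      rw [this]
      exact Ideal.mul_mem_left _ _ (hM j)
    have h2 := Submodule.add_mem_sup h1
      (Ideal.mul_mem_left _ (C (c j)) (Ideal.mem_span_singleton_self (X i : A K)))
    rwa [sub_add_cancel] at h2
  have hbd : ∀ n, hilbFun b n ≤ hilbFun b 0 := by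
    intro n
    induction n with
    | zero => exact le_rfl
    | succ n ih =>
      have h1 := hf_colon hb (isHomogeneous_X K i) n
      rw [hf_eq_zero_of_irr_pow_le hirr (by omega)] at h1
      have h2 : hilbFun (Submodule.colon b {X i}) n ≤ hilbFun b n := hf_anti (fun x hx => by
        rw [Submodule.mem_colon_singleton, smul_eq_mul]; exact Ideal.mul_mem_right _ _ hx) _
      omega
  refine ⟨It ⊔ Ideal.span {X i ^ m * F}, m + f.totalDegree, hilbFun b 0,
    hI.sup (isHomog_span_singleton hF'), le_sup_left, fun n hn => ?_⟩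
  obtain ⟨n, rfl⟩ := Nat.exists_eq_add_of_le' hn
  have h1 := hf_colon hI hF' n
  have h2 := hbd n
  have h3 : 1 ≤ hilbFun b n := hf_pos (isHomogeneous_X_pow i n) fun h => by
    rw [hbdef, Submodule.mem_colon_singleton, smul_eq_mul, ← mul_assoc, ← pow_add] at h
    exact hF0 (mem_of_X_pow_mul hX (le_chart It i h))
  rw [← hbdef] at h1
  omega

theorem Setup.noAssPt {ι : Type} [Fintype ι] [DecidableEq ι] {e : ℕ}
    {L : ι → MLine (ResidueField V) e} {It : Ideal (A K)} {N : ℕ} (S : Setup V K L It N) :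
    NoAssPt It := by
  by_contra h
  obtain ⟨b, t, c, hb, hle, hn⟩ := bigger_LC S.hom h
  obtain ⟨C, N1, hC⟩ := S.upper hb hle
  have hdeg : deg L (red V K It) ≤ deg L (red V K b) := by
    apply le_of_eventually_mul_le (C := C + c + 4 * Fintype.card ι ^ 2)
      (N := N1 + t + (e + 1 + 2 * Fintype.card ι))
    intro n h0
    have h1 := S.lower S.hom (n := n) (by omega)
    have h2 := hC n (by omega)
    have h3 := (hn n (by omega)).2
    omega
  have h2 : ∀ i, (L i).dbl → (L i).mu (red V K It) = 2 := fun i hi =>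
    ((L i).mu_eq_two_iff _).2 ⟨hi, S.le.trans (I0_le_Q L i)⟩
  have h1 : ∀ i, 1 ≤ (L i).mu (red V K It) := fun i =>
    ((L i).mu_pos_iff _).2 (S.le.trans (I0_le_P L i))
  have hmu : ∀ i, (L i).mu (red V K b) ≤ (L i).mu (red V K It) := by
    intro i
    have h3 := (L i).mu_valid (red V K b)
    have h4 := h3.1
    by_cases hi : (L i).dbl
    · rw [h2 i hi]
      exact h4
    · have h5 : (L i).mu (red V K b) ≠ 2 := fun h => hi (h3.2 h)
      have := h1 i
      omega
  have heq := (Finset.sum_eq_sum_iff_of_le (s := Finset.univ) fun i _ => hmu i).1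
    (le_antisymm (Finset.sum_le_sum fun i _ => hmu i) hdeg)
  have hb0 : red V K b ≤ I0 L := by
    refine le_iInf fun i => ?_
    have h3 := heq i (Finset.mem_univ i)
    by_cases hi : (L i).dbl
    · exact (((L i).mu_eq_two_iff _).1 (h3.trans (h2 i hi))).2
    · rw [(L i).ndbl hi]
      exact ((L i).mu_pos_iff _).1 (h3 ▸ h1 i)
  have h4 := hf_le_of_pc_le (I := red V K b) (J := red V K It) (n := N + t)
    fun f hf hfn => S.ge _ (by omega) f (hb0 hf) hfn
  rw [hf_red hb, hf_red S.hom] at h4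
  have := (hn (N + t) (by omega)).1
  omega

end lift

theorem poly_LC {k : Type} [Field k] {ι : Type} [Fintype ι] [DecidableEq ι] {e : ℕ}
    {L : ι → MLine k e} (hd : Distinct L) {i : ι} (hi : (L i).dbl) {d N : ℕ} {g : ℤ}
    (h : ∀ n : ℕ, N ≤ n → (hilbFun (I0 L) n : ℤ) = d * n + 1 - g) :
    d = deg L (I0 L) ∧ g + e ≤ 4 * Fintype.card ι ^ 2 := by
  have hlow := fun n hn => hf_lower1 hd (I0 L) (n := n) hn
    (((L i).mu_eq_two_iff _).2 ⟨hi, I0_le_Q L i⟩)
  have hup := fun n hn => hf_hull_upper (fun i => (L i).mu (I0 L)) (fun i => (L i).mu_valid _)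
    (n := n) hn
  simp only [← I0_eq_hull] at hup
  have hg : g ≤ g.natAbs := Int.le_natAbs
  have hg' : -g ≤ g.natAbs := by omega
  have h1 : d = deg L (I0 L) := by
    apply le_antisymm
    · apply le_of_eventually_mul_le (C := ∑ i, cst e ((L i).mu (I0 L)) + g.natAbs)
        (N := N + (e + 1))
      intro n hn
      have a1 := h n (by omega)
      have a2 := hup n (by omega)
      unfold deg
      zify at a2 ⊢
      rw [← Int.natCast_natAbs]
      linarith
    · apply le_of_eventually_mul_le (C := 4 * Fintype.card ι ^ 2 + 1 + g.natAbs)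
        (N := N + (e + 1 + 2 * Fintype.card ι))
      intro n hn
      have a1 := h n (by omega)
      have a2 := hlow n (by omega)
      zify at a2 ⊢
      rw [← Int.natCast_natAbs]
      linarith [Int.natCast_nonneg e]
  refine ⟨h1, ?_⟩
  have a1 := h (N + (e + 1 + 2 * Fintype.card ι)) (by omega)
  have a2 := hlow (N + (e + 1 + 2 * Fintype.card ι)) (by omega)
  rw [← h1] at a2
  zify at a2
  push_cast at a1
  linarith

theorem deg_LC {k : Type} [Field k] {Pt Ln : Type} [Fintype Pt] [Fintype Ln] [DecidableEq Pt]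
    [DecidableEq Ln] {inc : Pt → Ln → Prop} (F : Aff k inc) (e : ℕ) :
    deg (cfg F e) (I0 (cfg F e)) = Fintype.card Pt + 1 + 2 * (2 + Fintype.card Ln) := by
  have h1 : ∀ a, (cfg F e (.inl a)).mu (I0 (cfg F e)) = 1 := by
    intro a
    have a1 := ((cfg F e (.inl a)).mu_pos_iff _).2 (I0_le_P (cfg F e) _)
    have a2 := (cfg F e (.inl a)).mu_valid (I0 (cfg F e))
    have a3 : (cfg F e (.inl a)).mu (I0 (cfg F e)) ≠ 2 := fun h => by
      simpa [cfg_dbl] using a2.2 h
    have := a2.1
    omega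
  have h2 : ∀ a, (cfg F e (.inr a)).mu (I0 (cfg F e)) = 2 := fun a =>
    (MLine.mu_eq_two_iff _ _).2 ⟨by simp [cfg_dbl], I0_le_Q (cfg F e) _⟩
  unfold deg
  rw [Fintype.sum_sum_type]
  simp only [h1, h2]
  simp [mul_comm]

theorem avoid_LC {k : Type} [Infinite k] (m : ℕ) {T : Set k} (hT : T.Finite) :
    ∃ x : Fin m → k, Function.Injective x ∧ ∀ j, x j ∉ T :=
  ⟨fun j => hT.infinite_compl.natEmbedding _ j, fun _ _ h =>
    Fin.ext ((hT.infinite_compl.natEmbedding _).injective (Subtype.ext h)),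
    fun j => (hT.infinite_compl.natEmbedding _ j).2⟩

/-- the incidence structure with `m` further points on no line -/
def incMore {Pt Ln : Type} (inc : Pt → Ln → Prop) (m : ℕ) : Pt ⊕ Fin m → Ln → Prop
  | .inl P, l => inc P l
  | .inr _, _ => False

theorem more_LC {k : Type} [Field k] [Infinite k] {Pt Ln : Type} [Finite Pt] [Finite Ln]
    {inc : Pt → Ln → Prop} (F : Aff k inc) (hF : F.Good) (m : ℕ) :
    ∃ F' : Aff k (incMore inc m), F'.Good := by
  obtain ⟨x, x1, x2⟩ := avoid_LC m (Set.finite_range F.X)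
  obtain ⟨y, y1, y2⟩ := avoid_LC m ((Set.finite_range F.Y).union
    (Set.finite_range fun q : Fin m × Ln => (F.a q.2 * x q.1 + F.b q.2) / F.c q.2))
  refine ⟨⟨Sum.elim F.X x, Sum.elim F.Y y, F.a, F.b, F.c,
    F.hX.sumElim x1 fun a b h => x2 b ⟨a, h⟩, F.hY.sumElim y1 fun a b h => y2 b (Or.inl ⟨a, h⟩),
    F.ha, F.hc, ?_⟩, hF⟩
  rintro (P | j) l
  · exact F.inc_iff P l
  · refine ⟨False.elim, fun h => y2 j (Or.inr ⟨(j, l), ?_⟩)⟩
    simp only [Sum.elim_inr] at h
    rw [div_eq_iff (F.hc l), ← h, mul_comm]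

/-- forget the further points -/
def Aff.less {k : Type} [Field k] {Pt Ln : Type} {inc : Pt → Ln → Prop} {m : ℕ}
    (F : Aff k (incMore inc m)) : Aff k inc :=
  ⟨F.X ∘ .inl, F.Y ∘ .inl, F.a, F.b, F.c, F.hX.comp Sum.inl_injective,
    F.hY.comp Sum.inl_injective, F.ha, F.hc, fun P l => F.inc_iff (.inl P) l⟩

theorem val_LC {R : Type} [CommRing R] (y' y : Ideal R) [y'.IsPrime] [y.IsPrime]
    (h : y' ≤ y) : ∃ (K : Type) (_ : Field K) (_ : IsAlgClosed K) (V : ValuationSubring K)
      (θ : R →+* V), (∀ r, residue V (θ r) = 0 ↔ r ∈ y) ∧ ∀ r, (θ r : K) = 0 ↔ r ∈ y' := by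
  let K := AlgebraicClosure (FractionRing (R ⧸ y'))
  let ρ : R →+* K := (algebraMap (FractionRing (R ⧸ y')) K).comp
    ((algebraMap (R ⧸ y') (FractionRing (R ⧸ y'))).comp (Ideal.Quotient.mk y'))
  have hρ : ∀ r, ρ r = 0 ↔ r ∈ y' := by
    intro r
    simp [ρ, Ideal.Quotient.eq_zero_iff_mem]
  let f : Localization.AtPrime y →+* K := IsLocalization.lift (M := y.primeCompl) (g := ρ)
    (fun s => Ne.isUnit (fun h0 => s.2 (h ((hρ _).1 h0))))
  obtain ⟨V, hV, hloc⟩ := IsLocalRing.exists_factor_valuationRing f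
  let f' : Localization.AtPrime y →+* V := f.codRestrict V.toSubring hV
  have hloc' : IsLocalHom f' := hloc
  refine ⟨K, inferInstance, inferInstance, V, f'.comp (algebraMap R _), fun r => ?_, fun r => ?_⟩
  · rw [residue_eq_zero_iff, mem_maximalIdeal, mem_nonunits_iff, RingHom.comp_apply,
      isUnit_map_iff, IsLocalization.AtPrime.isUnit_to_map_iff _ y]
    simp
  · rw [← hρ, ← IsLocalization.lift_eq (S := Localization.AtPrime y) (M := y.primeCompl) (g := ρ)
      (fun s => Ne.isUnit (fun h0 => s.2 (h ((hρ _).1 h0))))]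
    exact Iff.rfl

open CategoryTheory AlgebraicGeometry

theorem exists_component_LC (p : ℕ) (hp : p.Prime) (d : ℕ) (hd : 6 * p + 14 ≤ d) (G : ℤ) :
    ∃ g ≤ G, ∀ (H : Scheme.{0})
      (fam : ∀ R : CommRingCat.{0}, (Spec R ⟶ H) → Ideal (MvPolynomial (Fin 4) R)),
      Represents d g H fam → ∃ Z ∈ irreducibleComponents H,
        (specZIsTerminal.from H) '' Z = {x | x.asIdeal = Ideal.span {(p : ℤ)}} ∧
        ∃ (K : Type) (_ : Field K) (s : Spec (.of K) ⟶ H),
          closure (Set.range s) = Z ∧ NoAssPt (fam (.of K) s) := by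
  classical
  have : Fact p.Prime := ⟨hp⟩
  let k := AlgebraicClosure (ZMod p)
  have hk : (Int.castRingHom k).IsIntegral := by
    rw [RingHom.ext_int (Int.castRingHom k)
      ((algebraMap (ZMod p) k).comp (Int.castRingHom (ZMod p)))]
    exact RingHom.IsIntegral.trans _ _
      (RingHom.isIntegral_of_surjective _ (ZMod.ringHom_surjective _))
      (fun a => Algebra.IsIntegral.isIntegral a)
  obtain ⟨m, rfl⟩ := Nat.exists_eq_add_of_le hd
  obtain ⟨F0, hF0⟩ := exists_aff_char p k
  obtain ⟨F, hF⟩ := more_LC F0 hF0 m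
  let e := 4 * Fintype.card (Jx (Ix p ⊕ Fin m) (Ix p)) ^ 2 + 1 + G.natAbs
  obtain ⟨d, g, -, N, hN⟩ := exists_hilbert_poly (cfg F e)
  obtain ⟨hdeg, hg⟩ := poly_LC (cfg_distinct hF e) (i := .inr (.inl true)) (by simp [cfg_dbl]) hN
  have hd' : d = 6 * p + 14 + m := by
    rw [hdeg, deg_LC]
    simp only [Fintype.card_sum, Fintype.card_fin, ZMod.card]
    ring
  subst hd'
  refine ⟨g, ?_, ?_⟩
  · simp only [e] at hg
    push_cast at hg
    have := neg_abs_le G
    linarith
  rintro H fam ⟨hfam, hnat, -, hsurj⟩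
  obtain ⟨s0, hs0⟩ := hsurj (.of k) (I0 (cfg F e)) (isFamily_of_field (I0_hom _) hN)
  let pt : Spec (.of k) := closedPoint k
  obtain ⟨R, j, hj, y, hy⟩ := Scheme.exists_Spec_apply_eq (s0 pt)
  have hrange : Set.range s0 ⊆ Set.range j := by
    rintro _ ⟨z, rfl⟩
    exact ⟨y, by rw [hy, Subsingleton.elim z pt]⟩
  let ψ : R ⟶ .of k := Spec.preimage (IsOpenImmersion.lift j s0 hrange)
  have hψ : Spec.map ψ ≫ j = s0 := by simp [ψ]
  have hyψ : y = Spec.map ψ pt := by
    apply j.isOpenEmbedding.injective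
    rw [hy, ← hψ]; simp
  have hker : ∀ r, r ∈ y.asIdeal ↔ ψ.hom r = 0 := by
    intro r
    rw [hyψ]
    change (ψ.hom r : k) ∈ maximalIdeal k ↔ (ψ.hom r : k) = 0
    rw [IsLocalRing.maximalIdeal_eq_bot, Ideal.mem_bot]
  let Z := irreducibleComponent (s0 pt)
  obtain ⟨η, hη⟩ := QuasiSober.sober (isIrreducible_irreducibleComponent (x := s0 pt))
    isClosed_irreducibleComponent
  have hsp : η ⤳ s0 pt := hη.specializes mem_irreducibleComponent
  obtain ⟨y', rfl⟩ : η ∈ Set.range j :=
    hsp.mem_open j.isOpenEmbedding.isOpen_range ⟨y, hy⟩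
  have hle : y'.asIdeal ≤ y.asIdeal := by
    rw [← hy, j.isOpenEmbedding.isInducing.specializes_iff] at hsp
    exact (PrimeSpectrum.le_iff_specializes y' y).2 hsp
  obtain ⟨K, _, _, V, θ, hθ, hθ'⟩ := val_LC y'.asIdeal y.asIdeal hle
  have := isAlgClosed_residueField V
  obtain ⟨ι, hι⟩ := exists_embedding (k := k) hk ψ.hom ((residue V).comp θ)
    (fun r => (hθ r).trans (hker r))
  have hJ := hfam (.of V) (Spec.map (CommRingCat.ofHom θ) ≫ j)
  have h1 := hnat (.of V) (.of (ResidueField V)) (CommRingCat.ofHom (residue V))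
    (Spec.map (CommRingCat.ofHom θ) ≫ j)
  have h2 := hnat (.of k) (.of (ResidueField V)) (CommRingCat.ofHom ι) s0
  have h3 : Spec.map (CommRingCat.ofHom (residue V)) ≫ Spec.map (CommRingCat.ofHom θ) ≫ j =
      Spec.map (CommRingCat.ofHom ι) ≫ s0 := by
    rw [← hψ, ← Category.assoc, ← Category.assoc, ← Spec.map_comp, ← Spec.map_comp]
    congr 2
    ext1
    exact hι.symm
  rw [h3] at h1
  obtain ⟨r1, N', r2⟩ := red_LC (V := V) (K := K) (cfg (F.map ι) e) hJ.1 hJ.2.2.1 (by
    rw [I0_cfg_map]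
    exact fun i => (h1 i).symm.trans ((h2 i).trans (SameSub.map ι hs0 i)))
  have S : Setup V K (cfg (F.map ι) e) _ N' :=
    ⟨cfg_distinct (hF.map ι) e, cfg_skew (hF.map ι) e, Nat.le_add_right _ _, hJ.1.map _, r1, r2⟩
  have hpy : (p : R) ∈ y'.asIdeal := by
    obtain ⟨U, hU, hU2, hUU⟩ := S.lift
    obtain ⟨F'⟩ := ((cfg_pattern (hF.map ι) e).transfer hUU).aff hU hU2
    rw [← hθ']
    simpa using char_of_aff p F'.less
  have hmax : (Ideal.span {(p : ℤ)}).IsMaximal :=
    PrincipalIdealRing.isMaximal_of_irreducible (Nat.prime_iff_prime_int.1 hp).irreducible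
  have hπ : j ≫ specZIsTerminal.from H = Spec.map (CommRingCat.ofHom (Int.castRingHom R)) :=
    specZIsTerminal.hom_ext _ _
  have hη' : Ideal.span {(p : ℤ)} ≤ (specZIsTerminal.from H (j y')).asIdeal := by
    rw [← Scheme.Hom.comp_apply, hπ, Ideal.span_singleton_le_iff_mem]
    change Int.castRingHom R p ∈ y'.asIdeal
    simpa using hpy
  have hall : ∀ z ∈ Z, (specZIsTerminal.from H z).asIdeal = Ideal.span {(p : ℤ)} := by
    intro z hz
    have h1 := (hη.specializes hz).map (specZIsTerminal.from H).continuous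
    have h2 := (PrimeSpectrum.le_iff_specializes _ _).2 h1
    exact (hmax.eq_of_le (specZIsTerminal.from H z).isPrime.ne_top (hη'.trans h2)).symm
  refine ⟨Z, irreducibleComponent_mem_irreducibleComponents _, ?_, K, inferInstance,
    Spec.map (CommRingCat.ofHom (algebraMap V K)) ≫ Spec.map (CommRingCat.ofHom θ) ≫ j, ?_, ?_⟩
  · ext x
    constructor
    · rintro ⟨z, hz, rfl⟩
      exact hall z hz
    · intro hx
      exact ⟨s0 pt, mem_irreducibleComponent,
        PrimeSpectrum.ext ((hall _ mem_irreducibleComponent).trans hx.symm)⟩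
  · have hz : ∀ z : Spec (.of K), (Spec.map (CommRingCat.ofHom (algebraMap V K)) ≫
        Spec.map (CommRingCat.ofHom θ) ≫ j) z = j y' := by
      intro z
      rw [← Category.assoc, ← Spec.map_comp, Scheme.Hom.comp_apply,
        Subsingleton.elim z (closedPoint K)]
      congr 1
      refine PrimeSpectrum.ext (Ideal.ext fun r => ?_)
      rw [← hθ']
      change (θ r : K) ∈ maximalIdeal K ↔ _
      rw [IsLocalRing.maximalIdeal_eq_bot, Ideal.mem_bot]
    rw [Set.range_eq_singleton hz]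
    exact hη
  · have h4 := hnat (.of V) (.of K) (CommRingCat.ofHom (algebraMap V K))
      (Spec.map (CommRingCat.ofHom θ) ≫ j)
    intro i
    rw [h4 i]
    exact S.noAssPt i

end Pool.Agent.MP_eba2ed_ag
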