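import Pool.Agent.MP_eba2ed_ag.Defs

/-!
The universal family of the Hilbert scheme, and curves without embedded or isolated points.
-/

namespace Pool.Agent.MP_eba2ed_ag

open CategoryTheory AlgebraicGeometry MvPolynomial

/-- The scheme `H` represents the Hilbert functor through `fam`: a morphism `s : Spec R ⟶ H` gives
the family `fam R s`, and this is natural in the ring `R` and bijective onto the families of
`IsFamily d g` over `R`, taken up to `SameSub`. -/
def Represents (d : ℕ) (g : ℤ) (H : Scheme.{0})
    (fam : ∀ R : CommRingCat.{0}, (Spec R ⟶ H) → Ideal (MvPolynomial (Fin 4) R)) : Prop :=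
  (∀ (R : CommRingCat.{0}) (s : Spec R ⟶ H), IsFamily d g (fam R s)) ∧
    (∀ (R R' : CommRingCat.{0}) (φ : R ⟶ R') (s : Spec R ⟶ H),
      SameSub (fam R' (Spec.map φ ≫ s)) ((fam R s).map (MvPolynomial.map φ.hom))) ∧
    (∀ (R : CommRingCat.{0}) (s t : Spec R ⟶ H), SameSub (fam R s) (fam R t) → s = t) ∧
    (∀ (R : CommRingCat.{0}) (I : Ideal (MvPolynomial (Fin 4) R)), IsFamily d g I →
      ∃ s : Spec R ⟶ H, SameSub (fam R s) I)

/-- No closed point is an associated point of `V(I)`: in each of the four affine charts no
associated prime of the coordinate ring is a maximal ideal. For a subscheme of dimension one of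
projective three-space over a field this says that it has no embedded and no isolated points,
that is, it is a locally Cohen-Macaulay curve. -/
def NoAssPt {R : Type} [CommRing R] (I : Ideal (MvPolynomial (Fin 4) R)) : Prop :=
  ∀ i : Fin 4, ∀ q ∈ associatedPrimes (MvPolynomial (Fin 4) R)
    (MvPolynomial (Fin 4) R ⧸ chart I i), ¬ q.IsMaximal

end Pool.Agent.MP_eba2ed_ag
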