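import Pool.Agent.MP_eba2ed_ag.HF

/-! Lines and double lines in projective three-space. -/

namespace Pool.Agent.MP_eba2ed_ag

open MvPolynomial Module

variable {k : Type} [Field k]

abbrev B (R : Type) [CommRing R] : Type := MvPolynomial (Fin 2) R

lemma finrank_Hn_one : finrank k (Hn k 1) = 4 := by
  rw [Hn, homogeneousSubmodule_one_eq_span_X, finrank_span_eq_card (linearIndependent_X _ _)]
  simp

lemma finrank_Bn (n : ℕ) : finrank k (homogeneousSubmodule (Fin 2) k n) = n + 1 := by
  classical
  let d : Fin (n + 1) → (Fin 2 →₀ ℕ) := fun j =>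
    Finsupp.single (0 : Fin 2) (j : ℕ) + Finsupp.single (1 : Fin 2) (n - (j : ℕ))
  have hd : Function.Injective d := by
    intro a b h
    have := DFunLike.congr_fun h 0
    simp [d] at this
    exact Fin.ext this
  have hli : LinearIndependent k (fun j => (monomial (d j) (1 : k) : B k)) :=
    (basisMonomials (Fin 2) k).linearIndependent.comp d hd
  have : homogeneousSubmodule (Fin 2) k n =
      Submodule.span k (Set.range fun j => (monomial (d j) (1 : k) : B k)) := by
    rw [homogeneousSubmodule_eq_finsupp_supported, AddMonoidAlgebra.supported_eq_span_single]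
    congr 1
    ext f
    simp only [Set.mem_image, Set.mem_ofPred_eq, Set.mem_range]
    constructor
    · rintro ⟨m, hm, rfl⟩
      have hm' : m 0 + m 1 = n := by
        rw [← hm, Finsupp.degree_eq_sum]; simp
      refine ⟨⟨m 0, by omega⟩, ?_⟩
      have : d ⟨m 0, by omega⟩ = m := by
        ext i
        fin_cases i <;> simp [d]
        omega
      rw [this]; rfl
    · rintro ⟨j, rfl⟩
      refine ⟨d j, ?_, rfl⟩
      have := j.2
      simp only [d, map_add, Finsupp.degree_single]
      omega
  rw [this, finrank_span_eq_card hli]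
  simp

lemma finrank_submodule_prod {M N : Type*} [AddCommGroup M] [AddCommGroup N] [Module k M]
    [Module k N] (p : Submodule k M) (q : Submodule k N) [Module.Finite k p] [Module.Finite k q] :
    finrank k (p.prod q) = finrank k p + finrank k q := by
  have h : LinearMap.range (p.subtype.prodMap q.subtype) = p.prod q := by
    rw [LinearMap.range_prodMap]; simp
  rw [← h, LinearMap.finrank_range_of_inj, finrank_prod]
  exact (Submodule.subtype_injective p).prodMap (Submodule.subtype_injective q)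

/-- A line `P` with a multiplicity structure `Q` (a double structure of genus `-1-e` if `dbl`). -/
structure MLine (k : Type) [Field k] (e : ℕ) where
  P : Ideal (A k)
  Q : Ideal (A k)
  dbl : Prop
  primeP : P.IsPrime
  homP : IsHomog P
  homQ : IsHomog Q
  QleP : Q ≤ P
  sq : ∀ a ∈ P, ∀ b ∈ P, a * b ∈ Q
  primary : ∀ u f, u * f ∈ Q → u ∉ P → f ∈ Q
  hfP : ∀ n, hilbFun P n = n + 1
  hfQ : dbl → ∀ n, e + 1 ≤ n → hilbFun Q n = 2 * n + e + 2
  ndbl : ¬ dbl → Q = P
  gen : P ≤ Ideal.span (pc P 1 : Set (A k))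
  loc : ∀ n, ∀ f ∈ P, f.IsHomogeneous n → f ∉ Q →
    ∃ (m : ℕ) (u : A k), u.IsHomogeneous m ∧ u ∉ P ∧ ∀ g ∈ P, g * u ∈ Q ⊔ Ideal.span {f}

lemma MLine.finrank_one {e : ℕ} (L : MLine k e) : finrank k (pc L.P 1) = 2 := by
  have h1 := hf_add_dm L.P 1
  rw [L.hfP, finrank_Hn_one] at h1
  omega

lemma MLine.exists_X_notMem {e : ℕ} (L : MLine k e) : ∃ i, X i ∉ L.P := by
  by_contra hall
  push Not at hall
  have := hf_eq_zero_of_irr_pow_le (I := L.P) (M := 1) (n := 1)
    (by simpa using irr_le_iff.2 hall) le_rfl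
  rw [L.hfP] at this
  omega

section explicit

variable {R : Type} [CommRing R]

/-- restriction to the line spanned by the first two columns of `M` -/
noncomputable def psi (M : Matrix (Fin 4) (Fin 4) R) : A R →ₐ[R] B R :=
  aeval (fun i => C (M i 0) * X 0 + C (M i 1) * X 1)

/-- the normal direction of the double structure -/
noncomputable def nrm (M : Matrix (Fin 4) (Fin 4) R) (e : ℕ) (b : Bool) (i : Fin 4) : B R :=
  if b then C (M i 2) * X 0 ^ (e + 1) + C (M i 3) * X 1 ^ (e + 1) else 0

/-- the normal derivative -/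
noncomputable def der (M : Matrix (Fin 4) (Fin 4) R) (e : ℕ) (b : Bool) : A R →ₗ[R] B R :=
  ∑ i, (LinearMap.mulRight R (nrm M e b i)) ∘ₗ (psi M).toLinearMap ∘ₗ
    (pderiv i : Derivation R (A R) (A R)).toLinearMap

lemma der_apply (M : Matrix (Fin 4) (Fin 4) R) (e : ℕ) (b : Bool) (f : A R) :
    der M e b f = ∑ i, psi M (pderiv i f) * nrm M e b i := by
  simp [der, LinearMap.sum_apply]

lemma der_mul (M : Matrix (Fin 4) (Fin 4) R) (e : ℕ) (b : Bool) (f g : A R) :
    der M e b (f * g) = psi M f * der M e b g + psi M g * der M e b f := by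
  simp only [der_apply, Derivation.leibniz, smul_eq_mul, map_add, map_mul, Finset.mul_sum,
    ← Finset.sum_add_distrib]
  exact Finset.sum_congr rfl (fun i _ => by ring)

lemma der_X (M : Matrix (Fin 4) (Fin 4) R) (e : ℕ) (b : Bool) (j : Fin 4) :
    der M e b (X j) = nrm M e b j := by
  classical
  rw [der_apply, Finset.sum_eq_single j]
  · simp
  · intro i _ hi
    rw [pderiv_X_of_ne (Ne.symm hi)]; simp
  · simp

lemma der_C (M : Matrix (Fin 4) (Fin 4) R) (e : ℕ) (b : Bool) (c : R) :
    der M e b (C c) = 0 := by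
  simp [der_apply]

lemma psi_homog (M : Matrix (Fin 4) (Fin 4) R) {n : ℕ} {f : A R} (hf : f.IsHomogeneous n) :
    (psi M f).IsHomogeneous n := by
  have := hf.aeval (fun i => (C (M i 0) * X 0 + C (M i 1) * X 1 : B R)) (n := 1)
    (fun i => (isHomogeneous_C_mul_X _ _).add (isHomogeneous_C_mul_X _ _))
  rwa [one_mul] at this

lemma nrm_homog (M : Matrix (Fin 4) (Fin 4) R) (e : ℕ) (b : Bool) (i : Fin 4) :
    (nrm M e b i).IsHomogeneous (e + 1) := by
  unfold nrm
  split_ifs
  · exact (isHomogeneous_C_mul_X_pow _ _ _).add (isHomogeneous_C_mul_X_pow _ _ _)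
  · exact isHomogeneous_zero _ _ _

lemma der_homog (M : Matrix (Fin 4) (Fin 4) R) (e : ℕ) (b : Bool) {n : ℕ} {f : A R}
    (hf : f.IsHomogeneous n) : (der M e b f).IsHomogeneous (n + e) := by
  rcases n with _ | n
  · have : f = C (coeff 0 f) := by
      rw [← homogeneousComponent_zero, homogeneousComponent_eq_self hf]
    rw [this, der_C]
    exact isHomogeneous_zero _ _ _
  · rw [der_apply]
    refine IsHomogeneous.sum _ _ _ (fun i _ => ?_)
    have := (psi_homog M (hf.pderiv (i := i))).mul (nrm_homog M e b i)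
    have e1 : n + 1 - 1 + (e + 1) = n + 1 + e := by omega
    rwa [e1] at this

/-- the ideal of the multiple line -/
noncomputable def mult (M : Matrix (Fin 4) (Fin 4) R) (e : ℕ) (b : Bool) : Ideal (A R) where
  carrier := {f | psi M f = 0 ∧ der M e b f = 0}
  add_mem' := by
    rintro f g ⟨h1, h2⟩ ⟨h3, h4⟩
    exact ⟨by rw [map_add, h1, h3, add_zero], by rw [map_add, h2, h4, add_zero]⟩
  zero_mem' := ⟨map_zero _, map_zero _⟩
  smul_mem' := by
    rintro c f ⟨h1, h2⟩
    rw [smul_eq_mul]
    exact ⟨by rw [map_mul, h1, mul_zero], by rw [der_mul, h1, h2]; simp⟩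

lemma mem_mult {M : Matrix (Fin 4) (Fin 4) R} {e : ℕ} {b : Bool} {f : A R} :
    f ∈ mult M e b ↔ psi M f = 0 ∧ der M e b f = 0 := Iff.rfl

/-- the dual coordinates -/
noncomputable def yy (N : Matrix (Fin 4) (Fin 4) R) (j : Fin 4) : A R := ∑ i, C (N j i) * X i

lemma yy_homog (N : Matrix (Fin 4) (Fin 4) R) (j : Fin 4) : (yy N j).IsHomogeneous 1 :=
  IsHomogeneous.sum _ _ _ (fun _ _ => isHomogeneous_C_mul_X _ _)

lemma psi_yy (M N : Matrix (Fin 4) (Fin 4) R) (j : Fin 4) :
    psi M (yy N j) = C ((N * M) j 0) * X 0 + C ((N * M) j 1) * X 1 := by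
  simp only [yy, psi, map_sum, map_mul, aeval_C, aeval_X, Matrix.mul_apply, Finset.sum_mul,
    ← Finset.sum_add_distrib, algebraMap_eq]
  exact Finset.sum_congr rfl (fun i _ => by ring)

lemma der_yy (M N : Matrix (Fin 4) (Fin 4) R) (e : ℕ) (b : Bool) (j : Fin 4) :
    der M e b (yy N j) =
      if b then C ((N * M) j 2) * X 0 ^ (e + 1) + C ((N * M) j 3) * X 1 ^ (e + 1) else 0 := by
  simp only [yy, map_sum, ← smul_eq_C_mul, map_smul, der_X, nrm, Matrix.mul_apply]
  split_ifs
  · simp only [Finset.sum_mul, ← Finset.sum_add_distrib, smul_add, smul_smul, ← smul_eq_C_mul]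
  · simp

/-- a section of `psi` -/
noncomputable def sec (N : Matrix (Fin 4) (Fin 4) R) : B R →ₐ[R] A R :=
  aeval ![yy N 0, yy N 1]

lemma sec_homog (N : Matrix (Fin 4) (Fin 4) R) {n : ℕ} {f : B R} (hf : f.IsHomogeneous n) :
    (sec N f).IsHomogeneous n := by
  have := hf.aeval ![yy N 0, yy N 1] (n := 1)
    (fun i => by fin_cases i <;> exact yy_homog N _)
  rwa [one_mul] at this

lemma psi_sec {M N : Matrix (Fin 4) (Fin 4) R} (h : N * M = 1) (f : B R) :
    psi M (sec N f) = f := by
  have : (psi M).comp (sec N) = AlgHom.id R (B R) := by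
    ext1 i
    fin_cases i <;> simp [sec, psi_yy, h]
  exact DFunLike.congr_fun this f

lemma der_sec {M N : Matrix (Fin 4) (Fin 4) R} (h : N * M = 1) (e : ℕ) (b : Bool) (f : B R) :
    der M e b (sec N f) = 0 := by
  induction f using MvPolynomial.induction_on with
  | C a => simp [sec, der_C]
  | add p q hp hq => rw [map_add, map_add, hp, hq, add_zero]
  | mul_X p i hp =>
    rw [map_mul, der_mul, hp]
    have : der M e b (sec N (X i)) = 0 := by
      fin_cases i <;> simp [sec, der_yy, h]
    rw [this]; simp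

lemma sub_sec_mem {M N : Matrix (Fin 4) (Fin 4) R} (h : M * N = 1) (f : A R) :
    f - sec N (psi M f) ∈ Ideal.span {yy N 2, yy N 3} := by
  rw [← Ideal.Quotient.eq]
  have : (Ideal.Quotient.mkₐ R (Ideal.span {yy N 2, yy N 3})) =
      (Ideal.Quotient.mkₐ R (Ideal.span {yy N 2, yy N 3})).comp ((sec N).comp (psi M)) := by
    ext1 i
    simp only [Ideal.Quotient.mkₐ_eq_mk, AlgHom.comp_apply]
    rw [Ideal.Quotient.eq]
    have h1 : (X i : A R) = ∑ j, C (M i j) * yy N j := by
      simp only [yy, Finset.mul_sum, ← mul_assoc, ← map_mul]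
      rw [Finset.sum_comm]
      simp only [← Finset.sum_mul, ← map_sum, ← Matrix.mul_apply, h, Matrix.one_apply]
      simp [apply_ite C]
    have h2 : sec N (psi M (X i)) = C (M i 0) * yy N 0 + C (M i 1) * yy N 1 := by
      simp [psi, sec]
    rw [h2]
    nth_rewrite 1 [h1]
    rw [Fin.sum_univ_four, Ideal.mem_span_pair]
    exact ⟨C (M i 2), C (M i 3), by ring⟩
  exact DFunLike.congr_fun this f

lemma map_psi {S : Type} [CommRing S] (φ : R →+* S) (M : Matrix (Fin 4) (Fin 4) R) (f : A R) :
    MvPolynomial.map φ (psi M f) = psi (M.map φ) (MvPolynomial.map φ f) := by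
  induction f using MvPolynomial.induction_on with
  | C a => simp [psi]
  | add p q hp hq => simp only [map_add, hp, hq]
  | mul_X p i hp =>
    simp only [map_mul, hp, map_X]
    simp [psi]

lemma map_der {S : Type} [CommRing S] (φ : R →+* S) (M : Matrix (Fin 4) (Fin 4) R) (e : ℕ)
    (b : Bool) (f : A R) :
    MvPolynomial.map φ (der M e b f) = der (M.map φ) e b (MvPolynomial.map φ f) := by
  simp only [der_apply, map_sum, map_mul, map_psi, pderiv_map]
  refine Finset.sum_congr rfl (fun i _ => ?_)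
  congr 1
  unfold nrm
  split_ifs <;> simp

end explicit

lemma exists_split {e n : ℕ} (hn : e + 1 ≤ n) {g : B k} (hg : g.IsHomogeneous (n + e)) :
    ∃ a b : B k, a.IsHomogeneous (n - 1) ∧ b.IsHomogeneous (n - 1) ∧
      g = a * X 0 ^ (e + 1) + b * X 1 ^ (e + 1) := by
  classical
  rw [g.as_sum]
  refine Finset.sum_induction _ (fun g : B k => ∃ a b : B k, a.IsHomogeneous (n - 1) ∧
    b.IsHomogeneous (n - 1) ∧ g = a * X 0 ^ (e + 1) + b * X 1 ^ (e + 1)) ?_ ?_ ?_
  · rintro _ _ ⟨a, b, ha, hb, rfl⟩ ⟨a', b', ha', hb', rfl⟩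
    exact ⟨a + a', b + b', ha.add ha', hb.add hb', by ring⟩
  · exact ⟨0, 0, isHomogeneous_zero _ _ _, isHomogeneous_zero _ _ _, by simp⟩
  · intro d hd
    have hdeg : d.degree = n + e := by
      by_contra hne
      exact (mem_support_iff.1 hd) (hg.coeff_eq_zero hne)
    have hdeg' : d 0 + d 1 = n + e := by
      rw [← hdeg, Finsupp.degree_eq_sum]; simp
    have key : ∀ i : Fin 2, e + 1 ≤ d i → ∃ a : B k, a.IsHomogeneous (n - 1) ∧
        monomial d (coeff d g) = a * X i ^ (e + 1) := by
      intro i hi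
      have hle : Finsupp.single i (e + 1) ≤ d := by
        rw [Finsupp.single_le_iff]; exact hi
      obtain ⟨d', hd'⟩ := le_iff_exists_add'.1 hle
      refine ⟨monomial d' (coeff d g), isHomogeneous_monomial _ ?_, ?_⟩
      · have := congrArg Finsupp.degree hd'
        rw [map_add, Finsupp.degree_single, hdeg] at this
        omega
      · rw [← monomial_add_single, ← hd']
    by_cases h0 : e + 1 ≤ d 0
    · obtain ⟨a, ha, h⟩ := key 0 h0
      exact ⟨a, 0, ha, isHomogeneous_zero _ _ _, by rw [h]; simp⟩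
    · obtain ⟨a, ha, h⟩ := key 1 (by omega)
      exact ⟨0, a, isHomogeneous_zero _ _ _, ha, by rw [h]; simp⟩

/-- The multiple line attached to an invertible matrix. -/
noncomputable def mkLine (M N : Matrix (Fin 4) (Fin 4) k) (h : M * N = 1) (e : ℕ) (b : Bool) :
    MLine k e where
  P := RingHom.ker (psi M)
  Q := mult M e b
  dbl := b = true
  primeP := RingHom.ker_isPrime _
  homP := by
    intro f hf n
    rw [RingHom.mem_ker] at hf ⊢
    have := comp_shift (psi M).toRingHom.toAddMonoidHom 0
      (fun _ _ hg => by simpa using psi_homog M hg) f n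
    simp only [add_zero, AlgHom.toRingHom_eq_coe, RingHom.toAddMonoidHom_eq_coe,
      AddMonoidHom.coe_coe, RingHom.coe_coe] at this
    rw [← this, hf, map_zero]
  homQ := by
    rintro f ⟨h1, h2⟩ n
    have e1 := comp_shift (psi M).toRingHom.toAddMonoidHom 0
      (fun _ _ hg => by simpa using psi_homog M hg) f n
    have e2 := comp_shift (der M e b).toAddMonoidHom e (fun _ _ hg => der_homog M e b hg) f n
    simp only [add_zero, AlgHom.toRingHom_eq_coe, RingHom.toAddMonoidHom_eq_coe,
      AddMonoidHom.coe_coe, RingHom.coe_coe, LinearMap.toAddMonoidHom_coe] at e1 e2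
    exact ⟨by rw [← e1, h1, map_zero], by rw [← e2, h2, map_zero]⟩
  QleP := fun _ hf => hf.1
  sq := by
    intro a ha c hc
    rw [RingHom.mem_ker] at ha hc
    exact ⟨by rw [map_mul, ha, zero_mul], by rw [der_mul, ha, hc]; simp⟩
  primary := by
    rintro u f ⟨h1, h2⟩ hu
    rw [RingHom.mem_ker] at hu
    have h3 : psi M f = 0 := by
      rw [map_mul] at h1
      exact (mul_eq_zero.1 h1).resolve_left hu
    rw [der_mul, h3, zero_mul, add_zero] at h2
    exact ⟨h3, (mul_eq_zero.1 h2).resolve_left hu⟩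
  hfP := by
    intro n
    rw [hf_eq_of_map (psi M).toLinearMap (RingHom.ker (psi M)) n (fun f _ => Iff.rfl),
      ← finrank_Bn (k := k) n]
    have : (Hn k n).map (psi M).toLinearMap = homogeneousSubmodule (Fin 2) k n := by
      apply le_antisymm
      · rintro _ ⟨f, hf, rfl⟩
        exact psi_homog M hf
      · intro g hg
        exact ⟨sec N g, sec_homog N hg, psi_sec (mul_eq_one_comm.1 h) g⟩
    rw [this]
  hfQ := by
    intro hb n hn
    have h' := mul_eq_one_comm.1 h
    rw [hf_eq_of_map ((psi M).toLinearMap.prod (der M e b)) _ n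
      (fun f _ => by simp [mem_mult, Prod.ext_iff])]
    have : (Hn k n).map ((psi M).toLinearMap.prod (der M e b)) =
        (homogeneousSubmodule (Fin 2) k n).prod (homogeneousSubmodule (Fin 2) k (n + e)) := by
      apply le_antisymm
      · rintro _ ⟨f, hf, rfl⟩
        exact ⟨psi_homog M hf, der_homog M e b hf⟩
      · rintro ⟨g1, g2⟩ ⟨hg1, hg2⟩
        obtain ⟨a, c, ha, hc, rfl⟩ := exists_split hn hg2
        refine ⟨sec N g1 + (sec N a * yy N 2 + sec N c * yy N 3), ?_, ?_⟩
        · have e1 : n - 1 + 1 = n := by omega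
          refine IsHomogeneous.add (sec_homog N hg1) (IsHomogeneous.add ?_ ?_)
          · simpa [e1] using (sec_homog N ha).mul (yy_homog N 2)
          · simpa [e1] using (sec_homog N hc).mul (yy_homog N 3)
        · simp [psi_sec h', der_sec h', der_mul, psi_yy, der_yy, h', hb]
    rw [this]
    have : Module.Finite k (homogeneousSubmodule (Fin 2) k n) :=
      Module.Finite.iff_fg.2 (homogeneousSubmodule_fg _ _ _)
    have : Module.Finite k (homogeneousSubmodule (Fin 2) k (n + e)) :=
      Module.Finite.iff_fg.2 (homogeneousSubmodule_fg _ _ _)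
    rw [finrank_submodule_prod, finrank_Bn, finrank_Bn]
    omega
  ndbl := by
    intro hb
    ext f
    simp [mem_mult, RingHom.mem_ker, der_apply, nrm, hb]
  gen := by
    intro f hf
    have h1 := sub_sec_mem h f
    rw [RingHom.mem_ker] at hf
    rw [hf, map_zero, sub_zero] at h1
    refine Ideal.span_mono ?_ h1
    have h' := mul_eq_one_comm.1 h
    rintro _ (rfl | rfl)
    · exact ⟨by simp [RingHom.mem_ker, psi_yy, h'], yy_homog N _⟩
    · exact ⟨by simp [RingHom.mem_ker, psi_yy, h'], yy_homog N _⟩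
  loc := by
    intro n f hf hn hQ
    have h' := mul_eq_one_comm.1 h
    rw [RingHom.mem_ker] at hf
    refine ⟨n + e, sec N (der M e b f), sec_homog N (der_homog M e b hn), ?_, ?_⟩
    · rw [RingHom.mem_ker, psi_sec h']
      exact fun h0 => hQ ⟨hf, h0⟩
    · intro g hg
      rw [RingHom.mem_ker] at hg
      have : g * sec N (der M e b f) =
          (g * sec N (der M e b f) - sec N (der M e b g) * f) + sec N (der M e b g) * f := by ring
      rw [this]
      refine Submodule.add_mem_sup ⟨?_, ?_⟩
        (Ideal.mul_mem_left _ _ (Ideal.mem_span_singleton_self f))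
      · simp [hf, hg]
      · simp [der_mul, hf, hg, psi_sec h', der_sec h', mul_comm]

end Pool.Agent.MP_eba2ed_ag
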