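import Pool.Agent.MP_eba2ed_ag.HF

/-! Reduction of ideals along a valuation ring. -/

set_option linter.unusedSectionVars false

namespace Pool.Agent.MP_eba2ed_ag

open MvPolynomial Module IsLocalRing

variable (V K : Type) [CommRing V] [IsDomain V] [ValuationRing V] [Field K] [Algebra V K]
  [IsFractionRing V K]

noncomputable abbrev up : A V →+* A K := MvPolynomial.map (algebraMap V K)

noncomputable abbrev dn : A V →+* A (ResidueField V) := MvPolynomial.map (residue V)

/-- The flat limit of an ideal of the generic fibre. -/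
noncomputable def red (I : Ideal (A K)) : Ideal (A (ResidueField V)) :=
  (I.comap (up V K)).map (dn V)

omit [IsDomain V] [ValuationRing V] in
lemma up_injective : Function.Injective (up V K) :=
  map_injective _ (IsFractionRing.injective V K)

lemma dn_surjective : Function.Surjective (dn V) :=
  map_surjective _ residue_surjective

variable {V K}

lemma exists_scale {ι : Type*} (s : Finset ι) (c : ι → K) (h : ∃ i ∈ s, c i ≠ 0) :
    ∃ j ∈ s, c j ≠ 0 ∧ ∀ i ∈ s, ∃ a : V, algebraMap V K a = c i / c j := by
  obtain ⟨i0, hi0, hc0⟩ := h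
  let v := ValuationRing.valuation V K
  obtain ⟨j, hj, hmax⟩ := Finset.exists_max_image s (fun i => v (c i)) ⟨i0, hi0⟩
  have hcj : c j ≠ 0 := by
    intro h0
    have := hmax i0 hi0
    rw [h0, map_zero, le_zero_iff, map_eq_zero] at this
    exact hc0 this
  refine ⟨j, hj, hcj, fun i hi => ?_⟩
  rw [← ValuationRing.mem_integer_iff V K, Valuation.mem_integer_iff, map_div₀]
  have hpos : 0 < v (c j) := by
    rw [zero_lt_iff, ne_eq, map_eq_zero]; exact hcj
  exact div_le_one_of_le₀ (hmax i hi) zero_le

lemma exists_primitive {w : A K} (hw : w ≠ 0) :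
    ∃ (c : K) (f : A V) (m : Fin 4 →₀ ℕ), up V K f = c • w ∧ coeff m f = 1 := by
  classical
  obtain ⟨m, hm, hc, ha⟩ := exists_scale (V := V) w.support (fun m => coeff m w) (by
    obtain ⟨m, hm⟩ := support_nonempty.2 hw
    exact ⟨m, hm, mem_support_iff.1 hm⟩)
  choose! a ha using ha
  have key : up V K (∑ d ∈ w.support, monomial d (a d)) = (coeff m w)⁻¹ • w := by
    conv_rhs => enter [2]; rw [w.as_sum]
    rw [map_sum, Finset.smul_sum]
    refine Finset.sum_congr rfl (fun d hd => ?_)
    rw [map_monomial, ha d hd, smul_monomial, smul_eq_mul, div_eq_inv_mul]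
  refine ⟨(coeff m w)⁻¹, _, m, key, ?_⟩
  apply IsFractionRing.injective V K
  rw [← coeff_map, key, coeff_smul, smul_eq_mul, inv_mul_cancel₀ hc, map_one]

lemma mem_red {I : Ideal (A K)} {g : A (ResidueField V)} :
    g ∈ red V K I ↔ ∃ f : A V, up V K f ∈ I ∧ dn V f = g := by
  rw [red, Ideal.mem_map_iff_of_surjective _ (dn_surjective V)]
  rfl

lemma dn_mem_red {I : Ideal (A K)} {f : A V} (h : up V K f ∈ I) : dn V f ∈ red V K I :=
  mem_red.2 ⟨f, h, rfl⟩

lemma mem_red_homog {I : Ideal (A K)} (hI : IsHomog I) {g : A (ResidueField V)} {n : ℕ}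
    (hg : g ∈ red V K I) (hn : g.IsHomogeneous n) :
    ∃ f : A V, f.IsHomogeneous n ∧ up V K f ∈ I ∧ dn V f = g := by
  obtain ⟨f, hf, rfl⟩ := mem_red.1 hg
  refine ⟨homogeneousComponent n f, homogeneousComponent_isHomogeneous n f, ?_, ?_⟩
  · rw [← map_comp]; exact hI _ hf n
  · rw [← map_comp]; exact homogeneousComponent_eq_self hn

lemma IsHomog.red {I : Ideal (A K)} (hI : IsHomog I) : IsHomog (red V K I) :=
  (hI.comap _).map _

lemma red_mono {I J : Ideal (A K)} (h : I ≤ J) : red V K I ≤ red V K J :=
  Ideal.map_mono (Ideal.comap_mono h)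

lemma red_top : red V K ⊤ = ⊤ := by
  rw [red, Ideal.comap_top, Ideal.map_top]

lemma mul_mem_red {I J : Ideal (A K)} {f g : A (ResidueField V)} (hf : f ∈ red V K I)
    (hg : g ∈ red V K J) : f * g ∈ red V K (I * J) := by
  obtain ⟨f, hf', rfl⟩ := mem_red.1 hf
  obtain ⟨g, hg', rfl⟩ := mem_red.1 hg
  rw [← map_mul]
  exact dn_mem_red (by rw [map_mul]; exact Ideal.mul_mem_mul hf' hg')

lemma pow_mem_red {I : Ideal (A K)} {f : A (ResidueField V)} (hf : f ∈ red V K I) (m : ℕ) :
    f ^ m ∈ red V K (I ^ m) := by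
  obtain ⟨f, hf', rfl⟩ := mem_red.1 hf
  rw [← map_pow]
  exact dn_mem_red (by rw [map_pow]; exact Ideal.pow_mem_pow hf' m)

/-- reduction of a subspace -/
def redS (W : Submodule K (A K)) : Submodule (ResidueField V) (A (ResidueField V)) where
  carrier := {g | ∃ f : A V, up V K f ∈ W ∧ dn V f = g}
  add_mem' := by
    rintro _ _ ⟨f, hf, rfl⟩ ⟨g, hg, rfl⟩
    exact ⟨f + g, by rw [map_add]; exact add_mem hf hg, map_add _ _ _⟩
  zero_mem' := ⟨0, by simp, map_zero _⟩
  smul_mem' := by
    rintro c _ ⟨f, hf, rfl⟩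
    obtain ⟨a, rfl⟩ := residue_surjective c
    refine ⟨C a * f, ?_, ?_⟩
    · rw [map_mul, map_C, ← smul_eq_C_mul]; exact W.smul_mem _ hf
    · rw [map_mul, map_C, ← smul_eq_C_mul]

lemma redS_le {W : Submodule K (A K)} {n : ℕ} (h : W ≤ Hn K n) :
    redS (V := V) W ≤ Hn (ResidueField V) n := by
  rintro _ ⟨f, hf, rfl⟩
  exact (IsHomogeneous.of_map (IsFractionRing.injective V K) (h hf)).map _

lemma finrank_le_redS (n r : ℕ) : ∀ W : Submodule K (A K), W ≤ Hn K n → finrank K W = r →
    r ≤ finrank (ResidueField V) (redS (V := V) W) := by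
  induction r with
  | zero => intros; exact Nat.zero_le _
  | succ r ih =>
    intro W hW hr
    have : Module.Finite K W := Submodule.finiteDimensional_of_le hW
    have hne : W ≠ ⊥ := by
      rintro rfl
      simp at hr
    obtain ⟨w, hw, hw0⟩ := Submodule.exists_mem_ne_zero_of_ne_bot hne
    obtain ⟨c, f, m, hf, hm⟩ := exists_primitive (V := V) hw0
    have hfW : up V K f ∈ W := by rw [hf]; exact W.smul_mem _ hw
    let W' := LinearMap.ker (lcoeff K m) ⊓ W
    have h1 := finrank_map_add (lcoeff K m) W
    have h2 : finrank K (W.map (lcoeff K m)) = 1 := by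
      have : W.map (lcoeff K m) = ⊤ := by
        rw [eq_top_iff]
        intro x _
        refine ⟨x • up V K f, W.smul_mem _ hfW, ?_⟩
        simp [coeff_map, hm]
      rw [this]; simp
    have h3 := ih W' (inf_le_right.trans hW) (by simp only [W']; omega)
    have : Module.Finite (ResidueField V) (redS (V := V) W) :=
      Submodule.finiteDimensional_of_le (redS_le hW)
    have h4 : redS (V := V) W' < redS (V := V) W := by
      refine lt_of_le_of_ne ?_ (fun he => ?_)
      · rintro _ ⟨g, hg, rfl⟩
        exact ⟨g, hg.2, rfl⟩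
      · have : dn V f ∈ redS (V := V) W := ⟨f, hfW, rfl⟩
        rw [← he] at this
        obtain ⟨g, hg, hgf⟩ := this
        have h5 : coeff m g = 0 := by
          apply IsFractionRing.injective V K
          rw [← coeff_map, map_zero]
          exact hg.1
        have h6 := congrArg (coeff m) hgf
        rw [coeff_map, coeff_map, h5, hm] at h6
        simp at h6
    have := Submodule.finrank_lt_finrank_of_lt h4
    omega

lemma linearIndependent_up {ι : Type*} [Fintype ι] (f : ι → A V)
    (h : LinearIndependent (ResidueField V) (fun i => dn V (f i))) :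
    LinearIndependent K (fun i => up V K (f i)) := by
  classical
  rw [Fintype.linearIndependent_iff] at h ⊢
  intro c hc
  by_contra hne
  push Not at hne
  obtain ⟨j, -, hj, ha⟩ := exists_scale (V := V) Finset.univ c (by simpa using hne)
  choose a ha using ha
  have h1 : ∑ i, C (a i (Finset.mem_univ i)) * f i = 0 := by
    apply up_injective V K
    rw [map_sum, map_zero]
    have : ∀ i, up V K (C (a i (Finset.mem_univ i)) * f i) = (c j)⁻¹ • (c i • up V K (f i)) := by
      intro i
      rw [map_mul, map_C, ha, ← smul_eq_C_mul, smul_smul, div_eq_inv_mul]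
    simp only [this]
    rw [← Finset.smul_sum, hc, smul_zero]
  have h2 := h (fun i => residue V (a i (Finset.mem_univ i))) (by
    have := congrArg (dn V) h1
    rw [map_sum, map_zero] at this
    rw [← this]
    refine Finset.sum_congr rfl (fun i _ => ?_)
    rw [map_mul, map_C, smul_eq_C_mul]) j
  have h3 : a j (Finset.mem_univ j) = 1 := by
    apply IsFractionRing.injective V K
    rw [ha, div_self hj, map_one]
  simp [h3] at h2

lemma finrank_redS {n : ℕ} {W : Submodule K (A K)} (hW : W ≤ Hn K n) :
    finrank (ResidueField V) (redS (V := V) W) = finrank K W := by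
  refine le_antisymm ?_ (finrank_le_redS n _ W hW rfl)
  have : Module.Finite K W := Submodule.finiteDimensional_of_le hW
  have : Module.Finite (ResidueField V) (redS (V := V) W) :=
    Submodule.finiteDimensional_of_le (redS_le hW)
  let b := Module.finBasis (ResidueField V) (redS (V := V) W)
  have hb : ∀ i, ∃ f : A V, up V K f ∈ W ∧ dn V f = (b i : A (ResidueField V)) :=
    fun i => (b i).2
  choose f hf hfb using hb
  have h1 : LinearIndependent (ResidueField V) (fun i => dn V (f i)) := by
    simp only [hfb]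
    exact b.linearIndependent.map' (Submodule.subtype _) (Submodule.ker_subtype _)
  have h2 := linearIndependent_up (K := K) f h1
  have h3 : LinearIndependent K (fun i => (⟨up V K (f i), hf i⟩ : W)) :=
    LinearIndependent.of_comp W.subtype h2
  simpa using h3.fintype_card_le_finrank

lemma pc_red {I : Ideal (A K)} (hI : IsHomog I) (n : ℕ) :
    pc (red V K I) n = redS (V := V) (pc I n) := by
  ext g
  constructor
  · rintro ⟨hg, hn⟩
    obtain ⟨f, h1, h2, h3⟩ := mem_red_homog hI hg hn
    exact ⟨f, ⟨h2, h1.map _⟩, h3⟩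
  · intro hg
    refine ⟨?_, redS_le (pc_le I n) hg⟩
    obtain ⟨f, hf, rfl⟩ := hg
    exact dn_mem_red hf.1

lemma finrank_pc_red {I : Ideal (A K)} (hI : IsHomog I) (n : ℕ) :
    finrank (ResidueField V) (pc (red V K I) n) = finrank K (pc I n) := by
  rw [pc_red hI, finrank_redS (pc_le I n)]

lemma hf_red {I : Ideal (A K)} (hI : IsHomog I) (n : ℕ) :
    hilbFun (red V K I) n = hilbFun I n := by
  have h1 := hf_add_dm I n
  have h2 := hf_add_dm (red V K I) n
  have h3 := hf_add_dm (⊤ : Ideal (A K)) n
  have h4 := hf_add_dm (red V K ⊤) n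
  have h5 := finrank_pc_red (V := V) hI n
  have h6 := finrank_pc_red (V := V) (K := K) isHomog_top n
  have h7 : hilbFun (red V K ⊤) n = 0 := by rw [red_top, hf_top]
  rw [hf_top] at h3
  omega

/-- Disjointness of the degree `n` pieces lifts from the special fibre to the generic fibre. -/
lemma pc_inf_eq_bot_of_red {I J : Ideal (A K)} {n : ℕ}
    (h : pc (red V K I) n ⊓ pc (red V K J) n = ⊥) : pc I n ⊓ pc J n = ⊥ := by
  by_contra hne
  obtain ⟨w, hw, hw0⟩ := Submodule.exists_mem_ne_zero_of_ne_bot hne
  obtain ⟨c, f, m, hf, hm⟩ := exists_primitive (V := V) hw0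
  have hf' : up V K f ∈ pc I n ⊓ pc J n := by rw [hf]; exact Submodule.smul_mem _ _ hw
  have hn : (dn V f).IsHomogeneous n :=
    (IsHomogeneous.of_map (IsFractionRing.injective V K) hf'.1.2).map _
  have : dn V f ∈ pc (red V K I) n ⊓ pc (red V K J) n :=
    ⟨⟨dn_mem_red hf'.1.1, hn⟩, ⟨dn_mem_red hf'.2.1, hn⟩⟩
  rw [h, Submodule.mem_bot] at this
  have h6 := congrArg (coeff m) this
  rw [coeff_map, hm] at h6
  simp at h6

end Pool.Agent.MP_eba2ed_ag
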