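import Pool.Agent.MP_eba2ed_ag.Config
import Pool.Agent.MP_eba2ed_ag.Red
import Pool.Agent.MP_eba2ed_ag.Bezout

/-! The components of a flat lift of a bipartite union of double lines and lines are lines. -/

set_option linter.unusedSectionVars false

namespace Pool.Agent.MP_eba2ed_ag

open MvPolynomial Module IsLocalRing

attribute [local instance] MvPolynomial.gradedAlgebra

lemma le_of_eventually_mul_le {a b C N : ℕ} (h : ∀ n, N ≤ n → a * n ≤ b * n + C) : a ≤ b := by
  by_contra hlt
  have h1 := h (N + C + 1) (by omega)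
  have h2 : (b + 1) * (N + C + 1) ≤ a * (N + C + 1) := by gcongr; omega
  nlinarith

lemma sup_pow_le_pow_sup {R : Type*} [CommRing R] (I J : Ideal R) (m : ℕ) :
    (I ⊔ J) ^ m ≤ I ^ m ⊔ J := by
  induction m with
  | zero => simp
  | succ m ih =>
    rw [pow_succ, pow_succ]
    refine (Ideal.mul_mono_left ih).trans ?_
    rw [Ideal.sup_mul, Ideal.mul_sup]
    exact sup_le (sup_le le_sup_left (Ideal.mul_le_right.trans le_sup_right))
      (Ideal.mul_le_left.trans le_sup_right)

variable {V K : Type} [CommRing V] [IsDomain V] [ValuationRing V] [Field K] [Algebra V K]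
  [IsFractionRing V K] [IsAlgClosed K]
variable {ι : Type} [Fintype ι] [DecidableEq ι] {e : ℕ}

variable (V K) in
structure Setup (L : ι → MLine (ResidueField V) e) (It : Ideal (A K)) (N : ℕ) : Prop where
  hd : Distinct L
  skew : ∀ i j, i ≠ j → ((L i).dbl ↔ (L j).dbl) → pc (L i).P 1 ⊓ pc (L j).P 1 = ⊥
  he : 4 * Fintype.card ι ^ 2 + 1 ≤ e
  hom : IsHomog It
  le : red V K It ≤ I0 L
  ge : ∀ n, N ≤ n → ∀ f ∈ I0 L, f.IsHomogeneous n → f ∈ red V K It

lemma minimal_hom {It p : Ideal (A K)} (hI : IsHomog It) (hp : p ∈ It.minimalPrimes) :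
    IsHomog p := by
  rw [isHomog_iff] at hI ⊢
  have h1 := hp.isPrime.homogeneousCore (𝒜 := homogeneousSubmodule (Fin 4) K)
  have h2 : It ≤ (p.homogeneousCore (homogeneousSubmodule (Fin 4) K)).toIdeal := by
    rw [← hI.toIdeal_homogeneousCore_eq_self]
    exact Ideal.homogeneousCore_mono _ hp.le
  have h3 := Ideal.toIdeal_homogeneousCore_le (homogeneousSubmodule (Fin 4) K) p
  rw [Ideal.IsHomogeneous.iff_eq]
  exact le_antisymm h3 (hp.2 ⟨h1, h2⟩ h3)

lemma minimal_not_le {It p q : Ideal (A K)} (hp : p ∈ It.minimalPrimes)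
    (hq : q ∈ It.minimalPrimes) (h : p ≠ q) : ¬ q ≤ p :=
  fun hle => h (le_antisymm (hp.2 hq.1 hle) hle)

lemma exists_rad_pow (It : Ideal (A K)) : ∃ m, 2 ≤ m ∧ ∀ (b : Ideal (A K)) (g : A K),
    (∀ p ∈ It.minimalPrimes, b ≤ p ∨ g ∈ p) → b ^ m ≤ Submodule.colon It {g ^ m} := by
  obtain ⟨m, hm⟩ := It.exists_radical_pow_le_of_fg (IsNoetherian.noetherian _)
  refine ⟨m + 2, by omega, fun b g h => ?_⟩
  have h1 : b * Ideal.span {g} ≤ It.radical := by
    rw [← Ideal.sInf_minimalPrimes]
    refine le_sInf (fun p hp => ?_)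
    rcases h p hp with h | h
    · exact Ideal.mul_le_left.trans h
    · exact Ideal.mul_le_right.trans ((Ideal.span_singleton_le_iff_mem _).2 h)
  have h2 : (b * Ideal.span {g}) ^ (m + 2) ≤ It :=
    (Ideal.pow_right_mono h1 _).trans ((Ideal.pow_le_pow_right (by omega)).trans hm)
  intro a ha
  rw [Submodule.mem_colon_singleton, smul_eq_mul]
  apply h2
  rw [mul_pow, Ideal.span_singleton_pow]
  exact Ideal.mul_mem_mul ha (Ideal.mem_span_singleton_self _)

lemma exists_kill (It : Ideal (A K)) (T : Ideal (A K) → Prop)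
    (Rs : Set (Ideal (A (ResidueField V)))) (hR : ∀ r ∈ Rs, r.IsPrime)
    (h : ∀ p ∈ It.minimalPrimes, T p → ∃ (t : ℕ) (w : A V), w.IsHomogeneous t ∧ up V K w ∈ p ∧
      ∀ r ∈ Rs, dn V w ∉ r) :
    ∃ (t : ℕ) (g : A V), g.IsHomogeneous t ∧ (∀ r ∈ Rs, dn V g ∉ r) ∧
      ∀ p ∈ It.minimalPrimes, T p → up V K g ∈ p := by
  classical
  choose! t w hw hwp hwr using h
  let s := (It.finite_minimalPrimes_of_isNoetherianRing).toFinset.filter T
  have hs : ∀ p, p ∈ s ↔ p ∈ It.minimalPrimes ∧ T p := by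
    intro p; simp [s]
  refine ⟨∑ p ∈ s, t p, ∏ p ∈ s, w p, ?_, ?_, ?_⟩
  · exact IsHomogeneous.prod _ _ _ (fun p hp => hw p ((hs p).1 hp).1 ((hs p).1 hp).2)
  · intro r hr hmem
    have := hR r hr
    rw [map_prod, Ideal.IsPrime.prod_mem_iff] at hmem
    obtain ⟨p, hp, hmem⟩ := hmem
    exact hwr p ((hs p).1 hp).1 ((hs p).1 hp).2 r hr hmem
  · intro p hp hT
    rw [map_prod, ← Finset.mul_prod_erase s _ ((hs p).2 ⟨hp, hT⟩)]
    exact Ideal.mul_mem_right _ _ (hwp p hp hT)

lemma exists_lift_notMem {p : Ideal (A K)} (hp : IsHomog p) {r : Ideal (A (ResidueField V))}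
    (h : ¬ red V K p ≤ r) :
    ∃ (t : ℕ) (w : A V), w.IsHomogeneous t ∧ up V K w ∈ p ∧ dn V w ∉ r := by
  obtain ⟨t, f, hf, hft, hfr⟩ := (hp.red (V := V)).exists_homog_notMem h
  obtain ⟨w, hw, hwp, rfl⟩ := mem_red_homog hp hf hft
  exact ⟨t, w, hw, hwp, hfr⟩

namespace Setup

variable {L : ι → MLine (ResidueField V) e} {It : Ideal (A K)} {N : ℕ} (S : Setup V K L It N)
include S

lemma upper {b : Ideal (A K)} (hb : IsHomog b) (hI : It ≤ b) :
    ∃ C N', ∀ n, N' ≤ n → hilbFun b n ≤ deg L (red V K b) * n + C := by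
  obtain ⟨C, N', h⟩ := hf_upper S.hd (hb.red (V := V)) (N := N)
    (fun n hn f hf hfn => red_mono hI (S.ge n hn f hf hfn))
  exact ⟨C, N', fun n hn => by rw [← hf_red (V := V) hb]; exact h n hn⟩

lemma lower {b : Ideal (A K)} (hb : IsHomog b) {n : ℕ} (hn : e + 1 + 2 * Fintype.card ι ≤ n) :
    deg L (red V K b) * n ≤ hilbFun b n + 4 * Fintype.card ι ^ 2 := by
  rw [← hf_red (V := V) hb]; exact hf_lower3 S.hd _ hn

lemma lower1 {b : Ideal (A K)} (hb : IsHomog b) {n : ℕ} (hn : e + 1 + 2 * Fintype.card ι ≤ n)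
    {i : ι} (hi : (L i).mu (red V K b) = 2) :
    deg L (red V K b) * n + 3 ≤ hilbFun b n := by
  have h1 := hf_lower1 S.hd _ hn hi
  have h2 := S.he
  rw [hf_red (V := V) hb] at h1
  omega

lemma prime_bound {p : Ideal (A K)} (hp : p ∈ It.minimalPrimes) {n : ℕ} (hn : 1 ≤ n) :
    hilbFun p n ≤ deg L (red V K p) * n + 1 := by
  obtain ⟨C, N', h⟩ := S.upper (minimal_hom S.hom hp) hp.le
  exact bezout hp.isPrime (minimal_hom S.hom hp) h hn

lemma mu_le_one {p : Ideal (A K)} (hp : p ∈ It.minimalPrimes) (i : ι) :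
    (L i).mu (red V K p) ≤ 1 := by
  by_contra h
  have h1 := ((L i).mu_valid (red V K p)).1
  have h2 := S.lower1 (minimal_hom S.hom hp) (n := e + 1 + 2 * Fintype.card ι) le_rfl (i := i)
    (by omega)
  have h3 := S.prime_bound hp (n := e + 1 + 2 * Fintype.card ι) (by omega)
  omega

lemma bounded {p : Ideal (A K)} (hp : p ∈ It.minimalPrimes) {u : A K} {t : ℕ}
    (hu : u.IsHomogeneous t) (hup : u ∉ p) :
    ∃ C N', ∀ n, N' ≤ n → hilbFun (p ⊔ Ideal.span {u}) n ≤ C := by
  refine ⟨deg L (red V K p) * t + 1 + 4 * Fintype.card ι ^ 2,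
    e + 1 + 2 * Fintype.card ι + t, fun n hn => ?_⟩
  obtain ⟨n', rfl⟩ : ∃ n', n = n' + t := ⟨n - t, by omega⟩
  have h1 := hf_nzd (minimal_hom S.hom hp) hu
    (fun a ha => (hp.isPrime.mem_or_mem ha).resolve_right hup) n'
  have h2 := S.prime_bound hp (n := n' + t) (by omega)
  have h3 := S.lower (minimal_hom S.hom hp) (n := n') (by omega)
  nlinarith

lemma not_red_sup_le {p : Ideal (A K)} (hp : p ∈ It.minimalPrimes) {u : A K} {t : ℕ}
    (hu : u.IsHomogeneous t) (hup : u ∉ p) (i : ι) :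
    ¬ red V K (p ⊔ Ideal.span {u}) ≤ (L i).P := by
  intro hle
  obtain ⟨C, N', h⟩ := S.bounded hp hu hup
  have h1 := h (N' + C) (by omega)
  have h2 := hf_anti hle (N' + C)
  rw [(L i).hfP, hf_red ((minimal_hom S.hom hp).sup (isHomog_span_singleton hu))] at h2
  omega

/-- Two different components do not specialise to the same line. -/
lemma disjoint {p q : Ideal (A K)} (hp : p ∈ It.minimalPrimes) (hq : q ∈ It.minimalPrimes)
    (hpq : p ≠ q) {i : ι} (hi : red V K p ≤ (L i).P) (hi' : red V K q ≤ (L i).P) : False := by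
  have hph := minimal_hom S.hom hp
  have hqh := minimal_hom S.hom hq
  obtain ⟨t, u, huq, hu, hup⟩ := hqh.exists_homog_notMem (minimal_not_le hp hq hpq)
  obtain ⟨C, N1, hC⟩ := S.bounded hp hu hup
  obtain ⟨C', N2, hC'⟩ := S.upper (hph.inf hqh) (le_inf hp.le hq.le)
  have hdeg : deg L (red V K p) + deg L (red V K q) ≤ deg L (red V K (p ⊓ q)) := by
    apply le_of_eventually_mul_le (C := C + C' + 8 * Fintype.card ι ^ 2)
      (N := N1 + N2 + (e + 1 + 2 * Fintype.card ι))
    intro n hn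
    have h1 := hf_inf_add_sup hph hqh n
    have h2 := S.lower hph (n := n) (by omega)
    have h3 := S.lower hqh (n := n) (by omega)
    have h4 := hC n (by omega)
    have h5 := hC' n (by omega)
    have h6 : hilbFun (p ⊔ q) n ≤ hilbFun (p ⊔ Ideal.span {u}) n :=
      hf_anti (sup_le_sup_left ((Ideal.span_singleton_le_iff_mem _).2 huq) _) n
    nlinarith
  by_cases h2 : ∃ j, (L j).mu (red V K (p ⊓ q)) = 2
  · obtain ⟨j, hj⟩ := h2
    have h1 := S.lower1 (hph.inf hqh) (n := e + 1 + 2 * Fintype.card ι) le_rfl hj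
    have h3 := hf_inf_le hph hqh (e + 1 + 2 * Fintype.card ι)
    have h4 := S.prime_bound hp (n := e + 1 + 2 * Fintype.card ι) (by omega)
    have h5 := S.prime_bound hq (n := e + 1 + 2 * Fintype.card ι) (by omega)
    have h6 : (deg L (red V K p) + deg L (red V K q)) * (e + 1 + 2 * Fintype.card ι) ≤
      deg L (red V K (p ⊓ q)) * (e + 1 + 2 * Fintype.card ι) := by gcongr
    nlinarith
  · push Not at h2
    have hle : ∀ j, (L j).mu (red V K (p ⊓ q)) ≤ 1 := by
      intro j
      have := ((L j).mu_valid (red V K (p ⊓ q))).1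
      have := h2 j
      omega
    have : deg L (red V K (p ⊓ q)) < deg L (red V K p) + deg L (red V K q) := by
      unfold deg
      rw [← Finset.sum_add_distrib]
      refine Finset.sum_lt_sum (fun j _ => ?_) ⟨i, Finset.mem_univ i, ?_⟩
      · by_cases h0 : (L j).mu (red V K (p ⊓ q)) = 0
        · omega
        · have h3 := ((L j).mu_pos_iff (red V K (p ⊓ q))).1 (by omega)
          have h4 : red V K p * red V K q ≤ (L j).P :=
            Ideal.mul_le.2 (fun a ha b hb => h3 (red_mono Ideal.mul_le_inf (mul_mem_red ha hb)))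
          have := hle j
          rcases (L j).primeP.mul_le.1 h4 with h5 | h5
          · have := ((L j).mu_pos_iff _).2 h5; omega
          · have := ((L j).mu_pos_iff _).2 h5; omega
      · have := hle i
        have := ((L i).mu_pos_iff _).2 hi
        have := ((L i).mu_pos_iff _).2 hi'
        omega
    omega

/-- Every line is the limit of some component. -/
lemma exists_min (i : ι) : ∃ p ∈ It.minimalPrimes, red V K p ≤ (L i).P := by
  by_contra hne
  push Not at hne
  obtain ⟨t, g, -, hg, hgp⟩ := exists_kill (V := V) It (fun _ => True) {(L i).P}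
    (by rintro _ rfl; exact (L i).primeP) (fun p hp _ => by
      obtain ⟨t, w, h1, h2, h3⟩ := exists_lift_notMem (minimal_hom S.hom hp) (hne p hp)
      exact ⟨t, w, h1, h2, by rintro _ rfl; exact h3⟩)
  obtain ⟨m, -, hm⟩ := exists_rad_pow It
  have h1 := hm ⊤ (up V K g) (fun p hp => Or.inr (hgp p hp trivial))
    (Ideal.pow_mem_pow (Submodule.mem_top (x := 1)) m)
  rw [Submodule.mem_colon_singleton, one_pow, one_smul, ← map_pow] at h1
  have h2 := I0_le_P L i (S.le (dn_mem_red h1))
  rw [map_pow] at h2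
  exact hg _ rfl ((L i).primeP.mem_of_pow_mem _ h2)

/-- There are no isolated points. -/
lemma exists_line_or {p : Ideal (A K)} (hp : p ∈ It.minimalPrimes) :
    (∃ i, red V K p ≤ (L i).P) ∨ irr K ≤ p := by
  classical
  by_cases hne : ∃ i, red V K p ≤ (L i).P
  · exact Or.inl hne
  right
  push Not at hne
  have hph := minimal_hom S.hom hp
  have hg : ∃ (t : ℕ) (g : A K), g.IsHomogeneous t ∧ g ∉ p ∧
      ∀ q ∈ It.minimalPrimes, q ≠ p → g ∈ q := by
    have : ∀ q ∈ It.minimalPrimes, q ≠ p → ∃ (t : ℕ) (g : A K), g ∈ q ∧ g.IsHomogeneous t ∧ g ∉ p :=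
      fun q hq hqp => by
        obtain ⟨t, g, h⟩ := (minimal_hom S.hom hq).exists_homog_notMem
          (minimal_not_le hp hq hqp.symm)
        exact ⟨t, g, h⟩
    choose! t g hgq hgt hgp using this
    let s := (It.finite_minimalPrimes_of_isNoetherianRing).toFinset.erase p
    have hs : ∀ q, q ∈ s ↔ q ≠ p ∧ q ∈ It.minimalPrimes := by
      intro q; simp [s]
    refine ⟨∑ q ∈ s, t q, ∏ q ∈ s, g q, ?_, ?_, ?_⟩
    · exact IsHomogeneous.prod _ _ _ (fun q hq => hgt q ((hs q).1 hq).2 ((hs q).1 hq).1)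
    · have := hp.isPrime
      rw [Ideal.IsPrime.prod_mem_iff]
      rintro ⟨q, hq, h⟩
      exact hgp q ((hs q).1 hq).2 ((hs q).1 hq).1 h
    · intro q hq hqp
      rw [← Finset.mul_prod_erase s _ ((hs q).2 ⟨hqp, hq⟩)]
      exact Ideal.mul_mem_right _ _ (hgq q hq hqp)
  obtain ⟨t, g, hgt, hgp, hgq⟩ := hg
  obtain ⟨m, -, hm⟩ := exists_rad_pow It
  have h1 := hm p g (fun q hq => by
    by_cases h : q = p
    · exact Or.inl h.ge
    · exact Or.inr (hgq q hq h))
  have hG := hgt.pow m
  have hI' : IsHomog (It ⊔ Ideal.span {g ^ m}) := S.hom.sup (isHomog_span_singleton hG)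
  have h2 : red V K (It ⊔ Ideal.span {g ^ m}) ≤ I0 L := by
    intro f0 hf0
    obtain ⟨f, hf, rfl⟩ := mem_red.1 hf0
    rw [mem_I0]
    intro i
    obtain ⟨s, u, -, hup, hui⟩ := exists_lift_notMem hph (hne i)
    refine (L i).primary (dn V u ^ m) _ ?_ (fun h => hui ((L i).primeP.mem_of_pow_mem _ h))
    apply I0_le_Q L i
    apply S.le
    rw [← map_pow, ← map_mul]
    apply dn_mem_red
    obtain ⟨a, ha, b, hb, hab⟩ := Submodule.mem_sup.1 hf
    obtain ⟨c, rfl⟩ := Ideal.mem_span_singleton'.1 hb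
    have h3 := h1 (Ideal.pow_mem_pow hup m)
    rw [Submodule.mem_colon_singleton, smul_eq_mul] at h3
    rw [map_mul, map_pow, ← hab, mul_add, mul_left_comm]
    exact Ideal.add_mem _ (Ideal.mul_mem_left _ _ ha) (Ideal.mul_mem_left _ _ h3)
  have h3 := hf_colon S.hom hG N
  have h4 := hf_anti h2 (N + t * m)
  have h5 := hf_le_of_pc_le (S.ge (N + t * m) (by omega))
  rw [hf_red hI'] at h4
  rw [hf_red S.hom] at h5
  have h6 : hilbFun p N ≤ hilbFun (Submodule.colon It {g ^ m}) N := by
    apply hf_anti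
    intro a ha
    rw [Submodule.mem_colon_singleton, smul_eq_mul] at ha
    exact (hp.isPrime.mem_or_mem (hp.le ha)).resolve_right
      (fun h => hgp (hp.isPrime.mem_of_pow_mem _ h))
  rw [irr_le_iff]
  intro a
  exact hp.isPrime.mem_of_pow_mem N (hf_eq_zero_iff.1 (by omega) _ (isHomogeneous_X_pow a N))

/-- A component does not specialise to both a double line and a simple line. -/
lemma no_mix {p : Ideal (A K)} (hp : p ∈ It.minimalPrimes) {i j : ι} (hi : red V K p ≤ (L i).P)
    (hj : red V K p ≤ (L j).P) (di : (L i).dbl) (dj : ¬ (L j).dbl) : False := by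
  have hph := minimal_hom S.hom hp
  obtain ⟨t, g, hgt, hg, hgp⟩ := exists_kill (V := V) It (fun q => q ≠ p) {(L i).P}
    (by rintro _ rfl; exact (L i).primeP) (fun q hq hqp => by
      obtain ⟨t, w, h1, h2, h3⟩ := exists_lift_notMem (minimal_hom S.hom hq)
        (fun h => S.disjoint hq hp hqp h hi)
      exact ⟨t, w, h1, h2, by rintro _ rfl; exact h3⟩)
  have hg := hg _ rfl
  obtain ⟨m, hm2, hm⟩ := exists_rad_pow It
  have h1 := hm p (up V K g) (fun q hq => by
    by_cases h : q = p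
    · exact Or.inl h.ge
    · exact Or.inr (hgp q hq h))
  set q := Submodule.colon It {up V K g ^ m} with hq
  have hqh : IsHomog q := S.hom.colon ((hgt.map _).pow m)
  have hIq : It ≤ q := fun a ha => by
    rw [hq, Submodule.mem_colon_singleton, smul_eq_mul]; exact Ideal.mul_mem_right _ _ ha
  have hqp : q ≤ p := by
    intro a ha
    rw [hq, Submodule.mem_colon_singleton, smul_eq_mul] at ha
    exact (hp.isPrime.mem_or_mem (hp.le ha)).resolve_right
      (fun h => hg (hi (dn_mem_red (hp.isPrime.mem_of_pow_mem _ h))))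
  have hqQ : red V K q ≤ (L i).Q := by
    intro f0 hf0
    obtain ⟨f, hf, rfl⟩ := mem_red.1 hf0
    refine (L i).primary (dn V g ^ m) _ ?_ (fun h => hg ((L i).primeP.mem_of_pow_mem _ h))
    apply I0_le_Q L i
    apply S.le
    rw [← map_pow, ← map_mul]
    apply dn_mem_red
    rw [hq, Submodule.mem_colon_singleton, smul_eq_mul] at hf
    rwa [map_mul, map_pow, mul_comm]
  have hpQ : ¬ red V K p ≤ (L i).Q := by
    intro h
    have := S.mu_le_one hp i
    have := ((L i).mu_eq_two_iff _).2 ⟨di, h⟩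
    omega
  obtain ⟨s, f, hfs, hfp, hfQ⟩ := exists_lift_notMem hph hpQ
  have hrh : IsHomog (Submodule.colon q {up V K f}) := hqh.colon (hfs.map _)
  have hrP : red V K (Submodule.colon q {up V K f}) ≤ (L i).P := by
    intro u0 hu0
    obtain ⟨u, hu, rfl⟩ := mem_red.1 hu0
    by_contra hui
    refine hfQ ((L i).primary _ _ (hqQ ?_) hui)
    rw [← map_mul]
    apply dn_mem_red
    rw [Submodule.mem_colon_singleton, smul_eq_mul] at hu
    rwa [map_mul]
  have hrp : Submodule.colon q {up V K f} ≤ p := by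
    by_contra hne
    obtain ⟨t', u, hur, hu, hup⟩ := hrh.exists_homog_notMem hne
    refine S.not_red_sup_le hp hu hup i (fun w hw => (L i).primeP.mem_of_pow_mem m (hrP ?_))
    refine red_mono ?_ (pow_mem_red hw m)
    refine (sup_pow_le_pow_sup _ _ m).trans (sup_le ?_ ((Ideal.span_singleton_le_iff_mem _).2 hur))
    intro a ha
    rw [Submodule.mem_colon_singleton, smul_eq_mul]
    exact Ideal.mul_mem_right _ _ (h1 ha)
  obtain ⟨C, N1, hC⟩ := S.upper hqh hIq
  have hdeg : 2 * deg L (red V K p) ≤ deg L (red V K q) := by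
    apply le_of_eventually_mul_le (C := C + deg L (red V K q) * s + 8 * Fintype.card ι ^ 2)
      (N := N1 + (e + 1 + 2 * Fintype.card ι))
    intro n hn
    have h2 := hf_colon hqh (hfs.map (algebraMap V K)) n
    have h3 := hf_anti hrp n
    have h4 := hf_anti (sup_le hqp ((Ideal.span_singleton_le_iff_mem _).2 hfp)) (n + s)
    have h5 := S.lower hph (n := n) (by omega)
    have h6 := S.lower hph (n := n + s) (by omega)
    have h7 := hC (n + s) (by omega)
    nlinarith [Nat.zero_le (deg L (red V K p) * s)]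
  have : deg L (red V K q) < 2 * deg L (red V K p) := by
    unfold deg
    rw [Finset.mul_sum]
    refine Finset.sum_lt_sum (fun l _ => ?_) ⟨j, Finset.mem_univ j, ?_⟩
    · by_cases h0 : (L l).mu (red V K q) = 0
      · omega
      · have h3 := ((L l).mu_pos_iff (red V K q)).1 (by omega)
        have h4 : red V K p ≤ (L l).P := fun w hw =>
          (L l).primeP.mem_of_pow_mem m (h3 (red_mono h1 (pow_mem_red hw m)))
        have := ((L l).mu_pos_iff _).2 h4
        have := ((L l).mu_valid (red V K q)).1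
        omega
    · have h3 := (L j).mu_valid (red V K q)
      have h4 := ((L j).mu_pos_iff _).2 hj
      have h5 : (L j).mu (red V K q) ≠ 2 := fun h => dj (h3.2 h)
      have := h3.1
      omega
  omega

/-- Every component is a line. -/
lemma is_line {p : Ideal (A K)} (hp : p ∈ It.minimalPrimes) {i : ι} (hi : red V K p ≤ (L i).P) :
    (∀ j, red V K p ≤ (L j).P → j = i) ∧ pc (red V K p) 1 = pc (L i).P 1 := by
  classical
  have hph := minimal_hom S.hom hp
  let s := Finset.univ.filter (fun j => red V K p ≤ (L j).P)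
  have hs : ∀ j, j ∈ s ↔ red V K p ≤ (L j).P := by intro j; simp [s]
  have hdeg : deg L (red V K p) = s.card := by
    unfold deg
    rw [Finset.card_filter]
    refine Finset.sum_congr rfl (fun j _ => ?_)
    have h1 := S.mu_le_one hp j
    have h2 := (L j).mu_pos_iff (red V K p)
    split_ifs with h
    · have := h2.2 h; omega
    · have : ¬ 1 ≤ (L j).mu (red V K p) := fun h' => h (h2.1 h')
      omega
  have h1 := hf_lower2 (L := L) s (fun a ha b hb hab => S.skew a b hab (by
    by_contra hne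
    by_cases da : (L a).dbl
    · exact S.no_mix hp ((hs a).1 ha) ((hs b).1 hb) da (by tauto)
    · exact S.no_mix hp ((hs b).1 hb) ((hs a).1 ha) (by tauto) da)) (n := s.card + 1) (by omega)
  have h2 := hf_anti (Finset.le_inf (fun j hj => (hs j).1 hj) :
    red V K p ≤ s.inf fun j => (L j).P) (s.card + 1)
  rw [hf_red hph] at h2
  have h3 := S.prime_bound hp (n := s.card + 1) (by omega)
  rw [hdeg] at h3
  have h4 : s.card ≤ 1 := by nlinarith
  refine ⟨fun j hj => Finset.card_le_one.1 h4 j ((hs j).2 hj) i ((hs i).2 hi), ?_⟩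
  have h5 := S.prime_bound hp (n := 1) le_rfl
  have h6 := hf_add_dm (red V K p) 1
  rw [hf_red hph, finrank_Hn_one] at h6
  have h7 : pc (red V K p) 1 ≤ pc (L i).P 1 := fun f hf => ⟨hi hf.1, hf.2⟩
  apply Submodule.eq_of_le_of_finrank_le h7
  rw [(L i).finrank_one]
  omega

end Setup

end Pool.Agent.MP_eba2ed_ag
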