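import Mathlib

/-! A plane configuration of `2p+3` points and lines that forces characteristic `p`. -/

namespace Pool.Agent.MP_eba2ed_ag

open Matrix

/-- An affine realisation of an incidence structure in which no two points share a coordinate. -/
structure Aff (k : Type) [Field k] {Pt Ln : Type} (inc : Pt → Ln → Prop) where
  X : Pt → k
  Y : Pt → k
  a : Ln → k
  b : Ln → k
  c : Ln → k
  hX : Function.Injective X
  hY : Function.Injective Y
  ha : ∀ l, a l ≠ 0
  hc : ∀ l, c l ≠ 0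
  inc_iff : ∀ P l, inc P l ↔ c l * Y P = a l * X P + b l

def Aff.Good {k : Type} [Field k] {Pt Ln : Type} {inc : Pt → Ln → Prop} (F : Aff k inc) : Prop :=
  Function.Injective F.a ∧ Function.Injective F.c

def Aff.map {k k' : Type} [Field k] [Field k'] {Pt Ln : Type} {inc : Pt → Ln → Prop}
    (F : Aff k inc) (φ : k →+* k') : Aff k' inc where
  X := φ ∘ F.X
  Y := φ ∘ F.Y
  a := φ ∘ F.a
  b := φ ∘ F.b
  c := φ ∘ F.c
  hX := φ.injective.comp F.hX
  hY := φ.injective.comp F.hY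
  ha := fun l => by simpa using F.ha l
  hc := fun l => by simpa using F.hc l
  inc_iff := fun P l => by
    rw [F.inc_iff, ← φ.injective.eq_iff]
    simp

lemma Aff.Good.map {k k' : Type} [Field k] [Field k'] {Pt Ln : Type} {inc : Pt → Ln → Prop}
    {F : Aff k inc} (h : F.Good) (φ : k →+* k') : (F.map φ).Good :=
  ⟨φ.injective.comp h.1, φ.injective.comp h.2⟩

lemma exists_dot_ne {k : Type} [Field k] [Infinite k] {J σ : Type} [Finite J] [Fintype σ]
    (n : J → σ → k) (hn : ∀ j, n j ≠ 0) : ∃ x : σ → k, ∀ j, x ⬝ᵥ n j ≠ 0 := by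
  classical
  let f : J → Module.Dual k (σ → k) := fun j =>
    { toFun := fun x => x ⬝ᵥ n j
      map_add' := fun x y => add_dotProduct _ _ _
      map_smul' := fun c x => smul_dotProduct _ _ _ }
  refine Module.Dual.exists_forall_ne_zero_of_forall_exists f (fun j => ?_)
  obtain ⟨i, hi⟩ := Function.ne_iff.1 (hn j)
  exact ⟨Pi.single i 1, by simpa [f] using hi⟩

lemma exists_aff {k : Type} [Field k] [Infinite k] {Pt Ln : Type} [Finite Pt] [Fintype Ln]
    [Nonempty Ln] (v : Pt → Fin 3 → k) (w : Ln → Fin 3 → k) (inc : Pt → Ln → Prop)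
    (hinc : ∀ P l, inc P l ↔ w l ⬝ᵥ v P = 0) (hv0 : ∀ P, v P ≠ 0)
    (hv : ∀ P Q, P ≠ Q → ∀ s t : k, s • v P = t • v Q → s = 0) (hw : ∀ l, w l ≠ 0)
    (hl : ∀ l, ∃ P, inc P l) : ∃ F : Aff k inc, F.Good := by
  classical
  obtain ⟨z, hz⟩ := exists_dot_ne v hv0
  let d : {q : Pt × Pt // q.1 ≠ q.2} → Fin 3 → k :=
    fun q => (z ⬝ᵥ v q.1.2) • v q.1.1 - (z ⬝ᵥ v q.1.1) • v q.1.2
  have hd : ∀ q, d q ≠ 0 := fun q h => hz _ (hv _ _ q.2 _ _ (sub_eq_zero.1 h))
  have hwz : ∀ l, w l ⨯₃ z ≠ 0 := by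
    intro l h
    obtain ⟨P, hP⟩ := hl l
    have h0 := (hinc P l).1 hP
    have h1 := congrFun h 0
    have h2 := congrFun h 1
    have h3 := congrFun h 2
    have h4 := hz P
    simp [cross_apply] at h1 h2 h3
    simp only [dotProduct, Fin.sum_univ_three] at h0 h4
    apply hw l
    ext i
    apply mul_right_cancel₀ h4
    fin_cases i
    · simp; left; apply mul_right_cancel₀ h4
      linear_combination z 0 * h0 + v P 1 * h3 - v P 2 * h2
    · simp; left; apply mul_right_cancel₀ h4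
      linear_combination z 1 * h0 - v P 0 * h3 + v P 2 * h1
    · simp; left; apply mul_right_cancel₀ h4
      linear_combination z 2 * h0 + v P 0 * h2 - v P 1 * h1
  obtain ⟨x, hx⟩ := exists_dot_ne (Sum.elim d (fun l => w l ⨯₃ z)) (by
    rintro (q | l)
    exacts [hd q, hwz l])
  have hB : ∀ l, w l ⬝ᵥ (z ⨯₃ x) ≠ 0 := by
    intro l
    have := hx (Sum.inr l)
    rwa [triple_product_permutation, triple_product_permutation]
  have hzx : z ⨯₃ x ≠ 0 := by
    intro h
    have := hB (Classical.arbitrary Ln)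
    simp [h] at this
  obtain ⟨y, hy⟩ := exists_dot_ne (Sum.elim d (Sum.elim (fun l => w l ⨯₃ z)
    (fun _ : Unit => z ⨯₃ x))) (by
    rintro (q | l | u)
    exacts [hd q, hwz l, hzx])
  have hA : ∀ l, w l ⬝ᵥ (z ⨯₃ y) ≠ 0 := by
    intro l
    have := hy (Sum.inr (Sum.inl l))
    rwa [triple_product_permutation, triple_product_permutation]
  have hΔ : y ⬝ᵥ (z ⨯₃ x) ≠ 0 := hy (Sum.inr (Sum.inr ()))
  have hinj : ∀ u : Fin 3 → k, (∀ q, u ⬝ᵥ d q ≠ 0) →
      Function.Injective (fun P => u ⬝ᵥ v P / z ⬝ᵥ v P) := by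
    intro u hu P Q h
    by_contra hne
    apply hu ⟨(P, Q), hne⟩
    simp only at h
    rw [div_eq_div_iff (hz P) (hz Q)] at h
    simp only [d, dotProduct_sub, dotProduct_smul, smul_eq_mul]
    linear_combination h
  let sp : (Ln → k) → {q : Ln × Ln // q.1 ≠ q.2} → Ln → k :=
    fun A q => Pi.single q.1.1 (A q.1.1) - Pi.single q.1.2 (A q.1.2)
  have hsp : ∀ A : Ln → k, (∀ l, A l ≠ 0) → ∀ q, sp A q ≠ 0 := by
    intro A hA q h
    have := congrFun h q.1.1
    simp [sp, Pi.single_eq_of_ne q.2] at this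
    exact hA _ this
  obtain ⟨t, ht⟩ := exists_dot_ne (Sum.elim (fun l : Ln => Pi.single l (1 : k))
    (Sum.elim (sp fun l => w l ⬝ᵥ (z ⨯₃ y)) (sp fun l => w l ⬝ᵥ (z ⨯₃ x)))) (by
    rintro (l | q | q)
    · simp
    · exact hsp _ hA q
    · exact hsp _ hB q)
  have ht0 : ∀ l, t l ≠ 0 := fun l => by simpa using ht (Sum.inl l)
  refine ⟨⟨fun P => x ⬝ᵥ v P / z ⬝ᵥ v P, fun P => y ⬝ᵥ v P / z ⬝ᵥ v P,
    fun l => t l * (w l ⬝ᵥ (z ⨯₃ y)), fun l => - (t l * (w l ⬝ᵥ (x ⨯₃ y))),
    fun l => t l * (w l ⬝ᵥ (z ⨯₃ x)), hinj x (fun q => hx (Sum.inl q)),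
    hinj y (fun q => hy (Sum.inl q)), fun l => mul_ne_zero (ht0 l) (hA l),
    fun l => mul_ne_zero (ht0 l) (hB l), fun P l => ?_⟩, ?_, ?_⟩
  · rw [hinc]
    have key : y ⬝ᵥ (z ⨯₃ x) * (w l ⬝ᵥ v P) = (w l ⬝ᵥ (z ⨯₃ x)) * (y ⬝ᵥ v P) -
        (w l ⬝ᵥ (z ⨯₃ y)) * (x ⬝ᵥ v P) + (w l ⬝ᵥ (x ⨯₃ y)) * (z ⬝ᵥ v P) := by
      simp [cross_apply, dotProduct, Fin.sum_univ_three]
      ring
    have h1 := hz P
    have h2 := ht0 l
    constructor
    · intro h
      rw [h, mul_zero] at key
      field_simp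
      linear_combination -key
    · intro h
      field_simp at h
      apply mul_left_cancel₀ hΔ
      linear_combination key + h
  · intro l m h
    by_contra hne
    apply ht (Sum.inr (Sum.inl ⟨(l, m), hne⟩))
    simpa [sp, sub_eq_zero] using h
  · intro l m h
    by_contra hne
    apply ht (Sum.inr (Sum.inr ⟨(l, m), hne⟩))
    simpa [sp, sub_eq_zero] using h

/-- index type of the points and of the lines -/
abbrev Ix (p : ℕ) : Type := Fin 3 ⊕ ZMod p ⊕ ZMod p

/-- the points -/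
def ptv (p : ℕ) : Ix p → Fin 3 → ZMod p
  | .inl i => ![![1, 0, 0], ![0, 1, 0], ![1, 1, 0]] i
  | .inr (.inl n) => ![n, 0, 1]
  | .inr (.inr n) => ![n, 1, 1]

/-- the lines -/
def lnv (p : ℕ) : Ix p → Fin 3 → ZMod p
  | .inl i => ![![0, 0, 1], ![0, 1, 0], ![0, 1, -1]] i
  | .inr (.inl n) => ![1, 0, -n]
  | .inr (.inr n) => ![1, -1, -n]

def incp (p : ℕ) (P l : Ix p) : Prop := lnv p l ⬝ᵥ ptv p P = 0

theorem exists_aff_char (p : ℕ) [Fact p.Prime] (k : Type) [Field k] [Infinite k] [CharP k p] :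
    ∃ F : Aff k (incp p), F.Good := by
  let φ : ZMod p →+* k := ZMod.castHom (dvd_refl p) k
  have hφ := φ.injective
  refine exists_aff (fun P => φ ∘ ptv p P) (fun l => φ ∘ lnv p l) _ (fun P l => ?_) ?_ ?_ ?_ ?_
  · rw [← RingHom.map_dotProduct, map_eq_zero_iff φ hφ, incp]
  · rintro (i | n | n) h
    · fin_cases i
      · simpa [ptv] using congrFun h 0
      · simpa [ptv] using congrFun h 1
      · simpa [ptv] using congrFun h 0
    · simpa [ptv] using congrFun h 2
    · simpa [ptv] using congrFun h 2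
  · intro P Q hPQ s t h
    have h0 := congrFun h 0
    have h1 := congrFun h 1
    have h2 := congrFun h 2
    clear h
    rcases P with i | n | n <;> rcases Q with j | m | m
    · fin_cases i <;> fin_cases j <;> simp [ptv] at h0 h1 h2 hPQ <;> grind
    · fin_cases i <;> simp [ptv] at h0 h1 h2 <;> grind
    · fin_cases i <;> simp [ptv] at h0 h1 h2 <;> grind
    · fin_cases j <;> simp [ptv] at h0 h1 h2 <;> grind
    · simp only [ptv, Pi.smul_apply, Function.comp_apply, smul_eq_mul] at h0 h2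
      simp at h0 h2
      subst h2
      by_contra hs
      exact hPQ (by rw [hφ (mul_left_cancel₀ hs h0)])
    · simp [ptv] at h0 h1 h2; grind
    · fin_cases j <;> simp [ptv] at h0 h1 h2 <;> grind
    · simp [ptv] at h0 h1 h2; grind
    · simp only [ptv, Pi.smul_apply, Function.comp_apply, smul_eq_mul] at h0 h2
      simp at h0 h2
      subst h2
      by_contra hs
      exact hPQ (by rw [hφ (mul_left_cancel₀ hs h0)])
  · rintro (i | n | n) h
    · fin_cases i
      · simpa [lnv] using congrFun h 2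
      · simpa [lnv] using congrFun h 1
      · simpa [lnv] using congrFun h 1
    · simpa [lnv] using congrFun h 0
    · simpa [lnv] using congrFun h 0
  · rintro (i | n | n)
    · refine ⟨.inl 0, ?_⟩
      fin_cases i <;> simp [incp, lnv, ptv]
    · exact ⟨.inl 1, by simp [incp, lnv, ptv]⟩
    · exact ⟨.inl 2, by simp [incp, lnv, ptv]⟩

theorem char_of_aff (p : ℕ) [Fact p.Prime] {K : Type} [Field K] (F : Aff K (incp p)) :
    (p : K) = 0 := by
  let f : Ix p → Ix p → K := fun l P => F.c l * F.Y P - F.a l * F.X P - F.b l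
  have hf : ∀ P l, incp p P l ↔ f l P = 0 := by
    intro P l
    rw [F.inc_iff]
    simp only [f]
    constructor <;> intro h <;> linear_combination h
  let x := f (.inr (.inl 0))
  let y := f (.inl 1)
  let z := f (.inl 0)
  have hdet : ∀ l P Q R, incp p P l → incp p Q l → incp p R l →
      x P * (y Q * z R - y R * z Q) - y P * (x Q * z R - x R * z Q) +
        z P * (x Q * y R - x R * y Q) = 0 := by
    intro l P Q R hP hQ hR
    rw [F.inc_iff] at hP hQ hR
    have h : (F.X Q - F.X P) * (F.Y R - F.Y P) - (F.X R - F.X P) * (F.Y Q - F.Y P) = 0 := by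
      apply mul_left_cancel₀ (F.hc l)
      linear_combination (F.X Q - F.X P) * hR - (F.X R - F.X P) * hQ + (F.X R - F.X Q) * hP
    simp only [x, y, z, f]
    linear_combination (-F.a (.inr (.inl 0)) * (F.c (.inl 1) * (-F.b (.inl 0)) -
        (-F.b (.inl 1)) * F.c (.inl 0)) -
      F.c (.inr (.inl 0)) * ((-F.a (.inl 1)) * (-F.b (.inl 0)) - (-F.b (.inl 1)) * (-F.a (.inl 0))) +
      (-F.b (.inr (.inl 0))) * ((-F.a (.inl 1)) * F.c (.inl 0) - F.c (.inl 1) * (-F.a (.inl 0)))) * h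
  have x1 : x (.inl 0) ≠ 0 := fun h => by simpa [incp, lnv, ptv] using (hf _ _).2 h
  have y1 : y (.inl 0) = 0 := (hf _ _).1 (by simp [incp, lnv, ptv])
  have z1 : z (.inl 0) = 0 := (hf _ _).1 (by simp [incp, lnv, ptv])
  have x2 : x (.inl 1) = 0 := (hf _ _).1 (by simp [incp, lnv, ptv])
  have y2 : y (.inl 1) ≠ 0 := fun h => by simpa [incp, lnv, ptv] using (hf _ _).2 h
  have z2 : z (.inl 1) = 0 := (hf _ _).1 (by simp [incp, lnv, ptv])
  have x3 : x (.inl 2) ≠ 0 := fun h => by simpa [incp, lnv, ptv] using (hf _ _).2 h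
  have y3 : y (.inl 2) ≠ 0 := fun h => by simpa [incp, lnv, ptv] using (hf _ _).2 h
  have z3 : z (.inl 2) = 0 := (hf _ _).1 (by simp [incp, lnv, ptv])
  have ya : ∀ n, y (.inr (.inl n)) = 0 := fun n => (hf _ _).1 (by simp [incp, lnv, ptv])
  have za : ∀ n, z (.inr (.inl n)) ≠ 0 := fun n h => by simpa [incp, lnv, ptv] using (hf _ _).2 h
  have yb : ∀ n, y (.inr (.inr n)) ≠ 0 := fun n h => by simpa [incp, lnv, ptv] using (hf _ _).2 h
  have zb : ∀ n, z (.inr (.inr n)) ≠ 0 := fun n h => by simpa [incp, lnv, ptv] using (hf _ _).2 h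
  let s : ZMod p → K := fun n => x (.inr (.inl n)) / z (.inr (.inl n))
  let δ : K := x (.inl 2) * y (.inr (.inr 0)) / (y (.inl 2) * z (.inr (.inr 0)))
  have hδ : δ ≠ 0 := div_ne_zero (mul_ne_zero x3 (yb 0)) (mul_ne_zero y3 (zb 0))
  have hstep : ∀ n, s (n + 1) = s n + δ := by
    intro n
    have h1 := hdet (.inl 2) (.inl 0) (.inr (.inr (n + 1))) (.inr (.inr 0))
      (by simp [incp, lnv, ptv]) (by simp [incp, lnv, ptv]) (by simp [incp, lnv, ptv])
    have h2 := hdet (.inr (.inl (n + 1))) (.inl 1) (.inr (.inl (n + 1))) (.inr (.inr (n + 1)))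
      (by simp [incp, lnv, ptv]) (by simp [incp, lnv, ptv]) (by simp [incp, lnv, ptv])
    have h3 := hdet (.inr (.inr n)) (.inl 2) (.inr (.inl n)) (.inr (.inr (n + 1)))
      (by simp [incp, lnv, ptv]) (by simp [incp, lnv, ptv]) (by simp [incp, lnv, ptv])
    rw [y1, z1] at h1
    rw [x2, z2] at h2
    rw [z3, ya] at h3
    have e1 : y (.inr (.inr (n + 1))) * z (.inr (.inr 0)) =
        y (.inr (.inr 0)) * z (.inr (.inr (n + 1))) := by
      apply mul_left_cancel₀ x1
      linear_combination h1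
    have e2 : x (.inr (.inl (n + 1))) * z (.inr (.inr (n + 1))) =
        x (.inr (.inr (n + 1))) * z (.inr (.inl (n + 1))) := by
      apply mul_left_cancel₀ y2
      linear_combination -h2
    have a1 := za n
    have a2 := za (n + 1)
    have a3 := zb 0
    have a4 := zb (n + 1)
    simp only [s, δ]
    field_simp
    apply mul_left_cancel₀ a4
    linear_combination (z (.inr (.inl n)) * y (.inl 2) * z (.inr (.inr 0))) * e2 +
      (z (.inr (.inl (n + 1))) * z (.inr (.inr 0))) * h3 +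
      (x (.inl 2) * z (.inr (.inl n)) * z (.inr (.inl (n + 1)))) * e1
  have hsum := Equiv.sum_comp (Equiv.addRight (1 : ZMod p)) s
  simp only [Equiv.coe_addRight, hstep, Finset.sum_add_distrib, Finset.sum_const,
    Finset.card_univ, ZMod.card, nsmul_eq_mul, add_eq_left] at hsum
  exact (mul_eq_zero.1 hsum).resolve_right hδ

end Pool.Agent.MP_eba2ed_ag
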