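import Pool.Agent.MP_eba2ed_ag.Config
import Pool.Agent.MP_eba2ed_ag.Plane

/-! A bipartite configuration of lines in space encoding a plane configuration. -/

namespace Pool.Agent.MP_eba2ed_ag

open MvPolynomial Module

variable {k : Type} [Field k] {Pt Ln : Type} {inc : Pt → Ln → Prop}

/-- index set of the lines in space -/
abbrev Jx (Pt Ln : Type) : Type := Option Pt ⊕ Bool ⊕ Ln

variable (inc) in
/-- The incidence pattern. -/
structure Pattern (U : Jx Pt Ln → Submodule k (A k)) : Prop where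
  bb : ∀ b b' : Option Pt, b ≠ b' → U (.inl b) ⊓ U (.inl b') = ⊥
  aa : ∀ a a' : Bool ⊕ Ln, a ≠ a' → U (.inr a) ⊓ U (.inr a') = ⊥
  b0 : ∀ b t, U (.inl b) ⊓ U (.inr (.inl t)) ≠ ⊥
  inf : ∀ l, U (.inl none) ⊓ U (.inr (.inr l)) ≠ ⊥
  pl : ∀ P l, inc P l ↔ U (.inl (some P)) ⊓ U (.inr (.inr l)) ≠ ⊥

lemma Pattern.transfer {K : Type} [Field K] {U : Jx Pt Ln → Submodule k (A k)}
    (h : Pattern inc U) {U' : Jx Pt Ln → Submodule K (A K)}
    (hU : ∀ i j, i ≠ j → (U' i ⊓ U' j = ⊥ ↔ U i ⊓ U j = ⊥)) : Pattern inc U' where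
  bb := fun b b' hb => (hU _ _ (by simpa using hb)).2 (h.bb b b' hb)
  aa := fun a a' ha => (hU _ _ (by simpa using ha)).2 (h.aa a a' ha)
  b0 := fun b t h' => h.b0 b t ((hU _ _ (by simp)).1 h')
  inf := fun l h' => h.inf l ((hU _ _ (by simp)).1 h')
  pl := fun P l => (h.pl P l).trans (not_congr (hU _ _ (by simp))).symm

lemma exists_coeffs {E : Type*} [AddCommGroup E] [Module k E] {U : Submodule k E}
    [Module.Finite k U] (h2 : finrank k U = 2) {a b : E} (ha : a ∈ U) (hb : b ∈ U)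
    (hab : ∀ s t : k, s • a + t • b = 0 → s = 0 ∧ t = 0) {x : E} (hx : x ∈ U) :
    ∃ s t : k, s • a + t • b = x := by
  have hli : LinearIndependent k ![a, b] := LinearIndependent.pair_iff.2 hab
  have h1 : Submodule.span k (Set.range ![a, b]) = U := by
    apply Submodule.eq_of_le_of_finrank_eq
    · rw [Submodule.span_le]
      rintro _ ⟨i, rfl⟩
      fin_cases i
      exacts [ha, hb]
    · rw [finrank_span_eq_card hli, h2]; simp
  rw [← h1] at hx
  rw [Submodule.mem_span_range_iff_exists_fun] at hx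
  obtain ⟨c, hc⟩ := hx
  exact ⟨c 0, c 1, by simpa [Fin.sum_univ_two] using hc⟩

theorem Pattern.aff [Nonempty Pt] {U : Jx Pt Ln → Submodule k (A k)} (h : Pattern inc U)
    (hU : ∀ i, U i ≤ Hn k 1) (h2 : ∀ i, finrank k (U i) = 2) : Nonempty (Aff k inc) := by
  have hfin : ∀ i, Module.Finite k (U i) := fun i => Submodule.finiteDimensional_of_le (hU i)
  have hbot : ∀ {i j : Jx Pt Ln}, U i ⊓ U j = ⊥ → ∀ x, x ∈ U i → x ∈ U j → x = 0 := by
    intro i j hij x hi hj
    rw [← Submodule.mem_bot k, ← hij]; exact ⟨hi, hj⟩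
  have hex : ∀ b t, ∃ x ∈ U (.inl b) ⊓ U (.inr (.inl t)), x ≠ 0 :=
    fun b t => Submodule.exists_mem_ne_zero_of_ne_bot (h.b0 b t)
  choose α hα hα0 using hex
  obtain ⟨P0⟩ := ‹Nonempty Pt›
  have hind : ∀ t (b b' : Option Pt), b ≠ b' → ∀ s u : k, s • α b t + u • α b' t = 0 →
      s = 0 ∧ u = 0 := by
    intro t b b' hb s u hsu
    have h1 : s • α b t = 0 := by
      refine hbot (h.bb b b' hb) _ (Submodule.smul_mem _ _ (hα b t).1) ?_
      rw [eq_neg_of_add_eq_zero_left hsu]
      exact neg_mem (Submodule.smul_mem _ _ (hα b' t).1)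
    rw [h1, zero_add] at hsu
    exact ⟨(smul_eq_zero.1 h1).resolve_right (hα0 b t),
      (smul_eq_zero.1 hsu).resolve_right (hα0 b' t)⟩
  have hnorm : ∀ t (P : Pt), ∃ x : k, x • α none t + α (some P0) t ∈ U (.inl (some P)) := by
    intro t P
    obtain ⟨s, u, hsu⟩ := exists_coeffs (h2 _) (hα none t).2 (hα (some P0) t).2
      (hind t _ _ (by simp)) (hα (some P) t).2
    have hu : u ≠ 0 := by
      rintro rfl
      have := (hind t none (some P) (by simp) s (-1) (by rw [← hsu]; simp)).2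
      simp at this
    refine ⟨s / u, ?_⟩
    have : (s / u) • α none t + α (some P0) t = u⁻¹ • α (some P) t := by
      rw [← hsu, smul_add, smul_smul, smul_smul, inv_mul_cancel₀ hu, one_smul, div_eq_inv_mul]
    rw [this]
    exact Submodule.smul_mem _ _ (hα _ t).1
  choose Z hZ using hnorm
  have hZinj : ∀ t, Function.Injective (Z t) := by
    intro t P Q hPQ
    by_contra hne
    have h1 := hbot (h.bb (some P) (some Q) (by simpa using hne)) _ (hZ t P) (hPQ ▸ hZ t Q)
    have := (hind t none (some P0) (by simp) (Z t P) 1 (by simpa using h1)).2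
    simp at this
  set e1 := α none false
  set e2 := α (some P0) false
  set e3 := α none true
  set e4 := α (some P0) true
  have hE : U (.inr (.inl false)) ⊓ U (.inr (.inl true)) = ⊥ := h.aa _ _ (by simp)
  have m1 : e1 ∈ U (.inr (.inl false)) := (hα _ _).2
  have m2 : e2 ∈ U (.inr (.inl false)) := (hα _ _).2
  have m3 : e3 ∈ U (.inr (.inl true)) := (hα _ _).2
  have m4 : e4 ∈ U (.inr (.inl true)) := (hα _ _).2
  have hsplit : ∀ x y : A k, x ∈ U (.inr (.inl false)) → y ∈ U (.inr (.inl true)) → x + y = 0 →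
      x = 0 ∧ y = 0 := by
    intro x y hx hy hxy
    have : x = 0 := hbot hE x hx (by rw [eq_neg_of_add_eq_zero_left hxy]; exact neg_mem hy)
    exact ⟨this, by simpa [this] using hxy⟩
  have hind4 : ∀ c1 c2 c3 c4 : k, c1 • e1 + c2 • e2 + (c3 • e3 + c4 • e4) = 0 →
      c1 = 0 ∧ c2 = 0 ∧ c3 = 0 ∧ c4 = 0 := by
    intro c1 c2 c3 c4 hc
    obtain ⟨h1, h3⟩ := hsplit _ _ (add_mem (Submodule.smul_mem _ _ m1) (Submodule.smul_mem _ _ m2))
      (add_mem (Submodule.smul_mem _ _ m3) (Submodule.smul_mem _ _ m4)) hc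
    obtain ⟨a1, a2⟩ := hind false _ _ (by simp) _ _ h1
    obtain ⟨a3, a4⟩ := hind true _ _ (by simp) _ _ h3
    exact ⟨a1, a2, a3, a4⟩
  have hspan : ∀ r ∈ Hn k 1, ∃ c1 c2 c3 c4 : k, c1 • e1 + c2 • e2 + (c3 • e3 + c4 • e4) = r := by
    intro r hr
    rw [← sup_eq_of_skew (hU _) (hU _) (h2 _) (h2 _) hE] at hr
    obtain ⟨x, hx, y, hy, rfl⟩ := Submodule.mem_sup.1 hr
    obtain ⟨c1, c2, rfl⟩ := exists_coeffs (h2 _) m1 m2 (hind false _ _ (by simp)) hx
    obtain ⟨c3, c4, rfl⟩ := exists_coeffs (h2 _) m3 m4 (hind true _ _ (by simp)) hy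
    exact ⟨c1, c2, c3, c4, rfl⟩
  have hline : ∀ l : Ln, ∃ a b c : k, a ≠ 0 ∧ c ≠ 0 ∧
      ∀ P, inc P l ↔ c * Z true P = a * Z false P + b := by
    intro l
    have n0 : ∀ x, x ∈ U (.inr (.inr l)) → x ∈ U (.inr (.inl false)) → x = 0 :=
      hbot (h.aa _ _ (by simp))
    have n1 : ∀ x, x ∈ U (.inr (.inr l)) → x ∈ U (.inr (.inl true)) → x = 0 :=
      hbot (h.aa _ _ (by simp))
    obtain ⟨q, hq, hq0⟩ := Submodule.exists_mem_ne_zero_of_ne_bot (h.inf l)
    obtain ⟨σ, τ, rfl⟩ := exists_coeffs (h2 _) (hα none false).1 (hα none true).1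
      (fun s t hst => by
        have := hind4 s 0 t 0 (by simpa using hst)
        exact ⟨this.1, this.2.2.1⟩) hq.1
    have hσ : σ ≠ 0 := by
      rintro rfl
      exact hq0 (n1 _ hq.2 (by simpa using Submodule.smul_mem _ _ m3))
    have hτ : τ ≠ 0 := by
      rintro rfl
      exact hq0 (n0 _ hq.2 (by simpa using Submodule.smul_mem _ _ m1))
    obtain ⟨r, hr, hrq⟩ : ∃ r ∈ U (.inr (.inr l)), r ∉ Submodule.span k {σ • e1 + τ • e3} := by
      by_contra hall
      push Not at hall
      have h3 := Submodule.finrank_mono (show U (.inr (.inr l)) ≤ _ from hall)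
      rw [h2, finrank_span_singleton hq0] at h3
      omega
    obtain ⟨r1, r2, r3, r4, rfl⟩ := hspan r (hU _ hr)
    have hr2 : r2 ≠ 0 := by
      rintro rfl
      apply hrq
      rw [Submodule.mem_span_singleton]
      refine ⟨r1 / σ, ?_⟩
      have := n1 _ (sub_mem hr (Submodule.smul_mem _ (r1 / σ) hq.2)) (by
        have : r1 • e1 + (0 : k) • e2 + (r3 • e3 + r4 • e4) - (r1 / σ) • (σ • e1 + τ • e3) =
            (r3 - r1 / σ * τ) • e3 + r4 • e4 := by
          match_scalars <;> field_simp <;> ring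
        rw [this]
        exact add_mem (Submodule.smul_mem _ _ m3) (Submodule.smul_mem _ _ m4))
      exact (sub_eq_zero.1 this).symm
    have hr4 : r4 ≠ 0 := by
      rintro rfl
      apply hrq
      rw [Submodule.mem_span_singleton]
      refine ⟨r3 / τ, ?_⟩
      have := n0 _ (sub_mem hr (Submodule.smul_mem _ (r3 / τ) hq.2)) (by
        have : r1 • e1 + r2 • e2 + (r3 • e3 + (0 : k) • e4) - (r3 / τ) • (σ • e1 + τ • e3) =
            (r1 - r3 / τ * σ) • e1 + r2 • e2 := by
          match_scalars <;> field_simp <;> ring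
        rw [this]
        exact add_mem (Submodule.smul_mem _ _ m1) (Submodule.smul_mem _ _ m2))
      exact (sub_eq_zero.1 this).symm
    refine ⟨τ * r2, σ * r3 - τ * r1, σ * r4, mul_ne_zero hτ hr2, mul_ne_zero hσ hr4, fun P => ?_⟩
    rw [h.pl]
    constructor
    · intro hne
      obtain ⟨w, hw, hw0⟩ := Submodule.exists_mem_ne_zero_of_ne_bot hne
      obtain ⟨s, t, hst⟩ := exists_coeffs (h2 _) (hZ false P) (hZ true P) (fun s t hst => by
        have := hind4 (s * Z false P) s (t * Z true P) t (by rw [← hst]; module)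
        exact ⟨this.2.1, this.2.2.2⟩) hw.1
      obtain ⟨u, v, huv⟩ := exists_coeffs (h2 _) hq.2 hr (fun u v huv => by
        have := hind4 (u * σ + v * r1) (v * r2) (u * τ + v * r3) (v * r4) (by rw [← huv]; module)
        have hv : v = 0 := (mul_eq_zero.1 this.2.1).resolve_right hr2
        have hu := this.1
        rw [hv, zero_mul, add_zero] at hu
        exact ⟨(mul_eq_zero.1 hu).resolve_right hσ, hv⟩) hw.2
      obtain ⟨a1, a2, a3, a4⟩ := hind4 (u * σ + v * r1 - s * Z false P) (v * r2 - s)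
        (u * τ + v * r3 - t * Z true P) (v * r4 - t) (by
          rw [← sub_self w]
          nth_rewrite 1 [← huv]
          rw [← hst]
          module)
      have hv : v ≠ 0 := by
        rintro rfl
        have hs : s = 0 := by linear_combination -a2
        have ht : t = 0 := by linear_combination -a4
        exact hw0 (by rw [← hst, hs, ht]; simp)
      apply mul_left_cancel₀ hv
      linear_combination τ * a1 - σ * a3 - τ * Z false P * a2 + σ * Z true P * a4
    · intro heq hb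
      have hw : r2 • (Z false P • e1 + e2) + r4 • (Z true P • e3 + e4) =
          ((r2 * Z false P - r1) / σ) • (σ • e1 + τ • e3) +
            (r1 • e1 + r2 • e2 + (r3 • e3 + r4 • e4)) := by
        match_scalars
        · field_simp; ring
        · ring
        · field_simp; linear_combination heq
        · ring
      have h0 := hbot hb _ (add_mem (Submodule.smul_mem _ r2 (hZ false P))
        (Submodule.smul_mem _ r4 (hZ true P)))
        (by rw [hw]; exact add_mem (Submodule.smul_mem _ _ hq.2) hr)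
      exact hr2 (hind4 (r2 * Z false P) r2 (r4 * Z true P) r4 (by rw [← h0]; module)).2.1
  choose a b c ha hc hinc using hline
  exact ⟨⟨Z false, Z true, a, b, c, hZinj false, hZinj true, ha, hc, fun P l => hinc l P⟩⟩

/-- the linear form with given coefficients -/
noncomputable def lin (w : Fin 4 → k) : A k := ∑ i, C (w i) * X i

lemma lin_homog (w : Fin 4 → k) : (lin w).IsHomogeneous 1 := yy_homog (fun _ => w) 0

lemma lin_eq_zero {w : Fin 4 → k} (h : lin w = 0) : w = 0 := by
  have := Fintype.linearIndependent_iff.1 (linearIndependent_X (Fin 4) k) w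
    (by simpa [lin, smul_eq_C_mul] using h)
  exact funext this

lemma exists_lin {f : A k} (hf : f.IsHomogeneous 1) : ∃ w, lin w = f := by
  have : f ∈ Hn k 1 := hf
  rw [Hn, homogeneousSubmodule_one_eq_span_X, Submodule.mem_span_range_iff_exists_fun] at this
  obtain ⟨w, hw⟩ := this
  exact ⟨w, by simpa [lin, smul_eq_C_mul] using hw⟩

lemma psi_lin_eq_zero (M : Matrix (Fin 4) (Fin 4) k) (w : Fin 4 → k) :
    psi M (lin w) = 0 ↔ ∑ i, w i * M i 0 = 0 ∧ ∑ i, w i * M i 1 = 0 := by
  have := psi_yy M (Matrix.of fun _ => w) 0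
  change psi M (lin w) = _ at this
  rw [this]
  simp only [Matrix.mul_apply, Matrix.of_apply]
  constructor
  · intro h
    have h' := LinearIndependent.pair_iff.1
      (show LinearIndependent k ![(X 0 : B k), X 1] by
        have e : ![(X 0 : B k), X 1] = X := by
          ext1 i
          fin_cases i <;> rfl
        rw [e]
        exact linearIndependent_X (Fin 2) k) _ _ (by simpa only [smul_eq_C_mul] using h)
    exact h'
  · rintro ⟨h1, h2⟩
    simp [h1, h2]

lemma skew_iff (M M' : Matrix (Fin 4) (Fin 4) k) :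
    pc (RingHom.ker (psi M)) 1 ⊓ pc (RingHom.ker (psi M')) 1 = ⊥ ↔
      ∀ w : Fin 4 → k, ∑ i, w i * M i 0 = 0 → ∑ i, w i * M i 1 = 0 →
        ∑ i, w i * M' i 0 = 0 → ∑ i, w i * M' i 1 = 0 → w = 0 := by
  constructor
  · intro h w h1 h2 h3 h4
    apply lin_eq_zero
    rw [← Submodule.mem_bot k, ← h]
    exact ⟨⟨(psi_lin_eq_zero M w).2 ⟨h1, h2⟩, lin_homog w⟩,
      ⟨(psi_lin_eq_zero M' w).2 ⟨h3, h4⟩, lin_homog w⟩⟩
  · intro h
    rw [eq_bot_iff]
    rintro f ⟨hf, hf'⟩
    obtain ⟨w, rfl⟩ := exists_lin hf.2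
    obtain ⟨h1, h2⟩ := (psi_lin_eq_zero M w).1 hf.1
    obtain ⟨h3, h4⟩ := (psi_lin_eq_zero M' w).1 hf'.1
    simp [h w h1 h2 h3 h4, lin]

/-- the matrices of the lines -/
def Mx (F : Aff k inc) : Jx Pt Ln → Matrix (Fin 4) (Fin 4) k
  | .inl none => !![1, 0, 0, 0; 0, 0, 1, 0; 0, 1, 0, 0; 0, 0, 0, 1]
  | .inl (some P) => !![F.X P, 0, 1, 0; 1, 0, 0, 0; 0, F.Y P, 0, 1; 0, 1, 0, 0]
  | .inr (.inl false) => !![1, 0, 0, 0; 0, 1, 0, 0; 0, 0, 1, 0; 0, 0, 0, 1]
  | .inr (.inl true) => !![0, 0, 1, 0; 0, 0, 0, 1; 1, 0, 0, 0; 0, 1, 0, 0]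
  | .inr (.inr l) => !![1, 0, 0, 0; 0, 1, 0, 0; F.a l, F.b l, 1, 0; 0, F.c l, 0, 1]

/-- their inverses -/
def Nx (F : Aff k inc) : Jx Pt Ln → Matrix (Fin 4) (Fin 4) k
  | .inl none => !![1, 0, 0, 0; 0, 0, 1, 0; 0, 1, 0, 0; 0, 0, 0, 1]
  | .inl (some P) => !![0, 1, 0, 0; 0, 0, 0, 1; 1, -F.X P, 0, 0; 0, 0, 1, -F.Y P]
  | .inr (.inl false) => !![1, 0, 0, 0; 0, 1, 0, 0; 0, 0, 1, 0; 0, 0, 0, 1]
  | .inr (.inl true) => !![0, 0, 1, 0; 0, 0, 0, 1; 1, 0, 0, 0; 0, 1, 0, 0]
  | .inr (.inr l) => !![1, 0, 0, 0; 0, 1, 0, 0; -F.a l, -F.b l, 1, 0; 0, -F.c l, 0, 1]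

lemma Mx_mul_Nx (F : Aff k inc) (i : Jx Pt Ln) : Mx F i * Nx F i = 1 := by
  rcases i with (_ | P) | (_ | _) | l <;>
  · ext a b
    fin_cases a <;> fin_cases b <;> simp [Mx, Nx, Matrix.mul_apply, Fin.sum_univ_four]

lemma Mx_map {k' : Type} [Field k'] (F : Aff k inc) (φ : k →+* k') (i : Jx Pt Ln) :
    Mx (F.map φ) i = (Mx F i).map φ := by
  rcases i with (_ | P) | (_ | _) | l <;>
  · ext a b
    fin_cases a <;> fin_cases b <;> simp [Mx, Aff.map]

/-- The configuration of multiple lines. -/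
noncomputable def cfg (F : Aff k inc) (e : ℕ) (i : Jx Pt Ln) : MLine k e :=
  mkLine (Mx F i) (Nx F i) (Mx_mul_Nx F i) e i.isRight

lemma cfg_P (F : Aff k inc) (e : ℕ) (i : Jx Pt Ln) :
    (cfg F e i).P = RingHom.ker (psi (Mx F i)) := rfl

lemma cfg_Q (F : Aff k inc) (e : ℕ) (i : Jx Pt Ln) :
    (cfg F e i).Q = mult (Mx F i) e i.isRight := rfl

lemma cfg_dbl (F : Aff k inc) (e : ℕ) (i : Jx Pt Ln) :
    (cfg F e i).dbl ↔ i.isRight = true := Iff.rfl

theorem cfg_pattern {F : Aff k inc} (hF : F.Good) (e : ℕ) :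
    Pattern inc (fun i => pc (cfg F e i).P 1) where
  bb := by
    intro b b' hb
    simp only [cfg_P, skew_iff]
    intro w h1 h2 h3 h4
    rcases b with _ | P <;> rcases b' with _ | Q
    · exact absurd rfl hb
    · simp [Mx, Fin.sum_univ_four] at h1 h2 h3 h4
      ext i; fin_cases i <;> simp <;> grind
    · simp [Mx, Fin.sum_univ_four] at h1 h2 h3 h4
      ext i; fin_cases i <;> simp <;> grind
    · have hX : F.X P - F.X Q ≠ 0 := sub_ne_zero.2 fun h => hb (by rw [F.hX h])
      have hY : F.Y P - F.Y Q ≠ 0 := sub_ne_zero.2 fun h => hb (by rw [F.hY h])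
      simp [Mx, Fin.sum_univ_four] at h1 h2 h3 h4
      have a0 : w 0 = 0 := mul_right_cancel₀ hX (by linear_combination h1 - h3)
      have a2 : w 2 = 0 := mul_right_cancel₀ hY (by linear_combination h2 - h4)
      ext i; fin_cases i <;> simp <;> grind
  aa := by
    intro a a' ha
    simp only [cfg_P, skew_iff]
    intro w h1 h2 h3 h4
    have key : ∀ l, w 0 = 0 → w 1 = 0 → w 0 + w 2 * F.a l = 0 →
        w 1 + w 2 * F.b l + w 3 * F.c l = 0 → w = 0 := by
      intro l h1 h2 h3 h4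
      have a2 : w 2 = 0 := mul_right_cancel₀ (F.ha l) (by linear_combination h3 - h1)
      have a3 : w 3 = 0 := mul_right_cancel₀ (F.hc l)
        (by linear_combination h4 - h2 - F.b l * a2)
      ext i; fin_cases i <;> simp <;> grind
    rcases a with (_ | _) | l <;> rcases a' with (_ | _) | l'
    · exact absurd rfl ha
    · simp [Mx, Fin.sum_univ_four] at h1 h2 h3 h4
      ext i; fin_cases i <;> simp <;> grind
    · simp [Mx, Fin.sum_univ_four] at h1 h2 h3 h4
      exact key l' h1 h2 (by linear_combination h3) (by linear_combination h4)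
    · simp [Mx, Fin.sum_univ_four] at h1 h2 h3 h4
      ext i; fin_cases i <;> simp <;> grind
    · exact absurd rfl ha
    · simp [Mx, Fin.sum_univ_four] at h1 h2 h3 h4
      ext i; fin_cases i <;> simp <;> grind
    · simp [Mx, Fin.sum_univ_four] at h1 h2 h3 h4
      exact key l h3 h4 (by linear_combination h1) (by linear_combination h2)
    · simp [Mx, Fin.sum_univ_four] at h1 h2 h3 h4
      ext i; fin_cases i <;> simp <;> grind
    · have hA : F.a l - F.a l' ≠ 0 := sub_ne_zero.2 fun h => ha (by rw [hF.1 h])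
      have hC : F.c l - F.c l' ≠ 0 := sub_ne_zero.2 fun h => ha (by rw [hF.2 h])
      simp [Mx, Fin.sum_univ_four] at h1 h2 h3 h4
      have a2 : w 2 = 0 := mul_right_cancel₀ hA (by linear_combination h1 - h3)
      have a3 : w 3 = 0 := mul_right_cancel₀ hC
        (by linear_combination h2 - h4 - (F.b l - F.b l') * a2)
      ext i; fin_cases i <;> simp <;> grind
  b0 := by
    intro b t
    simp only [cfg_P, ne_eq, skew_iff]
    intro h
    rcases b with _ | P <;> rcases t with _ | _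
    · simpa using congrFun (h ![0, 0, 0, 1] (by simp [Mx, Fin.sum_univ_four])
        (by simp [Mx, Fin.sum_univ_four]) (by simp [Mx, Fin.sum_univ_four])
        (by simp [Mx, Fin.sum_univ_four])) 3
    · simpa using congrFun (h ![0, 1, 0, 0] (by simp [Mx, Fin.sum_univ_four])
        (by simp [Mx, Fin.sum_univ_four]) (by simp [Mx, Fin.sum_univ_four])
        (by simp [Mx, Fin.sum_univ_four])) 1
    · simpa using congrFun (h ![0, 0, 1, -F.Y P] (by simp [Mx, Fin.sum_univ_four])
        (by simp [Mx, Fin.sum_univ_four]) (by simp [Mx, Fin.sum_univ_four])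
        (by simp [Mx, Fin.sum_univ_four])) 2
    · simpa using congrFun (h ![1, -F.X P, 0, 0] (by simp [Mx, Fin.sum_univ_four])
        (by simp [Mx, Fin.sum_univ_four]) (by simp [Mx, Fin.sum_univ_four])
        (by simp [Mx, Fin.sum_univ_four])) 0
  inf := by
    intro l
    simp only [cfg_P, ne_eq, skew_iff]
    intro h
    simpa using congrFun (h ![0, -F.c l, 0, 1] (by simp [Mx, Fin.sum_univ_four])
        (by simp [Mx, Fin.sum_univ_four]) (by simp [Mx, Fin.sum_univ_four])
        (by simp [Mx, Fin.sum_univ_four])) 3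
  pl := by
    intro P l
    simp only [cfg_P, ne_eq, skew_iff]
    rw [F.inc_iff]
    constructor
    · intro heq h
      have := congrFun (h ![-F.a l * F.c l, F.a l * F.c l * F.X P, F.c l, -F.c l * F.Y P]
        (by simp [Mx, Fin.sum_univ_four])
        (by simp [Mx, Fin.sum_univ_four]) (by simp [Mx, Fin.sum_univ_four]; ring)
        (by simp [Mx, Fin.sum_univ_four]; linear_combination - F.c l * heq)) 2
      exact F.hc l (by simpa using this)
    · intro h
      by_contra hne
      apply h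
      intro w h1 h2 h3 h4
      simp [Mx, Fin.sum_univ_four] at h1 h2 h3 h4
      have a2 : w 2 = 0 := mul_right_cancel₀ (sub_ne_zero.2 hne)
        (by linear_combination F.c l * h2 - h4 + h1 - F.X P * h3)
      ext i; fin_cases i <;> simp <;> grind

lemma cfg_skew {F : Aff k inc} (hF : F.Good) (e : ℕ) (i j : Jx Pt Ln) (hij : i ≠ j)
    (h : (cfg F e i).dbl ↔ (cfg F e j).dbl) : pc (cfg F e i).P 1 ⊓ pc (cfg F e j).P 1 = ⊥ := by
  rcases i with b | a <;> rcases j with b' | a'
  · exact (cfg_pattern hF e).bb b b' (by simpa using hij)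
  · simp [cfg_dbl] at h
  · simp [cfg_dbl] at h
  · exact (cfg_pattern hF e).aa a a' (by simpa using hij)

lemma cfg_distinct {F : Aff k inc} (hF : F.Good) (e : ℕ) : Distinct (cfg F e) := by
  intro i j hij
  by_contra hall
  push Not at hall
  have h1 : pc (cfg F e j).P 1 = pc (cfg F e i).P 1 := by
    have h0 : pc (cfg F e j).P 1 ≤ pc (cfg F e i).P 1 := fun w hw => ⟨hall w hw, hw.2⟩
    apply Submodule.eq_of_le_of_finrank_eq h0
    rw [MLine.finrank_one, MLine.finrank_one]
  have h2 : ∀ b a, pc (cfg F e (.inl b)).P 1 ≠ pc (cfg F e (.inr a)).P 1 := by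
    intro b a h
    obtain ⟨t, ht⟩ : ∃ t : Bool, a ≠ .inl t := by
      by_cases h : a = .inl false
      · exact ⟨true, by simp [h]⟩
      · exact ⟨false, h⟩
    have := (cfg_pattern hF e).b0 b t
    simp only [h] at this
    exact this ((cfg_pattern hF e).aa a (.inl t) ht)
  by_cases hc : (cfg F e i).dbl ↔ (cfg F e j).dbl
  · have h3 := cfg_skew hF e i j hij hc
    rw [h1, inf_idem] at h3
    have h4 := (cfg F e i).finrank_one
    rw [h3] at h4
    simp at h4
  · rcases i with b | a <;> rcases j with b' | a'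
    · simp [cfg_dbl] at hc
    · exact h2 _ _ h1.symm
    · exact h2 _ _ h1
    · simp [cfg_dbl] at hc

end Pool.Agent.MP_eba2ed_ag
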